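import Pool.Agent.LibSX77.BDefs
import Pool.Agent.LibCW77.D4

/-!
[SY77 B1] The automorphisms `al`, `be` of the curve `fam α` act on the classes of cycles. Model: `exists_th` in
`LibCW77/OA2.lean` (with the lemmas of `LibCW77/OA1.lean`: `th_on`, `th_map`, `th_sp`; `exists_hom`, `desc` of `D3.lean`).
`vg 3 = al ∘ be`, so it suffices to do `al` and `be`. `vg_on`: `∏ (1/x - a_i) = - x⁻³ ∏ (x - a_i)` because
`{1 / a_i} = {a_i}`, `∏ a_i = 1`; `b = - a`.
-/

open scoped Classical
open Polynomial

namespace Pool.Agent.LibSX77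

open Pool.Agent.LibBH2
open Pool.Agent.LibCHd (VR RF Red FunF)
open Pool.Agent.LibCW77

variable {k : Type} [Field k]

/-! ### the two operations on the projective line -/

/-- `y ↦ - y` -/
private def B1_ng {M : Type} [Field M] (y : Option M) : Option M := y.map fun v => -v

private theorem B1_oi_some {M : Type} [Field M] {y : M} (h : y ≠ 0) : oi 1 (some y) = some (1 / y) := if_neg h

private theorem B1_oi_zero {M : Type} [Field M] : oi (1 : M) (some 0) = none := if_pos rfl

private theorem B1_oi_oi {M : Type} [Field M] (y : Option M) : oi 1 (oi 1 y) = y := by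
  rcases y with _ | y
  · exact B1_oi_zero
  · by_cases h : y = 0
    · rw [h, B1_oi_zero]
      rfl
    · rw [B1_oi_some h, B1_oi_some (one_div_ne_zero h), one_div_one_div]

private theorem B1_ng_ng {M : Type} [Field M] (y : Option M) : B1_ng (B1_ng y) = y := by
  rcases y with _ | y
  · rfl
  · change some (- -y) = some y
    rw [neg_neg]

private theorem B1_oi_map {M M' : Type} [Field M] [Field M'] (σ : M →+* M') (y : Option M) :
    (oi 1 y).map σ = oi 1 (y.map σ) := by
  rcases y with _ | y
  · change some (σ 0) = some 0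
    rw [map_zero]
  · by_cases hy : y = 0
    · subst hy
      have e2 : oi (1 : M') ((some (0 : M)).map σ) = none := if_pos (map_zero σ)
      rw [B1_oi_zero, e2]
      rfl
    · have hy' : σ y ≠ 0 := (map_ne_zero σ).2 hy
      have e2 : oi (1 : M') ((some y).map σ) = some (1 / σ y) := if_neg hy'
      rw [B1_oi_some hy, e2]
      change some (σ (1 / y)) = _
      rw [map_div₀, map_one]

private theorem B1_ng_map {M M' : Type} [Field M] [Field M'] (σ : M →+* M') (y : Option M) :
    (B1_ng y).map σ = B1_ng (y.map σ) := by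
  rcases y with _ | y
  · rfl
  · change some (σ (-y)) = some (-σ y)
    rw [map_neg]

private theorem B1_oi_mem {M : Type} [Field M] [Algebra k M] (F : IntermediateField k M) {y : Option M}
    (h : y.getD 0 ∈ F) : (oi 1 y).getD 0 ∈ F := by
  rcases y with _ | y
  · exact zero_mem F
  · by_cases hy : y = 0
    · rw [hy, B1_oi_zero]
      exact zero_mem F
    · rw [B1_oi_some hy]
      change 1 / y ∈ F
      rw [one_div]
      exact inv_mem h

private theorem B1_ng_mem {M : Type} [Field M] [Algebra k M] (F : IntermediateField k M) {y : Option M}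
    (h : y.getD 0 ∈ F) : (B1_ng y).getD 0 ∈ F := by
  rcases y with _ | y
  · exact zero_mem F
  · exact neg_mem h

private theorem B1_oi_sp {K : Type} [Field K] [Algebra k K] (w : Place k K) {Y : Option K} {Q : Option (RF w)}
    (h : SpO w Y Q) : SpO w (oi 1 Y) (oi 1 Q) := by
  rcases Y with _ | y
  · have h2 : Q = none := h
    rw [h2]
    exact Pool.Agent.LibCHd.red_zero w
  · rcases Q with _ | y0
    · have h2 : w.ord y < 0 := h
      have hy : y ≠ 0 := by
        rintro rfl
        rw [w.ord_zero] at h2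
        exact lt_irrefl _ h2
      rw [B1_oi_some hy]
      change Red w (1 / y) 0
      rw [Pool.Agent.LibCHd.red_zero_iff]
      right
      rw [one_div, w.ord_inv]
      omega
    · have h2 : Red w y y0 := h
      by_cases hy : y = 0
      · subst hy
        have h3 : y0 = 0 := h2.unique (Pool.Agent.LibCHd.red_zero w)
        rw [h3, B1_oi_zero, B1_oi_zero]
        rfl
      · rw [B1_oi_some hy]
        by_cases hy0 : y0 = 0
        · rw [hy0, B1_oi_zero]
          rw [hy0, Pool.Agent.LibCHd.red_zero_iff] at h2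
          rcases h2 with h2 | h2
          · exact absurd h2 hy
          · change w.ord (1 / y) < 0
            rw [one_div, w.ord_inv]
            omega
        · rw [B1_oi_some hy0]
          exact (Pool.Agent.LibCHd.red_one w).div h2 hy0

private theorem B1_ng_sp {K : Type} [Field K] [Algebra k K] (w : Place k K) {Y : Option K} {Q : Option (RF w)}
    (h : SpO w Y Q) : SpO w (B1_ng Y) (B1_ng Q) := by
  rcases Y with _ | y
  · have h2 : Q = none := h
    rw [h2]
    rfl
  · rcases Q with _ | y0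
    · have h2 : w.ord y < 0 := h
      change w.ord (-y) < 0
      rw [w.ord_neg]
      exact h2
    · have h2 : Red w y y0 := h
      exact h2.neg

/-! ### the points of the curve -/

private theorem B1_alpha {α : k} (hc : (fam α).Good) : α ≠ 0 := by
  intro h0
  have h1 : Sum.elim (fam α).a (fam α).b (Sum.inl 1) = Sum.elim (fam α).a (fam α).b (Sum.inr 1) := by
    simp [Pool.Agent.LibCW77.fam, Pool.Agent.LibCW77.symD, h0]
  exact absurd (hc.inj h1) (by simp)

private theorem B1_ab {α : k} {M : Type} [Field M] [Algebra k M] :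
    (((fam α).over M).a 0 = 1 ∧ ((fam α).over M).a 1 = algebraMap k M α ∧
      ((fam α).over M).a 2 = (algebraMap k M α)⁻¹) ∧
    (((fam α).over M).b 0 = -1 ∧ ((fam α).over M).b 1 = -algebraMap k M α ∧
      ((fam α).over M).b 2 = -(algebraMap k M α)⁻¹) := by
  refine ⟨⟨?_, ?_, ?_⟩, ⟨?_, ?_, ?_⟩⟩
  · exact map_one (algebraMap k M)
  · rfl
  · exact map_inv₀ (algebraMap k M) α
  · change algebraMap k M (-1) = -1
    rw [map_neg, map_one]
  · exact map_neg (algebraMap k M) α
  · change algebraMap k M (-α⁻¹) = _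
    rw [map_neg, map_inv₀]

private theorem B1_al_on {α : k} (hc : (fam α).Good) {M : Type} [Field M] [Algebra k M]
    {P : Fin 2 → Option M} (hP : OnC ((fam α).over M) (P 0) (P 1)) :
    OnC ((fam α).over M) (oi 1 (P 0)) (B1_ng (P 1)) := by
  have hα := B1_alpha hc
  have hA : algebraMap k M α ≠ 0 := fun h => hα ((map_eq_zero (algebraMap k M)).1 h)
  obtain ⟨⟨a0, a1, a2⟩, ⟨b0, b1, b2⟩⟩ := B1_ab (α := α) (M := M)
  have hn : ((fam α).over M).n = 3 := rfl
  revert hP
  generalize (fam α).over M = c at a0 a1 a2 b0 b1 b2 hn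
  generalize algebraMap k M α = A at hA a1 a2 b1 b2
  generalize P 0 = X
  generalize P 1 = V
  intro hP
  rcases X with _ | x <;> rcases V with _ | v
  · exact hP.elim
  · change v ^ c.n = 1 at hP
    rw [hn] at hP
    change (-v) ^ c.n * ∏ i, (0 - c.b i) = ∏ i, (0 - c.a i)
    rw [hn]
    simp only [Fin.prod_univ_three, a0, a1, a2, b0, b1, b2]
    linear_combination (-(A * A⁻¹)) * hP
  · obtain ⟨i, hi⟩ := hP
    have hx : x ≠ 0 := by
      rw [hi]
      fin_cases i
      · change c.b 0 ≠ 0
        rw [b0]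
        exact neg_ne_zero.2 one_ne_zero
      · change c.b 1 ≠ 0
        rw [b1]
        exact neg_ne_zero.2 hA
      · change c.b 2 ≠ 0
        rw [b2]
        exact neg_ne_zero.2 (inv_ne_zero hA)
    rw [B1_oi_some hx]
    change ∃ j, 1 / x = c.b j
    rw [hi]
    fin_cases i
    · refine ⟨0, ?_⟩
      change 1 / c.b 0 = c.b 0
      rw [b0]
      norm_num
    · refine ⟨2, ?_⟩
      change 1 / c.b 1 = c.b 2
      rw [b1, b2, one_div, inv_neg]
    · refine ⟨1, ?_⟩
      change 1 / c.b 2 = c.b 1
      rw [b1, b2, one_div, inv_neg, inv_inv]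
  · change v ^ c.n * ∏ i, (x - c.b i) = ∏ i, (x - c.a i) at hP
    rw [hn] at hP
    simp only [Fin.prod_univ_three, a0, a1, a2, b0, b1, b2] at hP
    by_cases hx : x = 0
    · subst hx
      rw [B1_oi_zero]
      change (-v) ^ c.n = 1
      rw [hn]
      have e : A * A⁻¹ = 1 := mul_inv_cancel₀ hA
      have h1 : v ^ 3 * (A * A⁻¹) = -(A * A⁻¹) := by linear_combination hP
      rw [e] at h1
      linear_combination -h1
    · rw [B1_oi_some hx]
      change (-v) ^ c.n * ∏ i, (1 / x - c.b i) = ∏ i, (1 / x - c.a i)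
      rw [hn]
      simp only [Fin.prod_univ_three, a0, a1, a2, b0, b1, b2]
      have e1 : (1 / x - -1) * (1 / x - -A) * (1 / x - -A⁻¹) =
          ((x - -1) * (x - -A) * (x - -A⁻¹)) * (x ^ 3)⁻¹ := by
        field_simp
        ring
      have e2 : (1 / x - 1) * (1 / x - A) * (1 / x - A⁻¹) =
          -((x - 1) * (x - A) * (x - A⁻¹)) * (x ^ 3)⁻¹ := by
        field_simp
        ring
      rw [e1, e2, ← hP]
      ring

private theorem B1_be_on {α : k} {M : Type} [Field M] [Algebra k M]
    {P : Fin 2 → Option M} (hP : OnC ((fam α).over M) (P 0) (P 1)) :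
    OnC ((fam α).over M) (B1_ng (P 0)) (oi 1 (P 1)) := by
  obtain ⟨⟨a0, a1, a2⟩, ⟨b0, b1, b2⟩⟩ := B1_ab (α := α) (M := M)
  have hn : ((fam α).over M).n = 3 := rfl
  revert hP
  generalize (fam α).over M = c at a0 a1 a2 b0 b1 b2 hn
  generalize algebraMap k M α = A at a1 a2 b1 b2
  generalize P 0 = X
  generalize P 1 = V
  intro hP
  have hab : ∀ i, c.b i = -c.a i := by
    intro i
    fin_cases i
    · change c.b 0 = -c.a 0
      rw [a0, b0]
    · change c.b 1 = -c.a 1
      rw [a1, b1]
    · change c.b 2 = -c.a 2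
      rw [a2, b2]
  rcases X with _ | x <;> rcases V with _ | v
  · exact hP.elim
  · change v ^ c.n = 1 at hP
    rw [hn] at hP
    have hv : v ≠ 0 := by
      rintro rfl
      rw [zero_pow (by norm_num)] at hP
      exact zero_ne_one hP
    rw [B1_oi_some hv]
    change (1 / v) ^ c.n = 1
    rw [hn, one_div, inv_pow, hP, inv_one]
  · obtain ⟨i, hi⟩ := hP
    change (0 : M) ^ c.n * ∏ i, (-x - c.b i) = ∏ i, (-x - c.a i)
    rw [hn, zero_pow (by norm_num), zero_mul]
    symm
    apply Finset.prod_eq_zero (Finset.mem_univ i)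
    rw [hi, hab, neg_neg, sub_self]
  · change v ^ c.n * ∏ i, (x - c.b i) = ∏ i, (x - c.a i) at hP
    rw [hn] at hP
    by_cases hv : v = 0
    · subst hv
      rw [zero_pow (by norm_num), zero_mul] at hP
      obtain ⟨i, -, hi⟩ := Finset.prod_eq_zero_iff.1 hP.symm
      rw [B1_oi_zero]
      refine ⟨i, ?_⟩
      rw [hab, sub_eq_zero.1 hi]
    · rw [B1_oi_some hv]
      change (1 / v) ^ c.n * ∏ i, (-x - c.b i) = ∏ i, (-x - c.a i)
      rw [hn]
      simp only [Fin.prod_univ_three, hab] at hP ⊢
      have h3 : v ^ 3 ≠ 0 := pow_ne_zero 3 hv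
      have e1 : (1 / v) ^ 3 = (v ^ 3)⁻¹ := by rw [one_div, inv_pow]
      rw [e1]
      have e2 : (-x - -c.a 0) * (-x - -c.a 1) * (-x - -c.a 2) = -((x - c.a 0) * (x - c.a 1) * (x - c.a 2)) := by
        ring
      rw [e2, ← hP, mul_neg, ← mul_assoc, inv_mul_cancel₀ h3, one_mul]
      ring

private theorem B1_al_eq {M : Type} [Field M] (P : Fin 2 → Option M) : al P = ![oi 1 (P 0), B1_ng (P 1)] := rfl

private theorem B1_be_eq {M : Type} [Field M] (P : Fin 2 → Option M) : be P = ![B1_ng (P 0), oi 1 (P 1)] := rfl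

theorem vg_on [CharZero k] {α : k} (hc : (fam α).Good) (i : Fin 4) {M : Type} [Field M] [Algebra k M]
    {P : Fin 2 → Option M} (hP : OnC ((fam α).over M) (P 0) (P 1)) : OnC ((fam α).over M) (vg i P 0) (vg i P 1) := by
  fin_cases i
  · exact hP
  · exact B1_al_on hc hP
  · exact B1_be_on hP
  · exact B1_al_on (P := be P) hc (B1_be_on hP)

theorem vg_onk [CharZero k] {α : k} (hc : (fam α).Good) (i : Fin 4) {Q : Fin 2 → Option k}
    (hQ : OnC (fam α) (Q 0) (Q 1)) : OnC (fam α) (vg i Q 0) (vg i Q 1) :=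
  vg_on (M := k) hc i hQ

/-! ### the action on the classes -/

private theorem B1_gen {c : Dat k} (hc : c.Good)
    (A : ∀ (M : Type) [Field M], (Fin 2 → Option M) → Fin 2 → Option M)
    (hon : ∀ (M : Type) [Field M] [Algebra k M] (P : Fin 2 → Option M), OnC (c.over M) (P 0) (P 1) →
      OnC (c.over M) (A M P 0) (A M P 1))
    (hmap : ∀ (M M' : Type) [Field M] [Field M'] (σ : M →+* M') (P : Fin 2 → Option M) (i : Fin 2),
      (A M P i).map σ = A M' (fun i => (P i).map σ) i)
    (hsp : ∀ (K : Type) [Field K] [Algebra k K] (w : Place k K) (P : Fin 2 → Option K) (Q : Fin 2 → Option (RF w)),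
      (∀ i, SpO w (P i) (Q i)) → ∀ i, SpO w (A K P i) (A (RF w) Q i))
    (hf : ∀ (M : Type) [Field M] [Algebra k M] (F : IntermediateField k M) (P : Fin 2 → Option M),
      (∀ i, (P i).getD 0 ∈ F) → ∀ i, (A M P i).getD 0 ∈ F)
    (hinv : ∀ (M : Type) [Field M] (P : Fin 2 → Option M), A M (A M P) = P) (m d : ℕ) :
    ∃ Γ : CH c m d →+ CH c m d, ∀ (M : Type) [Field M] [Algebra k M] (u : Pnt m M), FunF k d M →
      On (c.over M) u → Γ (cls c d u) = cls c d fun j => A M (u j) := by
  have hle : ∀ (M : Type) [Field M] [Algebra k M] (u : Pnt m M), fld k (fun j => A M (u j)) ≤ fld k u := by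
    intro M _ _ u
    unfold fld
    rw [IntermediateField.adjoin_le_iff]
    rintro _ ⟨⟨j, i⟩, rfl⟩
    have h1 : ∀ i, (u j i).getD 0 ∈ IntermediateField.adjoin k (Set.range (co u)) := fun i =>
      IntermediateField.subset_adjoin k _ ⟨(j, i), rfl⟩
    exact hf M _ (u j) h1 i
  have hfld : ∀ (M : Type) [Field M] [Algebra k M] (u : Pnt m M), fld k (fun j => A M (u j)) = fld k u := by
    intro M _ _ u
    apply le_antisymm (hle M u)
    have h1 := hle M (fun j => A M (u j))
    have h2 : (fun j => A M (A M (u j))) = u := funext fun j => hinv M (u j)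
    rw [h2] at h1
    exact h1
  have hzero : ∀ (M : Type) [Field M] [Algebra k M] (u : Pnt m M), cyc k u = 0 →
      cyc k (fun j => A M (u j)) = 0 := by
    intro M _ _ u h
    rw [cyc_zero_iff] at h ⊢
    rw [hfld]
    exact h
  obtain ⟨H, hH⟩ := exists_hom c d (G := CH c m d) (fun M _ _ (u : Pnt m M) => cls c d fun j => A M (u j))
    (by
      intro M M' _ _ _ _ σ u _ _ _
      have h1 : (fun j => A M' (mpP σ u j)) = mpP σ fun j => A M (u j) := by
        funext j i
        exact (hmap M M' (σ : M →+* M') (u j) i).symm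
      change cls c d (fun j => A M' (mpP σ u j)) = _
      rw [h1, cls_map])
  have hker : RatEq c m d ≤ H.ker := by
    apply desc c d H
    intro K _ _ u g S q hK hu hg hq h1 h2
    have h3 : ∑ v ∈ S, v.ord g • H (cyc k (q v)) =
        ∑ v ∈ S, v.ord g • cls c d fun j => A (RF v) (q v j) := by
      refine Finset.sum_congr rfl ?_
      intro v hv
      rw [hH (RF v) (q v) (h1 v hv) (on_sp hc hu (hq v))]
    rw [h3]
    exact div_rel c m d hK (fun j => A K (u j)) (fun j => hon K (u j) (hu j)) g hg S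
      (fun v j => A (RF v) (q v j)) (fun v j => hsp K v (u j) (q v j) (hq v j)) h1
      (fun v hv hvg hF => hzero _ _ (h2 v hv hvg hF))
  refine ⟨QuotientAddGroup.lift (RatEq c m d) H hker, ?_⟩
  intro M _ _ u hM hu
  change QuotientAddGroup.lift (RatEq c m d) H hker (QuotientAddGroup.mk (cyc k u)) = _
  rw [QuotientAddGroup.lift_mk]
  exact hH M u hM hu

private theorem B1_al {α : k} (hc : (fam α).Good) (m d : ℕ) :
    ∃ Γ : CH (fam α) m d →+ CH (fam α) m d, ∀ (M : Type) [Field M] [Algebra k M] (u : Pnt m M), FunF k d M →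
      On ((fam α).over M) u → Γ (cls (fam α) d u) = cls (fam α) d fun j => al (u j) := by
  apply B1_gen hc (fun M _ P => al P)
  · intro M _ _ P hP
    exact B1_al_on hc hP
  · intro M M' _ _ σ P i
    fin_cases i
    · exact B1_oi_map σ (P 0)
    · exact B1_ng_map σ (P 1)
  · intro K _ _ w P Q h i
    fin_cases i
    · exact B1_oi_sp w (h 0)
    · exact B1_ng_sp w (h 1)
  · intro M _ _ F P h i
    fin_cases i
    · exact B1_oi_mem F (h 0)
    · exact B1_ng_mem F (h 1)
  · intro M _ P
    funext i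
    fin_cases i
    · exact B1_oi_oi (P 0)
    · exact B1_ng_ng (P 1)

private theorem B1_be {α : k} (hc : (fam α).Good) (m d : ℕ) :
    ∃ Γ : CH (fam α) m d →+ CH (fam α) m d, ∀ (M : Type) [Field M] [Algebra k M] (u : Pnt m M), FunF k d M →
      On ((fam α).over M) u → Γ (cls (fam α) d u) = cls (fam α) d fun j => be (u j) := by
  apply B1_gen hc (fun M _ P => be P)
  · intro M _ _ P hP
    exact B1_be_on hP
  · intro M M' _ _ σ P i
    fin_cases i
    · exact B1_ng_map σ (P 0)
    · exact B1_oi_map σ (P 1)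
  · intro K _ _ w P Q h i
    fin_cases i
    · exact B1_ng_sp w (h 0)
    · exact B1_oi_sp w (h 1)
  · intro M _ _ F P h i
    fin_cases i
    · exact B1_ng_mem F (h 0)
    · exact B1_oi_mem F (h 1)
  · intro M _ P
    funext i
    fin_cases i
    · exact B1_ng_ng (P 0)
    · exact B1_oi_oi (P 1)

theorem exists_vg [CharZero k] {α : k} (hc : (fam α).Good) (i : Fin 4) (m d : ℕ) :
    ∃ Γ : CH (fam α) m d →+ CH (fam α) m d, ∀ (M : Type) [Field M] [Algebra k M] (u : Pnt m M), FunF k d M →
      On ((fam α).over M) u → Γ (cls (fam α) d u) = cls (fam α) d (vgP i u) := by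
  fin_cases i
  · exact ⟨AddMonoidHom.id _, fun M _ _ u _ _ => rfl⟩
  · exact B1_al hc m d
  · exact B1_be hc m d
  · obtain ⟨Γ₁, h₁⟩ := B1_al hc m d
    obtain ⟨Γ₂, h₂⟩ := B1_be hc m d
    refine ⟨Γ₁.comp Γ₂, fun M _ _ u hM hu => ?_⟩
    rw [AddMonoidHom.comp_apply, h₂ M u hM hu]
    exact h₁ M (fun j => be (u j)) hM (fun j => B1_be_on (hu j))

end Pool.Agent.LibSX77
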