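import Pool.Agent.LibSX77.BDefs
import Pool.Agent.LibCW77.FE1
import Pool.Agent.LibCW77.FB1
import Pool.Agent.LibCW77.FG0

/-!
[SY77 B3] Elementary algebra of the map from `fam α` to `Er (rr α)`. With `y = (x - 1) / (x + 1)` (`yc`) the curve is
`v ^ 3 (1 + r y ^ 2) = y (y ^ 2 + r)`, `r = rr α` (see `fg_rel` in `FG1.lean`, `tu_rel` in `FB1.lean`). `t = v / y`, `u = y ^ 2`: `t ^ 3 u (1 + r u) = u + r`, i.e.
`r t ^ 3 u ^ 2 + (t ^ 3 - 1) u - r = 0`; `PX = - c t / (1 + t) ^ 2`, `PY = c W`, `W = r (1 + t ^ 3 u ^ 2) / (u (1 + t) ^ 3)`, so `(1 + t) ^ 3 W = 2 r / u - (t ^ 3 - 1)`.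
`al`: `(y, v) ↦ (- y, - v)`; `be`: `(y, v) ↦ (1 / y, 1 / v)`. `pi_inj`: the same `X` gives `t' = t` or `t' = 1 / t`; apply `be` if necessary, so
`t' = t`; then the same `W` gives `u' = u`, so `y' = ± y`, `v' = t y'`: `Q'` is `Q` or `al Q`. If both images are `0`: `t = t' = -1`, `r u ^ 2 + 2 u + r = 0`
has the roots `u`, `1 / u`. `exists_O`: `t = -1`, `u` a root of `r u ^ 2 + 2 u + r`, `y ^ 2 = u`, `v = - y`, `x = (1 + y) / (1 - y)` (`∞` if `y = 1`).
-/

open scoped Classical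
open Polynomial

namespace Pool.Agent.LibSX77

open Pool.Agent.LibBH2
open Pool.Agent.LibCHd (VR RF Red FunF)
open Pool.Agent.LibCW77

variable {k : Type} [Field k]

private theorem b3a_alpha [CharZero k] {α : k} (h : (LibCW77.fam α).Good) :
    α ≠ 0 ∧ α + 1 ≠ 0 ∧ rr α ≠ 0 ∧ 1 - rr α ^ 2 ≠ 0 := fam_ne h

/-- the equation of the curve -/
private theorem b3a_on {α x v : k} : OnC (LibCW77.fam α) (some x) (some v) ↔
    v ^ 3 * ((x + 1) * (x + α) * (x + α⁻¹)) = (x - 1) * (x - α) * (x - α⁻¹) := by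
  have h : OnC (LibCW77.fam α) (some x) (some v) ↔
      v ^ 3 * ∏ i : Fin 3, (x - -(![1, α, α⁻¹] : Fin 3 → k) i) = ∏ i : Fin 3, (x - (![1, α, α⁻¹] : Fin 3 → k) i) :=
    Iff.rfl
  rw [h]
  simp [Fin.prod_univ_three]

private theorem b3a_oninf {α v : k} : OnC (LibCW77.fam α) none (some v) ↔ v ^ 3 = 1 := Iff.rfl

private theorem b3a_on2 {α x v : k} (ha : α ≠ 0) (h : OnC (LibCW77.fam α) (some x) (some v)) :
    v ^ 3 * ((x + 1) * (x + α) * (α * x + 1)) = (x - 1) * (x - α) * (α * x - 1) := by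
  have h1 := b3a_on.1 h
  have h3 : α * (v ^ 3 * ((x + 1) * (x + α) * (x + α⁻¹))) = α * ((x - 1) * (x - α) * (x - α⁻¹)) := by
    rw [h1]
  have h4 : α * (x + α⁻¹) = α * x + 1 := by
    rw [mul_add, mul_inv_cancel₀ ha]
  have h5 : α * (x - α⁻¹) = α * x - 1 := by
    rw [mul_sub, mul_inv_cancel₀ ha]
  calc v ^ 3 * ((x + 1) * (x + α) * (α * x + 1))
      = α * (v ^ 3 * ((x + 1) * (x + α) * (x + α⁻¹))) := by rw [← h4]; ring
    _ = α * ((x - 1) * (x - α) * (x - α⁻¹)) := h3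
    _ = (x - 1) * (x - α) * (α * x - 1) := by rw [← h5]; ring

private theorem b3a_on3 {α x v : k} (ha : α ≠ 0)
    (h : v ^ 3 * ((x + 1) * (x + α) * (α * x + 1)) = (x - 1) * (x - α) * (α * x - 1)) :
    OnC (LibCW77.fam α) (some x) (some v) := by
  rw [b3a_on]
  have h4 : α * (x + α⁻¹) = α * x + 1 := by
    rw [mul_add, mul_inv_cancel₀ ha]
  have h5 : α * (x - α⁻¹) = α * x - 1 := by
    rw [mul_sub, mul_inv_cancel₀ ha]
  apply mul_left_cancel₀ ha
  calc α * (v ^ 3 * ((x + 1) * (x + α) * (x + α⁻¹)))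
      = v ^ 3 * ((x + 1) * (x + α) * (α * x + 1)) := by rw [← h4]; ring
    _ = (x - 1) * (x - α) * (α * x - 1) := h
    _ = α * ((x - 1) * (x - α) * (x - α⁻¹)) := by rw [← h5]; ring

omit [Field k] in
private theorem b3a_fin (Q : Fin 2 → Option k) : Q = ![Q 0, Q 1] := by
  funext i
  fin_cases i <;> rfl

/-- a point which is not ramified is different from the points with `x = 1`, `x = -1` -/
private theorem b3a_x [CharZero k] {α x v : k} (hc : (LibCW77.fam α).Good) (hv : v ≠ 0)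
    (h : OnC (LibCW77.fam α) (some x) (some v)) : x - 1 ≠ 0 ∧ x + 1 ≠ 0 := by
  obtain ⟨ha, hb, _, _⟩ := b3a_alpha hc
  have h2 := b3a_on2 ha h
  constructor
  · intro h3
    have h4 : x = 1 := by linear_combination h3
    subst h4
    have h5 : v ^ 3 * (2 * (α + 1) * (α + 1)) = 0 := by linear_combination h2
    have h6 : v ^ 3 * (2 * (α + 1) * (α + 1)) ≠ 0 :=
      mul_ne_zero (pow_ne_zero 3 hv) (mul_ne_zero (mul_ne_zero two_ne_zero hb) hb)
    exact h6 h5
  · intro h3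
    have h4 : x = -1 := by linear_combination h3
    subst h4
    have h5 : (2 : k) * (α + 1) * (α + 1) = 0 := by linear_combination h2
    have h6 : (2 : k) * (α + 1) * (α + 1) ≠ 0 := mul_ne_zero (mul_ne_zero two_ne_zero hb) hb
    exact h6 h5

theorem unr_yc [CharZero k] {α : k} (hc : (LibCW77.fam α).Good) {Q : Fin 2 → Option k} (hQ : OnC (LibCW77.fam α) (Q 0) (Q 1))
    (hu : UnR Q) : yc (Q 0) ≠ 0 ∧ vc Q ≠ 0 ∧ Q 1 = some (vc Q) ∧
      vc Q ^ 3 * (1 + rr α * yc (Q 0) ^ 2) = yc (Q 0) * (yc (Q 0) ^ 2 + rr α) := by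
  obtain ⟨v, hv, hv0⟩ := hu
  have hvc : vc Q = v := by
    unfold vc
    rw [hv]
    rfl
  rw [hvc]
  rw [hv] at hQ
  obtain ⟨ha, hb, _, _⟩ := b3a_alpha hc
  rcases hx : Q 0 with _ | x
  · rw [hx] at hQ
    have h1 : v ^ 3 = 1 := b3a_oninf.1 hQ
    refine ⟨?_, hv0, hv, ?_⟩
    · simp [yc]
    · simp only [yc]
      rw [h1]
      ring
  · rw [hx] at hQ
    obtain ⟨h1, h2⟩ := b3a_x hc hv0 hQ
    have h3 := b3a_on2 ha hQ
    refine ⟨?_, hv0, hv, ?_⟩
    · simp only [yc]
      exact div_ne_zero h1 h2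
    · simp only [yc]
      unfold rr
      field_simp
      linear_combination 4 * h3

theorem pi_ns [CharZero k] {α : k} (hc : (LibCW77.fam α).Good) {Q : Fin 2 → Option k} (hQ : OnC (LibCW77.fam α) (Q 0) (Q 1))
    (hu : UnR Q) (h : vc Q + yc (Q 0) ≠ 0) :
    (Er (rr α)).Nonsingular (PX (rr α) (yc (Q 0)) (vc Q)) (PY (rr α) (yc (Q 0)) (vc Q)) ∧
      PX (rr α) (yc (Q 0)) (vc Q) ≠ 0 := by
  obtain ⟨hy, hv, _, hrel⟩ := unr_yc hc hQ hu
  obtain ⟨_, _, hr0, hr1⟩ := b3a_alpha hc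
  generalize yc (Q 0) = y at *
  generalize vc Q = v at *
  generalize rr α = r at *
  have hcE : cE r ≠ 0 := by
    unfold cE
    exact mul_ne_zero (by norm_num) hr1
  constructor
  · apply fe_ns hr0
    · intro h1
      apply hr1
      rw [h1]
      ring
    · have ht : 1 + v / y ≠ 0 := by
        intro h1
        apply h
        field_simp at h1
        linear_combination h1
      have h2 : (v / y) ^ 3 * y ^ 2 * (1 + r * y ^ 2) = y ^ 2 + r := by
        field_simp
        linear_combination hrel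
      have h3 := eXY_eq (r := r) (pow_ne_zero 2 hy) ht h2
      have hy2 : y + v ≠ 0 := by rwa [add_comm]
      have h4 : eX r (v / y) = PX r y v := by
        unfold eX PX cE
        field_simp
        ring
      have h5 : eY r (v / y) (y ^ 2) = PY r y v := by
        unfold eY PY cE
        field_simp
        ring
      rw [h4, h5] at h3
      exact h3
  · unfold PX
    exact neg_ne_zero.2 (mul_ne_zero hcE (div_ne_zero (mul_ne_zero hv hy) (pow_ne_zero 2 h)))

private theorem b3a_tr {W : WeierstrassCurve.Affine k} {a b a' b' : k} (h : W.Nonsingular a b)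
    (h' : W.Nonsingular a' b') (ha : a = a') (hb : b = b') :
    WeierstrassCurve.Affine.Point.some _ _ h = WeierstrassCurve.Affine.Point.some _ _ h' := by
  subst ha
  subst hb
  rfl

private theorem b3a_pi {α : k} {Q Q' : Fin 2 → Option k}
    (hp : vc Q' + yc (Q' 0) ≠ 0 ↔ vc Q + yc (Q 0) ≠ 0)
    (hX : PX (rr α) (yc (Q' 0)) (vc Q') = PX (rr α) (yc (Q 0)) (vc Q))
    (hY : PY (rr α) (yc (Q' 0)) (vc Q') = PY (rr α) (yc (Q 0)) (vc Q)) : PiE α Q' = PiE α Q := by
  by_cases h : vc Q + yc (Q 0) ≠ 0 ∧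
      (Er (rr α)).Nonsingular (PX (rr α) (yc (Q 0)) (vc Q)) (PY (rr α) (yc (Q 0)) (vc Q))
  · have h' : vc Q' + yc (Q' 0) ≠ 0 ∧
        (Er (rr α)).Nonsingular (PX (rr α) (yc (Q' 0)) (vc Q')) (PY (rr α) (yc (Q' 0)) (vc Q')) := by
      rw [hX, hY]
      exact ⟨hp.2 h.1, h.2⟩
    unfold PiE
    rw [dif_pos h, dif_pos h']
    exact b3a_tr h'.2 h.2 hX hY
  · have h' : ¬(vc Q' + yc (Q' 0) ≠ 0 ∧
        (Er (rr α)).Nonsingular (PX (rr α) (yc (Q' 0)) (vc Q')) (PY (rr α) (yc (Q' 0)) (vc Q'))) := by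
      rw [hX, hY]
      exact fun h1 => h ⟨hp.1 h1.1, h1.2⟩
    unfold PiE
    rw [dif_neg h, dif_neg h']

private theorem b3a_vc {Q : Fin 2 → Option k} {v : k} (h : Q 1 = some v) : vc Q = v := by
  unfold vc
  rw [h]
  rfl

private theorem b3a_al [CharZero k] {α : k} (hc : (LibCW77.fam α).Good) {Q : Fin 2 → Option k}
    (hQ : OnC (LibCW77.fam α) (Q 0) (Q 1)) (hu : UnR Q) :
    OnC (LibCW77.fam α) (al Q 0) (al Q 1) ∧ UnR (al Q) ∧ yc (al Q 0) = -yc (Q 0) ∧ vc (al Q) = -vc Q := by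
  obtain ⟨v, hv, hv0⟩ := hu
  obtain ⟨ha, hb, _, _⟩ := b3a_alpha hc
  have h1 : al Q 1 = some (-v) := by
    simp [al, hv]
  have hvc := b3a_vc hv
  have hvc' := b3a_vc h1
  refine ⟨?_, ⟨-v, h1, neg_ne_zero.2 hv0⟩, ?_, by rw [hvc, hvc']⟩
  · rw [h1]
    rw [hv] at hQ
    rcases hx : Q 0 with _ | x
    · rw [hx] at hQ
      have h2 : v ^ 3 = 1 := b3a_oninf.1 hQ
      have h3 : al Q 0 = some 0 := by simp [al, hx, oi]
      rw [h3]
      apply b3a_on3 ha
      linear_combination (-α) * h2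
    · rw [hx] at hQ
      have h2 := b3a_on2 ha hQ
      by_cases hx0 : x = 0
      · have h3 : al Q 0 = none := by simp [al, hx, oi, hx0]
        rw [h3]
        subst hx0
        have h4 : α * (-v) ^ 3 = α * 1 := by linear_combination (-1 : k) * h2
        have h5 := mul_left_cancel₀ ha h4
        exact b3a_oninf.2 h5
      · have h3 : al Q 0 = some (1 / x) := by simp [al, hx, oi, hx0]
        rw [h3]
        apply b3a_on3 ha
        field_simp
        linear_combination (-1 : k) * h2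
  · rw [hv] at hQ
    rcases hx : Q 0 with _ | x
    · have h3 : al Q 0 = some 0 := by simp [al, hx, oi]
      rw [h3]
      simp [yc]
    · rw [hx] at hQ
      obtain ⟨h4, h5⟩ := b3a_x hc hv0 hQ
      by_cases hx0 : x = 0
      · have h3 : al Q 0 = none := by simp [al, hx, oi, hx0]
        rw [h3, hx0]
        simp [yc]
      · have h3 : al Q 0 = some (1 / x) := by simp [al, hx, oi, hx0]
        rw [h3]
        simp only [yc]
        have h6 : 1 + x ≠ 0 := by rwa [add_comm]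
        field_simp
        ring

private theorem b3a_be [CharZero k] {α : k} (hc : (LibCW77.fam α).Good) {Q : Fin 2 → Option k}
    (hQ : OnC (LibCW77.fam α) (Q 0) (Q 1)) (hu : UnR Q) :
    OnC (LibCW77.fam α) (be Q 0) (be Q 1) ∧ UnR (be Q) ∧ yc (be Q 0) = 1 / yc (Q 0) ∧ vc (be Q) = 1 / vc Q := by
  obtain ⟨v, hv, hv0⟩ := hu
  obtain ⟨ha, hb, _, _⟩ := b3a_alpha hc
  have h1 : be Q 1 = some (1 / v) := by
    simp [be, hv, oi, hv0]
  have hvc := b3a_vc hv
  have hvc' := b3a_vc h1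
  refine ⟨?_, ⟨1 / v, h1, one_div_ne_zero hv0⟩, ?_, by rw [hvc, hvc']⟩
  · rw [h1]
    rw [hv] at hQ
    rcases hx : Q 0 with _ | x
    · rw [hx] at hQ
      have h2 : v ^ 3 = 1 := b3a_oninf.1 hQ
      have h3 : be Q 0 = none := by simp [be, hx]
      rw [h3]
      have h4 : (1 / v) ^ 3 = 1 := by rw [div_pow, h2]; simp
      exact b3a_oninf.2 h4
    · rw [hx] at hQ
      have h2 := b3a_on2 ha hQ
      have h3 : be Q 0 = some (-x) := by simp [be, hx]
      rw [h3]
      apply b3a_on3 ha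
      field_simp
      linear_combination h2
  · rw [hv] at hQ
    rcases hx : Q 0 with _ | x
    · have h3 : be Q 0 = none := by simp [be, hx]
      rw [h3]
      simp [yc]
    · rw [hx] at hQ
      obtain ⟨h4, h5⟩ := b3a_x hc hv0 hQ
      have h3 : be Q 0 = some (-x) := by simp [be, hx]
      rw [h3]
      simp only [yc]
      have h6 : -x + 1 ≠ 0 := by
        intro h7
        apply h4
        linear_combination (-1 : k) * h7
      field_simp
      ring

private theorem b3a_al' [CharZero k] {α : k} (hc : (LibCW77.fam α).Good) {Q : Fin 2 → Option k}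
    (hQ : OnC (LibCW77.fam α) (Q 0) (Q 1)) (hu : UnR Q) :
    OnC (LibCW77.fam α) (al Q 0) (al Q 1) ∧ UnR (al Q) ∧ PiE α (al Q) = PiE α Q := by
  obtain ⟨h1, h2, h3, h4⟩ := b3a_al hc hQ hu
  refine ⟨h1, h2, ?_⟩
  apply b3a_pi
  · rw [h3, h4, ← neg_add, neg_ne_zero]
  · rw [h3, h4]
    unfold PX
    rw [neg_mul_neg, ← neg_add, neg_sq]
  · rw [h3, h4]
    unfold PY
    by_cases h : vc Q + yc (Q 0) = 0
    · have h' : -vc Q + -yc (Q 0) = 0 := by linear_combination (-1 : k) * h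
      rw [h, h']
      simp
    · have h' : -vc Q + -yc (Q 0) ≠ 0 := by
        rw [← neg_add]
        exact neg_ne_zero.2 h
      have e : (-vc Q + -yc (Q 0)) ^ 3 = -(vc Q + yc (Q 0)) ^ 3 := by ring
      rw [e, div_neg, ← neg_div]
      congr 2
      ring

private theorem b3a_be' [CharZero k] {α : k} (hc : (LibCW77.fam α).Good) {Q : Fin 2 → Option k}
    (hQ : OnC (LibCW77.fam α) (Q 0) (Q 1)) (hu : UnR Q) :
    OnC (LibCW77.fam α) (be Q 0) (be Q 1) ∧ UnR (be Q) ∧ PiE α (be Q) = PiE α Q := by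
  obtain ⟨h1, h2, h3, h4⟩ := b3a_be hc hQ hu
  obtain ⟨hy, hv, _, _⟩ := unr_yc hc hQ hu
  have e : 1 / vc Q + 1 / yc (Q 0) = (vc Q + yc (Q 0)) / (vc Q * yc (Q 0)) := by
    field_simp
    ring
  refine ⟨h1, h2, ?_⟩
  apply b3a_pi
  · rw [h3, h4, e, div_ne_zero_iff]
    exact ⟨fun h => h.1, fun h => ⟨h, mul_ne_zero hv hy⟩⟩
  · rw [h3, h4]
    unfold PX
    rw [e]
    by_cases h : vc Q + yc (Q 0) = 0
    · rw [h]
      simp
    · field_simp
  · rw [h3, h4]
    unfold PY
    rw [e]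
    by_cases h : vc Q + yc (Q 0) = 0
    · rw [h]
      simp
    · field_simp
      ring

theorem pi_vg [CharZero k] {α : k} (hc : (LibCW77.fam α).Good) {Q : Fin 2 → Option k} (hQ : OnC (LibCW77.fam α) (Q 0) (Q 1))
    (hu : UnR Q) (i : Fin 4) : OnC (LibCW77.fam α) (vg i Q 0) (vg i Q 1) ∧ UnR (vg i Q) ∧ PiE α (vg i Q) = PiE α Q := by
  fin_cases i
  · exact ⟨hQ, hu, rfl⟩
  · exact b3a_al' hc hQ hu
  · exact b3a_be' hc hQ hu
  · obtain ⟨h1, h2, h3⟩ := b3a_be' hc hQ hu
    obtain ⟨h4, h5, h6⟩ := b3a_al' hc h1 h2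
    exact ⟨h4, h5, h6.trans h3⟩

private theorem b3a_ral {Q : Fin 2 → Option k} (h : UnR (al Q)) : UnR Q := by
  obtain ⟨w, hw, hw0⟩ := h
  rcases hx : Q 1 with _ | v
  · simp [al, hx] at hw
  · refine ⟨v, hx, ?_⟩
    intro h0
    simp [al, hx, h0] at hw
    exact hw0 hw.symm

private theorem b3a_rbe {Q : Fin 2 → Option k} (h : UnR (be Q)) : UnR Q := by
  obtain ⟨w, hw, hw0⟩ := h
  rcases hx : Q 1 with _ | v
  · simp [be, hx, oi] at hw
    exact absurd hw.symm hw0
  · refine ⟨v, hx, ?_⟩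
    intro h0
    simp [be, hx, h0, oi] at hw

theorem vg_ram [CharZero k] {α : k} (hc : (LibCW77.fam α).Good) {Q : Fin 2 → Option k} (hQ : OnC (LibCW77.fam α) (Q 0) (Q 1))
    (hu : ¬ UnR Q) (i : Fin 4) : ¬ UnR (vg i Q) := by
  intro h
  apply hu
  fin_cases i
  · exact h
  · exact b3a_ral h
  · exact b3a_rbe h
  · exact b3a_rbe (b3a_ral h)

private theorem b3a_oi (x : Option k) : oi 1 (oi 1 x) = x := by
  rcases x with _ | x
  · simp [oi]
  · by_cases h : x = 0
    · simp [oi, h]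
    · simp [oi, h]

private theorem b3a_ng (x : Option k) : (x.map fun v => -v).map (fun v => -v) = x := by
  rcases x with _ | x
  · rfl
  · simp

private theorem b3a_ong (x : Option k) : oi 1 (x.map fun v => -v) = (oi 1 x).map fun v => -v := by
  rcases x with _ | x
  · simp [oi]
  · by_cases h : x = 0
    · simp [oi, h]
    · simp [oi, h, div_neg]

private theorem b3a_alal (Q : Fin 2 → Option k) : al (al Q) = Q := by
  conv_rhs => rw [b3a_fin Q]
  unfold al
  simp only [Matrix.cons_val_zero, Matrix.cons_val_one]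
  rw [b3a_oi, b3a_ng]

private theorem b3a_bebe (Q : Fin 2 → Option k) : be (be Q) = Q := by
  conv_rhs => rw [b3a_fin Q]
  unfold be
  simp only [Matrix.cons_val_zero, Matrix.cons_val_one]
  rw [b3a_oi, b3a_ng]

private theorem b3a_beal (Q : Fin 2 → Option k) : be (al Q) = al (be Q) := by
  unfold be al
  simp only [Matrix.cons_val_zero, Matrix.cons_val_one]
  rw [b3a_ong, b3a_ong]

theorem sq_vg (c : Dat k) (Q : Fin 2 → Option k) (i : Fin 4) : SQ c (vg i Q) = SQ c Q := by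
  have e0 : ∀ P : Fin 2 → Option k, SQ c P = qc (cls c 0 (pt1 P)) + qc (cls c 0 (pt1 (al P))) +
      qc (cls c 0 (pt1 (be P))) + qc (cls c 0 (pt1 (al (be P)))) := by
    intro P
    unfold SQ
    rw [Fin.sum_univ_four]
    rfl
  fin_cases i
  · rfl
  · change SQ c (al Q) = SQ c Q
    rw [e0, e0, b3a_alal, b3a_beal, b3a_alal]
    abel
  · change SQ c (be Q) = SQ c Q
    rw [e0, e0, b3a_bebe]
    abel
  · change SQ c (al (be Q)) = SQ c Q
    rw [e0, e0, b3a_alal, b3a_beal, b3a_bebe, b3a_alal]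
    abel

private theorem B3b_inj [CharZero k] {a b : Option k} (h : yc a = yc b) (ha : yc a ≠ 0) : a = b := by
  have h2 : (2 : k) ≠ 0 := two_ne_zero
  have hden : ∀ x : k, yc (some x) ≠ 0 → x + 1 ≠ 0 := by
    intro x hx h0
    apply hx
    show (x - 1) / (x + 1) = 0
    rw [h0, div_zero]
  have hb : yc b ≠ 0 := h ▸ ha
  rcases a with _ | x <;> rcases b with _ | x'
  · rfl
  · exfalso
    have hd := hden x' hb
    have h1 : (1 : k) = (x' - 1) / (x' + 1) := h
    rw [eq_div_iff hd] at h1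
    exact h2 (by linear_combination h1)
  · exfalso
    have hd := hden x ha
    have h1 : (x - 1) / (x + 1) = (1 : k) := h
    rw [div_eq_iff hd] at h1
    exact h2 (by linear_combination -h1)
  · have hd := hden x ha
    have hd' := hden x' hb
    have h1 : (x - 1) / (x + 1) = (x' - 1) / (x' + 1) := h
    rw [div_eq_div_iff hd hd'] at h1
    have h3 : (2 : k) * (x - x') = 0 := by linear_combination h1
    rcases mul_eq_zero.1 h3 with h4 | h4
    · exact absurd h4 h2
    · rw [sub_eq_zero.1 h4]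

private theorem B3b_oi [CharZero k] (a : Option k) : yc (oi 1 a) = -yc a := by
  rcases a with _ | x
  · show yc (some (0 : k)) = -1
    show ((0 : k) - 1) / (0 + 1) = -1
    norm_num
  · by_cases hx : x = 0
    · subst hx
      have h1 : oi (1 : k) (some (0 : k)) = none := by simp [oi]
      rw [h1]
      show (1 : k) = -((0 - 1) / (0 + 1))
      norm_num
    · have h1 : oi (1 : k) (some x) = some (1 / x) := by simp [oi, hx]
      rw [h1]
      show (1 / x - 1) / (1 / x + 1) = -((x - 1) / (x + 1))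
      have h2 : 1 / x - 1 = (1 - x) / x := by field_simp
      have h3 : 1 / x + 1 = (1 + x) / x := by field_simp
      rw [h2, h3, div_div_div_cancel_right₀ hx, ← neg_div]
      congr 1 <;> ring

private theorem B3b_neg (a : Option k) : yc (a.map fun x => -x) = (yc a)⁻¹ := by
  rcases a with _ | x
  · show (1 : k) = 1⁻¹
    rw [inv_one]
  · show (-x - 1) / (-x + 1) = ((x - 1) / (x + 1))⁻¹
    rw [inv_div, ← neg_div_neg_eq]
    congr 1 <;> ring

private theorem B3b_ext {Q Q' : Fin 2 → Option k} (h0 : Q' 0 = Q 0) (h1 : Q' 1 = Q 1) : Q' = Q := by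
  funext i
  fin_cases i
  · exact h0
  · exact h1

/-- `Q'` is `Q` or `al Q` -/
private theorem B3b_same [CharZero k] {Q Q' : Fin 2 → Option k} (hy : yc (Q 0) ≠ 0) (hQ1 : Q 1 = some (vc Q))
    (hQ1' : Q' 1 = some (vc Q')) (hu : yc (Q' 0) ^ 2 = yc (Q 0) ^ 2)
    (ht : vc Q * yc (Q' 0) = vc Q' * yc (Q 0)) : Q' = vg 0 Q ∨ Q' = vg 1 Q := by
  have h1 : (yc (Q' 0) - yc (Q 0)) * (yc (Q' 0) + yc (Q 0)) = 0 := by linear_combination hu
  rcases mul_eq_zero.1 h1 with h2 | h2
  · left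
    have h3 : yc (Q' 0) = yc (Q 0) := sub_eq_zero.1 h2
    have h4 : vc Q' = vc Q := by
      rw [h3] at ht
      exact (mul_right_cancel₀ hy ht).symm
    show Q' = Q
    apply B3b_ext
    · exact (B3b_inj h3.symm hy).symm
    · rw [hQ1, hQ1', h4]
  · right
    have h3 : yc (Q' 0) = -yc (Q 0) := by linear_combination h2
    have h4 : vc Q' = -vc Q := by
      apply mul_right_cancel₀ hy
      rw [← ht, h3]
      ring
    show Q' = al Q
    apply B3b_ext
    · show Q' 0 = oi 1 (Q 0)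
      apply B3b_inj
      · rw [B3b_oi, h3]
      · rw [h3]
        exact neg_ne_zero.2 hy
    · show Q' 1 = (Q 1).map fun v => -v
      rw [hQ1, hQ1', h4]
      rfl

/-- the same `t` and the same image -/
private theorem B3b_one [CharZero k] {α : k} (hc : (fam α).Good) {Q Q' : Fin 2 → Option k}
    (hQ : OnC (fam α) (Q 0) (Q 1)) (hu : UnR Q) (hQ' : OnC (fam α) (Q' 0) (Q' 1)) (hu' : UnR Q')
    (hs : vc Q + yc (Q 0) ≠ 0) (hs' : vc Q' + yc (Q' 0) ≠ 0) (h : PiE α Q = PiE α Q')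
    (ht : vc Q * yc (Q' 0) = vc Q' * yc (Q 0)) : Q' = vg 0 Q ∨ Q' = vg 1 Q := by
  obtain ⟨hy, hv, hQ1, he⟩ := unr_yc hc hQ hu
  obtain ⟨hy', hv', hQ1', he'⟩ := unr_yc hc hQ' hu'
  obtain ⟨-, -, hr, hr1⟩ := fam_ne hc
  apply B3b_same hy hQ1 hQ1' _ ht
  have hns := pi_ns hc hQ hu hs
  have hns' := pi_ns hc hQ' hu' hs'
  unfold PiE at h
  rw [dif_pos ⟨hs, hns.1⟩, dif_pos ⟨hs', hns'.1⟩] at h
  have hY : PY (rr α) (yc (Q 0)) (vc Q) = PY (rr α) (yc (Q' 0)) (vc Q') := by
    injection h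
  clear h hns hns'
  unfold PY at hY
  have hc0 : cE (rr α) ≠ 0 := by
    unfold cE
    exact mul_ne_zero (by norm_num) hr1
  have hY2 := mul_left_cancel₀ hc0 hY
  clear hY
  obtain ⟨t, hvt⟩ : ∃ t, vc Q = t * yc (Q 0) := ⟨vc Q / yc (Q 0), by field_simp⟩
  have hvt' : vc Q' = t * yc (Q' 0) := by
    apply mul_right_cancel₀ hy
    rw [← ht, hvt]
    ring
  rw [hvt'] at hY2 hs' he'
  rw [hvt] at hY2 hs he
  generalize yc (Q 0) = y at *
  generalize yc (Q' 0) = y' at *
  generalize rr α = r at *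
  have h1t : t + 1 ≠ 0 := by
    intro h0
    apply hs
    linear_combination y * h0
  have he2 : t ^ 3 * y ^ 2 * (1 + r * y ^ 2) = y ^ 2 + r := by
    apply mul_left_cancel₀ hy
    linear_combination he
  have he2' : t ^ 3 * y' ^ 2 * (1 + r * y' ^ 2) = y' ^ 2 + r := by
    apply mul_left_cancel₀ hy'
    linear_combination he'
  rw [div_eq_div_iff (pow_ne_zero 3 hs) (pow_ne_zero 3 hs')] at hY2
  have h3 : (r * y * y' * (t + 1) ^ 3) * ((1 + t ^ 3 * y ^ 4) * y' ^ 2) =
      (r * y * y' * (t + 1) ^ 3) * ((1 + t ^ 3 * y' ^ 4) * y ^ 2) := by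
    linear_combination hY2
  have h4 := mul_left_cancel₀ (mul_ne_zero (mul_ne_zero (mul_ne_zero hr hy) hy') (pow_ne_zero 3 h1t)) h3
  have h5 : (2 * r) * y' ^ 2 = (2 * r) * y ^ 2 := by
    linear_combination r * h4 - y' ^ 2 * he2 + y ^ 2 * he2'
  exact mul_left_cancel₀ (mul_ne_zero two_ne_zero hr) h5

/-- the coordinates of `be Q` -/
private theorem B3b_be {Q : Fin 2 → Option k} (hv : vc Q ≠ 0) (hQ1 : Q 1 = some (vc Q)) :
    yc (vg 2 Q 0) = (yc (Q 0))⁻¹ ∧ vc (vg 2 Q) = (vc Q)⁻¹ := by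
  constructor
  · show yc ((Q 0).map fun x => -x) = _
    exact B3b_neg _
  · show (oi 1 (Q 1)).getD 0 = _
    rw [hQ1]
    have h1 : oi (1 : k) (some (vc Q)) = some (1 / vc Q) := by simp [oi, hv]
    rw [h1, one_div]
    rfl

private theorem B3b_zero [CharZero k] {α : k} (hc : (fam α).Good) {Q : Fin 2 → Option k}
    (hQ : OnC (fam α) (Q 0) (Q 1)) (hu : UnR Q) : PiE α Q = 0 ↔ vc Q + yc (Q 0) = 0 := by
  constructor
  · intro h
    by_contra hs
    have hns := pi_ns hc hQ hu hs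
    unfold PiE at h
    rw [dif_pos ⟨hs, hns.1⟩] at h
    exact absurd h (WeierstrassCurve.Affine.Point.some_ne_zero _)
  · intro h
    unfold PiE
    rw [dif_neg]
    intro h2
    exact h2.1 h

theorem pi_inj [CharZero k] {α : k} (hc : (fam α).Good) {Q Q' : Fin 2 → Option k} (hQ : OnC (fam α) (Q 0) (Q 1))
    (hu : UnR Q) (hQ' : OnC (fam α) (Q' 0) (Q' 1)) (hu' : UnR Q') (h : PiE α Q = PiE α Q') : ∃ i, Q' = vg i Q := by
  obtain ⟨hy, hv, hQ1, he⟩ := unr_yc hc hQ hu
  obtain ⟨hy', hv', hQ1', he'⟩ := unr_yc hc hQ' hu'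
  obtain ⟨-, -, hr, hr1⟩ := fam_ne hc
  obtain ⟨hb0, hb1⟩ := B3b_be hv hQ1
  obtain ⟨hQ2, hu2, hP2⟩ := pi_vg hc hQ hu 2
  obtain ⟨hy2, hv2, hQ12, he2⟩ := unr_yc hc hQ2 hu2
  -- from `vg 2 Q` to `Q`
  have back : (Q' = vg 0 (vg 2 Q) ∨ Q' = vg 1 (vg 2 Q)) → ∃ i, Q' = vg i Q := by
    rintro (h1 | h1)
    · exact ⟨2, h1⟩
    · exact ⟨3, h1⟩
  have fwd : (Q' = vg 0 Q ∨ Q' = vg 1 Q) → ∃ i, Q' = vg i Q := by
    rintro (h1 | h1)
    · exact ⟨0, h1⟩
    · exact ⟨1, h1⟩
  by_cases hs : vc Q + yc (Q 0) = 0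
  · have hs' : vc Q' + yc (Q' 0) = 0 := by
      rw [← B3b_zero hc hQ' hu', ← h, B3b_zero hc hQ hu]
      exact hs
    have e1 : vc Q = -yc (Q 0) := by linear_combination hs
    have e1' : vc Q' = -yc (Q' 0) := by linear_combination hs'
    have q1 : rr α * yc (Q 0) ^ 4 + 2 * yc (Q 0) ^ 2 + rr α = 0 := by
      apply mul_left_cancel₀ hy
      rw [e1] at he
      linear_combination -he
    have q2 : rr α * yc (Q' 0) ^ 4 + 2 * yc (Q' 0) ^ 2 + rr α = 0 := by
      apply mul_left_cancel₀ hy'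
      rw [e1'] at he'
      linear_combination -he'
    have q3 : (yc (Q' 0) ^ 2 - yc (Q 0) ^ 2) * (rr α * (yc (Q' 0) ^ 2 + yc (Q 0) ^ 2) + 2) = 0 := by
      linear_combination q2 - q1
    rcases mul_eq_zero.1 q3 with q4 | q4
    · apply fwd
      apply B3b_same hy hQ1 hQ1' (sub_eq_zero.1 q4)
      rw [e1, e1']
      ring
    · apply back
      have q5 : rr α * (yc (Q 0) ^ 2 * yc (Q' 0) ^ 2) = rr α * 1 := by
        linear_combination yc (Q 0) ^ 2 * q4 - q1
      have q6 := mul_left_cancel₀ hr q5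
      apply B3b_same hy2 hQ12 hQ1'
      · rw [hb0, inv_pow]
        exact eq_inv_of_mul_eq_one_right q6
      · rw [hb0, hb1, e1, e1', inv_neg]
        ring
  · have hs' : vc Q' + yc (Q' 0) ≠ 0 := by
      rw [Ne, ← B3b_zero hc hQ' hu', ← h, B3b_zero hc hQ hu]
      exact hs
    have hns := pi_ns hc hQ hu hs
    have hns' := pi_ns hc hQ' hu' hs'
    have hX : PX (rr α) (yc (Q 0)) (vc Q) = PX (rr α) (yc (Q' 0)) (vc Q') := by
      have h3 := h
      unfold PiE at h3
      rw [dif_pos ⟨hs, hns.1⟩, dif_pos ⟨hs', hns'.1⟩] at h3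
      injection h3
    unfold PX at hX
    have hc0 : cE (rr α) ≠ 0 := by
      unfold cE
      exact mul_ne_zero (by norm_num) hr1
    have hX2 := mul_left_cancel₀ hc0 (neg_injective hX)
    rw [div_eq_div_iff (pow_ne_zero 2 hs) (pow_ne_zero 2 hs')] at hX2
    have hX3 : (vc Q' * yc (Q 0) - vc Q * yc (Q' 0)) * (vc Q * vc Q' - yc (Q 0) * yc (Q' 0)) = 0 := by
      linear_combination hX2
    rcases mul_eq_zero.1 hX3 with h4 | h4
    · apply fwd
      exact B3b_one hc hQ hu hQ' hu' hs hs' h (sub_eq_zero.1 h4).symm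
    · apply back
      have hs2 : vc (vg 2 Q) + yc (vg 2 Q 0) ≠ 0 := by
        intro h5
        rw [← B3b_zero hc hQ2 hu2, hP2, B3b_zero hc hQ hu] at h5
        exact hs h5
      apply B3b_one hc hQ2 hu2 hQ' hu' hs2 hs' (hP2.trans h)
      rw [hb0, hb1]
      field_simp
      linear_combination -h4

private theorem B3c_eq {α : k} {Q : Fin 2 → Option k} {x y : k} (hne : vc Q + yc (Q 0) ≠ 0)
    (hx : PX (rr α) (yc (Q 0)) (vc Q) = x) (hy : PY (rr α) (yc (Q 0)) (vc Q) = y)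
    (h : (Er (rr α)).Nonsingular x y) : PiE α Q = WeierstrassCurve.Affine.Point.some _ _ h := by
  subst hx
  subst hy
  unfold PiE
  rw [dif_pos ⟨hne, h⟩]

private theorem B3c_some {W : WeierstrassCurve.Affine k} {a b a' b' : k} (h : W.Nonsingular a b)
    (h' : W.Nonsingular a' b') (ha : a = a') (hb : b = b') :
    WeierstrassCurve.Affine.Point.some _ _ h = WeierstrassCurve.Affine.Point.some _ _ h' := by
  subst ha
  subst hb
  rfl

private theorem B3c_oi (s : k ≃+* k) (o : Option k) : oi 1 (o.map s) = (oi 1 o).map s := by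
  cases o with
  | none => simp [oi]
  | some y =>
    by_cases hy : y = 0
    · simp [oi, hy]
    · simp [oi, hy]

private theorem B3c_neg (s : k ≃+* k) (o : Option k) :
    (o.map s).map (fun v => -v) = (o.map fun v => -v).map s := by
  cases o with
  | none => rfl
  | some y => simp

private theorem B3c_yc (s : k ≃+* k) (o : Option k) : yc (o.map s) = s (yc o) := by
  cases o with
  | none => simp [yc]
  | some y => simp [yc]

private theorem B3c_vc (s : k ≃+* k) (Q : Fin 2 → Option k) :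
    vc (fun a => (Q a).map s) = s (vc Q) := by
  unfold vc
  simp only
  cases Q 1 with
  | none => simp
  | some y => simp

private theorem B3c_rr {α : k} (s : k ≃+* k) (hs : s α = α) : s (rr α) = rr α := by
  unfold rr
  simp [hs]

theorem exists_O [IsAlgClosed k] [CharZero k] {α : k} (hc : (fam α).Good) :
    ∃ Q : Fin 2 → Option k, OnC (fam α) (Q 0) (Q 1) ∧ UnR Q ∧ PiE α Q = 0 := by
  obtain ⟨hα0, hα1, hr0, hr1⟩ := fam_ne hc
  obtain ⟨w, hw⟩ := IsAlgClosed.exists_eq_mul_self (1 - rr α ^ 2)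
  obtain ⟨y, hy⟩ := IsAlgClosed.exists_eq_mul_self ((-1 + w) / rr α)
  have hu : rr α * (y * y) ^ 2 + 2 * (y * y) + rr α = 0 := by
    rw [← hy]
    field_simp
    linear_combination -hw
  have hy0 : y ≠ 0 := by
    intro h
    apply hr0
    rw [h] at hu
    linear_combination hu
  have hr2 : rr α + 1 ≠ 0 := by
    intro h3
    apply hr1
    linear_combination (1 - rr α) * h3
  have hy1 : 1 - y ≠ 0 := by
    intro h
    have h1 : y = 1 := by linear_combination -h
    rw [h1] at hu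
    have h2 : (2 : k) * (rr α + 1) = 0 := by linear_combination hu
    rcases mul_eq_zero.1 h2 with h3 | h3
    · exact two_ne_zero h3
    · exact hr2 h3
  have hrel : -(α - 1) ^ 2 * y ^ 4 + 2 * (α + 1) ^ 2 * y ^ 2 - (α - 1) ^ 2 = 0 := by
    have h1 : (α + 1) ^ 2 * rr α = -(α - 1) ^ 2 := by
      unfold rr
      field_simp
    linear_combination (α + 1) ^ 2 * hu - (y ^ 4 + 1) * h1
  have hyc : yc (some ((1 + y) / (1 - y))) = y := by
    unfold yc
    simp only
    have e1 : (1 + y) / (1 - y) - 1 = 2 * y / (1 - y) := by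
      field_simp
      ring
    have e2 : (1 + y) / (1 - y) + 1 = 2 / (1 - y) := by
      field_simp
      ring
    rw [e1, e2]
    have h2 : (2 : k) ≠ 0 := two_ne_zero
    field_simp
  refine ⟨![some ((1 + y) / (1 - y)), some (-y)], ?_, ⟨-y, rfl, neg_ne_zero.2 hy0⟩, ?_⟩
  · have hg : (-y) ^ 3 * (((1 + y) / (1 - y) - -1) * ((1 + y) / (1 - y) - -α) *
        ((1 + y) / (1 - y) - -α⁻¹)) =
        ((1 + y) / (1 - y) - 1) * ((1 + y) / (1 - y) - α) * ((1 + y) / (1 - y) - α⁻¹) := by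
      field_simp
      linear_combination (-2 * y) * hrel
    simpa [OnC, Pool.Agent.LibCW77.fam, Pool.Agent.LibCW77.symD, Fin.prod_univ_three] using hg
  · unfold PiE
    rw [dif_neg]
    intro h
    apply h.1
    change vc ![some ((1 + y) / (1 - y)), some (-y)] + yc (some ((1 + y) / (1 - y))) = 0
    rw [hyc]
    simp [vc]

/-- the image of `(0, -1)` is `- 2 B`, the image of `τ (0, -1)` is `B` -/
theorem pi_Q0 [CharZero k] {α ζ : k} (hc : (fam α).Good) (hζ : IsPrimitiveRoot ζ 3)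
    (hB : (Er (rr α)).Nonsingular (4 * (rr α ^ 2 - 1)) (8 * rr α * (rr α ^ 2 - 1))) :
    PiE α Q0 = -(2 • WeierstrassCurve.Affine.Point.some _ _ hB) ∧
      PiE α (tau ζ Q0) = WeierstrassCurve.Affine.Point.some _ _ hB := by
  obtain ⟨hα0, hα1, hr0, hr1⟩ := fam_ne hc
  have hc0 : cE (rr α) ≠ 0 := by
    unfold cE
    exact mul_ne_zero (by norm_num) hr1
  have h2 : (2 : k) ≠ 0 := two_ne_zero
  have hy : 8 * rr α * (rr α ^ 2 - 1) ≠ 0 := by
    refine mul_ne_zero (mul_ne_zero (by norm_num) hr0) ?_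
    intro h
    apply hr1
    linear_combination -h
  constructor
  · obtain ⟨h', e⟩ := fe_dbl hB hy
    obtain ⟨h'', e''⟩ := fe_neg h'
    rw [e, e'']
    have hy0 : yc (Q0 (k := k) 0) = -1 := by
      simp [Q0, yc]
    have hv0 : vc (Q0 (k := k)) = -1 := by
      simp [Q0, vc]
    have hd : (4 * (rr α ^ 2 - 1)) ^ 3 + (3 * (4 * (rr α ^ 2 - 1)) + cE (rr α)) ^ 2 ≠ 0 := by
      have : (4 * (rr α ^ 2 - 1)) ^ 3 + (3 * (4 * (rr α ^ 2 - 1)) + cE (rr α)) ^ 2 =
          (8 * rr α * (rr α ^ 2 - 1)) ^ 2 := by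
        unfold cE
        ring
      rw [this]
      exact pow_ne_zero 2 hy
    have hX : 4 * (rr α ^ 2 - 1) * ((4 * (rr α ^ 2 - 1)) ^ 3 - 12 * cE (rr α) * (4 * (rr α ^ 2 - 1)) -
        8 * cE (rr α) ^ 2) / (4 * ((4 * (rr α ^ 2 - 1)) ^ 3 + (3 * (4 * (rr α ^ 2 - 1)) + cE (rr α)) ^ 2)) =
        rr α ^ 2 - 1 := by
      rw [div_eq_iff (mul_ne_zero (by norm_num) hd)]
      unfold cE
      ring
    have hS : (3 * (4 * (rr α ^ 2 - 1)) ^ 2 + 18 * (4 * (rr α ^ 2 - 1)) + 6 * cE (rr α)) /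
        (2 * (8 * rr α * (rr α ^ 2 - 1))) = 3 * rr α := by
      rw [div_eq_iff (mul_ne_zero h2 hy)]
      unfold cE
      ring
    refine B3c_eq ?_ ?_ ?_ h''
    · rw [hy0, hv0]
      intro h
      have : (2 : k) = 0 := by linear_combination -h
      exact h2 this
    · rw [hX, hy0, hv0]
      unfold PX cE
      field_simp
      ring
    · rw [hX, hS, hy0, hv0]
      unfold PY cE
      field_simp
      ring
  · have h3 := hζ.pow_eq_one
    have hs : ζ ^ 2 + ζ + 1 = 0 := by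
      have := hζ.geom_sum_eq_zero (by norm_num)
      simp only [Finset.sum_range_succ, Finset.sum_range_zero, zero_add, pow_zero, pow_one] at this
      linear_combination this
    have hζ0 : ζ ≠ 0 := hζ.ne_zero (by norm_num)
    have hy0 : yc (tau ζ (Q0 (k := k)) 0) = -1 := by
      simp [tau, Q0, yc]
    have hv0 : vc (tau ζ (Q0 (k := k))) = -ζ := by
      simp [tau, Q0, vc]
    have e2 : (-ζ + -1) ^ 2 = ζ := by linear_combination hs
    have e3 : (-ζ + -1) ^ 3 = 1 := by linear_combination (-ζ - 2) * hs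
    have e4 : (-ζ) ^ 3 = -1 := by linear_combination -h3
    refine B3c_eq ?_ ?_ ?_ hB
    · rw [hy0, hv0]
      intro h
      rw [h] at e3
      norm_num at e3
    · rw [hy0, hv0]
      unfold PX cE
      rw [e2]
      field_simp
      ring
    · rw [hy0, hv0]
      unfold PY cE
      rw [e3, e4]
      ring

/-- `PiE` and automorphisms of `k` -/
theorem pi_gal [CharZero k] {α : k} (hc : (fam α).Good) (s : k ≃+* k) (hs : s α = α) {Q : Fin 2 → Option k}
    (hQ : OnC (fam α) (Q 0) (Q 1)) (hu : UnR Q) :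
    (PiE α Q = 0 → PiE α (fun a => (Q a).map s) = 0) ∧
    ∀ (x y : k) (h : (Er (rr α)).Nonsingular x y), PiE α Q = .some _ _ h →
      ∃ h' : (Er (rr α)).Nonsingular (s x) (s y), PiE α (fun a => (Q a).map s) = .some _ _ h' := by
  obtain ⟨hα0, hα1, hr0, hr1⟩ := fam_ne hc
  have hr1' : rr α ^ 2 ≠ 1 := fun h => hr1 (by rw [h, sub_self])
  have hsr := B3c_rr s hs
  have hsc : s (cE (rr α)) = cE (rr α) := by
    unfold cE
    rw [map_mul, map_sub, map_one, map_pow, hsr, map_ofNat]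
  have hyc : yc (((fun a => (Q a).map s) : Fin 2 → Option k) 0) = s (yc (Q 0)) := B3c_yc s (Q 0)
  have hvc := B3c_vc s Q
  have hX : PX (rr α) (yc (((fun a => (Q a).map s) : Fin 2 → Option k) 0)) (vc (fun a => (Q a).map s)) =
      s (PX (rr α) (yc (Q 0)) (vc Q)) := by
    rw [hyc, hvc]
    unfold PX
    simp [hsc]
  have hY : PY (rr α) (yc (((fun a => (Q a).map s) : Fin 2 → Option k) 0)) (vc (fun a => (Q a).map s)) =
      s (PY (rr α) (yc (Q 0)) (vc Q)) := by
    rw [hyc, hvc]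
    unfold PY
    simp [hsc, hsr]
  have hns : ∀ x y : k, (Er (rr α)).Nonsingular (s x) (s y) ↔ (Er (rr α)).Nonsingular x y := by
    intro x y
    constructor
    · intro h
      refine fe_ns hr0 hr1' (s.injective ?_)
      have h1 := fe_eq h
      simp only [map_pow, map_add, map_mul, hsc, map_ofNat]
      exact h1
    · intro h
      refine fe_ns hr0 hr1' ?_
      have h1 := congrArg s (fe_eq h)
      simp only [map_pow, map_add, map_mul, hsc, map_ofNat] at h1
      exact h1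
  have hne : vc (fun a => (Q a).map s) + yc (((fun a => (Q a).map s) : Fin 2 → Option k) 0) ≠ 0 ↔
      vc Q + yc (Q 0) ≠ 0 := by
    rw [hyc, hvc, ← map_add, Ne, map_eq_zero_iff s s.injective]
  by_cases h : vc Q + yc (Q 0) ≠ 0 ∧
      (Er (rr α)).Nonsingular (PX (rr α) (yc (Q 0)) (vc Q)) (PY (rr α) (yc (Q 0)) (vc Q))
  · have e : PiE α Q = WeierstrassCurve.Affine.Point.some _ _ h.2 := by
      unfold PiE
      rw [dif_pos h]
    refine ⟨fun h0 => ?_, fun x y hxy h1 => ?_⟩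
    · rw [e] at h0
      exact absurd h0 (WeierstrassCurve.Affine.Point.some_ne_zero _)
    · rw [e] at h1
      rw [WeierstrassCurve.Affine.Point.some.injEq] at h1
      obtain ⟨rfl, rfl⟩ := h1
      exact ⟨(hns _ _).2 h.2, B3c_eq (hne.2 h.1) hX hY _⟩
  · have e : PiE α Q = 0 := by
      unfold PiE
      rw [dif_neg h]
    refine ⟨fun _ => ?_, fun x y hxy h1 => ?_⟩
    · unfold PiE
      rw [dif_neg]
      intro h2
      apply h
      refine ⟨hne.1 h2.1, ?_⟩
      have h3 := h2.2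
      rw [hX, hY] at h3
      exact (hns _ _).1 h3
    · rw [e] at h1
      exact absurd h1.symm (WeierstrassCurve.Affine.Point.some_ne_zero _)

theorem vg_gal (s : k ≃+* k) (Q : Fin 2 → Option k) (i : Fin 4) :
    vg i (fun a => (Q a).map s) = fun a => (vg i Q a).map s := by
  have h1 : ∀ P : Fin 2 → Option k, al (fun a => (P a).map s) = fun a => (al P a).map s := by
    intro P
    funext a
    fin_cases a
    · exact B3c_oi s (P 0)
    · exact B3c_neg s (P 1)
  have h2 : ∀ P : Fin 2 → Option k, be (fun a => (P a).map s) = fun a => (be P a).map s := by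
    intro P
    funext a
    fin_cases a
    · exact B3c_neg s (P 0)
    · exact B3c_oi s (P 1)
  fin_cases i
  · rfl
  · exact h1 Q
  · exact h2 Q
  · change al (be (fun a => (Q a).map s)) = fun a => (al (be Q) a).map s
    rw [h2, h1]

end Pool.Agent.LibSX77
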