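import Mathlib

/-!
[SY77 B4] ONLY MATHLIB (copy and adapt `LibCW77/FB4.lean`, which does it for one point `M • P = 0`). Finitely many points
`P_i = (x_i, y_i)` of `W : y ^ 2 = x ^ 3 + a₂ x ^ 2 + a₄ x + a₆` with multiplicities `M_i : ℕ` and `∑ M_i P_i = 0`. The ideal
`∏ XYIdeal (P_i) ^ M_i` is principal (`Point.toClass` additive, `toClass_some`, `map_sum`), `= (a)`, `a = p(X) + q(X) Y`. So `a` is in the product of the ideals,
every product of generators is a multiple of `a`, and the norm of `a` is associated to `∏ (X - x_i) ^ M_i` (the conjugate of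
`a` generates the product for the points `- P_i`, `XYIdeal_neg_mul`).
-/

open scoped Classical
open Polynomial
open scoped Polynomial.Bivariate

namespace Pool.Agent.LibSX77

open WeierstrassCurve.Affine

variable {k : Type} [Field k]

private lemma sigma_aux (W : WeierstrassCurve.Affine k) (h1 : W.a₁ = 0) (h3 : W.a₃ = 0) :
    Polynomial.eval₂ (AdjoinRoot.of W.polynomial) (-(AdjoinRoot.root W.polynomial)) W.polynomial = 0 := by
  have h := AdjoinRoot.eval₂_root W.polynomial
  have hW : W.polynomial = Y ^ 2 - C (X ^ 3 + C W.a₂ * X ^ 2 + C W.a₄ * X + C W.a₆) := by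
    rw [WeierstrassCurve.Affine.polynomial, h1, h3]
    simp
  have e1 : ∀ z : AdjoinRoot W.polynomial,
      Polynomial.eval₂ (AdjoinRoot.of W.polynomial) z
        (Y ^ 2 - C (X ^ 3 + C W.a₂ * X ^ 2 + C W.a₄ * X + C W.a₆) : k[X][Y]) =
      z ^ 2 - AdjoinRoot.of W.polynomial (X ^ 3 + C W.a₂ * X ^ 2 + C W.a₄ * X + C W.a₆) := by
    intro z
    rw [Polynomial.eval₂_sub, Polynomial.eval₂_X_pow, Polynomial.eval₂_C]
  have h' : Polynomial.eval₂ (AdjoinRoot.of W.polynomial) (AdjoinRoot.root W.polynomial)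
      (Y ^ 2 - C (X ^ 3 + C W.a₂ * X ^ 2 + C W.a₄ * X + C W.a₆) : k[X][Y]) = 0 := by
    rw [← hW]; exact h
  have goal' : Polynomial.eval₂ (AdjoinRoot.of W.polynomial) (-(AdjoinRoot.root W.polynomial))
      (Y ^ 2 - C (X ^ 3 + C W.a₂ * X ^ 2 + C W.a₄ * X + C W.a₆) : k[X][Y]) = 0 := by
    rw [e1] at h' ⊢
    rw [neg_sq]
    exact h'
  rw [← hW] at goal'
  exact goal'

private noncomputable def sigma (W : WeierstrassCurve.Affine k) (h1 : W.a₁ = 0) (h3 : W.a₃ = 0) :
    W.CoordinateRing →+* W.CoordinateRing :=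
  AdjoinRoot.lift (AdjoinRoot.of W.polynomial) (-(AdjoinRoot.root W.polynomial)) (sigma_aux W h1 h3)

private lemma sigma_C (W : WeierstrassCurve.Affine k) (h1 : W.a₁ = 0) (h3 : W.a₃ = 0) (p : k[X]) :
    sigma W h1 h3 (CoordinateRing.mk W (C p)) = CoordinateRing.mk W (C p) := by
  rw [sigma, AdjoinRoot.lift_mk, Polynomial.eval₂_C]
  rfl

private lemma sigma_Y (W : WeierstrassCurve.Affine k) (h1 : W.a₁ = 0) (h3 : W.a₃ = 0) :
    sigma W h1 h3 (CoordinateRing.mk W Y) = -CoordinateRing.mk W Y := by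
  rw [sigma, AdjoinRoot.lift_mk, Polynomial.eval₂_X]
  rfl

private lemma sigma_XY (W : WeierstrassCurve.Affine k) (h1 : W.a₁ = 0) (h3 : W.a₃ = 0) (x₀ y₀ : k) :
    Ideal.map (sigma W h1 h3) (CoordinateRing.XYIdeal W x₀ (C y₀)) =
      CoordinateRing.XYIdeal W x₀ (C (W.negY x₀ y₀)) := by
  rw [CoordinateRing.XYIdeal, CoordinateRing.XYIdeal, Ideal.map_span, Set.image_pair]
  have e1 : sigma W h1 h3 (CoordinateRing.XClass W x₀) = CoordinateRing.XClass W x₀ := by
    rw [CoordinateRing.XClass, sigma_C]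
  have e2 : sigma W h1 h3 (CoordinateRing.YClass W (C y₀)) =
      -CoordinateRing.YClass W (C (W.negY x₀ y₀)) := by
    have hn : W.negY x₀ y₀ = -y₀ := by
      rw [WeierstrassCurve.Affine.negY, h1, h3]; ring
    rw [CoordinateRing.YClass, CoordinateRing.YClass, map_sub, map_sub, map_sub, sigma_Y, sigma_C, hn,
      C_neg, C_neg, map_neg]
    ring
  rw [e1, e2, Ideal.span_insert, Ideal.span_insert, Ideal.span_singleton_neg]

private lemma principal_aux (W : WeierstrassCurve.Affine k) {n : ℕ} (xs ys : Fin n → k)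
    (h : ∀ i, W.Nonsingular (xs i) (ys i)) (M : Fin n → ℕ) (hM : ∑ i, M i • (Point.some _ _ (h i)) = 0) :
    ∃ a : W.CoordinateRing, a ≠ 0 ∧
      ∏ i, CoordinateRing.XYIdeal W (xs i) (C (ys i)) ^ M i = Ideal.span {a} := by
  have h1 : ∑ i, M i • Point.toClass (Point.some _ _ (h i)) = 0 := by
    have := congrArg Point.toClass hM
    rw [map_sum, map_zero] at this
    rw [← this]
    exact Finset.sum_congr rfl fun i _ => (map_nsmul _ _ _).symm
  simp only [Point.toClass_some] at h1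
  have h2 : ∏ i, ClassGroup.mk W.FunctionField (CoordinateRing.XYIdeal' (W := W) (h i)) ^ M i = 1 := h1
  have h3 : ClassGroup.mk W.FunctionField (∏ i, CoordinateRing.XYIdeal' (W := W) (h i) ^ M i) = 1 := by
    rw [map_prod, ← h2]
    exact Finset.prod_congr rfl fun i _ => map_pow _ _ _
  refine (ClassGroup.mk_eq_one_of_coe_ideal ?_).mp h3
  have e1 : ((∏ i, CoordinateRing.XYIdeal W (xs i) (C (ys i)) ^ M i : Ideal W.CoordinateRing) :
      FractionalIdeal (nonZeroDivisors W.CoordinateRing) W.FunctionField) =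
      ∏ i, ((CoordinateRing.XYIdeal W (xs i) (C (ys i)) ^ M i : Ideal W.CoordinateRing) :
        FractionalIdeal (nonZeroDivisors W.CoordinateRing) W.FunctionField) :=
    map_prod (FractionalIdeal.coeIdealHom (nonZeroDivisors W.CoordinateRing) W.FunctionField) _ _
  rw [Units.coe_prod, e1]
  refine Finset.prod_congr rfl fun i _ => ?_
  rw [Units.val_pow_eq_pow_val, CoordinateRing.XYIdeal'_eq, FractionalIdeal.coeIdeal_pow]

private lemma mk_C_dvd (W : WeierstrassCurve.Affine k) {f g : k[X]}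
    (h : CoordinateRing.mk W (C f) ∣ CoordinateRing.mk W (C g)) : f ∣ g := by
  obtain ⟨b, hb⟩ := h
  obtain ⟨r, s, rfl⟩ := CoordinateRing.exists_smul_basis_eq b
  rw [mul_comm, CoordinateRing.smul_basis_mul_C] at hb
  have h2 : (r * f - g) • (1 : W.CoordinateRing) + (s * f) • CoordinateRing.mk W Y = 0 := by
    rw [sub_smul, CoordinateRing.smul g, mul_one, hb]
    ring
  obtain ⟨h3, -⟩ := CoordinateRing.smul_basis_eq_zero h2
  exact ⟨r, by rw [mul_comm]; exact (sub_eq_zero.mp h3).symm⟩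

theorem ell_ideals (W : WeierstrassCurve.Affine k) (h1 : W.a₁ = 0) (h3 : W.a₃ = 0) {n : ℕ} (xs ys : Fin n → k)
    (h : ∀ i, W.Nonsingular (xs i) (ys i)) (M : Fin n → ℕ) (hM : ∑ i, M i • (Point.some _ _ (h i)) = 0) :
    ∃ p q : k[X],
      (CoordinateRing.mk W (C p + C q * Y) ∈ ∏ i, CoordinateRing.XYIdeal W (xs i) (C (ys i)) ^ M i) ∧
      (∀ s : Fin n → Bool, ∃ b, ∏ i, (if s i then CoordinateRing.mk W (C (X - C (xs i))) else
        CoordinateRing.mk W (Y - C (C (ys i)))) ^ M i = CoordinateRing.mk W (C p + C q * Y) * b) ∧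
      ∃ e : k, e ≠ 0 ∧ p ^ 2 - q ^ 2 * (X ^ 3 + C W.a₂ * X ^ 2 + C W.a₄ * X + C W.a₆) =
        C e * ∏ i, (X - C (xs i)) ^ M i := by
  obtain ⟨a, ha0, ha⟩ := principal_aux W xs ys h M hM
  obtain ⟨p, q, hpq⟩ := CoordinateRing.exists_smul_basis_eq a
  have hmk : CoordinateRing.mk W (C p + C q * Y) = a := by
    rw [← hpq, CoordinateRing.smul, CoordinateRing.smul, mul_one, map_add, map_mul]
  have hxI : ∀ i, CoordinateRing.XClass W (xs i) ∈ CoordinateRing.XYIdeal W (xs i) (C (ys i)) := fun i =>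
    Ideal.subset_span (Set.mem_insert _ _)
  have hyI : ∀ i, CoordinateRing.YClass W (C (ys i)) ∈ CoordinateRing.XYIdeal W (xs i) (C (ys i)) := fun i =>
    Ideal.subset_span (Set.mem_insert_of_mem _ (Set.mem_singleton _))
  have key : ∀ z ∈ ∏ i, CoordinateRing.XYIdeal W (xs i) (C (ys i)) ^ M i, ∃ b, z = a * b := by
    intro z hz
    rw [ha, Ideal.mem_span_singleton] at hz
    exact hz
  refine ⟨p, q, ?_, ?_, ?_⟩
  · rw [hmk, ha]
    exact Ideal.mem_span_singleton_self a
  · intro s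
    rw [hmk]
    refine key _ ?_
    refine Ideal.prod_mem_prod fun i _ => ?_
    refine Ideal.pow_mem_pow ?_ _
    split_ifs with hs
    · exact hxI i
    · exact hyI i
  · set F : k[X] := X ^ 3 + C W.a₂ * X ^ 2 + C W.a₄ * X + C W.a₆ with hF
    have hY2 : CoordinateRing.mk W Y ^ 2 = CoordinateRing.mk W (C F) := by
      have h5 := CoordinateRing.smul_basis_mul_Y (W' := W) 0 1
      rw [h1, h3] at h5
      simp only [zero_smul, one_smul, zero_add, one_mul, C_0, zero_mul, sub_zero, add_zero] at h5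
      rw [pow_two, h5, CoordinateRing.smul, mul_one]
    have hsa : sigma W h1 h3 a = CoordinateRing.mk W (C p) - CoordinateRing.mk W (C q) * CoordinateRing.mk W Y := by
      rw [← hmk, map_add, map_mul, map_add, map_mul, sigma_C, sigma_C, sigma_Y]
      ring
    have hN : a * sigma W h1 h3 a = CoordinateRing.mk W (C (p ^ 2 - q ^ 2 * F)) := by
      rw [hsa, ← hmk, map_add, map_mul, C_sub, C_mul, C_pow, C_pow, map_sub, map_mul, map_pow, map_pow, ← hY2]
      ring
    have hid : Ideal.span {a * sigma W h1 h3 a} =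
        Ideal.span {CoordinateRing.mk W (C (∏ i, (X - C (xs i)) ^ M i))} := by
      rw [← Ideal.span_singleton_mul_span_singleton, ← ha]
      have h6 : Ideal.span {sigma W h1 h3 a} = Ideal.map (sigma W h1 h3) (Ideal.span {a}) := by
        rw [Ideal.map_span, Set.image_singleton]
      have h7 : Ideal.map (sigma W h1 h3) (∏ i, CoordinateRing.XYIdeal W (xs i) (C (ys i)) ^ M i) =
          ∏ i, Ideal.map (sigma W h1 h3) (CoordinateRing.XYIdeal W (xs i) (C (ys i)) ^ M i) :=
        map_prod (Ideal.mapHom (sigma W h1 h3)) _ _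
      rw [h6, ← ha, h7, ← Finset.prod_mul_distrib, map_prod, map_prod,
        ← Ideal.prod_span_singleton]
      refine Finset.prod_congr rfl fun i _ => ?_
      rw [Ideal.map_pow, sigma_XY, ← mul_pow, mul_comm, CoordinateRing.XYIdeal_neg_mul (h i),
        CoordinateRing.XIdeal, Ideal.span_singleton_pow, CoordinateRing.XClass, C_pow, map_pow]
    rw [hN] at hid
    have hd1 : p ^ 2 - q ^ 2 * F ∣ ∏ i, (X - C (xs i)) ^ M i := by
      apply mk_C_dvd W
      rw [← Ideal.span_singleton_le_span_singleton, hid]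
    have hd2 : ∏ i, (X - C (xs i)) ^ M i ∣ p ^ 2 - q ^ 2 * F := by
      apply mk_C_dvd W
      rw [← Ideal.span_singleton_le_span_singleton, hid]
    obtain ⟨u, hu⟩ := associated_of_dvd_dvd hd2 hd1
    obtain ⟨e, he, hue⟩ := Polynomial.isUnit_iff.mp u.isUnit
    refine ⟨e, he.ne_zero, ?_⟩
    rw [← hu, ← hue, mul_comm]

end Pool.Agent.LibSX77
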