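import Pool.Agent.LibSX77.BDefs
import Pool.Agent.LibSX77.B4
import Pool.Agent.LibCW77.FB5

/-!
[SY77 B5] The function with the divisor `∑ M_i (P_i) - (∑ M_i) (O)` on a field `N` with a point `(X', Y')` of `W` (model: `ell_fun` in
`LibCW77/FB5.lean`; its private lemmas may be copied). `g = p(X') + q(X') Y'` with `p`, `q` from `ell_ideals` (B4).
At a place `w` where `X'` is regular (so is `Y'`): the elements of `XYIdeal (x_i, y_i)` have order `≥ ee w x_i y_i` (or are `0`), so `g` (in the product of
the ideals) has order `≥ ∑ M_i ee`; conversely take for each `i` the generator `X - x_i` or `Y - y_i` with the smaller order: its order is `ee w x_i y_i`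
(if not both vanish at `w` one of them has order `0`), and the product of their powers is `g b`, `b` regular. At a pole of `X'`: as in `ell_fun` (parity):
`2 w.ord g = (∑ M_i) w.ord X'`. `ell_famZ`: replace `P_i` with `m_i < 0` by `- P_i = (x_i, - y_i)`, multiplicity `- m_i`, and divide by
`(X' - x_i) ^ (- m_i)`: `w.ord (X' - x_i) = ee w x_i y_i + ee w x_i (- y_i)` if `X'` is regular at `w` [`(Y' - y_i) (Y' + y_i) = (X' - x_i) (...)`; if
`y_i = 0`: `Y' ^ 2 = (X' - x_i) * unit`, since `(x_i, 0)` is not singular].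
`ell_pts`: points of `W`, those which are `0` are left out (`eE` of them is `0` where `X'` is regular and `- w.ord X'` at the poles; `∑ m_i = 0`).
-/

open scoped Classical
open Polynomial

namespace Pool.Agent.LibSX77

open Pool.Agent.LibBH2
open Pool.Agent.LibCHd (VR RF Red FunF)
open Pool.Agent.LibCW77

variable {k : Type} [Field k]

/-- the order of a polynomial at a pole -/
private theorem ell_fam_pole {K : Type} [Field K] [Algebra k K] {v : Place k K} {z : K}
    (hz : v.ord z < 0) : ∀ (m : ℕ) (P : k[X]), P.natDegree ≤ m → P ≠ 0 →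
      aeval z P ≠ 0 ∧ v.ord (aeval z P) = P.natDegree * v.ord z := by
  have hz0 : z ≠ 0 := by
    rintro rfl
    rw [v.ord_zero] at hz
    exact lt_irrefl _ hz
  have hmon : ∀ (i : ℕ) (a : k), a ≠ 0 → aeval z (monomial i a) ≠ 0 ∧
      v.ord (aeval z (monomial i a)) = i * v.ord z := by
    intro i a ha
    have h1 : algebraMap k K a ≠ 0 := (_root_.map_ne_zero _).2 ha
    rw [aeval_monomial]
    refine ⟨mul_ne_zero h1 (pow_ne_zero _ hz0), ?_⟩
    rw [v.ord_mul _ _ h1 (pow_ne_zero _ hz0), v.ord_const a ha, v.ord_pow, zero_add]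
  intro m
  induction m with
  | zero =>
    intro P hm hP
    have h1 : P = C (P.coeff 0) := eq_C_of_natDegree_eq_zero (Nat.le_zero.1 hm)
    have h2 : P.coeff 0 ≠ 0 := by
      intro h
      rw [h, C_0] at h1
      exact hP h1
    have h3 := hmon 0 _ h2
    rw [monomial_zero_left, ← h1] at h3
    rw [Nat.le_zero.1 hm]
    exact h3
  | succ m ih =>
    intro P hm hP
    have h1 := P.eraseLead_add_monomial_natDegree_leadingCoeff
    have h2 := hmon P.natDegree _ (leadingCoeff_ne_zero.2 hP)
    by_cases h3 : P.eraseLead = 0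
    · rw [h3, zero_add] at h1
      rw [h1] at h2
      exact h2
    · have h4 : P.eraseLead.natDegree < P.natDegree :=
        P.eraseLead_natDegree_lt_or_eraseLead_eq_zero.resolve_right h3
      obtain ⟨h5, h6⟩ := ih P.eraseLead (by omega) h3
      have h7 := v.ord_add_of_lt h2.1 h5 (by
        rw [h2.2, h6]
        have h8 : (P.eraseLead.natDegree : ℤ) < (P.natDegree : ℤ) := by exact_mod_cast h4
        nlinarith)
      rw [← map_add, add_comm, h1, h2.2] at h7
      exact h7

private theorem ell_fam_aeval_reg {K : Type} [Field K] [Algebra k K] {v : Place k K} {z : K}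
    (hz : v.Reg z) (P : k[X]) : v.Reg (aeval z P) := by
  induction P using Polynomial.induction_on' with
  | add p q hp hq => rw [map_add]; exact hp.add hq
  | monomial n a => rw [aeval_monomial]; exact (v.reg_const a).mul (hz.pow n)

private theorem ell_fam_eval2_reg {K : Type} [Field K] [Algebra k K] {v : Place k K} {z y : K}
    (hz : v.Reg z) (hy : v.Reg y) (P : k[X][X]) :
    v.Reg (P.eval₂ (aeval (R := k) z).toRingHom y) := by
  induction P using Polynomial.induction_on' with
  | add p q hp hq => rw [eval₂_add]; exact hp.add hq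
  | monomial n a =>
    rw [eval₂_monomial]
    exact (ell_fam_aeval_reg hz a).mul (hy.pow n)

/-- the elements of order at least `n` (all elements being regular) -/
private def ell_fam_ideal {R K : Type} [CommRing R] [Field K] [Algebra k K] (v : Place k K) (φ : R →+* K)
    (hφ : ∀ b, v.Reg (φ b)) (n : ℤ) : Ideal R where
  carrier := {b | φ b = 0 ∨ n ≤ v.ord (φ b)}
  add_mem' := by
    intro a b ha hb
    simp only [Set.mem_ofPred_eq, map_add] at *
    rcases ha with ha | ha
    · rw [ha, zero_add]; exact hb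
    rcases hb with hb | hb
    · rw [hb, add_zero]; exact Or.inr ha
    by_cases h1 : φ a = 0
    · rw [h1, zero_add]; exact Or.inr hb
    by_cases h2 : φ b = 0
    · rw [h2, add_zero]; exact Or.inr ha
    by_cases h3 : φ a + φ b = 0
    · exact Or.inl h3
    · exact Or.inr ((le_min ha hb).trans (v.ord_add _ _ h1 h2 h3))
  zero_mem' := by left; exact map_zero φ
  smul_mem' := by
    intro c b hb
    simp only [Set.mem_ofPred_eq, smul_eq_mul, map_mul] at *
    rcases hb with hb | hb
    · left; rw [hb, mul_zero]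
    by_cases h1 : φ c = 0
    · left; rw [h1, zero_mul]
    by_cases h2 : φ b = 0
    · left; rw [h2, mul_zero]
    right
    rw [v.ord_mul _ _ h1 h2]
    have h3 : 0 ≤ v.ord (φ c) := (hφ c).resolve_left h1
    linarith

private theorem ell_fam_pow_le {R K : Type} [CommRing R] [Field K] [Algebra k K] (v : Place k K) (φ : R →+* K)
    (hφ : ∀ b, v.Reg (φ b)) (s : ℤ) (I : Ideal R) (hI : I ≤ ell_fam_ideal v φ hφ s) (M : ℕ) :
    I ^ M ≤ ell_fam_ideal v φ hφ (M * s) := by
  induction M with
  | zero =>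
    intro b _
    by_cases h : φ b = 0
    · exact Or.inl h
    · right
      have := (hφ b).resolve_left h
      simpa using this
  | succ M ih =>
    rw [pow_succ]
    refine Ideal.mul_le.2 fun a ha b hb => ?_
    have h1 := ih ha
    have h2 := hI hb
    change φ (a * b) = 0 ∨ _ ≤ v.ord (φ (a * b))
    rw [map_mul]
    by_cases h3 : φ a = 0
    · left; rw [h3, zero_mul]
    by_cases h4 : φ b = 0
    · left; rw [h4, mul_zero]
    have h5 : (M : ℤ) * s ≤ v.ord (φ a) := Or.resolve_left h1 h3
    have h6 : s ≤ v.ord (φ b) := Or.resolve_left h2 h4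
    right
    rw [v.ord_mul _ _ h3 h4]
    push_cast
    linarith

private theorem ell_fam_ord_prod {K : Type} [Field K] [Algebra k K] (v : Place k K) {ι : Type} (t : Finset ι)
    (f : ι → K) (M : ι → ℕ) (hf : ∀ i, f i ≠ 0) :
    v.ord (∏ i ∈ t, f i ^ M i) = ∑ i ∈ t, (M i : ℤ) * v.ord (f i) := by
  classical
  induction t using Finset.induction_on with
  | empty => simp
  | insert a t ha ih =>
    rw [Finset.prod_insert ha, Finset.sum_insert ha, v.ord_mul _ _ (pow_ne_zero _ (hf a))
      (Finset.prod_ne_zero_iff.2 fun i _ => pow_ne_zero _ (hf i)), ih, v.ord_pow]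

private theorem ell_fam_prod_le {R K : Type} [CommRing R] [Field K] [Algebra k K] (v : Place k K) (φ : R →+* K)
    (hφ : ∀ b, v.Reg (φ b)) {ι : Type} (t : Finset ι) (I : ι → Ideal R) (s : ι → ℤ)
    (hI : ∀ i, I i ≤ ell_fam_ideal v φ hφ (s i)) : ∏ i ∈ t, I i ≤ ell_fam_ideal v φ hφ (∑ i ∈ t, s i) := by
  classical
  induction t using Finset.induction_on with
  | empty =>
    intro b _
    rw [Finset.sum_empty]
    exact hφ b
  | insert c t hc ih =>
    rw [Finset.prod_insert hc, Finset.sum_insert hc]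
    refine Ideal.mul_le.2 fun a ha b hb => ?_
    have h1 := hI c ha
    have h2 := ih hb
    change φ (a * b) = 0 ∨ _ ≤ v.ord (φ (a * b))
    rw [map_mul]
    by_cases h3 : φ a = 0
    · left; rw [h3, zero_mul]
    by_cases h4 : φ b = 0
    · left; rw [h4, mul_zero]
    have h5 : s c ≤ v.ord (φ a) := Or.resolve_left h1 h3
    have h6 : (∑ i ∈ t, s i) ≤ v.ord (φ b) := Or.resolve_left h2 h4
    right
    rw [v.ord_mul _ _ h3 h4]
    linarith

theorem ell_fam [CharZero k] (W : WeierstrassCurve.Affine k) (h1 : W.a₁ = 0) (h3 : W.a₃ = 0) {n : ℕ} (xs ys : Fin n → k)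
    (h : ∀ i, W.Nonsingular (xs i) (ys i)) (M : Fin n → ℕ)
    (hM : ∑ i, M i • (WeierstrassCurve.Affine.Point.some _ _ (h i)) = 0) {N : Type} [Field N] [Algebra k N] {X' Y' : N}
    (hX : Transcendental k X') (hE : Y' ^ 2 = X' ^ 3 + algebraMap k N W.a₂ * X' ^ 2 + algebraMap k N W.a₄ * X' +
      algebraMap k N W.a₆) :
    ∃ g : N, g ≠ 0 ∧ ∀ w : Place k N, (w.Reg X' → w.ord g = ∑ i, (M i : ℤ) * ee X' Y' w (xs i) (ys i)) ∧
      (¬ w.Reg X' → 2 * w.ord g = (∑ i, (M i : ℤ)) * w.ord X') := by
  obtain ⟨p, q, hpq, hgen, e, he, hnorm⟩ := ell_ideals W h1 h3 xs ys h M hM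
  -- the homomorphism
  have hroot : W.polynomial.eval₂ (aeval (R := k) X').toRingHom Y' = 0 := by
    rw [WeierstrassCurve.Affine.polynomial, h1, h3]
    simp only [C_0, zero_mul, add_zero, eval₂_add, eval₂_sub, eval₂_pow, eval₂_X, eval₂_C]
    simp only [AlgHom.toRingHom_eq_coe, RingHom.coe_coe, map_add, map_mul, map_pow, aeval_X, aeval_C]
    rw [hE]
    simp
  let φ : W.CoordinateRing →+* N := AdjoinRoot.lift (aeval (R := k) X').toRingHom Y' hroot
  have hφmk : ∀ P : k[X][X], φ (WeierstrassCurve.Affine.CoordinateRing.mk W P) =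
      P.eval₂ (aeval (R := k) X').toRingHom Y' := fun P => AdjoinRoot.lift_mk hroot P
  have hφa : φ (WeierstrassCurve.Affine.CoordinateRing.mk W (C p + C q * X)) = aeval X' p + aeval X' q * Y' := by
    rw [hφmk]
    simp [eval₂_add, eval₂_mul]
  have hφx : ∀ c : k, φ (WeierstrassCurve.Affine.CoordinateRing.mk W (C (X - C c))) = X' - algebraMap k N c := by
    intro c
    rw [hφmk]
    simp
  have hφy : ∀ c : k, φ (WeierstrassCurve.Affine.CoordinateRing.mk W (X - C (C c))) = Y' - algebraMap k N c := by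
    intro c
    rw [hφmk]
    simp [eval₂_sub]
  set g : N := aeval X' p + aeval X' q * Y' with hg
  have hxx : ∀ c : k, X' - algebraMap k N c ≠ 0 := by
    intro c hc
    refine hX ⟨X - C c, X_sub_C_ne_zero c, ?_⟩
    simpa using hc
  have hyy : ∀ c : k, Y' - algebraMap k N c ≠ 0 := by
    intro c hc
    have hdeg : (X ^ 3 + C W.a₂ * X ^ 2 + C W.a₄ * X + C (W.a₆ - c ^ 2) : k[X]).natDegree = 3 := by
      have := natDegree_cubic (a := (1 : k)) (b := W.a₂) (c := W.a₄) (d := W.a₆ - c ^ 2) one_ne_zero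
      simpa using this
    refine hX ⟨X ^ 3 + C W.a₂ * X ^ 2 + C W.a₄ * X + C (W.a₆ - c ^ 2), ?_, ?_⟩
    · intro h4
      rw [h4] at hdeg
      simp at hdeg
    · simp only [map_add, map_sub, map_mul, map_pow, aeval_X, aeval_C]
      have h4 : Y' = algebraMap k N c := sub_eq_zero.1 hc
      rw [h4] at hE
      linear_combination -hE
  have hprod : g * (aeval X' p - aeval X' q * Y') =
      algebraMap k N e * ∏ i, (X' - algebraMap k N (xs i)) ^ M i := by
    have h4 := congrArg (aeval X') hnorm
    simp only [map_sub, map_pow, map_mul, map_add, map_prod, aeval_X, aeval_C] at h4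
    rw [← hE] at h4
    rw [hg]
    linear_combination h4
  have hne' : ∏ i, (X' - algebraMap k N (xs i)) ^ M i ≠ 0 :=
    Finset.prod_ne_zero_iff.2 fun i _ => pow_ne_zero _ (hxx (xs i))
  have hne : algebraMap k N e * ∏ i, (X' - algebraMap k N (xs i)) ^ M i ≠ 0 :=
    mul_ne_zero ((_root_.map_ne_zero _).2 he) hne'
  have hg0 : g ≠ 0 := by
    intro h4
    rw [h4, zero_mul] at hprod
    exact hne hprod.symm
  refine ⟨g, hg0, fun w => ?_⟩
  -- regular case
  have hYreg : w.Reg X' → w.Reg Y' := by
    intro hr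
    have h4 : w.Reg (Y' ^ 2) := by
      rw [hE]
      exact (((hr.pow 3).add ((w.reg_const _).mul (hr.pow 2))).add ((w.reg_const _).mul hr)).add
        (w.reg_const _)
    rcases h4 with h4 | h4
    · exact Or.inl (pow_eq_zero_iff (two_ne_zero) |>.1 h4)
    · right
      rw [w.ord_pow] at h4
      push_cast at h4
      omega
  have hall : w.Reg X' → ∀ b, w.Reg (φ b) := by
    intro hr b
    obtain ⟨P, rfl⟩ := AdjoinRoot.mk_surjective b
    have h4 := ell_fam_eval2_reg hr (hYreg hr) P
    rw [← hφmk P] at h4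
    exact h4
  refine ⟨?_, ?_⟩
  · intro hr
    have hrx : ∀ c : k, w.Reg (X' - algebraMap k N c) := fun c => hr.sub (w.reg_const _)
    have hry : ∀ c : k, w.Reg (Y' - algebraMap k N c) := fun c => (hYreg hr).sub (w.reg_const _)
    -- the lower bound
    have hlow : ∀ i, ee X' Y' w (xs i) (ys i) ≤ w.ord (X' - algebraMap k N (xs i)) ∧
        ee X' Y' w (xs i) (ys i) ≤ w.ord (Y' - algebraMap k N (ys i)) := by
      intro i
      unfold ee
      split_ifs with h4
      · exact ⟨min_le_left _ _, min_le_right _ _⟩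
      · exact ⟨(hrx _).resolve_left (hxx _), (hry _).resolve_left (hyy _)⟩
    have hI : ∀ i, WeierstrassCurve.Affine.CoordinateRing.XYIdeal W (xs i) (C (ys i)) ^ M i ≤
        ell_fam_ideal w φ (hall hr) ((M i : ℤ) * ee X' Y' w (xs i) (ys i)) := by
      intro i
      refine ell_fam_pow_le w φ (hall hr) _ _ ?_ _
      rw [WeierstrassCurve.Affine.CoordinateRing.XYIdeal, Ideal.span_le]
      intro b hb
      rcases hb with rfl | hb
      · right
        rw [WeierstrassCurve.Affine.CoordinateRing.XClass, hφx]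
        exact (hlow i).1
      · rw [Set.mem_singleton_iff] at hb
        subst hb
        right
        rw [WeierstrassCurve.Affine.CoordinateRing.YClass, hφy]
        exact (hlow i).2
    have h4 := ell_fam_prod_le w φ (hall hr) Finset.univ _ _ hI hpq
    have h5 : ∑ i, (M i : ℤ) * ee X' Y' w (xs i) (ys i) ≤ w.ord g := by
      have h6 : φ (WeierstrassCurve.Affine.CoordinateRing.mk W (C p + C q * X)) = 0 ∨
        ∑ i, (M i : ℤ) * ee X' Y' w (xs i) (ys i) ≤
          w.ord (φ (WeierstrassCurve.Affine.CoordinateRing.mk W (C p + C q * X))) := h4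
      rw [hφa] at h6
      exact h6.resolve_left hg0
    refine le_antisymm ?_ h5
    -- the upper bound
    have hch : ∀ i, ∃ b : Bool, w.ord (if b then X' - algebraMap k N (xs i) else Y' - algebraMap k N (ys i)) =
        ee X' Y' w (xs i) (ys i) := by
      intro i
      unfold ee
      split_ifs with h6
      · rcases le_total (w.ord (X' - algebraMap k N (xs i))) (w.ord (Y' - algebraMap k N (ys i))) with h7 | h7
        · exact ⟨true, by rw [min_eq_left h7]; simp⟩
        · exact ⟨false, by rw [min_eq_right h7]; simp⟩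
      · by_cases h7 : w.Zer (X' - algebraMap k N (xs i))
        · have h8 : ¬ w.Zer (Y' - algebraMap k N (ys i)) := fun h8 => h6 ⟨h7, h8⟩
          exact ⟨false, by simpa using Place.ord_eq_zero_of_reg (hry _) h8⟩
        · exact ⟨true, by simpa using Place.ord_eq_zero_of_reg (hrx _) h7⟩
    choose s hs using hch
    obtain ⟨b, hb⟩ := hgen s
    have hb' : ∏ i, (if s i then X' - algebraMap k N (xs i) else Y' - algebraMap k N (ys i)) ^ M i = g * φ b := by
      have h6 := congrArg φ hb
      rw [map_mul, hφa, map_prod] at h6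
      rw [← h6]
      refine Finset.prod_congr rfl fun i _ => ?_
      rw [map_pow]
      congr 1
      split_ifs
      · exact (hφx _).symm
      · exact (hφy _).symm
    have hgne : ∀ i, (if s i then X' - algebraMap k N (xs i) else Y' - algebraMap k N (ys i)) ≠ 0 := by
      intro i
      split_ifs
      · exact hxx _
      · exact hyy _
    have hb0 : φ b ≠ 0 := by
      intro h6
      rw [h6, mul_zero] at hb'
      exact Finset.prod_ne_zero_iff.2 (fun i _ => pow_ne_zero _ (hgne i)) hb'
    have h6 := congrArg w.ord hb'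
    rw [ell_fam_ord_prod w _ _ _ hgne, w.ord_mul _ _ hg0 hb0] at h6
    have h7 := (hall hr b).resolve_left hb0
    have h8 : ∑ i, (M i : ℤ) * w.ord (if s i then X' - algebraMap k N (xs i) else Y' - algebraMap k N (ys i)) =
        ∑ i, (M i : ℤ) * ee X' Y' w (xs i) (ys i) := Finset.sum_congr rfl fun i _ => by rw [hs i]
    linarith
  · intro hnr
    have hX0 : X' ≠ 0 := fun h4 => hnr (Or.inl h4)
    have ho : w.ord X' < 0 := by
      by_contra h4
      exact hnr (Or.inr (not_lt.1 h4))
    have hcub : w.ord (Y' ^ 2) = 3 * w.ord X' ∧ Y' ^ 2 ≠ 0 := by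
      have hdeg : (X ^ 3 + C W.a₂ * X ^ 2 + C W.a₄ * X + C W.a₆ : k[X]).natDegree = 3 := by
        have := natDegree_cubic (a := (1 : k)) (b := W.a₂) (c := W.a₄) (d := W.a₆) one_ne_zero
        simpa using this
      have hne0 : (X ^ 3 + C W.a₂ * X ^ 2 + C W.a₄ * X + C W.a₆ : k[X]) ≠ 0 := by
        intro h4
        rw [h4] at hdeg
        simp at hdeg
      obtain ⟨h4, h5⟩ := ell_fam_pole ho _ _ le_rfl hne0
      have h6 : aeval X' (X ^ 3 + C W.a₂ * X ^ 2 + C W.a₄ * X + C W.a₆ : k[X]) = Y' ^ 2 := by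
        rw [hE]
        simp only [map_add, map_mul, map_pow, aeval_X, aeval_C]
      rw [h6] at h4 h5
      rw [hdeg] at h5
      exact ⟨by simpa using h5, h4⟩
    have hY0 : Y' ≠ 0 := fun h4 => hcub.2 (by rw [h4]; simp)
    have hYo : 2 * w.ord Y' = 3 * w.ord X' := by
      have h4 := hcub.1
      rw [w.ord_pow] at h4
      simpa using h4
    have hxo : ∀ c : k, w.ord (X' - algebraMap k N c) = w.ord X' := by
      intro c
      obtain ⟨_, h5⟩ := ell_fam_pole ho _ (X - C c) le_rfl (X_sub_C_ne_zero c)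
      simpa using h5
    have hg' : aeval X' p - aeval X' q * Y' ≠ 0 := by
      intro h4
      rw [h4, mul_zero] at hprod
      exact hne hprod.symm
    have hsum := congrArg w.ord hprod
    rw [w.ord_mul _ _ hg0 hg', w.ord_mul _ _ ((_root_.map_ne_zero _).2 he) hne',
      w.ord_const e he, ell_fam_ord_prod w _ _ _ (fun i => hxx (xs i)), zero_add] at hsum
    have hsum' : ∑ i, (M i : ℤ) * w.ord (X' - algebraMap k N (xs i)) = (∑ i, (M i : ℤ)) * w.ord X' := by
      rw [Finset.sum_mul]
      exact Finset.sum_congr rfl fun i _ => by rw [hxo]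
    rw [hsum'] at hsum
    have hsame : w.ord (aeval X' p - aeval X' q * Y') = w.ord g := by
      by_cases hp : p = 0
      · rw [hg, hp, map_zero, zero_add, zero_sub, w.ord_neg]
      by_cases hq : q = 0
      · rw [hg, hq, map_zero, zero_mul, sub_zero, add_zero]
      obtain ⟨hp0, hpo⟩ := ell_fam_pole ho _ p le_rfl hp
      obtain ⟨hq0, hqo⟩ := ell_fam_pole ho _ q le_rfl hq
      have hqY0 : aeval X' q * Y' ≠ 0 := mul_ne_zero hq0 hY0
      have hqYo : w.ord (aeval X' q * Y') = q.natDegree * w.ord X' + w.ord Y' := by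
        rw [w.ord_mul _ _ hq0 hY0, hqo]
      have hneg0 : -(aeval X' q * Y') ≠ 0 := neg_ne_zero.2 hqY0
      rcases lt_trichotomy (w.ord (aeval X' p)) (w.ord (aeval X' q * Y')) with hlt | heq | hgt
      · rw [hg, (w.ord_add_of_lt hp0 hqY0 hlt).2, sub_eq_add_neg,
          (w.ord_add_of_lt hp0 hneg0 (by rwa [w.ord_neg])).2]
      · exfalso
        rw [hqYo, hpo] at heq
        have h4 : (2 * (p.natDegree : ℤ) - 2 * q.natDegree - 3) * w.ord X' = 0 := by linarith
        rcases mul_eq_zero.1 h4 with h5 | h5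
        · omega
        · omega
      · rw [hg, add_comm, (w.ord_add_of_lt hqY0 hp0 hgt).2, sub_eq_add_neg, add_comm,
          (w.ord_add_of_lt hneg0 hp0 (by rwa [w.ord_neg])).2, w.ord_neg]
    rw [hsame] at hsum
    linarith

/-! ### `ee` and negation -/

private theorem B5_sub_ne {N : Type} [Field N] [Algebra k N] {X' : N} (hX : Transcendental k X') (x₀ : k) :
    X' - algebraMap k N x₀ ≠ 0 := by
  intro h
  rw [sub_eq_zero.1 h] at hX
  exact hX (isAlgebraic_algebraMap x₀)

private theorem B5_Y_ne (W : WeierstrassCurve.Affine k) {N : Type} [Field N] [Algebra k N] {X' Y' : N}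
    (hX : Transcendental k X') (hE : Y' ^ 2 = X' ^ 3 + algebraMap k N W.a₂ * X' ^ 2 + algebraMap k N W.a₄ * X' +
      algebraMap k N W.a₆) (y₀ : k) : Y' - algebraMap k N y₀ ≠ 0 := by
  intro h
  rw [sub_eq_zero.1 h] at hE
  obtain ⟨d, hd⟩ : ∃ d : k, d = W.a₆ - y₀ ^ 2 := ⟨_, rfl⟩
  have hp : (X ^ 3 + C W.a₂ * X ^ 2 + C W.a₄ * X + C d : k[X]) ≠ 0 := by
    intro h0
    have h1 := congrArg (fun p : k[X] => p.coeff 3) h0
    simp [coeff_X, coeff_C] at h1
  apply hX
  refine ⟨_, hp, ?_⟩
  simp only [map_add, map_mul, map_pow, aeval_X, aeval_C]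
  rw [hd, map_sub, map_pow]
  linear_combination -hE

theorem ee_add [CharZero k] (W : WeierstrassCurve.Affine k) (h1 : W.a₁ = 0) (h3 : W.a₃ = 0) {x₀ y₀ : k}
    (h : W.Nonsingular x₀ y₀) {N : Type} [Field N] [Algebra k N] {X' Y' : N}
    (hX : Transcendental k X') (hE : Y' ^ 2 = X' ^ 3 + algebraMap k N W.a₂ * X' ^ 2 + algebraMap k N W.a₄ * X' +
      algebraMap k N W.a₆) (w : Place k N) (hw : w.Reg X') :
    w.ord (X' - algebraMap k N x₀) = ee X' Y' w x₀ y₀ + ee X' Y' w x₀ (-y₀) := by
  have hXn := B5_sub_ne hX x₀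
  have hYp := B5_Y_ne W hX hE y₀
  have hYm := B5_Y_ne W hX hE (-y₀)
  obtain ⟨heq, hns⟩ := (W.nonsingular_iff x₀ y₀).1 h
  rw [W.equation_iff] at heq
  rw [h1, h3] at heq hns
  have hYr : w.Reg Y' := by
    have h5 : w.Reg (Y' ^ 2) := by
      rw [hE]
      exact (((hw.pow 3).add ((w.reg_const _).mul (hw.pow 2))).add ((w.reg_const _).mul hw)).add (w.reg_const _)
    rcases h5 with h5 | h5
    · left
      exact pow_eq_zero_iff (two_ne_zero) |>.1 h5
    · right
      rw [w.ord_pow] at h5
      push_cast at h5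
      linarith
  obtain ⟨H, hH⟩ : ∃ H : N, H = X' ^ 2 + X' * algebraMap k N x₀ + algebraMap k N x₀ ^ 2 +
      algebraMap k N W.a₂ * (X' + algebraMap k N x₀) + algebraMap k N W.a₄ := ⟨_, rfl⟩
  have hHr : w.Reg H := by
    rw [hH, ← map_pow]
    exact ((((hw.pow 2).add (hw.mul (w.reg_const _))).add (w.reg_const _)).add
      ((w.reg_const _).mul (hw.add (w.reg_const _)))).add (w.reg_const _)
  have heq' : algebraMap k N y₀ ^ 2 = algebraMap k N x₀ ^ 3 + algebraMap k N W.a₂ * algebraMap k N x₀ ^ 2 +
      algebraMap k N W.a₄ * algebraMap k N x₀ + algebraMap k N W.a₆ := by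
    simp only [← map_pow, ← map_mul, ← map_add]
    congr 1
    linear_combination heq
  have hprod : (Y' - algebraMap k N y₀) * (Y' - algebraMap k N (-y₀)) = (X' - algebraMap k N x₀) * H := by
    rw [hH, map_neg]
    linear_combination hE - heq'
  have hH0 : H ≠ 0 := by
    rintro rfl
    rw [mul_zero] at hprod
    exact (mul_ne_zero hYp hYm) hprod
  have hord : w.ord (Y' - algebraMap k N y₀) + w.ord (Y' - algebraMap k N (-y₀)) =
      w.ord (X' - algebraMap k N x₀) + w.ord H := by
    rw [← w.ord_mul _ _ hYp hYm, hprod, w.ord_mul _ _ hXn hH0]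
  have hnn : ∀ f : N, f ≠ 0 → w.Reg f → 0 ≤ w.ord f := fun f hf hr => hr.resolve_left hf
  have hzz : ∀ f : N, f ≠ 0 → (w.Zer f ↔ 0 < w.ord f) := fun f hf => ⟨fun hz => hz.resolve_left hf, fun hz => Or.inr hz⟩
  have nX := hnn _ hXn (hw.sub (w.reg_const _))
  have nP := hnn _ hYp (hYr.sub (w.reg_const _))
  have nM := hnn _ hYm (hYr.sub (w.reg_const _))
  have nH := hnn _ hH0 hHr
  unfold ee
  rw [hzz _ hXn, hzz _ hYp, hzz _ hYm]
  by_cases hx : 0 < w.ord (X' - algebraMap k N x₀)
  · by_cases hy : y₀ = 0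
    · subst hy
      have hH1 : w.ord H = 0 := by
        by_contra hne
        have hpos : 0 < w.ord H := lt_of_le_of_ne nH (Ne.symm hne)
        have hval : w.Zer (H - algebraMap k N (3 * x₀ ^ 2 + 2 * W.a₂ * x₀ + W.a₄)) := by
          have e : H - algebraMap k N (3 * x₀ ^ 2 + 2 * W.a₂ * x₀ + W.a₄) =
              (X' - algebraMap k N x₀) * (X' + 2 * algebraMap k N x₀ + algebraMap k N W.a₂) := by
            rw [hH]
            simp only [map_add, map_mul, map_pow, map_ofNat]
            ring
          rw [e]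
          refine Place.Zer.mul_reg (Or.inr hx) ?_
          have e2 : (2 : N) * algebraMap k N x₀ = algebraMap k N (2 * x₀) := by
            rw [map_mul, map_ofNat]
          rw [e2]
          exact (hw.add (w.reg_const _)).add (w.reg_const _)
        have hc : w.Zer (algebraMap k N (3 * x₀ ^ 2 + 2 * W.a₂ * x₀ + W.a₄)) := by
          have := Place.Zer.sub (Or.inr hpos : w.Zer H) hval
          rwa [sub_sub_cancel] at this
        have hc0 : 3 * x₀ ^ 2 + 2 * W.a₂ * x₀ + W.a₄ = 0 := by
          by_contra hne2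
          rcases hc with hc | hc
          · exact hne2 ((map_eq_zero _).1 hc)
          · rw [w.ord_const _ hne2] at hc
            exact lt_irrefl _ hc
        rcases hns with hns | hns
        · apply hns
          rw [hc0]
          ring
        · apply hns
          ring
      rw [neg_zero] at hord ⊢
      have h6 : 0 < w.ord (Y' - algebraMap k N 0) := by omega
      rw [if_pos ⟨hx, h6⟩, min_eq_right (by omega)]
      omega
    · have hnot : ¬ (0 < w.ord (Y' - algebraMap k N y₀) ∧ 0 < w.ord (Y' - algebraMap k N (-y₀))) := by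
        rintro ⟨h6, h7⟩
        have h8 := Place.Zer.sub (Or.inr h7 : w.Zer (Y' - algebraMap k N (-y₀))) (Or.inr h6)
        have e : Y' - algebraMap k N (-y₀) - (Y' - algebraMap k N y₀) = algebraMap k N (2 * y₀) := by
          rw [map_neg, map_mul, map_ofNat]
          ring
        rw [e] at h8
        have h9 : 2 * y₀ ≠ 0 := mul_ne_zero two_ne_zero hy
        rcases h8 with h8 | h8
        · exact h9 ((map_eq_zero _).1 h8)
        · rw [w.ord_const _ h9] at h8
          exact lt_irrefl _ h8
      by_cases h6 : 0 < w.ord (Y' - algebraMap k N y₀)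
      · have h7 : ¬ 0 < w.ord (Y' - algebraMap k N (-y₀)) := fun h7 => hnot ⟨h6, h7⟩
        rw [if_pos ⟨hx, h6⟩, if_neg fun h => h7 h.2, min_eq_left (by omega)]
        omega
      · have h7 : 0 < w.ord (Y' - algebraMap k N (-y₀)) := by omega
        rw [if_neg fun h => h6 h.2, if_pos ⟨hx, h7⟩, min_eq_left (by omega)]
        omega
  · rw [if_neg fun h => hx h.1, if_neg fun h => hx h.1]
    omega

private theorem B5_neg (W : WeierstrassCurve.Affine k) (h1 : W.a₁ = 0) (h3 : W.a₃ = 0) {x₀ y₀ : k}
    (h : W.Nonsingular x₀ y₀) : ∃ h' : W.Nonsingular x₀ (-y₀),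
      WeierstrassCurve.Affine.Point.some _ _ h' = -WeierstrassCurve.Affine.Point.some _ _ h := by
  have e : W.negY x₀ y₀ = -y₀ := by
    unfold WeierstrassCurve.Affine.negY
    rw [h1, h3]
    ring
  have h' : W.Nonsingular x₀ (W.negY x₀ y₀) := (W.nonsingular_neg x₀ y₀).2 h
  have h'' : W.Nonsingular x₀ (-y₀) := by rwa [e] at h'
  refine ⟨h'', ?_⟩
  rw [WeierstrassCurve.Affine.Point.neg_some]
  congr 1
  exact e.symm

private theorem B5_ord_prod {N : Type} [Field N] [Algebra k N] (w : Place k N) {ι : Type} (s : Finset ι) (f : ι → N)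
    (hf : ∀ i ∈ s, f i ≠ 0) : w.ord (∏ i ∈ s, f i) = ∑ i ∈ s, w.ord (f i) := by
  induction s using Finset.induction_on with
  | empty => rw [Finset.prod_empty, Finset.sum_empty, w.ord_one]
  | insert a s ha ih =>
    rw [Finset.prod_insert ha, Finset.sum_insert ha, w.ord_mul _ _ (hf a (Finset.mem_insert_self _ _))
      (Finset.prod_ne_zero_iff.2 fun i hi => hf i (Finset.mem_insert_of_mem hi)),
      ih fun i hi => hf i (Finset.mem_insert_of_mem hi)]

theorem ell_famZ [CharZero k] (W : WeierstrassCurve.Affine k) (h1 : W.a₁ = 0) (h3 : W.a₃ = 0) {n : ℕ} (xs ys : Fin n → k)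
    (h : ∀ i, W.Nonsingular (xs i) (ys i)) (m : Fin n → ℤ)
    (hM : ∑ i, m i • (WeierstrassCurve.Affine.Point.some _ _ (h i)) = 0) {N : Type} [Field N] [Algebra k N] {X' Y' : N}
    (hX : Transcendental k X') (hE : Y' ^ 2 = X' ^ 3 + algebraMap k N W.a₂ * X' ^ 2 + algebraMap k N W.a₄ * X' +
      algebraMap k N W.a₆) :
    ∃ g : N, g ≠ 0 ∧ ∀ w : Place k N, (w.Reg X' → w.ord g = ∑ i, m i * ee X' Y' w (xs i) (ys i)) ∧
      (¬ w.Reg X' → 2 * w.ord g = (∑ i, m i) * w.ord X') := by
  have h' : ∀ i, W.Nonsingular (xs i) (if m i < 0 then -ys i else ys i) := by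
    intro i
    split_ifs
    · exact (B5_neg W h1 h3 (h i)).1
    · exact h i
  have hs : ∀ i, (m i).natAbs • (WeierstrassCurve.Affine.Point.some _ _ (h' i)) =
      m i • (WeierstrassCurve.Affine.Point.some _ _ (h i)) := by
    intro i
    by_cases hm : m i < 0
    · obtain ⟨h4, h5⟩ := B5_neg W h1 h3 (h i)
      have e : WeierstrassCurve.Affine.Point.some _ _ (h' i) = WeierstrassCurve.Affine.Point.some _ _ h4 := by
        congr 1
        exact if_pos hm
      have h7 : ((m i).natAbs : ℤ) = -m i := by omega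
      rw [e, h5, ← natCast_zsmul, h7, smul_neg, neg_smul, neg_neg]
    · have e : WeierstrassCurve.Affine.Point.some _ _ (h' i) = WeierstrassCurve.Affine.Point.some _ _ (h i) := by
        congr 1
        exact if_neg hm
      rw [e, ← natCast_zsmul, Int.natAbs_of_nonneg (by omega)]
  obtain ⟨g₀, hg0, hg⟩ := ell_fam W h1 h3 xs _ h' (fun i => (m i).natAbs)
    (by rw [← hM]; exact Finset.sum_congr rfl fun i _ => hs i) hX hE
  refine ⟨g₀ * ∏ i, (X' - algebraMap k N (xs i)) ^ (if m i < 0 then m i else 0), ?_, ?_⟩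
  · refine mul_ne_zero hg0 (Finset.prod_ne_zero_iff.2 fun i _ => zpow_ne_zero _ (B5_sub_ne hX _))
  · intro w
    have hord : w.ord (g₀ * ∏ i, (X' - algebraMap k N (xs i)) ^ (if m i < 0 then m i else 0)) =
        w.ord g₀ + ∑ i, (if m i < 0 then m i else 0) * w.ord (X' - algebraMap k N (xs i)) := by
      rw [w.ord_mul _ _ hg0 (Finset.prod_ne_zero_iff.2 fun i _ => zpow_ne_zero _ (B5_sub_ne hX _)),
        B5_ord_prod w _ _ fun i _ => zpow_ne_zero _ (B5_sub_ne hX _)]
      congr 1
      exact Finset.sum_congr rfl fun i _ => w.ord_zpow _ _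
    refine ⟨fun hr => ?_, fun hr => ?_⟩
    · rw [hord, (hg w).1 hr, ← Finset.sum_add_distrib]
      refine Finset.sum_congr rfl fun i _ => ?_
      have h6 := ee_add W h1 h3 (h i) hX hE w hr
      by_cases hm : m i < 0
      · simp only [if_pos hm]
        rw [h6]
        have h7 : ((m i).natAbs : ℤ) = -m i := by omega
        rw [h7]
        ring
      · simp only [if_neg hm]
        have h7 : ((m i).natAbs : ℤ) = m i := by omega
        rw [h7]
        ring
    · have hpole : ∀ x₀ : k, w.ord (X' - algebraMap k N x₀) = w.ord X' := by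
        intro x₀
        have hX0 : X' ≠ 0 := fun h0 => hr (Or.inl h0)
        have hneg : w.ord X' < 0 := by
          by_contra h0
          exact hr (Or.inr (not_lt.1 h0))
        by_cases hx : x₀ = 0
        · rw [hx, map_zero, sub_zero]
        · have hx' : algebraMap k N x₀ ≠ 0 := (_root_.map_ne_zero _).2 hx
          have h8 := w.ord_add_of_lt hX0 (neg_ne_zero.2 hx') (by
            rw [w.ord_neg, w.ord_const _ hx]
            exact hneg)
          rw [sub_eq_add_neg]
          exact h8.2
      rw [hord, mul_add, (hg w).2 hr, Finset.mul_sum, Finset.sum_mul, Finset.sum_mul, ← Finset.sum_add_distrib]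
      refine Finset.sum_congr rfl fun i _ => ?_
      rw [hpole]
      by_cases hm : m i < 0
      · simp only [if_pos hm]
        have h7 : ((m i).natAbs : ℤ) = -m i := by omega
        rw [h7]
        ring
      · simp only [if_neg hm]
        have h7 : ((m i).natAbs : ℤ) = m i := by omega
        rw [h7]
        ring

theorem ell_pts [CharZero k] (W : WeierstrassCurve.Affine k) (h1 : W.a₁ = 0) (h3 : W.a₃ = 0) {n : ℕ} (P : Fin n → W.Point)
    (m : Fin n → ℤ) (hm : ∑ i, m i = 0) (hM : ∑ i, m i • P i = 0) {N : Type} [Field N] [Algebra k N] {X' Y' : N}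
    (hX : Transcendental k X') (hE : Y' ^ 2 = X' ^ 3 + algebraMap k N W.a₂ * X' ^ 2 + algebraMap k N W.a₄ * X' +
      algebraMap k N W.a₆) :
    ∃ g : N, g ≠ 0 ∧ ∀ w : Place k N, 2 * w.ord g = ∑ i, m i * eE X' Y' w (P i) := by
  by_cases hall : ∀ i, P i = 0
  · refine ⟨1, one_ne_zero, fun w => ?_⟩
    rw [w.ord_one, mul_zero]
    have h4 : ∀ i ∈ Finset.univ, m i * eE X' Y' w (P i) = m i * eE X' Y' w (0 : W.Point) := fun i _ => by rw [hall i]
    rw [Finset.sum_congr rfl h4, ← Finset.sum_mul, hm, zero_mul]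
  · push_neg at hall
    obtain ⟨i₀, hi₀⟩ := hall
    obtain ⟨x₁, y₁, hP₁, -⟩ : ∃ (x₁ y₁ : k) (hP₁ : W.Nonsingular x₁ y₁), P i₀ = .some _ _ hP₁ := by
      rcases hP : P i₀ with _ | ⟨x₁, y₁, hP₁⟩
      · exact absurd hP hi₀
      · exact ⟨x₁, y₁, hP₁, rfl⟩
    have hch : ∀ i, ∃ (x₀ y₀ : k) (hP : W.Nonsingular x₀ y₀), P i = 0 ∨ P i = .some _ _ hP := by
      intro i
      rcases hP : P i with _ | ⟨x₀, y₀, hP'⟩
      · exact ⟨x₁, y₁, hP₁, Or.inl rfl⟩
      · exact ⟨x₀, y₀, hP', Or.inr rfl⟩
    choose xs ys hn hd using hch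
    obtain ⟨g, hg0, hg⟩ := ell_famZ W h1 h3 xs ys hn (fun i => if P i = 0 then 0 else m i) (by
      refine Eq.trans (Finset.sum_congr rfl fun i _ => ?_) hM
      by_cases h0 : P i = 0
      · rw [if_pos h0, h0, zero_smul, smul_zero]
      · rw [if_neg h0, (hd i).resolve_left h0]) hX hE
    refine ⟨g, hg0, fun w => ?_⟩
    by_cases hr : w.Reg X'
    · rw [(hg w).1 hr, Finset.mul_sum]
      refine Finset.sum_congr rfl fun i _ => ?_
      by_cases h0 : P i = 0
      · simp only [if_pos h0]
        have h5 : eE X' Y' w (P i) = 0 := by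
          rw [h0]
          exact if_pos hr
        rw [h5]
        ring
      · simp only [if_neg h0]
        have h5 : eE X' Y' w (P i) = 2 * ee X' Y' w (xs i) (ys i) := by
          rw [(hd i).resolve_left h0]
          rfl
        rw [h5]
        ring
    · rw [(hg w).2 hr]
      have h6 : ∑ i, (if P i = 0 then 0 else m i) = -∑ i, (if P i = 0 then m i else 0) := by
        have e : ∑ i, (if P i = 0 then 0 else m i) + ∑ i, (if P i = 0 then m i else 0) = ∑ i, m i := by
          rw [← Finset.sum_add_distrib]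
          refine Finset.sum_congr rfl fun i _ => ?_
          split_ifs
          · rw [zero_add]
          · rw [add_zero]
        linarith
      rw [h6, neg_mul, Finset.sum_mul, ← Finset.sum_neg_distrib]
      refine Finset.sum_congr rfl fun i _ => ?_
      by_cases h0 : P i = 0
      · have h5 : eE X' Y' w (P i) = -w.ord X' := by
          rw [h0]
          exact if_neg hr
        rw [if_pos h0, h5]
        ring
      · have h5 : eE X' Y' w (P i) = 0 := by
          rw [(hd i).resolve_left h0]
          change 2 * ee X' Y' w (xs i) (ys i) = 0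
          unfold ee
          rw [if_neg, mul_zero]
          rintro ⟨h7, -⟩
          apply hr
          have h8 : w.Reg (X' - algebraMap k N (xs i) + algebraMap k N (xs i)) := h7.reg.add (w.reg_const _)
          rwa [sub_add_cancel] at h8
        rw [if_neg h0, h5]
        ring

end Pool.Agent.LibSX77
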