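import Pool.Agent.LibSX77.B2
import Pool.Agent.LibSX77.B3
import Pool.Agent.LibSX77.B5
import Pool.Agent.LibCV66.J10
import Pool.Agent.LibCW77.D1
import Pool.Agent.LibCW77.D3
import Pool.Agent.LibCW77.D6

/-!
[SY77 B6] Principal divisors. `deg_zero`: the first component of `LibCV66.abel` (`Ω = k`; `tot` is the sum of `ord • (1, ev)`; an element of finite order of
`ℤ` is `0`; a place `w` of `N` has exactly one homomorphism `RF w →ₐ[k] k`, because `algebraMap k (RF w)` is bijective: `placeC`, `cen_exists`, see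
`FG3.lean`), any elliptic curve and `z = 0`, e.g. `Er` of `r` with `r ≠ 0`, `r ^ 2 ≠ 1` (`er_ell` in FG0). `div_cls`: `div_rel` (D1) with `u = gpt x v`, `m = 1`, `d = 0`; the cycle class at `w` is
that of the centre (`algebraMap k (RF w)` is bijective: `cls` of `pt1 (ctp (RF w) Q)` is `cls` of `pt1 Q`). `deg_const`: `D(P) = ∑ᶠ w, eE w P` is `≥ 0` (each term is), finite support (`fin_zero` in D6); for
`P`, `P'`: the function of `ell_pts` for `(P) + (P') - (P + P') - (0)` has degree `0`, so `h(P) = D(P) - D(0)` is additive, and it is bounded from below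
by `- D(0)`; so `h = 0` (`n h(P) = h(n P) ≥ - D(0)` for all `n`, also for `- P`). `D > 0`: a place at a point with `PiE = 0` (`exists_O`, `cen_unr`).
-/

open scoped Classical
open Polynomial

namespace Pool.Agent.LibSX77

open Pool.Agent.LibBH2
open Pool.Agent.LibCHd (VR RF Red FunF)
open Pool.Agent.LibCW77

variable {k : Type} [Field k]

private theorem B6a_one [IsAlgClosed k] {N : Type} [Field N] [Algebra k N] (hF : FunF k 1 N) (w : Place k N) :
    Module.finrank k (RF w) = 1 := by
  have hs := res_k hF w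
  have e := LinearEquiv.ofBijective (Algebra.linearMap k (RF w)) ⟨(algebraMap k (RF w)).injective, hs⟩
  rw [← e.finrank_eq]
  exact Module.finrank_self k

/-- `qc` as a homomorphism -/
private noncomputable def B6a_qh (c : Dat k) (m d : ℕ) : CH c m d →+ CHQ c m d := qt (CH c m d)

private theorem B6a_cls [IsAlgClosed k] {c : Dat k} {N : Type} [Field N] [Algebra k N] (hF : FunF k 1 N)
    (w : Place k N) (Q : Fin 2 → Option k) : cls c 0 (pt1 (ctp (RF w) Q)) = cls c 0 (pt1 Q) := by
  have h0 : mpP (Algebra.ofId k (RF w)) (pt1 Q) = pt1 (ctp (RF w) Q) := rfl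
  rw [← h0, cls_map]
  have h1 : Function.Surjective (algebraMap k (RF w)) := res_k hF w
  have h2 : (Algebra.ofId k (RF w)).fieldRange = ⊤ := by
    rw [eq_top_iff]
    intro z _
    obtain ⟨a, rfl⟩ := h1 z
    exact ⟨a, rfl⟩
  have h3 : Module.finrank (Algebra.ofId k (RF w)).fieldRange (RF w) = 1 := by
    rw [h2]
    exact IntermediateField.finrank_top
  rw [h3]
  simp

theorem deg_zero [IsAlgClosed k] [CharZero k] {c : Dat k} (hc : c.Good) {N : Type} [Field N] [Algebra k N] {x v : N}
    (hg : GenC c x v) {f : N} (hf : f ≠ 0) :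
    {w : Place k N | w.ord f ≠ 0}.Finite ∧ ∑ᶠ w : Place k N, w.ord f = 0 := by
  have hF := (genC_funF hc hg).1
  have hfin := fin_zero hF f
  refine ⟨hfin, ?_⟩
  have h2 := Pool.Agent.LibHL77.sum_formula' hF f hfin.toFinset (fun v hv => hfin.mem_toFinset.2 hv)
  have h3 : (Function.support fun w : Place k N => w.ord f) ⊆ hfin.toFinset := by
    intro w hw
    rw [Finset.mem_coe, Set.Finite.mem_toFinset]
    exact hw
  rw [finsum_eq_sum_of_support_subset _ h3]
  refine Eq.trans (Finset.sum_congr rfl fun w _ => ?_) h2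
  rw [B6a_one hF w, Nat.cast_one, mul_one]

theorem div_cls [IsAlgClosed k] [CharZero k] {c : Dat k} (hc : c.Good) {N : Type} [Field N] [Algebra k N] {x v : N}
    (hg : GenC c x v) {f : N} (hf : f ≠ 0) (Qw : Place k N → Fin 2 → Option k) (hQ : ∀ w, Cen x v w (Qw w)) :
    ∑ᶠ w : Place k N, w.ord f • qc (cls c 0 (pt1 (Qw w))) = 0 := by
  have hF := (genC_funF hc hg).1
  have hfin := fin_zero hF f
  have hrel := div_rel c 1 0 hF (gpt x v) (fun _ => hg.on) f hf hfin.toFinset
    (fun p => pt1 (ctp (RF p) (Qw p))) (fun p => hQ p)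
    (fun p _ => Pool.Agent.LibHL77.res_finite hF p)
    (fun p hp h1 _ => absurd (hfin.mem_toFinset.2 h1) hp)
  have h3 : (Function.support fun w : Place k N => w.ord f • qc (cls c 0 (pt1 (Qw w)))) ⊆ hfin.toFinset := by
    intro w hw
    rw [Finset.mem_coe, Set.Finite.mem_toFinset]
    intro h0
    apply hw
    show w.ord f • qc (cls c 0 (pt1 (Qw w))) = 0
    rw [h0, zero_smul]
  rw [finsum_eq_sum_of_support_subset _ h3]
  have h4 : B6a_qh c 1 0 (∑ w ∈ hfin.toFinset, w.ord f • cls c 0 (pt1 (ctp (RF w) (Qw w)))) = 0 := by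
    rw [hrel, map_zero]
  rw [map_sum] at h4
  refine Eq.trans (Finset.sum_congr rfl fun w _ => ?_) h4
  rw [map_zsmul, B6a_cls hF w]
  rfl

theorem eE_nonneg {W : WeierstrassCurve.Affine k} {N : Type} [Field N] [Algebra k N] (X Y : N) (w : Place k N)
    (P : W.Point) : 0 ≤ eE X Y w P := by
  rcases P with _ | ⟨x₀, y₀, hP⟩
  · change 0 ≤ if w.Reg X then 0 else -w.ord X
    by_cases h : w.Reg X
    · rw [if_pos h]
    · rw [if_neg h]
      unfold Place.Reg at h
      push_neg at h
      linarith [h.2]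
  · change 0 ≤ 2 * ee X Y w x₀ y₀
    unfold ee
    by_cases h : w.Zer (X - algebraMap k N x₀) ∧ w.Zer (Y - algebraMap k N y₀)
    · rw [if_pos h]
      have hz : ∀ f : N, w.Zer f → 0 ≤ w.ord f := by
        rintro f (rfl | hf)
        · rw [w.ord_zero]
        · exact hf.le
      have := le_min (hz _ h.1) (hz _ h.2)
      linarith
    · rw [if_neg h]
      norm_num

theorem deg_const [IsAlgClosed k] [CharZero k] {α : k} (hc : (fam α).Good) {N : Type} [Field N] [Algebra k N] {x v : N}
    (hg : GenC (fam α) x v) :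
    ∃ d : ℤ, 0 < d ∧ ∀ P : (Er (rr α)).Point, {w : Place k N | eE (cX α x v) (cY α x v) w P ≠ 0}.Finite ∧
      ∑ᶠ w : Place k N, eE (cX α x v) (cY α x v) w P = d := by
  obtain ⟨hX, hE⟩ := fam_gen hc hg
  have hX0 : cX α x v ≠ 0 := by
    intro h
    rw [h] at hX
    exact hX (isAlgebraic_zero)
  have hXc : ∀ x₀ : k, cX α x v - algebraMap k N x₀ ≠ 0 := by
    intro x₀ h
    rw [sub_eq_zero.1 h] at hX
    exact hX (isAlgebraic_algebraMap x₀)
  have hfin : ∀ P : (Er (rr α)).Point, {w : Place k N | eE (cX α x v) (cY α x v) w P ≠ 0}.Finite := by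
    intro P
    rcases P with _ | ⟨x₀, y₀, hP⟩
    · refine (deg_zero hc hg hX0).1.subset ?_
      intro w hw h0
      apply hw
      change (if w.Reg (cX α x v) then 0 else -w.ord (cX α x v)) = 0
      rw [h0]
      simp
    · refine (deg_zero hc hg (hXc x₀)).1.subset ?_
      intro w hw h0
      apply hw
      change 2 * ee (cX α x v) (cY α x v) w x₀ y₀ = 0
      unfold ee
      rw [if_neg, mul_zero]
      rintro ⟨h1 | h1, -⟩
      · exact hXc x₀ h1
      · rw [h0] at h1
        exact lt_irrefl _ h1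
  obtain ⟨D, hD⟩ : ∃ D : (Er (rr α)).Point → ℤ, ∀ P, D P = ∑ᶠ w : Place k N, eE (cX α x v) (cY α x v) w P :=
    ⟨_, fun P => rfl⟩
  have hD0 : ∀ P, 0 ≤ D P := by
    intro P
    rw [hD]
    exact finsum_nonneg fun w => eE_nonneg _ _ w P
  have hadd : ∀ P P' : (Er (rr α)).Point, D P + D P' - D (P + P') - D 0 = 0 := by
    intro P P'
    obtain ⟨g, hg0, hg1⟩ := ell_pts (Er (rr α)) rfl rfl ![P, P', P + P', 0] ![1, 1, -1, -1]
      (by simp [Fin.sum_univ_four]) (by
        simp only [Fin.sum_univ_four, Matrix.cons_val]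
        simp
        abel) hX hE
    have h1 : ∀ w : Place k N, eE (cX α x v) (cY α x v) w P + eE (cX α x v) (cY α x v) w P' -
        eE (cX α x v) (cY α x v) w (P + P') - eE (cX α x v) (cY α x v) w (0 : (Er (rr α)).Point) = 2 * w.ord g := by
      intro w
      rw [hg1 w]
      simp only [Fin.sum_univ_four, Matrix.cons_val]
      ring
    have h2 : D P + D P' - D (P + P') - D 0 = ∑ᶠ w : Place k N, 2 * w.ord g := by
      rw [← finsum_congr h1, hD, hD, hD, hD, finsum_sub_distrib, finsum_sub_distrib, finsum_add_distrib]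
      · exact hfin _
      · exact hfin _
      · exact (hfin P).union (hfin P') |>.subset (by
          intro w hw
          by_contra h
          simp only [Set.mem_union, Set.mem_setOf_eq, not_or, not_not] at h
          apply hw
          simp [h.1, h.2])
      · exact hfin _
      · refine (((hfin P).union (hfin P')).union (hfin (P + P'))).subset ?_
        intro w hw
        by_contra h
        simp only [Set.mem_union, Set.mem_setOf_eq, not_or, not_not] at h
        apply hw
        simp [h.1.1, h.1.2, h.2]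
      · exact hfin _
    obtain ⟨h3, h4⟩ := deg_zero hc hg hg0
    rw [h2]
    have h5 : ∑ᶠ w : Place k N, 2 * w.ord g = 2 * ∑ᶠ w : Place k N, w.ord g := by
      rw [mul_finsum]
    rw [h5, h4, mul_zero]
  let h : (Er (rr α)).Point →+ ℤ := AddMonoidHom.mk' (fun P => D P - D 0) (fun P P' => by
    have := hadd P P'
    change D (P + P') - D 0 = D P - D 0 + (D P' - D 0)
    linarith)
  have hh : ∀ P, h P = D P - D 0 := fun P => rfl
  have hge : ∀ P, 0 ≤ h P := by
    intro P
    by_contra hneg
    push_neg at hneg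
    have h1 : h ((D 0 + 1) • P) = (D 0 + 1) * h P := by
      rw [map_zsmul, smul_eq_mul]
    have h2 : -(D 0) ≤ h ((D 0 + 1) • P) := by
      rw [hh]
      have := hD0 ((D 0 + 1) • P)
      linarith
    rw [h1] at h2
    have h3 : h P ≤ -1 := by omega
    have h4 := hD0 0
    nlinarith
  have hzero : ∀ P, h P = 0 := by
    intro P
    have h1 := hge P
    have h2 := hge (-P)
    rw [map_neg] at h2
    omega
  refine ⟨D 0, ?_, fun P => ⟨hfin P, ?_⟩⟩
  · obtain ⟨Q, hQ, hu, hP⟩ := exists_O hc
    have h0 : vc Q + yc (Q 0) = 0 := by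
      by_contra hne
      obtain ⟨h1, -⟩ := pi_ns hc hQ hu hne
      unfold PiE at hP
      rw [dif_pos ⟨hne, h1⟩] at hP
      exact WeierstrassCurve.Affine.Point.some_ne_zero _ hP
    obtain ⟨w, hw⟩ := cen_place hc hg hQ
    have h1 := (cen_unr hc hg hQ hu hw).2 h0
    have h2 : 0 < eE (cX α x v) (cY α x v) w (0 : (Er (rr α)).Point) := by
      change 0 < if w.Reg (cX α x v) then 0 else -w.ord (cX α x v)
      rw [if_neg h1]
      unfold Place.Reg at h1
      push_neg at h1
      linarith [h1.2]
    rw [hD]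
    exact lt_of_lt_of_le h2 (single_le_finsum w (hfin 0) fun w' => eE_nonneg _ _ w' 0)
  · have h1 := hzero P
    rw [hh] at h1
    rw [← hD]
    linarith

end Pool.Agent.LibSX77
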