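import Pool.Agent.LibSX77.B1
import Pool.Agent.LibSX77.B6

/-!
[SY77 B7] The main relation. `sq_lin`: the linear map `x ↦ ∑ Γ_i x` (`exists_vg`, `qt_ext`; `FunF k 0 k`). `sq_rel`: `g` from `ell_pts` for the points `P_j = PiE α (Q j)`; apply `sq_lin` to
`div_cls` for `g`: `0 = ∑_w ord_w(g) SQ (Q_w)`, so `0 = ∑_w ∑_j m_j eE w P_j • SQ (Q_w)`. If `eE w P_j ≠ 0` then `SQ (Q_w) = SQ (Q j)`: `Q_w` is not ramified (at a ramified
place `cX` vanishes (`cen_ram`), so it is regular, and `P_j ≠ 0` has a first coordinate `≠ 0` by `pi_ns`), `PiE α (Q_w) = P_j` (`cen_unr`, values are unique), so `Q j = vg i (Q_w)` by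
`pi_inj`, and `sq_vg`. So the sum is `∑_j m_j (∑_w eE w P_j) SQ (Q j) = d ∑_j m_j SQ (Q j)`, `d > 0` (`deg_const`).
`sq_relT`: multiply by the order. `eE_pos`: (needed for surjectivity) for every `P` with `P = 0` or first coordinate `≠ 0` there is a point `Q`, not ramified, with
`PiE α Q = P`: `∑_w eE w P = d > 0`, so there is `w` with `eE w P ≠ 0`; its centre.
-/

open scoped Classical
open Polynomial

namespace Pool.Agent.LibSX77

open Pool.Agent.LibBH2
open Pool.Agent.LibCHd (VR RF Red FunF)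
open Pool.Agent.LibCW77

variable {k : Type} [Field k]

/-! ### values -/

private theorem B7_zer {N : Type} [Field N] [Algebra k N] {w : Place k N} {f : N} {a b : k}
    (h1 : w.Zer (f - algebraMap k N a)) (h2 : w.Zer (f - algebraMap k N b)) : a = b := by
  have h3 : w.Zer (algebraMap k N (a - b)) := by
    have h4 := h2.sub h1
    have e : f - algebraMap k N b - (f - algebraMap k N a) = algebraMap k N (a - b) := by
      rw [map_sub]
      ring
    rwa [e] at h4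
  by_contra hab
  have h5 : a - b ≠ 0 := sub_ne_zero.2 hab
  rcases h3 with h3 | h3
  · exact h5 ((map_eq_zero _).1 h3)
  · rw [w.ord_const _ h5] at h3
    exact lt_irrefl _ h3

private theorem B7_reg {N : Type} [Field N] [Algebra k N] {w : Place k N} {f : N} {a : k}
    (h : w.Zer (f - algebraMap k N a)) : w.Reg f := by
  have h1 : w.Reg (f - algebraMap k N a + algebraMap k N a) := h.reg.add (w.reg_const a)
  rwa [sub_add_cancel] at h1

private theorem B7_pi [CharZero k] {α : k} (hc : (fam α).Good) {Q : Fin 2 → Option k} (hQ : OnC (fam α) (Q 0) (Q 1))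
    (hu : UnR Q) : (vc Q + yc (Q 0) = 0 ∧ PiE α Q = 0) ∨
      (vc Q + yc (Q 0) ≠ 0 ∧ ∃ h, PiE α Q = .some (PX (rr α) (yc (Q 0)) (vc Q)) (PY (rr α) (yc (Q 0)) (vc Q)) h) := by
  by_cases h : vc Q + yc (Q 0) = 0
  · left
    refine ⟨h, ?_⟩
    unfold PiE
    rw [dif_neg]
    rintro ⟨h1, -⟩
    exact h1 h
  · right
    obtain ⟨h1, -⟩ := pi_ns hc hQ hu h
    refine ⟨h, h1, ?_⟩
    unfold PiE
    rw [dif_pos ⟨h, h1⟩]

/-- a place where a point with first coordinate `≠ 0` is the value -/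
private theorem B7_some [IsAlgClosed k] [CharZero k] {α : k} (hc : (fam α).Good) {N : Type} [Field N] [Algebra k N]
    {x v : N} (hg : GenC (fam α) x v) {w : Place k N} {R : Fin 2 → Option k} (hR : OnC (fam α) (R 0) (R 1))
    (hw : Cen x v w R) {x₀ y₀ : k} (hx : x₀ ≠ 0) (h : (Er (rr α)).Nonsingular x₀ y₀)
    (h1 : w.Zer (cX α x v - algebraMap k N x₀)) (h2 : w.Zer (cY α x v - algebraMap k N y₀)) :
    UnR R ∧ PiE α R = .some _ _ h := by
  have hu : UnR R := by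
    by_contra hu
    have h3 := cen_ram hc hg hR hu hw
    have h4 : w.Zer (cX α x v - algebraMap k N 0) := by rwa [map_zero, sub_zero]
    exact hx (B7_zer h1 h4)
  refine ⟨hu, ?_⟩
  obtain ⟨h3, h4⟩ := cen_unr hc hg hR hu hw
  rcases B7_pi hc hR hu with ⟨h5, -⟩ | ⟨h5, h6, h7⟩
  · exact absurd (B7_reg h1) (h4 h5)
  · obtain ⟨h8, h9⟩ := h3 h5
    have e1 := B7_zer h8 h1
    have e2 := B7_zer h9 h2
    rw [h7]
    congr 1

private theorem B7_ee [IsAlgClosed k] [CharZero k] {α : k} {N : Type} [Field N] [Algebra k N] {X Y : N}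
    {w : Place k N} {x₀ y₀ : k} (h : (Er (rr α)).Nonsingular x₀ y₀)
    (he : eE X Y w (.some _ _ h : (Er (rr α)).Point) ≠ 0) :
    w.Zer (X - algebraMap k N x₀) ∧ w.Zer (Y - algebraMap k N y₀) := by
  change 2 * ee X Y w x₀ y₀ ≠ 0 at he
  by_contra h1
  apply he
  unfold ee
  rw [if_neg h1, mul_zero]

private theorem B7_orb [IsAlgClosed k] [CharZero k] {α : k} (hc : (fam α).Good) {N : Type} [Field N] [Algebra k N]
    {x v : N} (hg : GenC (fam α) x v) {w : Place k N} {R : Fin 2 → Option k} (hR : OnC (fam α) (R 0) (R 1))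
    (hw : Cen x v w R) {Q : Fin 2 → Option k} (hQ : OnC (fam α) (Q 0) (Q 1)) (hu : UnR Q)
    (he : eE (cX α x v) (cY α x v) w (PiE α Q) ≠ 0) : SQ (fam α) R = SQ (fam α) Q := by
  have key : UnR R ∧ PiE α R = PiE α Q := by
    rcases B7_pi hc hQ hu with ⟨h1, h2⟩ | ⟨h1, h2, h3⟩
    · rw [h2] at he ⊢
      change (if w.Reg (cX α x v) then 0 else -w.ord (cX α x v)) ≠ 0 at he
      have h4 : ¬ w.Reg (cX α x v) := by
        intro h4
        rw [if_pos h4] at he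
        exact he rfl
      have hu' : UnR R := by
        by_contra hu'
        have h5 := cen_ram hc hg hR hu' hw
        exact h4 h5.reg
      refine ⟨hu', ?_⟩
      rcases B7_pi hc hR hu' with ⟨-, h6⟩ | ⟨h5, -⟩
      · exact h6
      · exact absurd (B7_reg ((cen_unr hc hg hR hu' hw).1 h5).1) h4
    · rw [h3] at he ⊢
      obtain ⟨h4, h5⟩ := B7_ee h2 he
      exact B7_some hc hg hR hw (pi_ns hc hQ hu h1).2 h2 h4 h5
  obtain ⟨i, hi⟩ := pi_inj hc hR key.1 hQ hu key.2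
  rw [hi, sq_vg]

theorem sq_lin [IsAlgClosed k] [CharZero k] {α : k} (hc : (fam α).Good) :
    ∃ S : CHQ (fam α) 1 0 →ₗ[ℚ] CHQ (fam α) 1 0, ∀ Q : Fin 2 → Option k, OnC (fam α) (Q 0) (Q 1) →
      S (qc (cls (fam α) 0 (pt1 Q))) = SQ (fam α) Q := by
  have hF0 : FunF k 0 k := Pool.Agent.LibHL77.funF_zero.2 inferInstance
  have hA : ∀ i : Fin 4, ∃ G₀ : CHQ (fam α) 1 0 →ₗ[ℚ] CHQ (fam α) 1 0, ∀ Q : Fin 2 → Option k,
      OnC (fam α) (Q 0) (Q 1) →
        G₀ (qc (cls (fam α) 0 (pt1 Q))) = qc (cls (fam α) 0 (pt1 (vg i Q))) := by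
    intro i
    obtain ⟨Γ, hΓ⟩ := exists_vg hc i 1 0
    obtain ⟨T, hT⟩ := qt_ext Γ
    refine ⟨T, fun Q hQ => ?_⟩
    have h1 := hΓ k (pt1 Q) hF0 fun _ => hQ
    have h2 := hT (cls (fam α) 0 (pt1 Q))
    rw [h1] at h2
    exact h2
  choose T hT using hA
  refine ⟨∑ i, T i, fun Q hQ => ?_⟩
  rw [LinearMap.sum_apply]
  exact Finset.sum_congr rfl fun i _ => hT i Q hQ

private theorem B7_cancel {V : Type} [AddCommGroup V] [Module ℚ V] {n : ℤ} (hn : n ≠ 0) {x : V} (h : n • x = 0) :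
    x = 0 := by
  rw [← Int.cast_smul_eq_zsmul ℚ] at h
  exact (smul_eq_zero.1 h).resolve_left (Int.cast_ne_zero.2 hn)

theorem sq_rel [IsAlgClosed k] [CharZero k] {α : k} (hc : (fam α).Good) {n : ℕ} (m : Fin n → ℤ)
    (Q : Fin n → Fin 2 → Option k) (hQ : ∀ j, OnC (fam α) (Q j 0) (Q j 1)) (hu : ∀ j, UnR (Q j)) (hm : ∑ j, m j = 0)
    (hs : ∑ j, m j • PiE α (Q j) = 0) : ∑ j, m j • SQ (fam α) (Q j) = 0 := by
  obtain ⟨N, _, _, x, v, hg⟩ := genC_exists hc
  obtain ⟨d, hd0, hd⟩ := deg_const hc hg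
  obtain ⟨hX, hE⟩ := fam_gen hc hg
  obtain ⟨g, hg0, hg1⟩ := ell_pts (Er (rr α)) rfl rfl (fun j => PiE α (Q j)) m hm hs hX hE
  choose R hR1 hR2 using cen_exists hc hg
  obtain ⟨S, hS⟩ := sq_lin hc
  have hdiv := div_cls hc hg hg0 R hR2
  have hfin := (deg_zero hc hg hg0).1
  have hfin2 : (⋃ j, {w : Place k N | eE (cX α x v) (cY α x v) w (PiE α (Q j)) ≠ 0}).Finite :=
    Set.finite_iUnion fun j => (hd (PiE α (Q j))).1
  obtain ⟨F, hF⟩ : ∃ F : Finset (Place k N), F = hfin.toFinset ∪ hfin2.toFinset := ⟨_, rfl⟩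
  have hF1 : ∀ w, w.ord g ≠ 0 → w ∈ F := by
    intro w hw
    rw [hF, Finset.mem_union]
    exact Or.inl (hfin.mem_toFinset.2 hw)
  have hF2 : ∀ j w, eE (cX α x v) (cY α x v) w (PiE α (Q j)) ≠ 0 → w ∈ F := by
    intro j w hw
    rw [hF, Finset.mem_union]
    exact Or.inr (hfin2.mem_toFinset.2 (Set.mem_iUnion.2 ⟨j, hw⟩))
  have h1 : ∑ w ∈ F, w.ord g • SQ (fam α) (R w) = 0 := by
    have h2 : ∑ᶠ w : Place k N, w.ord g • qc (cls (fam α) 0 (pt1 (R w))) =
        ∑ w ∈ F, w.ord g • qc (cls (fam α) 0 (pt1 (R w))) := by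
      refine finsum_eq_sum_of_support_subset _ ?_
      intro w hw
      refine Finset.mem_coe.2 (hF1 w ?_)
      intro h0
      apply hw
      change w.ord g • _ = _
      rw [h0, zero_smul]
    rw [h2] at hdiv
    have h3 := congrArg S hdiv
    rw [map_zero, map_sum] at h3
    rw [← h3]
    refine Finset.sum_congr rfl fun w _ => ?_
    rw [map_zsmul, hS _ (hR1 w)]
  have hsum : ∀ j, ∑ w ∈ F, eE (cX α x v) (cY α x v) w (PiE α (Q j)) = d := by
    intro j
    rw [← (hd (PiE α (Q j))).2]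
    refine (finsum_eq_sum_of_support_subset _ ?_).symm
    intro w hw
    exact Finset.mem_coe.2 (hF2 j w hw)
  have h4 : d • ∑ j, m j • SQ (fam α) (Q j) = 2 • ∑ w ∈ F, w.ord g • SQ (fam α) (R w) := by
    have h5 : ∀ w ∈ F, 2 • (w.ord g • SQ (fam α) (R w)) =
        ∑ j, m j • (eE (cX α x v) (cY α x v) w (PiE α (Q j)) • SQ (fam α) (Q j)) := by
      intro w _
      have h6 : 2 • (w.ord g • SQ (fam α) (R w)) = (2 * w.ord g) • SQ (fam α) (R w) := by
        rw [mul_smul, two_smul, two_smul]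
      rw [h6, hg1 w, Finset.sum_smul]
      refine Finset.sum_congr rfl fun j _ => ?_
      rw [mul_smul]
      by_cases h7 : eE (cX α x v) (cY α x v) w (PiE α (Q j)) = 0
      · rw [h7, zero_smul, zero_smul]
      · rw [B7_orb hc hg (hR1 w) (hR2 w) (hQ j) (hu j) h7]
    rw [Finset.smul_sum (s := F), Finset.sum_congr rfl h5, Finset.sum_comm, Finset.smul_sum]
    refine Finset.sum_congr rfl fun j _ => ?_
    rw [← Finset.smul_sum, ← Finset.sum_smul, hsum j, smul_comm]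
  rw [h1, smul_zero] at h4
  exact B7_cancel hd0.ne' h4

theorem sq_relT [IsAlgClosed k] [CharZero k] {α : k} (hc : (fam α).Good) {n : ℕ} (m : Fin n → ℤ)
    (Q : Fin n → Fin 2 → Option k) (hQ : ∀ j, OnC (fam α) (Q j 0) (Q j 1)) (hu : ∀ j, UnR (Q j)) (hm : ∑ j, m j = 0)
    (hs : IsOfFinAddOrder (∑ j, m j • PiE α (Q j))) : ∑ j, m j • SQ (fam α) (Q j) = 0 := by
  obtain ⟨M, hM, h0⟩ := isOfFinAddOrder_iff_nsmul_eq_zero.1 hs
  have h1 := sq_rel hc (fun j => (M : ℤ) * m j) Q hQ hu (by rw [← Finset.mul_sum, hm, mul_zero]) (by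
    rw [← h0, ← natCast_zsmul, Finset.smul_sum]
    exact Finset.sum_congr rfl fun j _ => mul_smul _ _ _)
  refine B7_cancel (n := (M : ℤ)) (by exact_mod_cast hM.ne') ?_
  rw [← h1, Finset.smul_sum]
  exact Finset.sum_congr rfl fun j _ => (mul_smul _ _ _).symm

theorem pi_surj [IsAlgClosed k] [CharZero k] {α : k} (hc : (fam α).Good) {x₀ y₀ : k}
    (h : (Er (rr α)).Nonsingular x₀ y₀) (hx : x₀ ≠ 0) :
    ∃ Q : Fin 2 → Option k, OnC (fam α) (Q 0) (Q 1) ∧ UnR Q ∧ PiE α Q = .some _ _ h := by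
  obtain ⟨N, _, _, x, v, hg⟩ := genC_exists hc
  obtain ⟨d, hd0, hd⟩ := deg_const hc hg
  obtain ⟨w, hw⟩ : ∃ w : Place k N, eE (cX α x v) (cY α x v) w (.some _ _ h : (Er (rr α)).Point) ≠ 0 := by
    by_contra hne
    push_neg at hne
    have h1 := (hd (.some _ _ h)).2
    rw [finsum_congr hne, finsum_zero] at h1
    exact hd0.ne h1
  obtain ⟨R, hR, hR2⟩ := cen_exists hc hg w
  obtain ⟨h1, h2⟩ := B7_ee h hw
  obtain ⟨h3, h4⟩ := B7_some hc hg hR hR2 hx h h1 h2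
  exact ⟨R, hR, h3, h4⟩

end Pool.Agent.LibSX77
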