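import Pool.Agent.LibSX77.B2
import Pool.Agent.LibSX77.B3
import Pool.Agent.LibCW77.DE7
import Pool.Agent.LibCW77.FG4

/-!
[SY77 B8] `pi_rel`: push-forward of a relation. Model: `fam_tors` in `LibCW77/FG4.lean` (this is the same proof with a general family of points): after multiplication by an
integer the cycle `∑ m_j cyc (pt1 (Q j))` is in `RatEq (fam α) 1 0`; `f` from `ratEq_fun` (DE7); `fg_sum` (with `S` the image of `Q`, `n Q' = ∑_{Q j = Q'} m j`) and `LibCV66.abel`: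
`∑ m_j ev (p_j) z` has finite order, `z = .some _ _ (fg_pt h hx)`, `p_j` the geometric place at `Q j` (`exists_geo`). `ev_pi`: `ev (p_j) z = constPt k (PiE α (Q j))` (as `fg_ev0`, `fg_ev1` in `FG2.lean`, with
`cen_unr` from B2 for the values; if `PiE = 0`: `cX` has a pole, the reduction is `0`). Then `const_tors`, `const_add` (FG0).
-/

open scoped Classical
open Polynomial WeierstrassCurve

namespace Pool.Agent.LibSX77

open Pool.Agent.LibBH2
open Pool.Agent.LibCHd (VR RF Red FunF)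
open Pool.Agent.LibCW77
open Pool.Agent.LibCV66 (Geo Vl tot rd)

variable {k : Type} [Field k]

private theorem B8_red {N : Type} [Field N] [Algebra k N] {w : Place k N} {f : N} {a : k}
    (h : w.Zer (f - algebraMap k N a)) : Red w f (algebraMap k (RF w) a) := by
  have h1 := (Pool.Agent.LibCHd.red_zero_iff.2 h).add (Pool.Agent.LibCHd.red_const w a)
  rwa [sub_add_cancel, zero_add] at h1

theorem ev_pi [IsAlgClosed k] [CharZero k] {α : k} (hc : (fam α).Good) {N : Type} [Field N] [Algebra k N] {x v : N}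
    (hx : GenC (fam α) x v) [(Er (rr α)).IsElliptic] (p : Geo k N k) {Q : Fin 2 → Option k}
    (hQ : OnC (fam α) (Q 0) (Q 1)) (hu : UnR Q) (hp : SpP p.1 (gpt x v) (pt1 (ctp (RF p.1) Q))) :
    LibCV66.ev p (.some _ _ (fg_pt hc hx) : ((Er (rr α))⁄N).toAffine.Point) =
      constPt k (PiE α Q : (Er (rr α)).toAffine.Point) := by
  obtain ⟨h1, h2⟩ := cen_unr hc hx hQ hu hp
  by_cases hs : vc Q + yc (Q 0) = 0
  · have e0 : PiE α Q = 0 := by
      unfold PiE
      exact dif_neg fun h => h.1 hs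
    have h3 := h2 hs
    have h4 : p.1.ord (cX α x v) < 0 := by
      unfold Place.Reg at h3
      push Not at h3
      exact h3.2
    have h5 : Pool.Agent.LibCHd.SpR p.1 (.some _ _ (fg_pt hc hx) : ((Er (rr α))⁄N).toAffine.Point)
        (0 : ((Er (rr α))⁄(RF p.1)).toAffine.Point) := h4
    rw [LibCV66.ev_apply, LibCV66.rd_eq h5, map_zero, e0]
    rfl
  · obtain ⟨hns, -⟩ := pi_ns hc hQ hu hs
    obtain ⟨h3, h4⟩ := h1 hs
    have e0 : PiE α Q = .some _ _ hns := by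
      unfold PiE
      exact dif_pos ⟨hs, hns⟩
    have h5 : Pool.Agent.LibCHd.SpR p.1 (.some _ _ (fg_pt hc hx) : ((Er (rr α))⁄N).toAffine.Point)
        (constPt (RF p.1) (.some _ _ hns : (Er (rr α)).toAffine.Point)) := ⟨B8_red h3, B8_red h4⟩
    rw [LibCV66.ev_apply, LibCV66.rd_eq h5, e0]
    obtain ⟨h6, h7⟩ := Pool.Agent.LibCHd.mp_some (W := Er (rr α)) p.2
      (algebraMap k (RF p.1) (PX (rr α) (yc (Q 0)) (vc Q))) (algebraMap k (RF p.1) (PY (rr α) (yc (Q 0)) (vc Q)))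
      ((WeierstrassCurve.Affine.map_nonsingular (Er (rr α)) (algebraMap k (RF p.1)).injective _ _).2 hns)
    refine h7.trans ?_
    have e1 : p.2 (algebraMap k (RF p.1) (PX (rr α) (yc (Q 0)) (vc Q))) =
        algebraMap k k (PX (rr α) (yc (Q 0)) (vc Q)) := p.2.commutes _
    have e2 : p.2 (algebraMap k (RF p.1) (PY (rr α) (yc (Q 0)) (vc Q))) =
        algebraMap k k (PY (rr α) (yc (Q 0)) (vc Q)) := p.2.commutes _
    exact (WeierstrassCurve.Affine.Point.some.injEq _ _ _ _ _ _).mpr ⟨e1, e2⟩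

theorem pi_rel [IsAlgClosed k] [CharZero k] {α : k} (hc : (fam α).Good) {n : ℕ} (m : Fin n → ℤ)
    (Q : Fin n → Fin 2 → Option k) (hQ : ∀ j, OnC (fam α) (Q j 0) (Q j 1)) (hu : ∀ j, UnR (Q j))
    (h : ∑ j, m j • qc (cls (fam α) 0 (pt1 (Q j))) = 0) : IsOfFinAddOrder (∑ j, m j • PiE α (Q j)) := by
  obtain ⟨-, -, -, -, hr0, hr1⟩ := fam_facts hc
  have : NeZero ((3 : ℕ) : k) := ⟨by norm_num⟩
  obtain ⟨ζ, hζ⟩ := HasEnoughRootsOfUnity.exists_primitiveRoot k 3
  have hζ' : IsPrimitiveRoot ζ (fam α).n := hζ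
  obtain ⟨N, _, _, x, v, hx⟩ := genC_exists hc
  have hE : (Er (rr α)).IsElliptic := er_ell hr0 hr1
  -- the class has finite order
  have h1 : qt (CH (fam α) 1 0) (∑ j, m j • cls (fam α) 0 (pt1 (Q j))) = 0 := by
    rw [map_sum]
    simp only [map_zsmul]
    exact h
  have h2 : IsOfFinAddOrder (∑ j, m j • cls (fam α) 0 (pt1 (Q j))) := (tensor_zero _).1 h1
  obtain ⟨M, hM, hM0⟩ := isOfFinAddOrder_iff_nsmul_eq_zero.1 h2
  set S : Finset (Fin 2 → Option k) := Finset.univ.image Q with hS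
  let w : (Fin 2 → Option k) → ℤ := fun Q' => ∑ j with Q j = Q', (M : ℤ) * m j
  have hmaps : ∀ j ∈ (Finset.univ : Finset (Fin n)), Q j ∈ S := fun j _ =>
    Finset.mem_image_of_mem Q (Finset.mem_univ j)
  have hsum : ∀ {A : Type} [AddCommGroup A] (g : (Fin 2 → Option k) → A),
      ∑ Q' ∈ S, w Q' • g Q' = ∑ j, ((M : ℤ) * m j) • g (Q j) := by
    intro A _ g
    rw [← Finset.sum_fiberwise_of_maps_to hmaps]
    refine Finset.sum_congr rfl fun Q' _ => ?_
    change (∑ j with Q j = Q', (M : ℤ) * m j) • g Q' = _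
    rw [Finset.sum_smul]
    refine Finset.sum_congr rfl fun j hj => ?_
    rw [(Finset.mem_filter.1 hj).2]
  have he : (∑ Q' ∈ S, w Q' • cyc k (pt1 Q')) ∈ RatEq (fam α) 1 0 := by
    rw [hsum, ← QuotientAddGroup.eq_zero_iff]
    have e1 : ((∑ j, ((M : ℤ) * m j) • cyc k (pt1 (Q j)) : Cyc k 1) : CH (fam α) 1 0) =
        M • ∑ j, m j • cls (fam α) 0 (pt1 (Q j)) := by
      have e2 : (M : ℕ) • ∑ j, m j • cls (fam α) 0 (pt1 (Q j)) =
          ∑ j, ((M : ℤ) * m j) • cls (fam α) 0 (pt1 (Q j)) := by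
        rw [← natCast_zsmul, Finset.smul_sum]
        refine Finset.sum_congr rfl fun j _ => ?_
        rw [mul_smul]
      rw [e2]
      have e3 := map_sum (QuotientAddGroup.mk' (RatEq (fam α) 1 0))
        (fun j => ((M : ℤ) * m j) • cyc k (pt1 (Q j))) Finset.univ
      refine e3.trans ?_
      refine Finset.sum_congr rfl fun j _ => ?_
      exact map_zsmul (QuotientAddGroup.mk' (RatEq (fam α) 1 0)) _ _
    exact e1.trans hM0
  obtain ⟨f, hf0, hf⟩ := ratEq_fun hc hζ' hx _ he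
  have hon : ∀ Q' ∈ S, OnC (fam α) (Q' 0) (Q' 1) := by
    intro Q' hQ'
    obtain ⟨j, -, rfl⟩ := Finset.mem_image.1 hQ'
    exact hQ j
  have hun : ∀ Q' ∈ S, UnR Q' := by
    intro Q' hQ'
    obtain ⟨j, -, rfl⟩ := Finset.mem_image.1 hQ'
    exact hu j
  obtain ⟨QO, hQO, -, -⟩ := exists_O hc
  obtain ⟨pO, -⟩ := exists_geo hc hζ' hx QO hQO
  have hP' : ∀ Q' : Fin 2 → Option k, ∃ p : Geo k N k, Q' ∈ S → SpP p.1 (gpt x v) (pt1 (ctp (RF p.1) Q')) := by
    intro Q'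
    by_cases hQ' : Q' ∈ S
    · obtain ⟨p, hp⟩ := exists_geo hc hζ' hx Q' (hon Q' hQ')
      exact ⟨p, fun _ => hp⟩
    · exact ⟨pO, fun h0 => absurd h0 hQ'⟩
  choose P hP using hP'
  set z : ((Er (rr α))⁄N).toAffine.Point := .some _ _ (fg_pt hc hx) with hz
  have hab := (LibCV66.abel (Ω := k) (genC_funF hc hx).1 f hf0 z).2
  have hfg := fg_sum hc hζ' hx S hon w f hf P hP
    (fun p : Geo k N k => ((1 : ℤ), LibCV66.ev p z))
  have htot : tot (Set.univ : Set (Geo k N k)) f z =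
      ∑ Q' ∈ S, w Q' • ((1 : ℤ), LibCV66.ev (P Q') z) := by
    rw [← hfg]
    unfold tot
    rw [finsum_mem_univ]
  rw [htot] at hab
  let φ : (Er (rr α)).toAffine.Point →+ ((Er (rr α))⁄k).toAffine.Point :=
    AddMonoidHom.mk' (constPt k) (fun P Q => const_add P Q)
  have h3 := (AddMonoidHom.snd ℤ ((Er (rr α))⁄k).toAffine.Point).isOfFinAddOrder hab
  rw [map_sum] at h3
  have h4 : (∑ Q' ∈ S, AddMonoidHom.snd ℤ ((Er (rr α))⁄k).toAffine.Point
      (w Q' • ((1 : ℤ), LibCV66.ev (P Q') z))) = φ (∑ j, ((M : ℤ) * m j) • PiE α (Q j)) := by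
    rw [← hsum, map_sum]
    refine Finset.sum_congr rfl fun Q' hQ' => ?_
    rw [map_zsmul, map_zsmul]
    congr 1
    exact ev_pi hc hx (P Q') (hon Q' hQ') (hun Q' hQ') (hP Q' hQ')
  rw [h4] at h3
  have h5 : IsOfFinAddOrder (∑ j, ((M : ℤ) * m j) • PiE α (Q j)) := const_tors _ h3
  have h6 : (∑ j, ((M : ℤ) * m j) • PiE α (Q j)) = M • ∑ j, m j • PiE α (Q j) := by
    rw [← natCast_zsmul, Finset.smul_sum]
    refine Finset.sum_congr rfl fun j _ => ?_
    rw [mul_smul]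
  rw [h6] at h5
  obtain ⟨j, hj, hj0⟩ := isOfFinAddOrder_iff_nsmul_eq_zero.1 h5
  exact isOfFinAddOrder_iff_nsmul_eq_zero.2 ⟨j * M, Nat.mul_pos hj hM, by rw [mul_nsmul', hj0]⟩

end Pool.Agent.LibSX77
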