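import Pool.Agent.LibSX77.BDefs
import Pool.Agent.LibCW77.FS1
import Pool.Agent.LibCW77.Z1

/-!
[SY77 B9] Lines and the automorphisms. `c = fam α`, `a = (1, α, 1 / α)`, `b = - a`, `kb = - ka` (`kb_sym` in FS1), `ν = 1`. `ev (oi 1 X) t = λ_X t ev X t⁻¹` with `λ_X ≠ 0` (`t ≠ 0`;
`X = ∞` or `0`: `λ = 1`; else `λ = - 1 / X`), `ev (- X) t = μ_X ev X (- t)`, `μ_X = -1` (`1` for `∞`). `al`: the relation number `i` of `Col` for `al P`, `al Q` is `Λ a_i ^ 4 (ka_i ∏ ev x_j (1 / a_i) + kb_i ∏ ev x_j (1 / b_i))`,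
`1 / a_i = a_{σ i}`, `ka_{σ i} = a_i ^ 4 ka_i`, `σ = (1 2)`: `Λ` times the relation number `σ i` of `P`, `Q`. `be`: relation number `i` becomes `-` itself up to a factor.
Products of the `v`: `(- 1) ^ 4 = 1`, inverses (`(∏ v_j) y = 1`, all `≠ 0`). `pf` is generated by the ratios of the `Yv P i`: `Yv (al P) i = Λ b_i ^ 3 Yv P (σ i)`,
`Yv (be P) i = μ Xv P i = μ const_i Yv P i` (by the relation; `ev` at `b_i`, `a_i` of `Q` are not `0`: `col_line` in Z1: `Q` is not ramified). So `pf` does not change.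
`vg_mns`: `vgP i (pr σ u) = pr σ (vgP i u)`, `vgP i (tw w u) = tw (w or w⁻¹) (vgP i u)`, `w ↦ w⁻¹` is a bijection of `W`.
-/

open scoped Classical
open Polynomial

namespace Pool.Agent.LibSX77

open Pool.Agent.LibBH2
open Pool.Agent.LibCHd (VR RF Red FunF)
open Pool.Agent.LibCW77

variable {k : Type} [Field k]

section

variable {M : Type} [Field M]

/-- the factor for `x ↦ 1 / x` -/
private noncomputable def B9_la : Option M → M
  | none => 1
  | some y => if y = 0 then 1 else -y⁻¹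

private theorem B9_la_ne (x : Option M) : B9_la x ≠ 0 := by
  cases x with
  | none => exact one_ne_zero
  | some y =>
    unfold B9_la
    simp only
    split_ifs with h
    · exact one_ne_zero
    · exact neg_ne_zero.2 (inv_ne_zero h)

private theorem B9_ev_oi (x : Option M) {t : M} (ht : t ≠ 0) : ev (oi 1 x) t = B9_la x * t * ev x t⁻¹ := by
  cases x with
  | none =>
    change t - 0 = 1 * t * 1
    ring
  | some y =>
    by_cases h : y = 0
    · have h1 : oi (1 : M) (some y) = none := by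
        unfold oi
        simp only
        rw [if_pos h]
      have h2 : B9_la (some y) = 1 := by
        unfold B9_la
        simp only
        rw [if_pos h]
      rw [h1, h2]
      change (1 : M) = 1 * t * (t⁻¹ - y)
      rw [h, sub_zero, one_mul, mul_inv_cancel₀ ht]
    · have h1 : oi (1 : M) (some y) = some (1 / y) := by
        unfold oi
        simp only
        rw [if_neg h]
      have h2 : B9_la (some y) = -y⁻¹ := by
        unfold B9_la
        simp only
        rw [if_neg h]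
      rw [h1, h2]
      change t - 1 / y = -y⁻¹ * t * (t⁻¹ - y)
      field_simp
      ring

/-- the factor for `x ↦ - x` -/
private noncomputable def B9_mu : Option M → M
  | none => 1
  | some _ => -1

private theorem B9_mu_ne (x : Option M) : B9_mu x ≠ 0 := by
  cases x with
  | none => exact one_ne_zero
  | some y => exact neg_ne_zero.2 one_ne_zero

private theorem B9_ev_neg (x : Option M) (t : M) : ev (x.map fun y => -y) t = B9_mu x * ev x (-t) := by
  cases x with
  | none =>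
    change (1 : M) = 1 * 1
    rw [one_mul]
  | some y =>
    change t - -y = -1 * (-t - y)
    ring

private theorem B9_Xv_al (c : Dat M) (P : Pnt 3 M) (i i' : Fin 3) (h0 : c.a i ≠ 0) (h : (c.a i)⁻¹ = c.a i') :
    Xv c (fun j => al (P j)) i = (∏ j, B9_la (P j 0)) * c.a i ^ 3 * Xv c P i' := by
  unfold Xv
  have h1 : ∀ j, ev (al (P j) 0) (c.a i) = B9_la (P j 0) * c.a i * ev (P j 0) (c.a i') := fun j => by
    rw [← h]
    exact B9_ev_oi (P j 0) h0
  rw [Finset.prod_congr rfl fun j _ => h1 j, Fin.prod_univ_three, Fin.prod_univ_three, Fin.prod_univ_three]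
  ring

private theorem B9_Yv_al (c : Dat M) (P : Pnt 3 M) (i i' : Fin 3) (h0 : c.b i ≠ 0) (h : (c.b i)⁻¹ = c.b i') :
    Yv c (fun j => al (P j)) i = (∏ j, B9_la (P j 0)) * c.b i ^ 3 * Yv c P i' := by
  unfold Yv
  have h1 : ∀ j, ev (al (P j) 0) (c.b i) = B9_la (P j 0) * c.b i * ev (P j 0) (c.b i') := fun j => by
    rw [← h]
    exact B9_ev_oi (P j 0) h0
  rw [Finset.prod_congr rfl fun j _ => h1 j, Fin.prod_univ_three, Fin.prod_univ_three, Fin.prod_univ_three]
  ring

private theorem B9_Xv_be (c : Dat M) (P : Pnt 3 M) (i : Fin 3) (h : -c.a i = c.b i) :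
    Xv c (fun j => be (P j)) i = (∏ j, B9_mu (P j 0)) * Yv c P i := by
  unfold Xv Yv
  rw [← Finset.prod_mul_distrib]
  refine Finset.prod_congr rfl fun j _ => ?_
  rw [← h]
  exact B9_ev_neg (P j 0) (c.a i)

private theorem B9_Yv_be (c : Dat M) (P : Pnt 3 M) (i : Fin 3) (h : -c.b i = c.a i) :
    Yv c (fun j => be (P j)) i = (∏ j, B9_mu (P j 0)) * Xv c P i := by
  unfold Xv Yv
  rw [← Finset.prod_mul_distrib]
  refine Finset.prod_congr rfl fun j _ => ?_
  rw [← h]
  exact B9_ev_neg (P j 0) (c.b i)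

end

section

variable {M : Type} [Field M] [Algebra k M]

private theorem B9_ev_map (x : Option k) (t : k) :
    ev (x.map (algebraMap k M)) (algebraMap k M t) = algebraMap k M (ev x t) := by
  cases x with
  | none => exact (map_one _).symm
  | some x => exact (map_sub _ t x).symm

private theorem B9_a (α : k) (i : Fin 3) : ((fam α).over M).a i = algebraMap k M (![1, α, α⁻¹] i) := rfl

private theorem B9_b (α : k) (i : Fin 3) : ((fam α).over M).b i = -((fam α).over M).a i := by
  rw [B9_a]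
  change algebraMap k M (-(![1, α, α⁻¹] i)) = _
  rw [map_neg]

private theorem B9_alpha {α : k} (hc : (fam α).Good) : α ≠ 0 := sym_a_ne hc 1

private theorem B9_a_ne {α : k} (hc : (fam α).Good) (i : Fin 3) : ((fam α).over M).a i ≠ 0 := by
  rw [B9_a]
  exact (_root_.map_ne_zero _).2 (sym_a_ne hc i)

private theorem B9_b_ne {α : k} (hc : (fam α).Good) (i : Fin 3) : ((fam α).over M).b i ≠ 0 := by
  rw [B9_b]
  exact neg_ne_zero.2 (B9_a_ne hc i)

private theorem B9_ai {α : k} (i : Fin 3) :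
    (((fam α).over M).a i)⁻¹ = ((fam α).over M).a (Equiv.swap 1 2 i) := by
  rw [B9_a, B9_a, ← map_inv₀]
  congr 1
  fin_cases i
  · change (1 : k)⁻¹ = ![1, α, α⁻¹] (Equiv.swap 1 2 0)
    rw [Equiv.swap_apply_of_ne_of_ne (by decide) (by decide), inv_one]
    rfl
  · change α⁻¹ = ![1, α, α⁻¹] (Equiv.swap 1 2 1)
    rw [Equiv.swap_apply_left]
    rfl
  · change (α⁻¹)⁻¹ = ![1, α, α⁻¹] (Equiv.swap 1 2 2)
    rw [Equiv.swap_apply_right, inv_inv]
    rfl

private theorem B9_bi {α : k} (i : Fin 3) :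
    (((fam α).over M).b i)⁻¹ = ((fam α).over M).b (Equiv.swap 1 2 i) := by
  rw [B9_b, B9_b, inv_neg, B9_ai]

private theorem B9_rel {α : k} (hc : (fam α).Good) (X Y e e' : M) (i : Fin 3) :
    ka ((fam α).over M) i * (X * e) + kb ((fam α).over M) i * (Y * e') = 0 ↔ X * e = Y * e' := by
  have h1 : kb ((fam α).over M) i = -ka ((fam α).over M) i := by
    have h2 : kb ((fam α).over M) i = algebraMap k M (kb (fam α) i) := kb_map (algebraMap k M) (fam α) i
    have h3 : ka ((fam α).over M) i = algebraMap k M (ka (fam α) i) := ka_map (algebraMap k M) (fam α) i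
    have h4 : kb (fam α) i = -ka (fam α) i := kb_sym _ i
    rw [h2, h3, h4, map_neg]
  have h2 : ka ((fam α).over M) i ≠ 0 := ka_ne (good_map hc) i
  rw [h1]
  constructor
  · intro h
    refine mul_left_cancel₀ h2 ?_
    linear_combination h
  · intro h
    rw [h]
    ring

private theorem B9_oi_map (x : Option k) : (oi 1 x).map (algebraMap k M) = oi 1 (x.map (algebraMap k M)) := by
  cases x with
  | none =>
    change some (algebraMap k M 0) = some 0
    rw [map_zero]
  | some y =>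
    by_cases h : y = 0
    · have h1 : oi (1 : k) (some y) = none := by
        unfold oi
        simp only
        rw [if_pos h]
      have h2 : oi (1 : M) (some (algebraMap k M y)) = none := by
        unfold oi
        simp only
        rw [if_pos (by rw [h, map_zero])]
      rw [h1]
      exact h2.symm
    · have h1 : oi (1 : k) (some y) = some (1 / y) := by
        unfold oi
        simp only
        rw [if_neg h]
      have h2 : oi (1 : M) (some (algebraMap k M y)) = some (1 / algebraMap k M y) := by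
        unfold oi
        simp only
        rw [if_neg ((_root_.map_ne_zero _).2 h)]
      rw [h1]
      refine Eq.trans ?_ h2.symm
      change some (algebraMap k M (1 / y)) = _
      rw [map_div₀, map_one]

private theorem B9_neg_map (x : Option k) :
    (x.map fun y => -y).map (algebraMap k M) = (x.map (algebraMap k M)).map fun y => -y := by
  cases x with
  | none => rfl
  | some y =>
    change some (algebraMap k M (-y)) = some (-algebraMap k M y)
    rw [map_neg]

private theorem B9_col_al {α : k} (hc : (fam α).Good) {Q : Fin 2 → Option k} {P : Pnt 3 M}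
    (h : Col (fam α) 1 Q P) : Col (fam α) 1 (al Q) (fun j => al (P j)) := by
  obtain ⟨hr, v, y, hv, hy, hp⟩ := h
  refine ⟨fun i => ?_, fun j => -v j, -y, fun j => ?_, ?_, ?_⟩
  · rw [B9_rel hc]
    have h1 := (B9_rel hc _ _ _ _ (Equiv.swap 1 2 i)).1 (hr (Equiv.swap 1 2 i))
    have hQ0 : ((al Q) 0).map (algebraMap k M) = oi 1 ((Q 0).map (algebraMap k M)) := B9_oi_map (Q 0)
    rw [hQ0, B9_Xv_al _ P i _ (B9_a_ne hc i) (B9_ai i), B9_Yv_al _ P i _ (B9_b_ne hc i) (B9_bi i),
      B9_ev_oi _ (B9_a_ne hc i), B9_ev_oi _ (B9_b_ne hc i), B9_ai, B9_bi, B9_b α i]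
    linear_combination (∏ j, B9_la (P j 0)) * B9_la ((Q 0).map (algebraMap k M)) * ((fam α).over M).a i ^ 4 * h1
  · change (P j 1).map _ = _
    rw [hv j]
    rfl
  · change (Q 1).map _ = _
    rw [hy]
    rfl
  · simp only [Fin.prod_univ_three, map_neg] at hp ⊢
    linear_combination hp

private theorem B9_col_be {α : k} (hc : (fam α).Good) {Q : Fin 2 → Option k} {P : Pnt 3 M}
    (h : Col (fam α) 1 Q P) : Col (fam α) 1 (be Q) (fun j => be (P j)) := by
  obtain ⟨hr, v, y, hv, hy, hp⟩ := h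
  have hp1 : (∏ j, v j) * algebraMap k M y ≠ 0 := by
    rw [hp, map_one]
    exact one_ne_zero
  have hv0 : ∀ j, v j ≠ 0 := fun j => Finset.prod_ne_zero_iff.1 (left_ne_zero_of_mul hp1) j (Finset.mem_univ j)
  have hy0 : y ≠ 0 := by
    rintro rfl
    exact right_ne_zero_of_mul hp1 (map_zero _)
  refine ⟨fun i => ?_, fun j => 1 / v j, 1 / y, fun j => ?_, ?_, ?_⟩
  · rw [B9_rel hc]
    have h1 := (B9_rel hc _ _ _ _ i).1 (hr i)
    have hQ0 : ((be Q) 0).map (algebraMap k M) = ((Q 0).map (algebraMap k M)).map fun y => -y := B9_neg_map (Q 0)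
    have hb : -((fam α).over M).a i = ((fam α).over M).b i := (B9_b α i).symm
    have ha : -((fam α).over M).b i = ((fam α).over M).a i := by rw [B9_b, neg_neg]
    rw [hQ0, B9_Xv_be _ P i hb, B9_Yv_be _ P i ha, B9_ev_neg, B9_ev_neg, hb, ha]
    linear_combination (-((∏ j, B9_mu (P j 0)) * B9_mu ((Q 0).map (algebraMap k M)))) * h1
  · change oi 1 (P j 1) = _
    rw [hv j]
    unfold oi
    simp only
    rw [if_neg (hv0 j)]
  · change oi 1 (Q 1) = _
    rw [hy]
    unfold oi
    simp only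
    rw [if_neg hy0]
  · have h2 : algebraMap k M (1 / y) = 1 / algebraMap k M y := by rw [map_div₀, map_one]
    rw [h2, Finset.prod_div_distrib, Finset.prod_const_one, div_mul_div_comm, one_mul, hp, map_one, div_one]

private theorem B9_yf_le {Y Y' : Fin 3 → M} {c : M} (hc : c ≠ 0) (r : Fin 3 → k) (σ : Fin 3 → Fin 3)
    (h : ∀ i, Y' i = c * algebraMap k M (r i) * Y (σ i)) : yf k Y' ≤ yf k Y := by
  unfold yf
  rw [IntermediateField.adjoin_le_iff]
  rintro _ ⟨p, rfl⟩
  have h1 : Y' p.1 / Y' p.2 = algebraMap k M (r p.1 / r p.2) * (Y (σ p.1) / Y (σ p.2)) := by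
    rw [h, h, map_div₀, mul_assoc, mul_assoc, mul_div_mul_left _ _ hc, mul_div_mul_comm]
  change Y' p.1 / Y' p.2 ∈ _
  rw [h1]
  exact mul_mem (IntermediateField.algebraMap_mem _ _) (IntermediateField.subset_adjoin _ _ ⟨(σ p.1, σ p.2), rfl⟩)

private theorem B9_yf {Y Y' : Fin 3 → M} {c : M} (hc : c ≠ 0) (r : Fin 3 → k) (hr : ∀ i, r i ≠ 0)
    (σ : Equiv.Perm (Fin 3)) (h : ∀ i, Y' i = c * algebraMap k M (r i) * Y (σ i)) : yf k Y' = yf k Y := by
  refine le_antisymm (B9_yf_le hc r σ h) (B9_yf_le (inv_ne_zero hc) (fun i => (r (σ.symm i))⁻¹) σ.symm fun i => ?_)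
  have h1 : algebraMap k M (r (σ.symm i)) ≠ 0 := (_root_.map_ne_zero _).2 (hr _)
  rw [h, Equiv.apply_symm_apply, map_inv₀]
  field_simp

private theorem B9_pf_al {α : k} (hc : (fam α).Good) (P : Pnt 3 M) :
    pf (fam α) (fun j => al (P j)) = pf (fam α) P := by
  unfold pf
  refine B9_yf (c := ∏ j, B9_la (P j 0)) (Finset.prod_ne_zero_iff.2 fun j _ => B9_la_ne _)
    (fun i => (-(![1, α, α⁻¹] i)) ^ 3) (fun i => pow_ne_zero _ (neg_ne_zero.2 (sym_a_ne hc i))) (Equiv.swap 1 2) fun i => ?_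
  rw [B9_Yv_al _ P i _ (B9_b_ne hc i) (B9_bi i), map_pow]
  rfl

private theorem B9_pf_be {α : k} (hc : (fam α).Good) {Q : Fin 2 → Option k} (hQ : OnC (fam α) (Q 0) (Q 1)) {P : Pnt 3 M}
    (h : Col (fam α) 1 Q P) : pf (fam α) (fun j => be (P j)) = pf (fam α) P := by
  obtain ⟨hr, v, y, hv, hy, hp⟩ := h
  have hp1 : (∏ j, v j) * algebraMap k M y ≠ 0 := by
    rw [hp, map_one]
    exact one_ne_zero
  have hy0 : y ≠ 0 := by
    rintro rfl
    exact right_ne_zero_of_mul hp1 (map_zero _)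
  rw [hy] at hQ
  obtain ⟨ha, hb, -⟩ := lR_props hc (1 : k) (nu_sym hc) (Q 0) y hy0 hQ
  unfold pf
  refine B9_yf (c := ∏ j, B9_mu (P j 0)) (Finset.prod_ne_zero_iff.2 fun j _ => B9_mu_ne _)
    (fun i => ev (Q 0) ((fam α).b i) / ev (Q 0) ((fam α).a i)) (fun i => div_ne_zero (hb i) (ha i)) (Equiv.refl _) fun i => ?_
  have hai : -((fam α).over M).b i = ((fam α).over M).a i := by rw [B9_b, neg_neg]
  have h1 := (B9_rel hc _ _ _ _ i).1 (hr i)
  have h2 : ev ((Q 0).map (algebraMap k M)) (((fam α).over M).a i) = algebraMap k M (ev (Q 0) ((fam α).a i)) :=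
    B9_ev_map (Q 0) _
  have h3 : ev ((Q 0).map (algebraMap k M)) (((fam α).over M).b i) = algebraMap k M (ev (Q 0) ((fam α).b i)) :=
    B9_ev_map (Q 0) _
  rw [h2, h3] at h1
  have h4 : algebraMap k M (ev (Q 0) ((fam α).a i)) ≠ 0 := (_root_.map_ne_zero _).2 (ha i)
  have h5 : Xv ((fam α).over M) P i = algebraMap k M (ev (Q 0) ((fam α).b i) / ev (Q 0) ((fam α).a i)) *
      Yv ((fam α).over M) P i := by
    rw [map_div₀, div_mul_eq_mul_div, eq_div_iff h4]
    linear_combination h1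
  rw [B9_Yv_be _ P i hai, h5, mul_assoc]
  rfl

end

theorem col_vg [CharZero k] {α : k} (hc : (fam α).Good) (i : Fin 4) {Q : Fin 2 → Option k}
    (hQ : OnC (fam α) (Q 0) (Q 1)) {M : Type} [Field M] [Algebra k M] {P : Pnt 3 M} (hP : On ((fam α).over M) P)
    (h : Col (fam α) 1 Q P) : Col (fam α) 1 (vg i Q) (vgP i P) := by
  fin_cases i
  · exact h
  · exact B9_col_al hc h
  · exact B9_col_be hc h
  · exact B9_col_al hc (B9_col_be hc h)

theorem pf_vg [CharZero k] {α : k} (hc : (fam α).Good) (i : Fin 4) {Q : Fin 2 → Option k}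
    (hQ : OnC (fam α) (Q 0) (Q 1)) {M : Type} [Field M] [Algebra k M] {P : Pnt 3 M} (hP : On ((fam α).over M) P)
    (h : Col (fam α) 1 Q P) : pf (fam α) (vgP i P) = pf (fam α) P := by
  fin_cases i
  · rfl
  · exact B9_pf_al hc P
  · exact B9_pf_be hc hQ h
  · exact (B9_pf_al hc fun j => be (P j)).trans (B9_pf_be hc hQ h)

private theorem B9b_oi {M : Type} [Field M] (w : M) (hw : w ≠ 0) (o : Option M) :
    oi 1 (o.map fun v => w * v) = (oi 1 o).map fun v => w⁻¹ * v := by
  rcases o with _ | y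
  · show some (0 : M) = some (w⁻¹ * 0)
    rw [mul_zero]
  · show oi 1 (some (w * y)) = (oi 1 (some y)).map fun v => w⁻¹ * v
    unfold oi
    by_cases hy : y = 0
    · subst hy
      simp
    · have h1 : w * y ≠ 0 := mul_ne_zero hw hy
      simp only [h1, hy, if_false, Option.map_some]
      congr 1
      field_simp

/-- the exponent with which the roots of unity appear -/
private noncomputable def B9b_io (i : Fin 4) (w : k) : k := ![w, w, w⁻¹, w⁻¹] i

private theorem B9b_io_io (i : Fin 4) (w : k) : B9b_io i (B9b_io i w) = w := by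
  unfold B9b_io
  fin_cases i <;> simp

private theorem B9b_io_one (i : Fin 4) : B9b_io i (1 : k) = 1 := by
  unfold B9b_io
  fin_cases i <;> simp

private theorem B9b_io_pow (i : Fin 4) (w : k) (n : ℕ) (h : w ^ n = 1) : B9b_io i w ^ n = 1 := by
  unfold B9b_io
  fin_cases i
  · exact h
  · exact h
  · show (w⁻¹) ^ n = 1
    rw [inv_pow, h, inv_one]
  · show (w⁻¹) ^ n = 1
    rw [inv_pow, h, inv_one]

private theorem B9b_io_prod (i : Fin 4) (w : Fin 3 → k) : ∏ j, B9b_io i (w j) = B9b_io i (∏ j, w j) := by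
  unfold B9b_io
  fin_cases i
  · rfl
  · rfl
  · show ∏ j, (w j)⁻¹ = (∏ j, w j)⁻¹
    exact Finset.prod_inv_distrib w
  · show ∏ j, (w j)⁻¹ = (∏ j, w j)⁻¹
    exact Finset.prod_inv_distrib w

private theorem B9b_tw {m : ℕ} (i : Fin 4) (w : Fin m → k) (hw : ∀ j, w j ≠ 0) {M : Type} [Field M] [Algebra k M]
    (u : Pnt m M) : vgP i (tw w u) = tw (fun j => B9b_io i (w j)) (vgP i u) := by
  have hM : ∀ j, algebraMap k M (w j) ≠ 0 := fun j => by
    rw [Ne, map_eq_zero]
    exact hw j
  have hoi : ∀ j (o : Option M), oi 1 (o.map fun v => algebraMap k M (w j) * v) =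
      (oi 1 o).map fun v => algebraMap k M (w j)⁻¹ * v := by
    intro j o
    rw [B9b_oi _ (hM j), map_inv₀]
  funext j a
  fin_cases i
  · rfl
  · fin_cases a
    · rfl
    · show ((u j 1).map fun v => algebraMap k M (w j) * v).map (fun v => -v) =
        ((u j 1).map fun v => -v).map fun v => algebraMap k M (w j) * v
      rw [Option.map_map, Option.map_map]
      congr 1
      funext v
      show -(algebraMap k M (w j) * v) = algebraMap k M (w j) * -v
      ring
  · fin_cases a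
    · rfl
    · exact hoi j (u j 1)
  · fin_cases a
    · rfl
    · show (oi 1 ((u j 1).map fun v => algebraMap k M (w j) * v)).map (fun v => -v) =
        ((oi 1 (u j 1)).map fun v => -v).map fun v => algebraMap k M (w j)⁻¹ * v
      rw [hoi, Option.map_map, Option.map_map]
      congr 1
      funext v
      show -(algebraMap k M (w j)⁻¹ * v) = algebraMap k M (w j)⁻¹ * -v
      ring

private theorem B9b_pr {m : ℕ} (i : Fin 4) (σ : Equiv.Perm (Fin m)) {M : Type} [Field M] (u : Pnt m M) :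
    vgP i (pr σ u) = pr σ (vgP i u) := rfl

private theorem B9b_W {c : Dat k} (hn : 0 < c.n) (i : Fin 4) {w : Fin 3 → k} (hw : w ∈ W c) :
    (∀ j, w j ^ c.n = 1) ∧ (∀ j, w j ≠ 0) ∧ (fun j => B9b_io i (w j)) ∈ W c := by
  unfold W at hw
  rw [Finset.mem_filter, Fintype.mem_piFinset] at hw
  have h1 : ∀ j, w j ^ c.n = 1 := fun j => (Polynomial.mem_nthRootsFinset hn 1).1 (hw.1 j)
  refine ⟨h1, fun j h0 => ?_, ?_⟩
  · have h2 := h1 j
    rw [h0, zero_pow hn.ne'] at h2
    exact zero_ne_one h2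
  · unfold W
    rw [Finset.mem_filter, Fintype.mem_piFinset]
    refine ⟨fun j => (Polynomial.mem_nthRootsFinset hn 1).2 (B9b_io_pow i _ _ (h1 j)), ?_⟩
    show ∏ j, B9b_io i (w j) = 1
    rw [B9b_io_prod, hw.2, B9b_io_one]

private theorem B9b_t1 (i : Fin 4) (z : k) : (fun j => B9b_io i (t1 z j)) = t1 (B9b_io i z) := by
  funext j
  fin_cases j
  · rfl
  · exact B9b_io_one i
  · exact B9b_io_one i

/-- sums over a set which is stable under the inversion -/
private theorem B9b_sum {ι A : Type} [AddCommMonoid A] (s : Finset ι) (e : ι → ι) (he : ∀ x, e (e x) = x)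
    (hs : ∀ x ∈ s, e x ∈ s) (f : ι → A) : ∑ x ∈ s, f (e x) = ∑ x ∈ s, f x :=
  Finset.sum_nbij' e e hs hs (fun x _ => he x) (fun x _ => he x) (fun _ _ => rfl)

private theorem B9b_vg_on {c : Dat k} (i : Fin 4) {Γ : CH c 3 1 →+ CH c 3 1}
    {M : Type} [Field M] [Algebra k M] {P : Pnt 3 M}
    (hn : 0 < c.n)
    (hΓ : ∀ (u : Pnt 3 M), On (c.over M) u → Γ (cls c 1 u) = cls c 1 (vgP i u))
    (hP : On (c.over M) P) {z : k} (hz : z ^ c.n = 1) (hz0 : z ≠ 0) :
    Γ (mns c z P) = mns c (B9b_io i z) (vgP i P) := by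
  have ht : ∀ j, t1 z j ^ c.n = 1 := by
    intro j
    fin_cases j
    · exact hz
    · exact one_pow _
    · exact one_pow _
  have ht0 : ∀ j, t1 z j ≠ 0 := by
    intro j
    fin_cases j
    · exact hz0
    · exact one_ne_zero
    · exact one_ne_zero
  have hPt := on_tw (t1 z) ht hP
  unfold mns
  rw [map_sum]
  refine Finset.sum_congr rfl fun σ _ => ?_
  rw [map_sum]
  refine Eq.trans (Finset.sum_congr rfl fun w hw => ?_) (B9b_sum (W c) (fun w j => B9b_io i (w j))
    (fun w => funext fun j => B9b_io_io i (w j)) (fun w hw => (B9b_W hn i hw).2.2)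
    (fun w => cls c 1 (pr σ (tw w (vgP i P))) - cls c 1 (pr σ (tw w (tw (t1 (B9b_io i z)) (vgP i P))))))
  obtain ⟨h1, h2, -⟩ := B9b_W hn i hw
  rw [map_sub, hΓ _ (on_pr σ (on_tw w h1 hP)), hΓ _ (on_pr σ (on_tw w h1 hPt)), B9b_pr, B9b_pr, B9b_tw i w h2,
    B9b_tw i w h2, B9b_tw i (t1 z) ht0, B9b_t1]

private theorem B9b_root {n : ℕ} (hn : 0 < n) (i : Fin 4) {z : k} (hz : z ∈ nthRootsFinset n (1 : k)) :
    z ^ n = 1 ∧ z ≠ 0 ∧ B9b_io i z ∈ nthRootsFinset n (1 : k) := by
  have hz1 : z ^ n = 1 := (Polynomial.mem_nthRootsFinset hn 1).1 hz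
  refine ⟨hz1, fun h0 => ?_, (Polynomial.mem_nthRootsFinset hn 1).2 (B9b_io_pow i _ _ hz1)⟩
  rw [h0, zero_pow hn.ne'] at hz1
  exact zero_ne_one hz1

private theorem B9b_prj {c : Dat k} (i : Fin 4) {Γ : CH c 3 1 →+ CH c 3 1}
    {M : Type} [Field M] [Algebra k M] {P : Pnt 3 M} (hn : 0 < c.n)
    (hΓ : ∀ (u : Pnt 3 M), On (c.over M) u → Γ (cls c 1 u) = cls c 1 (vgP i u))
    (hP : On (c.over M) P) : Γ (prj c P) = prj c (vgP i P) := by
  unfold prj
  rw [map_sum]
  refine Eq.trans (Finset.sum_congr rfl fun z hz => ?_) (B9b_sum (nthRootsFinset c.n (1 : k)) (B9b_io i)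
    (B9b_io_io i) (fun z hz => (B9b_root hn i hz).2.2) (fun z => mns c z (vgP i P)))
  exact B9b_vg_on i hn hΓ hP (B9b_root hn i hz).1 (B9b_root hn i hz).2.1

/-- `Γ` is the action of the automorphism `vg i` -/
theorem vg_prj [CharZero k] {α : k} (hc : (fam α).Good) (i : Fin 4) {Γ : CH (fam α) 3 1 →+ CH (fam α) 3 1}
    (hΓ : ∀ (M : Type) [Field M] [Algebra k M] (u : Pnt 3 M), FunF k 1 M → On ((fam α).over M) u →
      Γ (cls (fam α) 1 u) = cls (fam α) 1 (vgP i u)) {M : Type} [Field M] [Algebra k M] {P : Pnt 3 M}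
    (hM : FunF k 1 M) (hP : On ((fam α).over M) P) : Γ (prj (fam α) P) = prj (fam α) (vgP i P) := by
  have hn : 0 < (fam α).n := by
    have := hc.two
    omega
  exact B9b_prj i hn (fun u hu => hΓ M u hM hu) hP

end Pool.Agent.LibSX77
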