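import Pool.Agent.LibSX77.X8
import Pool.Agent.LibSX77.B7
import Pool.Agent.LibSX77.B8
import Pool.Agent.LibSX77.B9
import Pool.Agent.LibCW77.FA4

/-!
[SY77 B10] Assembly, part 1: the linear map `Ψ` commutes with the automorphisms; the isomorphism with the elliptic curve.
-/

open scoped Classical
open Polynomial

namespace Pool.Agent.LibSX77

open Pool.Agent.LibBH2
open Pool.Agent.LibCHd (VR RF Red FunF)
open Pool.Agent.LibCW77

variable {k : Type} [Field k]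

/-! ### the automorphisms -/

theorem vg_tau {α : k} (i : Fin 4) : ∃ f : k → k, (∀ z : k, z ≠ 0 → (f z = z ∨ f z = z⁻¹)) ∧ (∀ z, z ≠ 0 → f (f z) = z) ∧
    ∀ (z : k) (_ : z ≠ 0) (Q : Fin 2 → Option k), vg i (tau z Q) = tau (f z) (vg i Q) := by
  have hal : ∀ (z : k) (Q : Fin 2 → Option k), al (tau z Q) = tau z (al Q) := by
    intro z Q
    funext a
    fin_cases a
    · rfl
    · change Option.map _ (Option.map _ (Q 1)) = Option.map _ (Option.map _ (Q 1))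
      rw [Option.map_map, Option.map_map]
      congr 1
      funext v
      simp only [Function.comp, Algebra.algebraMap_self, RingHom.id_apply]
      ring
  have hbe : ∀ (z : k), z ≠ 0 → ∀ Q : Fin 2 → Option k, be (tau z Q) = tau z⁻¹ (be Q) := by
    intro z hz Q
    funext a
    fin_cases a
    · rfl
    · change oi 1 (Option.map _ (Q 1)) = Option.map _ (oi 1 (Q 1))
      rcases Q 1 with _ | v
      · change some (0 : k) = some (algebraMap k k z⁻¹ * 0)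
        rw [mul_zero]
      · change oi 1 (some (algebraMap k k z * v)) = Option.map _ (oi 1 (some v))
        by_cases hv : v = 0
        · subst hv
          rw [mul_zero]
          simp [oi]
        · have hzv : algebraMap k k z * v ≠ 0 := mul_ne_zero (by simpa using hz) hv
          unfold oi
          simp only [if_neg hv, if_neg hzv, Option.map_some]
          simp only [Algebra.algebraMap_self, RingHom.id_apply]
          congr 1
          rw [one_div, one_div, mul_inv]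
  fin_cases i
  · exact ⟨id, fun z _ => Or.inl rfl, fun z _ => rfl, fun z _ Q => rfl⟩
  · exact ⟨id, fun z _ => Or.inl rfl, fun z _ => rfl, fun z _ Q => hal z Q⟩
  · exact ⟨fun z => z⁻¹, fun z _ => Or.inr rfl, fun z _ => inv_inv z, fun z hz Q => hbe z hz Q⟩
  · refine ⟨fun z => z⁻¹, fun z _ => Or.inr rfl, fun z _ => inv_inv z, fun z hz Q => ?_⟩
    change al (be (tau z Q)) = tau z⁻¹ (al (be Q))
    rw [hbe z hz Q, hal]

theorem vg_prQ [CharZero k] {α : k} (hc : (fam α).Good) (i : Fin 4) {G : CHQ (fam α) 1 0 →ₗ[ℚ] CHQ (fam α) 1 0}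
    (hG : ∀ Q : Fin 2 → Option k, OnC (fam α) (Q 0) (Q 1) →
      G (qc (cls (fam α) 0 (pt1 Q))) = qc (cls (fam α) 0 (pt1 (vg i Q)))) {Q : Fin 2 → Option k}
    (hQ : OnC (fam α) (Q 0) (Q 1)) : G (qc (prQ (fam α) Q)) = qc (prQ (fam α) (vg i Q)) := by
  obtain ⟨f, hf1, hf2, hf3⟩ := vg_tau (α := α) i
  have hz0 : ∀ z : k, z ^ (fam α).n = 1 → z ≠ 0 := by
    rintro z hz rfl
    rw [zero_pow (by have := hc.two; omega)] at hz
    exact zero_ne_one hz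
  have hfz : ∀ z : k, z ^ (fam α).n = 1 → f z ^ (fam α).n = 1 := by
    intro z hz
    rcases hf1 z (hz0 z hz) with h | h
    · rw [h, hz]
    · rw [h, inv_pow, hz, inv_one]
  unfold prQ
  rw [qc_sum, qc_sum, map_sum]
  refine Finset.sum_bij (fun z _ => f z) ?_ ?_ ?_ ?_
  · intro z hz
    rw [mem_root hc] at hz ⊢
    exact hfz z hz
  · intro z hz w hw h
    rw [mem_root hc] at hz hw
    rw [← hf2 z (hz0 z hz), ← hf2 w (hz0 w hw), h]
  · intro z hz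
    rw [mem_root hc] at hz
    exact ⟨f z, (mem_root hc).2 (hfz z hz), hf2 z (hz0 z hz)⟩
  · intro z hz
    rw [mem_root hc] at hz
    unfold dz
    rw [qc_sub, map_sub, hG Q hQ, hG _ (on_tau hz hQ), hf3 z (hz0 z hz) Q, qc_sub]

theorem psi_vg [IsAlgClosed k] [CharZero k] {α : k} (hc : (fam α).Good) {Ψ : CHQ (fam α) 1 0 →ₗ[ℚ] CHQ (fam α) 3 1}
    (hΨ : LineP (fam α) 1 Ψ) (i : Fin 4) {G₀ : CHQ (fam α) 1 0 →ₗ[ℚ] CHQ (fam α) 1 0}
    (hG₀ : ∀ Q : Fin 2 → Option k, OnC (fam α) (Q 0) (Q 1) →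
      G₀ (qc (cls (fam α) 0 (pt1 Q))) = qc (cls (fam α) 0 (pt1 (vg i Q))))
    {G₁ : CHQ (fam α) 3 1 →ₗ[ℚ] CHQ (fam α) 3 1}
    (hG₁ : ∀ (M : Type) [Field M] [Algebra k M] (P : Pnt 3 M), FunF k 1 M → On ((fam α).over M) P →
      G₁ (qc (prj (fam α) P)) = qc (prj (fam α) (vgP i P))) {x : CHQ (fam α) 1 0} (hx : x ∈ J0 (fam α)) :
    Ψ (G₀ x) = G₁ (Ψ x) := by
  have hn : 0 < (fam α).n := by have := hc.two; omega
  obtain ⟨ζ, hζ⟩ : ∃ ζ : k, IsPrimitiveRoot ζ (fam α).n := by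
    have : NeZero (fam α).n := ⟨hn.ne'⟩
    have : NeZero ((fam α).n : k) := ⟨Nat.cast_ne_zero.2 hn.ne'⟩
    exact HasEnoughRootsOfUnity.exists_primitiveRoot k (fam α).n
  rw [J0_eq hc hζ] at hx
  refine U0_ind hc hζ (f := Ψ ∘ₗ G₀) (g := G₁ ∘ₗ Ψ) (fun Q hQ => ?_) hx
  change Ψ (G₀ (qc (prQ (fam α) Q))) = G₁ (Ψ (qc (prQ (fam α) Q)))
  rw [vg_prQ hc i hG₀ hQ]
  by_cases hu : UnR Q
  · obtain ⟨M, _, _, P, hM, hP, hcol, hf⟩ := (hΨ Q hQ).2 hu
    have h1 := (hΨ Q hQ).1 M P hM hP hcol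
    have hP' : On ((fam α).over M) (vgP i P) := fun j => vg_on hc i (hP j)
    have h2 := (hΨ (vg i Q) (vg_onk hc i hQ)).1 M (vgP i P) hM hP' (col_vg hc i hQ hP hcol)
    rw [pf_vg hc i hQ hP hcol, ← hG₁ M P hM hP, h1, map_nsmul] at h2
    refine (smul_cancel (n := (Module.finrank (pf (fam α) P) M : ℤ)) (by exact_mod_cast hf) ?_).symm
    rw [natCast_zsmul, natCast_zsmul]
    exact h2
  · have hQ0 : ∀ R : Fin 2 → Option k, ¬ UnR R → prQ (fam α) R = 0 := by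
      intro R hR
      unfold prQ dz
      refine Finset.sum_eq_zero fun z _ => ?_
      rw [tau_ram hR, sub_self]
    rw [hQ0 _ hu, hQ0 _ (vg_ram hc hQ hu i), qc_zero, map_zero, map_zero]

/-- the actions as linear maps -/
theorem exists_A0 [IsAlgClosed k] [CharZero k] {α : k} (hc : (fam α).Good) (i : Fin 4) :
    ∃ G₀ : CHQ (fam α) 1 0 →ₗ[ℚ] CHQ (fam α) 1 0, ∀ Q : Fin 2 → Option k, OnC (fam α) (Q 0) (Q 1) →
      G₀ (qc (cls (fam α) 0 (pt1 Q))) = qc (cls (fam α) 0 (pt1 (vg i Q))) := by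
  have hF0 : FunF k 0 k := Pool.Agent.LibHL77.funF_zero.2 inferInstance
  obtain ⟨Γ, hΓ⟩ := exists_vg hc i 1 0
  obtain ⟨T, hT⟩ := qt_ext Γ
  refine ⟨T, fun Q hQ => ?_⟩
  have h1 := hΓ k (pt1 Q) hF0 fun _ => hQ
  have h2 := hT (cls (fam α) 0 (pt1 Q))
  rw [h1] at h2
  exact h2

theorem exists_A1 [IsAlgClosed k] [CharZero k] {α : k} (hc : (fam α).Good) (i : Fin 4) :
    ∃ G₁ : CHQ (fam α) 3 1 →ₗ[ℚ] CHQ (fam α) 3 1, ∀ (M : Type) [Field M] [Algebra k M] (P : Pnt 3 M), FunF k 1 M →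
      On ((fam α).over M) P → G₁ (qc (prj (fam α) P)) = qc (prj (fam α) (vgP i P)) := by
  obtain ⟨Γ, hΓ⟩ := exists_vg hc i 3 1
  obtain ⟨T, hT⟩ := qt_ext Γ
  refine ⟨T, fun M _ _ P hM hP => ?_⟩
  have h2 := hT (prj (fam α) P)
  rw [vg_prj hc i hΓ hM hP] at h2
  exact h2

/-! ### the subspace `SV` -/

theorem sv_J0 [CharZero k] {α : k} (hc : (fam α).Good) : SV (fam α) ≤ J0 (fam α) := by
  refine Submodule.span_le.2 ?_
  rintro _ ⟨Q, Q', hQ, hQ', rfl⟩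
  unfold SQ
  rw [← Finset.sum_sub_distrib]
  refine Submodule.sum_mem _ fun i _ => ?_
  rw [← qc_sub]
  exact Submodule.subset_span ⟨_, _, vg_onk hc i hQ, vg_onk hc i hQ', rfl⟩

theorem sv_S [IsAlgClosed k] [CharZero k] {α : k} {S : CHQ (fam α) 1 0 →ₗ[ℚ] CHQ (fam α) 1 0}
    (hS : ∀ Q : Fin 2 → Option k, OnC (fam α) (Q 0) (Q 1) → S (qc (cls (fam α) 0 (pt1 Q))) = SQ (fam α) Q) :
    SV (fam α) = (J0 (fam α)).map S := by
  unfold SV J0
  rw [Submodule.map_span]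
  congr 1
  ext x
  constructor
  · rintro ⟨Q, Q', hQ, hQ', rfl⟩
    exact ⟨_, ⟨Q, Q', hQ, hQ', rfl⟩, by rw [qc_sub, map_sub, hS Q hQ, hS Q' hQ']⟩
  · rintro ⟨_, ⟨Q, Q', hQ, hQ', rfl⟩, rfl⟩
    exact ⟨Q, Q', hQ, hQ', by rw [qc_sub, map_sub, hS Q hQ, hS Q' hQ']⟩

theorem mv_eq [IsAlgClosed k] [CharZero k] {α : k} (hc : (fam α).Good) {Ψ : CHQ (fam α) 1 0 →ₗ[ℚ] CHQ (fam α) 3 1}
    (hΨ : LineP (fam α) 1 Ψ) (hb : Set.BijOn Ψ (J0 (fam α)) (M1 (fam α))) :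
    MV (fam α) = (SV (fam α)).map Ψ := by
  choose G₀ hG₀ using exists_A0 hc
  choose G₁ hG₁ using exists_A1 hc
  have hS : ∀ Q : Fin 2 → Option k, OnC (fam α) (Q 0) (Q 1) →
      (∑ i, G₀ i) (qc (cls (fam α) 0 (pt1 Q))) = SQ (fam α) Q := by
    intro Q hQ
    rw [LinearMap.sum_apply]
    exact Finset.sum_congr rfl fun i _ => hG₀ i Q hQ
  have hT : ∀ x ∈ J0 (fam α), Ψ ((∑ i, G₀ i) x) = (∑ i, G₁ i) (Ψ x) := by
    intro x hx
    rw [LinearMap.sum_apply, LinearMap.sum_apply, map_sum]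
    exact Finset.sum_congr rfl fun i _ => psi_vg hc hΨ i (hG₀ i) (hG₁ i) hx
  have h1 : (J0 (fam α)).map Ψ = M1 (fam α) := by
    apply SetLike.coe_injective
    rw [Submodule.map_coe]
    exact hb.image_eq
  rw [sv_S hS]
  have h2 : ((J0 (fam α)).map (∑ i, G₀ i)).map Ψ = ((J0 (fam α)).map Ψ).map (∑ i, G₁ i) := by
    ext y
    constructor
    · rintro ⟨_, ⟨x, hx, rfl⟩, rfl⟩
      exact ⟨Ψ x, ⟨x, hx, rfl⟩, (hT x hx).symm⟩
    · rintro ⟨_, ⟨x, hx, rfl⟩, rfl⟩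
      exact ⟨_, ⟨x, hx, rfl⟩, hT x hx⟩
  rw [h2, h1]
  unfold MV M1
  rw [Submodule.map_span]
  congr 1
  ext x
  constructor
  · rintro ⟨M, _, _, P, hM, hP, rfl⟩
    refine ⟨_, ⟨M, _, _, P, hM, hP, rfl⟩, ?_⟩
    rw [LinearMap.sum_apply]
    exact Finset.sum_congr rfl fun i _ => hG₁ i M P hM hP
  · rintro ⟨_, ⟨M, _, _, P, hM, hP, rfl⟩, rfl⟩
    refine ⟨M, _, _, P, hM, hP, ?_⟩
    rw [LinearMap.sum_apply]
    exact Finset.sum_congr rfl fun i _ => hG₁ i M P hM hP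

end Pool.Agent.LibSX77
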