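import Pool.Agent.LibSX77.B10

/-!
[SY77 B11] Assembly, part 2: the isomorphism of `ℚ ⊗ Er (rr α)` with `SV`.
-/

open scoped Classical
open Polynomial

namespace Pool.Agent.LibSX77

open Pool.Agent.LibBH2
open Pool.Agent.LibCHd (VR RF Red FunF)
open Pool.Agent.LibCW77

variable {k : Type} [Field k]

theorem qt_zero_iff {A : Type} [AddCommGroup A] (a : A) : qt A a = 0 ↔ IsOfFinAddOrder a := tensor_zero a

theorem qt_top (A : Type) [AddCommGroup A] (U : Submodule ℚ (TensorProduct ℤ ℚ A)) (h : ∀ a, qt A a ∈ U) : U = ⊤ := by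
  rw [eq_top_iff]
  rintro x -
  induction x using TensorProduct.induction_on with
  | zero => exact Submodule.zero_mem _
  | tmul q a =>
    have e : (q ⊗ₜ[ℤ] a : TensorProduct ℤ ℚ A) = q • (qt A a) := by
      change _ = q • ((1 : ℚ) ⊗ₜ[ℤ] a)
      rw [TensorProduct.smul_tmul', smul_eq_mul, mul_one]
    rw [e]
    exact Submodule.smul_mem _ q (h a)
  | add x y hx hy => exact Submodule.add_mem _ hx hy

/-- relations for families indexed by a finite type -/
theorem pi_relF [IsAlgClosed k] [CharZero k] {α : k} (hc : (fam α).Good) {ι : Type} [Fintype ι] (m : ι → ℤ)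
    (Q : ι → Fin 2 → Option k) (hQ : ∀ j, OnC (fam α) (Q j 0) (Q j 1)) (hu : ∀ j, UnR (Q j))
    (h : ∑ j, m j • qc (cls (fam α) 0 (pt1 (Q j))) = 0) : IsOfFinAddOrder (∑ j, m j • PiE α (Q j)) := by
  have e := (Fintype.equivFin ι).symm
  have h1 : ∑ j, m (e j) • qc (cls (fam α) 0 (pt1 (Q (e j)))) = 0 := by
    rw [Equiv.sum_comp e fun j => m j • qc (cls (fam α) 0 (pt1 (Q j)))]
    exact h
  have h2 := pi_rel hc (fun j => m (e j)) (fun j => Q (e j)) (fun j => hQ _) (fun j => hu _) h1
  rw [Equiv.sum_comp e fun j => m j • PiE α (Q j)] at h2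
  exact h2

theorem sq_relF [IsAlgClosed k] [CharZero k] {α : k} (hc : (fam α).Good) {n : ℕ} (m : Fin n → ℤ)
    (Q : Fin n → Fin 2 → Option k) (hQ : ∀ j, OnC (fam α) (Q j 0) (Q j 1)) (hu : ∀ j, UnR (Q j))
    {Q' : Fin 2 → Option k} (hQ' : OnC (fam α) (Q' 0) (Q' 1)) (hu' : UnR Q') (h0 : PiE α Q' = 0) :
    ∑ j, m j • (SQ (fam α) (Q j) - SQ (fam α) Q') = 0 ↔ IsOfFinAddOrder (∑ j, m j • PiE α (Q j)) := by
  constructor
  · intro h
    have h1 : ∑ p : (Fin n × Fin 4) ⊕ Fin 4, (Sum.elim (fun q => m q.1) (fun _ => -∑ j, m j) p) •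
        qc (cls (fam α) 0 (pt1 (Sum.elim (fun q : Fin n × Fin 4 => vg q.2 (Q q.1)) (fun i => vg i Q') p))) = 0 := by
      rw [Fintype.sum_sum_type, Fintype.sum_prod_type]
      simp only [Sum.elim_inl, Sum.elim_inr]
      rw [← h]
      have e1 : ∀ j, ∑ i, m j • qc (cls (fam α) 0 (pt1 (vg i (Q j)))) = m j • SQ (fam α) (Q j) := by
        intro j
        unfold SQ
        rw [Finset.smul_sum]
      rw [Finset.sum_congr rfl fun j _ => e1 j]
      have e2 : ∑ i, (-∑ j, m j) • qc (cls (fam α) 0 (pt1 (vg i Q'))) = -∑ j, m j • SQ (fam α) Q' := by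
        unfold SQ
        rw [← Finset.smul_sum, neg_smul, Finset.sum_smul]
      rw [e2, ← sub_eq_add_neg, ← Finset.sum_sub_distrib]
      exact Finset.sum_congr rfl fun j _ => (zsmul_sub _ _ _).symm
    have h2 := pi_relF hc _ _ (by
      rintro (q | i)
      · exact vg_onk hc q.2 (hQ q.1)
      · exact vg_onk hc i hQ') (by
      rintro (q | i)
      · exact (pi_vg hc (hQ q.1) (hu q.1) q.2).2.1
      · exact (pi_vg hc hQ' hu' i).2.1) h1
    rw [Fintype.sum_sum_type, Fintype.sum_prod_type] at h2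
    simp only [Sum.elim_inl, Sum.elim_inr] at h2
    have e3 : ∀ j, ∑ i, m j • PiE α (vg i (Q j)) = 4 • (m j • PiE α (Q j)) := by
      intro j
      rw [Finset.sum_congr rfl fun i _ => by rw [(pi_vg hc (hQ j) (hu j) i).2.2], Finset.sum_const, Finset.card_univ,
        Fintype.card_fin]
    have e4 : ∑ i : Fin 4, (-∑ j, m j) • PiE α (vg i Q') = 0 := by
      refine Finset.sum_eq_zero fun i _ => ?_
      rw [(pi_vg hc hQ' hu' i).2.2, h0, smul_zero]
    rw [e4, add_zero, Finset.sum_congr rfl fun j _ => e3 j, ← Finset.smul_sum] at h2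
    obtain ⟨N, hN, h3⟩ := isOfFinAddOrder_iff_nsmul_eq_zero.1 h2
    refine isOfFinAddOrder_iff_nsmul_eq_zero.2 ⟨N * 4, by positivity, ?_⟩
    rw [mul_nsmul']
    exact h3
  · intro h
    have h1 := sq_relT hc (Fin.cons (-∑ j, m j) m : Fin (n + 1) → ℤ) (Fin.cons Q' Q : Fin (n + 1) → Fin 2 → Option k)
      (by
        intro j
        refine Fin.cases ?_ (fun j => ?_) j
        · exact hQ'
        · exact hQ j) (by
        intro j
        refine Fin.cases ?_ (fun j => ?_) j
        · exact hu'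
        · exact hu j) (by
        rw [Fin.sum_univ_succ]
        simp) (by
        rw [Fin.sum_univ_succ]
        simp only [Fin.cons_zero, Fin.cons_succ, h0, smul_zero, zero_add]
        exact h)
    rw [Fin.sum_univ_succ] at h1
    simp only [Fin.cons_zero, Fin.cons_succ] at h1
    rw [← h1, neg_smul, Finset.sum_smul, neg_add_eq_sub, ← Finset.sum_sub_distrib]
    exact Finset.sum_congr rfl fun j _ => zsmul_sub _ _ _

/-- the isomorphism -/
theorem exists_L [IsAlgClosed k] [CharZero k] {α : k} (hc : (fam α).Good) {Q' : Fin 2 → Option k}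
    (hQ' : OnC (fam α) (Q' 0) (Q' 1)) (hu' : UnR Q') (h0 : PiE α Q' = 0) :
    ∃ L : TensorProduct ℤ ℚ (Er (rr α)).Point →ₗ[ℚ] CHQ (fam α) 1 0, Function.Injective L ∧
      LinearMap.range L = SV (fam α) ∧
      ∀ Q : Fin 2 → Option k, OnC (fam α) (Q 0) (Q 1) → UnR Q →
        L (qt _ (PiE α Q)) = SQ (fam α) Q - SQ (fam α) Q' := by
  obtain ⟨hα0, -, -, -, hr0, hr1⟩ := fam_facts hc
  let X : Type := {Q : Fin 2 → Option k // OnC (fam α) (Q 0) (Q 1) ∧ UnR Q}
  let f : X → TensorProduct ℤ ℚ (Er (rr α)).Point := fun Q => qt _ (PiE α Q.1)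
  let g : X → CHQ (fam α) 1 0 := fun Q => SQ (fam α) Q.1 - SQ (fam α) Q'
  obtain ⟨Φ, hΦ⟩ := lin_iso f g (by
    intro n m x
    have h1 : ∑ j, m j • f (x j) = qt _ (∑ j, m j • PiE α (x j).1) := by
      rw [map_sum]
      exact Finset.sum_congr rfl fun j _ => (map_zsmul _ _ _).symm
    rw [h1, qt_zero_iff]
    exact (sq_relF hc m (fun j => (x j).1) (fun j => (x j).2.1) (fun j => (x j).2.2) hQ' hu' h0).symm)
  have htop : Submodule.span ℚ (Set.range f) = ⊤ := by
    refine qt_top _ _ fun P => ?_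
    rcases P with _ | ⟨x₀, y₀, hP⟩
    · have : qt (Er (rr α)).Point (WeierstrassCurve.Affine.Point.zero) = 0 := map_zero _
      rw [this]
      exact Submodule.zero_mem _
    · by_cases hx : x₀ = 0
      · subst hx
        have h3 : qt (Er (rr α)).Point (WeierstrassCurve.Affine.Point.some _ _ hP) = 0 := by
          rw [qt_zero_iff]
          refine isOfFinAddOrder_iff_nsmul_eq_zero.2 ⟨3, by norm_num, fe_three hP ?_⟩
          unfold cE
          intro h4
          apply hr1
          linear_combination -(1 / 4 : k) * h4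
        rw [h3]
        exact Submodule.zero_mem _
      · obtain ⟨Q, hQ, hu, hQP⟩ := pi_surj hc hP hx
        exact Submodule.subset_span ⟨⟨Q, hQ, hu⟩, congrArg (qt _) hQP⟩
  let L : TensorProduct ℤ ℚ (Er (rr α)).Point →ₗ[ℚ] CHQ (fam α) 1 0 :=
    (Submodule.span ℚ (Set.range g)).subtype ∘ₗ Φ.toLinearMap ∘ₗ
      (LinearEquiv.ofTop _ htop).symm.toLinearMap
  have hL : ∀ Q : X, L (f Q) = g Q := by
    intro Q
    exact hΦ Q
  refine ⟨L, ?_, ?_, fun Q hQ hu => hL ⟨Q, hQ, hu⟩⟩
  · intro x y h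
    have h1 := Subtype.ext h
    have h2 := Φ.injective h1
    exact (LinearEquiv.ofTop _ htop).symm.injective h2
  · have h1 : LinearMap.range L = Submodule.span ℚ (Set.range g) := by
      apply le_antisymm
      · rintro _ ⟨x, rfl⟩
        exact Subtype.mem _
      · rw [Submodule.span_le]
        rintro _ ⟨Q, rfl⟩
        exact ⟨f Q, hL Q⟩
    rw [h1]
    apply le_antisymm
    · rw [Submodule.span_le]
      rintro _ ⟨Q, rfl⟩
      exact Submodule.subset_span ⟨Q.1, Q', Q.2.1, hQ', rfl⟩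
    · obtain ⟨S, hS⟩ := sq_lin hc
      have hn : 0 < (fam α).n := by have := hc.two; omega
      have key : ∀ Q : Fin 2 → Option k, OnC (fam α) (Q 0) (Q 1) →
          SQ (fam α) Q - SQ (fam α) Q' ∈ Submodule.span ℚ (Set.range g) := by
        intro Q hQ
        by_cases hu : UnR Q
        · exact Submodule.subset_span ⟨⟨Q, hQ, hu⟩, rfl⟩
        · have h2 := congrArg (fun z => S (qc z)) (fib_eq hc hQ hQ')
          simp only [qc_sum, map_sum] at h2
          have h3 : ∀ z ∈ nthRootsFinset (fam α).n (1 : k), S (qc (cls (fam α) 0 (pt1 (tau z Q)))) =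
              SQ (fam α) Q := by
            intro z _
            rw [tau_ram hu, hS Q hQ]
          have h4 : ∀ z ∈ nthRootsFinset (fam α).n (1 : k), S (qc (cls (fam α) 0 (pt1 (tau z Q')))) =
              SQ (fam α) (tau z Q') := fun z hz => hS _ (on_tau ((mem_root hc).1 hz) hQ')
          rw [Finset.sum_congr rfl h3, Finset.sum_congr rfl h4, Finset.sum_const] at h2
          have hcard : (nthRootsFinset (fam α).n (1 : k)).card ≠ 0 := by
            intro h5
            have h6 : (1 : k) ∈ nthRootsFinset (fam α).n (1 : k) := (mem_root hc).2 (one_pow _)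
            rw [Finset.card_eq_zero] at h5
            rw [h5] at h6
            exact absurd h6 (Finset.notMem_empty _)
          refine mem_of_zsmul _ (n := ((nthRootsFinset (fam α).n (1 : k)).card : ℤ)) (by exact_mod_cast hcard) ?_
          have h5 : ((nthRootsFinset (fam α).n (1 : k)).card : ℤ) • (SQ (fam α) Q - SQ (fam α) Q') =
              ∑ z ∈ nthRootsFinset (fam α).n (1 : k), (SQ (fam α) (tau z Q') - SQ (fam α) Q') := by
            rw [zsmul_sub, natCast_zsmul, h2, Finset.sum_sub_distrib, Finset.sum_const, natCast_zsmul]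
          rw [h5]
          refine Submodule.sum_mem _ fun z hz => ?_
          have hz' : z ^ (fam α).n = 1 := (mem_root hc).1 hz
          have hz0 : z ≠ 0 := by
            rintro rfl
            rw [zero_pow hn.ne'] at hz'
            exact zero_ne_one hz'
          refine Submodule.subset_span ⟨⟨tau z Q', on_tau hz' hQ', ?_⟩, rfl⟩
          obtain ⟨y, hy, hy0⟩ := hu'
          refine ⟨z * y, ?_, mul_ne_zero hz0 hy0⟩
          change Option.map _ (Q' 1) = _
          rw [hy]
          rfl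
      unfold SV
      rw [Submodule.span_le]
      rintro _ ⟨Q, R, hQ, hR, rfl⟩
      have h2 : SQ (fam α) Q - SQ (fam α) R = (SQ (fam α) Q - SQ (fam α) Q') - (SQ (fam α) R - SQ (fam α) Q') := by
        abel
      rw [h2]
      exact Submodule.sub_mem _ (key Q hQ) (key R hR)

end Pool.Agent.LibSX77
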