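import Pool.Agent.LibSX77.B11

/-!
[SY77 B12] Assembly, part 3: the theorem on the family `fam α`.
-/

open scoped Classical
open Polynomial

namespace Pool.Agent.LibSX77

open Pool.Agent.LibBH2
open Pool.Agent.LibCHd (VR RF Red FunF)
open Pool.Agent.LibCW77

variable {k : Type} [Field k]

/-- the sum over the two flex points -/
theorem prQ_Q0 [CharZero k] {α ζ : k} (hc : (fam α).Good) (hζ : IsPrimitiveRoot ζ 3) :
    qc (prQ (fam α) Q0) + qc (prQ (fam α) Qinf) = SQ (fam α) Q0 - SQ (fam α) (tau ζ Q0) := by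
  have h3 : ζ ^ 3 = 1 := hζ.pow_eq_one
  have hζ0 : ζ ≠ 0 := hζ.ne_zero (by norm_num)
  have hζ1 : ζ ≠ 1 := hζ.ne_one (by norm_num)
  have hinv : ζ⁻¹ = ζ ^ 2 := inv_eq_of_mul_eq_one_right (by linear_combination h3)
  have hroot : nthRootsFinset (fam α).n (1 : k) = {1, ζ, ζ ^ 2} := by
    ext z
    rw [mem_root hc]
    simp only [Finset.mem_insert, Finset.mem_singleton]
    constructor
    · intro hz
      obtain ⟨i, hi, h⟩ := hζ.eq_pow_of_pow_eq_one (show z ^ 3 = 1 from hz)
      interval_cases i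
      · left; rw [← h, pow_zero]
      · right; left; rw [← h, pow_one]
      · right; right; exact h.symm
    · rintro (rfl | rfl | rfl)
      · exact one_pow _
      · exact h3
      · change (ζ ^ 2) ^ 3 = 1
        linear_combination (ζ ^ 3 + 1) * h3
  have d01 : (1 : k) ≠ ζ := fun h => hζ1 h.symm
  have d02 : (1 : k) ≠ ζ ^ 2 := by
    intro h
    apply hζ1
    have : ζ * ζ ^ 2 = 1 := by linear_combination h3
    rw [← h, mul_one] at this
    exact this
  have d12 : ζ ≠ ζ ^ 2 := by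
    intro h
    apply hζ1
    have h4 : ζ * (ζ - 1) = 0 := by linear_combination -h
    rcases mul_eq_zero.1 h4 with h5 | h5
    · exact absurd h5 hζ0
    · exact sub_eq_zero.1 h5
  have hs : ∀ Q : Fin 2 → Option k, prQ (fam α) Q = 2 • cls (fam α) 0 (pt1 Q) -
      cls (fam α) 0 (pt1 (tau ζ Q)) - cls (fam α) 0 (pt1 (tau (ζ ^ 2) Q)) := by
    intro Q
    unfold prQ dz
    rw [hroot, Finset.sum_insert, Finset.sum_insert, Finset.sum_singleton, tau_one]
    · abel
    · simpa using d12
    · simp only [Finset.mem_insert, Finset.mem_singleton, not_or]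
      exact ⟨d01, d02⟩
  have oi1 : ∀ y : k, y ≠ 0 → oi 1 (some y) = some (1 / y) := fun y hy => if_neg hy
  have oi0 : oi 1 (some (0 : k)) = none := if_pos rfl
  have e1 : vg 1 (Q0 : Fin 2 → Option k) = Qinf := by
    funext a
    fin_cases a
    · exact oi0
    · change some (- -(1 : k)) = some 1
      rw [neg_neg]
  have e2 : vg 2 (Q0 : Fin 2 → Option k) = Q0 := by
    funext a
    fin_cases a
    · change some (-(0 : k)) = some 0
      rw [neg_zero]
    · change oi 1 (some (-1 : k)) = some (-1)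
      rw [oi1 _ (by norm_num)]
      congr 1
      norm_num
  have e3 : vg 3 (Q0 : Fin 2 → Option k) = Qinf := by
    change al (vg 2 Q0) = Qinf
    rw [e2]
    exact e1
  have f1 : vg 1 (tau ζ Q0 : Fin 2 → Option k) = tau ζ Qinf := by
    funext a
    fin_cases a
    · exact oi0
    · change some (-(algebraMap k k ζ * (-1))) = some (algebraMap k k ζ * 1)
      congr 1
      ring
  have f2 : vg 2 (tau ζ Q0 : Fin 2 → Option k) = tau (ζ ^ 2) Q0 := by
    funext a
    fin_cases a
    · change some (-(0 : k)) = some 0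
      rw [neg_zero]
    · change oi 1 (some (algebraMap k k ζ * (-1))) = some (algebraMap k k (ζ ^ 2) * (-1))
      simp only [Algebra.algebraMap_self, RingHom.id_apply]
      rw [oi1 _ (by simpa using hζ0)]
      congr 1
      rw [mul_neg_one, mul_neg_one, one_div, inv_neg, hinv]
  have f3 : vg 3 (tau ζ Q0 : Fin 2 → Option k) = tau (ζ ^ 2) Qinf := by
    change al (vg 2 (tau ζ Q0)) = tau (ζ ^ 2) Qinf
    rw [f2]
    funext a
    fin_cases a
    · exact oi0
    · change some (-(algebraMap k k (ζ ^ 2) * (-1))) = some (algebraMap k k (ζ ^ 2) * 1)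
      congr 1
      ring
  unfold SQ
  rw [Fin.sum_univ_four, Fin.sum_univ_four, e1, e2, e3, f1, f2, f3, hs, hs]
  have g0 : ∀ Q : Fin 2 → Option k, vg 0 Q = Q := fun Q => rfl
  rw [g0, g0]
  simp only [qc_sub, two_nsmul, qc_add]
  abel

theorem fam_all [IsAlgClosed k] [CharZero k] {α : k} (hc : (fam α).Good) :
    ∃ Λ : (Er (rr α)).Point →+ CHQ (fam α) 3 1, FamF α Λ := by
  obtain ⟨hα0, -, -, -, hr0, hr1⟩ := fam_facts hc
  have hν : (1 : k) ^ (fam α).n = ∏ i, (-(kb (fam α) i) / ka (fam α) i) := nu_sym hc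
  obtain ⟨Ψ, hb, hline, hgal, hdiag⟩ := str_all hc hν
  obtain ⟨Q', hQ', hu', h0⟩ := exists_O hc
  obtain ⟨L, hinj, hrange, hL⟩ := exists_L hc hQ' hu' h0
  obtain ⟨Λ, hΛ⟩ : ∃ Λ : (Er (rr α)).Point →+ CHQ (fam α) 3 1, ∀ P, Λ P = Ψ (L (qt _ P)) :=
    ⟨(Ψ.toAddMonoidHom.comp L.toAddMonoidHom).comp (qt _), fun P => rfl⟩
  have hLmem : ∀ x, L x ∈ J0 (fam α) := fun x => sv_J0 hc (by rw [← hrange]; exact ⟨x, rfl⟩)
  refine ⟨Λ, ?_, ?_, ?_, ?_⟩
  · intro P
    rw [hΛ, ← qt_zero_iff]
    constructor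
    · intro h
      have h1 : L (qt _ P) = 0 :=
        hb.injOn (hLmem _) (Submodule.zero_mem _) (by rw [h, map_zero])
      exact hinj (by rw [h1, map_zero])
    · intro h
      rw [h, map_zero, map_zero]
  · rw [mv_eq hc hline hb, ← hrange]
    have h1 : (Set.range Λ) = Ψ '' (L '' Set.range (qt (Er (rr α)).Point)) := by
      ext y
      constructor
      · rintro ⟨P, rfl⟩
        exact ⟨_, ⟨_, ⟨P, rfl⟩, rfl⟩, (hΛ P).symm⟩
      · rintro ⟨_, ⟨_, ⟨P, rfl⟩, rfl⟩, rfl⟩
        exact ⟨P, hΛ P⟩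
    rw [h1, ← Submodule.map_span, ← Submodule.map_span,
      qt_top _ (Submodule.span ℚ (Set.range (qt (Er (rr α)).Point))) fun a => Submodule.subset_span ⟨a, rfl⟩,
      Submodule.map_top]
  · intro h N _ _ x v hg
    have h1 := hdiag rfl N x v hg
    rw [h1]
    obtain ⟨ζ, hζ⟩ : ∃ ζ : k, IsPrimitiveRoot ζ 3 := by
      have : NeZero (3 : k) := ⟨by norm_num⟩
      have : NeZero ((3 : ℕ) : k) := ⟨by norm_num⟩
      exact HasEnoughRootsOfUnity.exists_primitiveRoot k 3
    have h2 : ((rts (fam α)).map fun o => prQ (fam α) (Qk (fam α) 1 o)).sum =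
        3 • (prQ (fam α) Q0 + prQ (fam α) Qinf) := by
      have e := rts_sym (a := ![1, α, α⁻¹]) hc
      change rts (fam α) = _ at e
      have e0 : Qk (fam α) 1 (some 0) = Q0 := Qk_sym0 hc
      have e1 : Qk (fam α) 1 none = Qinf := Qk_sym1 hc
      rw [e, Multiset.map_add, Multiset.sum_add, Multiset.map_replicate, Multiset.map_replicate,
        Multiset.sum_replicate, Multiset.sum_replicate, e0, e1, nsmul_add]
    have hQ0 : OnC (fam α) ((Q0 : Fin 2 → Option k) 0) ((Q0 : Fin 2 → Option k) 1) := by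
      show (-1 : k) ^ 3 * ∏ i, ((0 : k) - (fam α).b i) = ∏ i, ((0 : k) - (fam α).a i)
      simp only [LibCW77.fam, symD, Fin.prod_univ_three]
      simp
      ring
    have hu0 : UnR (Q0 : Fin 2 → Option k) := ⟨-1, rfl, by norm_num⟩
    have hu1 : UnR (tau ζ Q0 : Fin 2 → Option k) := ⟨ζ * (-1), rfl, mul_ne_zero (hζ.ne_zero (by norm_num)) (by norm_num)⟩
    obtain ⟨e2, e3⟩ := pi_Q0 hc hζ h
    have h4 : qc (prQ (fam α) Q0) + qc (prQ (fam α) Qinf) =
        L (qt _ (-(3 • (WeierstrassCurve.Affine.Point.some _ _ h)))) := by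
      have h5 : qt (Er (rr α)).Point (-(3 • (WeierstrassCurve.Affine.Point.some _ _ h))) =
          qt _ (PiE α Q0) - qt _ (PiE α (tau ζ Q0)) := by
        rw [e2, e3, ← map_sub]
        congr 1
        abel
      rw [prQ_Q0 hc hζ, h5, map_sub, hL Q0 hQ0 hu0, hL (tau ζ Q0) (on_tau hζ.pow_eq_one hQ0) hu1]
      abel
    have h6 : qc (3 • (prQ (fam α) Q0 + prQ (fam α) Qinf)) =
        3 • (qc (prQ (fam α) Q0) + qc (prQ (fam α) Qinf)) := by
      rw [← qc_add]
      exact map_nsmul (qt (CH (fam α) 1 0)) 3 _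
    rw [h2, h6, h4, hΛ, map_nsmul, map_neg, map_neg, map_neg, map_nsmul, map_nsmul, map_nsmul]
    module
  · intro s hs
    have hper : Per (fam α) s 1 1 := by
      intro i
      have ha : s ((fam α).a i) = (fam α).a i := by
        fin_cases i
        · exact map_one s
        · exact hs
        · change s α⁻¹ = α⁻¹
          rw [map_inv₀, hs]
      refine ⟨ha, ?_⟩
      change s (-(fam α).a i) = -(fam α).a i
      rw [map_neg, ha]
    obtain ⟨G₀, G₁, hG₀, hG₁, hG⟩ := hgal s 1 1 hper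
    have hF0 : FunF k 0 k := Pool.Agent.LibHL77.funF_zero.2 inferInstance
    have hcls : ∀ R : Fin 2 → Option k, OnC (fam α) (R 0) (R 1) →
        G₀ (qc (cls (fam α) 0 (pt1 R))) = qc (cls (fam α) 0 (pt1 fun a => (R a).map s)) := by
      intro R hR
      have h2 := hG₀ k k (siK s) (pt1 R) hF0 fun _ => hR
      rw [map_one, div_one, tw_one] at h2
      exact h2
    have hSQ : ∀ R : Fin 2 → Option k, OnC (fam α) (R 0) (R 1) →
        G₀ (SQ (fam α) R) = SQ (fam α) fun a => (R a).map s := by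
      intro R hR
      unfold SQ
      rw [map_sum]
      refine Finset.sum_congr rfl fun i _ => ?_
      rw [hcls _ (vg_onk hc i hR), vg_gal]
    have hUn : ∀ R : Fin 2 → Option k, UnR R → UnR fun a => (R a).map s := by
      rintro R ⟨y, hy, hy0⟩
      refine ⟨s y, ?_, (map_ne_zero s).2 hy0⟩
      change Option.map s (R 1) = _
      rw [hy]
      rfl
    refine ⟨G₁, hG₁, ?_⟩
    intro x y h h'
    by_cases hx : x = 0
    · subst hx
      have hcE : cE (rr α) ≠ 0 := by
        unfold cE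
        intro h4
        apply hr1
        linear_combination -(1 / 4 : k) * h4
      have t1 : Λ (WeierstrassCurve.Affine.Point.some _ _ h) = 0 := by
        rw [hΛ, (qt_zero_iff _).2 (isOfFinAddOrder_iff_nsmul_eq_zero.2 ⟨3, by norm_num, fe_three h hcE⟩), map_zero,
          map_zero]
      have t2 : Λ (WeierstrassCurve.Affine.Point.some _ _ h') = 0 := by
        have h3 : 3 • (WeierstrassCurve.Affine.Point.some _ _ h') = 0 := by
          have : ∀ (x' : k) (hx' : x' = 0) (h'' : (Er (rr α)).Nonsingular x' (s y)),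
              3 • (WeierstrassCurve.Affine.Point.some _ _ h'') = 0 := by
            rintro _ rfl h''
            exact fe_three h'' hcE
          exact this _ (map_zero s) h'
        rw [hΛ, (qt_zero_iff _).2 (isOfFinAddOrder_iff_nsmul_eq_zero.2 ⟨3, by norm_num, h3⟩), map_zero, map_zero]
      rw [t1, t2, map_zero]
    · obtain ⟨Q, hQ, hu, hQP⟩ := pi_surj hc h hx
      have hQs := per_onC hper hQ
      have hQs' := per_onC hper hQ'
      obtain ⟨h'', e4⟩ := (pi_gal hc s hs hQ hu).2 x y h hQP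
      have e5 := (pi_gal hc s hs hQ' hu').1 h0
      have e6 : L (qt _ (PiE α fun a => (Q a).map s)) = G₀ (L (qt _ (PiE α Q))) := by
        have e7 := hL (fun a => (Q' a).map s) hQs' (hUn Q' hu')
        rw [e5, map_zero, map_zero] at e7
        have e8 : SQ (fam α) (fun a => (Q' a).map s) = SQ (fam α) Q' := (sub_eq_zero.1 e7.symm)
        rw [hL _ hQs (hUn Q hu), hL Q hQ hu, map_sub, hSQ Q hQ, hSQ Q' hQ', e8]
      rw [hΛ, hΛ, ← hQP]
      have e9 : (WeierstrassCurve.Affine.Point.some _ _ h') = PiE α fun a => (Q a).map s := e4.symm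
      rw [e9, e6, hG _ (hLmem _), Equiv.Perm.sign_one, one_mul, Units.val_one, one_smul]

end Pool.Agent.LibSX77
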