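import Pool.Agent.LibSX77.BDefs
import Pool.Agent.LibCW77.FG1
import Pool.Agent.LibCW77.FG3

/-!
[SY77 B2] Places of the function field of `fam α` and the functions `cX`, `cY` (`FGDefs.lean`): `fy x = (x - 1) / (x + 1)`,
`t = v / fy x`, `cX = - c t / (1 + t) ^ 2`. If the centre `Q` is not ramified, `fy x` and `v` have the values `yc (Q 0)` and
`vc Q`, both not `0` (at `x = ∞`: `fy x = 1 - 2 / (x + 1)`); `yc ≠ 0, ∞` since `x = 1`, `x = -1` are ramified. If `Q` is ramified, `t` has a zero or a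
pole: `x(Q) = 1`: `w.ord v = 1`, `w.ord (x - 1) = 3` (`placeC` and uniqueness), `t` has a pole; `x(Q) = -1`: zero of `t`; the other `a_i`: `v` has
a zero, `fy x` is a unit; the other `b_i`: pole of `v`. So `cX = - c / (t + 2 + 1 / t)` has a zero. `fam_gen`: `fg_pt` / `fg_rel` (the equation), `cX` is
transcendental (it has a zero, e.g. at a ramified place, or: `x` is algebraic over `k(cX)`).
-/

open scoped Classical
open Polynomial

namespace Pool.Agent.LibSX77

open Pool.Agent.LibBH2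
open Pool.Agent.LibCHd (VR RF Red FunF)
open Pool.Agent.LibCW77

variable {k : Type} [Field k]

private theorem SB_const [IsAlgClosed k] {N : Type} [Field N] [Algebra k N] {z : N} (h : IsAlgebraic k z) :
    ∃ a : k, z = algebraMap k N a := by
  have hi : IsIntegral k z := h.isIntegral
  have h1 : (minpoly k z).degree = 1 := IsAlgClosed.degree_eq_one_of_irreducible k (minpoly.irreducible hi)
  obtain ⟨a, ha⟩ := minpoly.mem_range_of_degree_eq_one k z h1
  exact ⟨a, ha.symm⟩

private theorem SB_bc (r : k) (N : Type) [Field N] [Algebra k N] :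
    (Er r).map (algebraMap k N) = Er (algebraMap k N r) := by
  ext <;> simp [Er, map_ofNat]

private theorem SB_root [IsAlgClosed k] [CharZero k] {c : Dat k} (hc : c.Good) :
    ∃ ζ : k, IsPrimitiveRoot ζ c.n := by
  have hn : c.n ≠ 0 := by have := hc.two; omega
  have : NeZero c.n := ⟨hn⟩
  have : NeZero (c.n : k) := ⟨Nat.cast_ne_zero.2 hn⟩
  exact HasEnoughRootsOfUnity.exists_primitiveRoot k c.n

private theorem SB_eqQ {N : Type} [Field N] [Algebra k N] {x v : N} {w : Place k N} {Q Q' : Fin 2 → Option k}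
    (hw : Cen x v w Q) (hw' : Cen x v w Q') : Q = Q' := by
  have h := spP_unique hw hw'
  have h1 : ctp (RF w) Q = ctp (RF w) Q' := congrFun h 0
  funext i
  have h2 : (Q i).map (algebraMap k (RF w)) = (Q' i).map (algebraMap k (RF w)) := congrFun h1 i
  exact Option.map_injective (algebraMap k (RF w)).injective h2

private theorem SB_y [IsAlgClosed k] [CharZero k] {N : Type} [Field N] [Algebra k N] {x : N}
    (hx : Transcendental k x) : Transcendental k (fy x) := by
  intro h
  obtain ⟨b, hb⟩ := SB_const h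
  have hx1 : x + 1 ≠ 0 := by
    intro h1
    apply hx
    have h2 : x = algebraMap k N (-1) := by
      rw [map_neg, map_one]
      linear_combination h1
    rw [h2]
    exact isAlgebraic_algebraMap _
  unfold fy at hb
  rw [div_eq_iff hx1] at hb
  by_cases hb1 : b = 1
  · rw [hb1, map_one, one_mul] at hb
    have h3 : (2 : N) = 0 := by linear_combination -hb
    have h4 : algebraMap k N 2 = 0 := by rw [map_ofNat]; exact h3
    have h5 : (2 : k) = 0 := (map_eq_zero (algebraMap k N)).1 h4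
    exact two_ne_zero h5
  · apply hx
    have hb2 : (1 : k) - b ≠ 0 := sub_ne_zero.2 (Ne.symm hb1)
    have hb3 : (1 : N) - algebraMap k N b ≠ 0 := by
      have := (map_ne_zero (algebraMap k N)).2 hb2
      rwa [map_sub, map_one] at this
    have h6 : x = algebraMap k N ((1 + b) / (1 - b)) := by
      rw [map_div₀, map_add, map_sub, map_one, eq_div_iff hb3]
      linear_combination hb
    rw [h6]
    exact isAlgebraic_algebraMap _

private theorem SB_tr [IsAlgClosed k] [CharZero k] {α : k} (hc : (fam α).Good) {N : Type} [Field N] [Algebra k N]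
    {x v : N} (hg : GenC (fam α) x v) : Transcendental k (cX α x v) := by
  intro h
  obtain ⟨h0, _, _, hb, hr0, hr1⟩ := fam_facts hc
  obtain ⟨hx2, hx1, hy, hv, hvy⟩ := fg_ne hc hg
  have hrel := fg_rel hc hg
  have hcE : cE (rr α) ≠ 0 := by
    unfold cE
    refine mul_ne_zero (by norm_num) (sub_ne_zero.2 (Ne.symm hr1))
  obtain ⟨a, ha⟩ := SB_const h
  have hcE' : algebraMap k N (cE (rr α)) ≠ 0 := (map_ne_zero (algebraMap k N)).2 hcE
  have hf : fX x v = algebraMap k N (-a / cE (rr α)) := by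
    rw [map_div₀, map_neg, eq_div_iff hcE', ← ha]
    unfold cX
    ring
  set b : k := -a / cE (rr α) with hbdef
  have h1 : v * fy x = algebraMap k N b * (v + fy x) ^ 2 := by
    have h2 : v * fy x / (v + fy x) ^ 2 = algebraMap k N b := hf
    rwa [div_eq_iff (pow_ne_zero 2 hvy)] at h2
  have h3 : IsAlgebraic k (v / fy x) := by
    refine ⟨C b * (X + 1) ^ 2 - X, ?_, ?_⟩
    · intro h4
      have h5 := congrArg (fun p : k[X] => p.eval (-1)) h4
      simp at h5
    · simp only [map_sub, map_mul, map_pow, map_add, map_one, aeval_X, aeval_C]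
      have h4 : (algebraMap k N b * (v / fy x + 1) ^ 2 - v / fy x) * fy x ^ 2 = 0 := by
        have h5 : (algebraMap k N b * (v / fy x + 1) ^ 2 - v / fy x) * fy x ^ 2 =
            algebraMap k N b * (v + fy x) ^ 2 - v * fy x := by
          field_simp
        rw [h5, h1, sub_self]
      exact (mul_eq_zero.1 h4).resolve_right (pow_ne_zero 2 hy)
  obtain ⟨τ, hτ⟩ := SB_const h3
  rw [div_eq_iff hy] at hτ
  apply SB_y hg.tr
  refine ⟨C (τ ^ 3) * X ^ 2 * (1 + C (rr α) * X ^ 2) - X ^ 2 - C (rr α), ?_, ?_⟩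
  · intro h4
    have h5 := congrArg (fun p : k[X] => p.eval 0) h4
    simp at h5
    exact hr0 h5
  · simp only [map_sub, map_mul, map_pow, map_add, map_one, aeval_X, aeval_C]
    rw [hτ] at hrel
    have h6 : fy x * (algebraMap k N τ ^ 3 * fy x ^ 2 * (1 + algebraMap k N (rr α) * fy x ^ 2) - fy x ^ 2 -
        algebraMap k N (rr α)) = 0 := by
      linear_combination hrel
    exact (mul_eq_zero.1 h6).resolve_left hy

theorem cen_exists [IsAlgClosed k] [CharZero k] {c : Dat k} (hc : c.Good) {N : Type} [Field N] [Algebra k N] {x v : N}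
    (hg : GenC c x v) (w : Place k N) : ∃ Q : Fin 2 → Option k, OnC c (Q 0) (Q 1) ∧ Cen x v w Q := by
  obtain ⟨Q, hQ, h1, h2⟩ := place_pt hc hg w
  refine ⟨Q, hQ, ?_⟩
  intro j i
  fin_cases i
  · exact h1
  · exact h2

theorem cen_place [IsAlgClosed k] [CharZero k] {c : Dat k} (hc : c.Good) {N : Type} [Field N] [Algebra k N] {x v : N}
    (hg : GenC c x v) {Q : Fin 2 → Option k} (hQ : OnC c (Q 0) (Q 1)) : ∃ w : Place k N, Cen x v w Q := by
  obtain ⟨ζ, hζ⟩ := SB_root hc
  obtain ⟨w, ⟨h1, h2⟩, -⟩ := placeC hc hζ hg Q hQ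
  refine ⟨w, ?_⟩
  intro j i
  fin_cases i
  · exact h1
  · exact h2

theorem cen_eq [IsAlgClosed k] [CharZero k] {c : Dat k} (hc : c.Good) {N : Type} [Field N] [Algebra k N] {x v : N}
    (hg : GenC c x v) {w w' : Place k N} {Q : Fin 2 → Option k} (hw : Cen x v w Q) (hw' : Cen x v w' Q) : w = w' := by
  obtain ⟨ζ, hζ⟩ := SB_root hc
  obtain ⟨Q₁, hQ₁, hw₁⟩ := cen_exists hc hg w
  have hQ : OnC c (Q 0) (Q 1) := by
    rw [SB_eqQ hw hw₁]
    exact hQ₁
  obtain ⟨w₀, -, -, -, -, -, -, h⟩ := placeC hc hζ hg Q hQ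
  rw [h w (hw 0 0) (hw 0 1), h w' (hw' 0 0) (hw' 0 1)]

theorem cen_eqQ {N : Type} [Field N] [Algebra k N] {x v : N} {w : Place k N} {Q Q' : Fin 2 → Option k}
    (hw : Cen x v w Q) (hw' : Cen x v w Q') : Q = Q' := by
  exact SB_eqQ hw hw'

theorem fam_gen [IsAlgClosed k] [CharZero k] {α : k} (hc : (fam α).Good) {N : Type} [Field N] [Algebra k N] {x v : N}
    (hg : GenC (fam α) x v) : Transcendental k (cX α x v) ∧
      cY α x v ^ 2 = cX α x v ^ 3 + algebraMap k N (Er (rr α)).a₂ * cX α x v ^ 2 +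
        algebraMap k N (Er (rr α)).a₄ * cX α x v + algebraMap k N (Er (rr α)).a₆ := by
  refine ⟨SB_tr hc hg, ?_⟩
  have h := (fg_pt hc hg).1
  have h1 : (Er (algebraMap k N (rr α))).Equation (cX α x v) (cY α x v) := by
    rw [← SB_bc]
    exact h
  rw [WeierstrassCurve.Affine.equation_iff] at h1
  simp only [Er] at h1 ⊢
  simp only [map_mul, map_sub, map_pow, map_one, map_ofNat]
  linear_combination h1

private theorem B2b_one {N : Type} [Field N] [Algebra k N] (w : Place k N) :
    w.Zer ((1 : N) - algebraMap k N 1) := by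
  rw [map_one, sub_self]
  exact w.zer_zero

private theorem B2b_pt {α : k} (hc : (fam α).Good) {x0 y : k} (hy : y ≠ 0)
    (h : OnC (fam α) (some x0) (some y)) : ∀ i, x0 ≠ (fam α).a i ∧ x0 ≠ (fam α).b i := by
  have hab : ∀ i j : Fin 3, (fam α).a i ≠ (fam α).b j := by
    intro i j he
    have h1 : (Sum.inl i : Fin 3 ⊕ Fin 3) = Sum.inr j := hc.inj he
    simp at h1
  have h1 : y ^ (fam α).n * ∏ i, (x0 - (fam α).b i) = ∏ i, (x0 - (fam α).a i) := h
  intro i
  constructor
  · intro he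
    have h2 : ∏ i, (x0 - (fam α).a i) = 0 := Finset.prod_eq_zero (Finset.mem_univ i) (sub_eq_zero.2 he)
    rw [h2] at h1
    have h3 := (mul_eq_zero.1 h1).resolve_left (pow_ne_zero _ hy)
    obtain ⟨j, _, hj⟩ := Finset.prod_eq_zero_iff.1 h3
    exact hab i j (he.symm.trans (sub_eq_zero.1 hj))
  · intro he
    have h2 : ∏ i, (x0 - (fam α).b i) = 0 := Finset.prod_eq_zero (Finset.mem_univ i) (sub_eq_zero.2 he)
    rw [h2, mul_zero] at h1
    obtain ⟨j, _, hj⟩ := Finset.prod_eq_zero_iff.1 h1.symm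
    exact hab j i ((sub_eq_zero.1 hj).symm.trans he)

private theorem B2b_yinf {N : Type} [Field N] [Algebra k N] {w : Place k N} {x : N}
    (h : w.ord x < 0) : w.Zer (fy x - algebraMap k N 1) := by
  have hx : x ≠ 0 := by
    rintro rfl
    rw [w.ord_zero] at h
    exact lt_irrefl _ h
  have h1 : w.Zer (x⁻¹ - algebraMap k N 0) := by
    rw [map_zero, sub_zero]
    exact Or.inr (by rw [w.ord_inv]; omega)
  have h2 := Place.val_div (Place.val_sub (B2b_one w) h1) (Place.val_add (B2b_one w) h1) (by simp)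
  have e1 : (1 : N) - x⁻¹ = (x - 1) / x := by field_simp
  have e2 : (1 : N) + x⁻¹ = (x + 1) / x := by field_simp
  rw [e1, e2, div_div_div_cancel_right₀ hx] at h2
  have e3 : ((1 : k) - 0) / (1 + 0) = 1 := by simp
  rw [e3] at h2
  exact h2

private theorem B2b_val {α : k} (hc : (fam α).Good) {N : Type} [Field N] [Algebra k N] {x v : N}
    {w : Place k N} {Q : Fin 2 → Option k} (hQ : OnC (fam α) (Q 0) (Q 1)) (hu : UnR Q)
    (hw : Cen x v w Q) : w.Zer (fy x - algebraMap k N (yc (Q 0))) ∧ yc (Q 0) ≠ 0 ∧ vc Q ≠ 0 ∧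
      w.Zer (v - algebraMap k N (vc Q)) := by
  obtain ⟨y, hy, hy0⟩ := hu
  have hvc : vc Q = y := by
    unfold vc
    rw [hy]
    rfl
  have s0 : SpO w (some x) ((Q 0).map (algebraMap k (RF w))) := hw 0 0
  have s1 : SpO w (some v) ((Q 1).map (algebraMap k (RF w))) := hw 0 1
  rw [hy] at s1 hQ
  have hv : w.Zer (v - algebraMap k N y) := Pool.Agent.LibCHd.red_iff_val.1 s1
  rw [hvc]
  cases hx : Q 0 with
  | none =>
    rw [hx] at s0
    refine ⟨B2b_yinf s0, ?_, hy0, hv⟩
    exact one_ne_zero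
  | some x0 =>
    rw [hx] at s0 hQ
    have hx0 : w.Zer (x - algebraMap k N x0) := Pool.Agent.LibCHd.red_iff_val.1 s0
    have h1 := B2b_pt hc hy0 hQ 0
    have ha : x0 - 1 ≠ 0 := sub_ne_zero.2 h1.1
    have hb : x0 + 1 ≠ 0 := by
      intro h2
      apply h1.2
      have h3 : (fam α).b 0 = -1 := rfl
      rw [h3]
      exact eq_neg_of_add_eq_zero_left h2
    refine ⟨?_, ?_, hy0, hv⟩
    · exact Place.val_div (Place.val_sub hx0 (B2b_one w)) (Place.val_add hx0 (B2b_one w)) hb
    · exact div_ne_zero ha hb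

private theorem B2b_cE [CharZero k] {α : k} (hc : (fam α).Good) : cE (rr α) ≠ 0 := by
  obtain ⟨-, -, -, -, -, hr1⟩ := fam_facts hc
  unfold cE
  apply mul_ne_zero
  · exact Nat.cast_ne_zero.2 (show (4 : ℕ) ≠ 0 by norm_num)
  · exact sub_ne_zero.2 (Ne.symm hr1)

private theorem B2b_ord [CharZero k] {α : k} (hc : (fam α).Good) {N : Type} [Field N] [Algebra k N] {x v : N}
    (hg : GenC (fam α) x v) (w : Place k N) : cX α x v ≠ 0 ∧
      w.ord (cX α x v) = w.ord v + w.ord (fy x) - 2 * w.ord (v + fy x) := by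
  obtain ⟨-, -, hy, hv, hs⟩ := fg_ne hc hg
  have hE : algebraMap k N (cE (rr α)) ≠ 0 := (map_ne_zero (algebraMap k N)).2 (B2b_cE hc)
  have hf : fX x v ≠ 0 := div_ne_zero (mul_ne_zero hv hy) (pow_ne_zero _ hs)
  refine ⟨neg_ne_zero.2 (mul_ne_zero hE hf), ?_⟩
  unfold cX
  rw [w.ord_neg, w.ord_mul _ _ hE hf, w.ord_const _ (B2b_cE hc)]
  unfold fX
  rw [w.ord_div _ _ (mul_ne_zero hv hy) (pow_ne_zero _ hs), w.ord_mul _ _ hv hy, w.ord_pow]
  push_cast
  ring

theorem cen_unr [IsAlgClosed k] [CharZero k] {α : k} (hc : (fam α).Good) {N : Type} [Field N] [Algebra k N]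
    {x v : N} (hg : GenC (fam α) x v) {w : Place k N} {Q : Fin 2 → Option k} (hQ : OnC (fam α) (Q 0) (Q 1)) (hu : UnR Q)
    (hw : Cen x v w Q) :
    (vc Q + yc (Q 0) ≠ 0 → w.Zer (cX α x v - algebraMap k N (PX (rr α) (yc (Q 0)) (vc Q))) ∧
      w.Zer (cY α x v - algebraMap k N (PY (rr α) (yc (Q 0)) (vc Q)))) ∧
    (vc Q + yc (Q 0) = 0 → ¬ w.Reg (cX α x v)) := by
  obtain ⟨h1, h2, h3, h4⟩ := B2b_val hc hQ hu hw
  constructor
  · intro hs
    constructor
    · exact Place.val_neg (Place.val_mul (Place.val_const _)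
        (Place.val_div (Place.val_mul h4 h1) (Place.val_pow (Place.val_add h4 h1) 2) (pow_ne_zero _ hs)))
    · exact Place.val_mul (Place.val_const _) (Place.val_div (Place.val_mul (Place.val_mul (Place.val_const _) h1)
        (Place.val_add (B2b_one w) (Place.val_mul (Place.val_pow h4 3) h1)))
          (Place.val_pow (Place.val_add h4 h1) 3) (pow_ne_zero _ hs))
  · intro hs hr
    obtain ⟨h5, h6⟩ := B2b_ord hc hg w
    obtain ⟨-, -, -, -, hne⟩ := fg_ne hc hg
    have h7 := Place.val_add h4 h1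
    rw [hs, map_zero, sub_zero] at h7
    have h8 := h7.resolve_left hne
    have h9 := hr.resolve_left h5
    rw [h6, Place.ord_eq_zero_of_val h4 h3, Place.ord_eq_zero_of_val h1 h2] at h9
    omega

private theorem B2b_ne [CharZero k] {α : k} (hc : (fam α).Good) {N : Type} [Field N] [Algebra k N] {x v : N}
    (hg : GenC (fam α) x v) (w : Place k N) (h0 : w.ord v ≠ 0) : w.ord v ≠ w.ord (fy x) := by
  intro he
  obtain ⟨-, -, hy, hv, -⟩ := fg_ne hc hg
  obtain ⟨-, -, -, -, hr0, -⟩ := fam_facts hc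
  have hrel := fg_rel hc hg
  set y := fy x with hydef
  set R := algebraMap k N (rr α) with hR
  rcases lt_or_gt_of_ne h0 with h1 | h1
  · -- poles
    have hz : w.Zer (y⁻¹ - algebraMap k N 0) := by
      rw [map_zero, sub_zero]
      exact Or.inr (by rw [w.ord_inv, ← he]; omega)
    have e1 := Place.val_add (Place.val_pow hz 2) (Place.val_const (v := w) (rr α))
    have e2 := Place.val_add (B2b_one w) (Place.val_mul (Place.val_const (v := w) (rr α)) (Place.val_pow hz 2))
    have n1 : (0 : k) ^ 2 + rr α ≠ 0 := by simpa using hr0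
    have n2 : (1 : k) + rr α * 0 ^ 2 ≠ 0 := by simp
    have o1 := Place.ord_eq_zero_of_val e1 n1
    have o2 := Place.ord_eq_zero_of_val e2 n2
    have m1 := Place.ne_zero_of_val e1 n1
    have m2 := Place.ne_zero_of_val e2 n2
    rw [← hR] at o1 o2 m1 m2
    have e3 : v ^ 3 * (y⁻¹ ^ 2 + R) = y * (1 + R * y⁻¹ ^ 2) := by
      have h3 : (v ^ 3 * (y⁻¹ ^ 2 + R)) * y ^ 2 = (y * (1 + R * y⁻¹ ^ 2)) * y ^ 2 := by
        have h4 : (v ^ 3 * (y⁻¹ ^ 2 + R)) * y ^ 2 = v ^ 3 * (1 + R * y ^ 2) := by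
          field_simp
        have h5 : (y * (1 + R * y⁻¹ ^ 2)) * y ^ 2 = y * (y ^ 2 + R) := by
          field_simp
        rw [h4, h5, hrel]
      exact mul_right_cancel₀ (pow_ne_zero 2 hy) h3
    have h6 := congrArg w.ord e3
    rw [w.ord_mul _ _ (pow_ne_zero _ hv) m1, w.ord_mul _ _ hy m2, w.ord_pow, o1, o2, ← he] at h6
    push_cast at h6
    omega
  · -- zeros
    have hz : w.Zer (y - algebraMap k N 0) := by
      rw [map_zero, sub_zero]
      exact Or.inr (by rw [← he]; omega)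
    have e1 := Place.val_add (Place.val_pow hz 2) (Place.val_const (v := w) (rr α))
    have e2 := Place.val_add (B2b_one w) (Place.val_mul (Place.val_const (v := w) (rr α)) (Place.val_pow hz 2))
    have n1 : (0 : k) ^ 2 + rr α ≠ 0 := by simpa using hr0
    have n2 : (1 : k) + rr α * 0 ^ 2 ≠ 0 := by simp
    have o1 := Place.ord_eq_zero_of_val e1 n1
    have o2 := Place.ord_eq_zero_of_val e2 n2
    have m1 := Place.ne_zero_of_val e1 n1
    have m2 := Place.ne_zero_of_val e2 n2
    rw [← hR] at o1 o2 m1 m2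
    have h6 := congrArg w.ord hrel
    rw [w.ord_mul _ _ (pow_ne_zero _ hv) m2, w.ord_mul _ _ hy m1, w.ord_pow, o1, o2, ← he] at h6
    push_cast at h6
    omega

theorem cen_ram [IsAlgClosed k] [CharZero k] {α : k} (hc : (fam α).Good) {N : Type} [Field N] [Algebra k N]
    {x v : N} (hg : GenC (fam α) x v) {w : Place k N} {Q : Fin 2 → Option k} (hQ : OnC (fam α) (Q 0) (Q 1)) (hu : ¬ UnR Q)
    (hw : Cen x v w Q) : w.Zer (cX α x v) := by
  obtain ⟨-, -, hy, hv, hs⟩ := fg_ne hc hg
  have s1 : SpO w (some v) ((Q 1).map (algebraMap k (RF w))) := hw 0 1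
  have h0 : w.ord v ≠ 0 := by
    cases h1 : Q 1 with
    | none =>
      rw [h1] at s1
      have h2 : w.ord v < 0 := s1
      exact h2.ne
    | some y =>
      rw [h1] at s1
      have hy0 : y = 0 := by
        by_contra h2
        exact hu ⟨y, h1, h2⟩
      have h2 : w.Zer (v - algebraMap k N y) := Pool.Agent.LibCHd.red_iff_val.1 s1
      rw [hy0, map_zero, sub_zero] at h2
      exact (h2.resolve_left hv).ne'
  have h1 := B2b_ne hc hg w h0
  obtain ⟨h5, h6⟩ := B2b_ord hc hg w
  right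
  rw [h6]
  rcases lt_or_gt_of_ne h1 with h2 | h2
  · rw [(Place.ord_add_of_lt hv hy h2).2]
    omega
  · rw [add_comm v (fy x), (Place.ord_add_of_lt hy hv h2).2]
    omega

end Pool.Agent.LibSX77
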