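import Pool.Agent.LibSX77.Defs
import Pool.Agent.LibCW77.ODefs
import Pool.Agent.LibCW77.FEDefs
import Pool.Agent.LibCW77.FGDefs

/-!
The curves `fam α` and the elliptic curves `Er (rr α)`: definitions.
-/

open scoped Classical
open Polynomial

namespace Pool.Agent.LibSX77

open Pool.Agent.LibBH2
open Pool.Agent.LibCHd (VR RF Red FunF)
open Pool.Agent.LibCW77

section

variable {M : Type} [Field M]

/-- `(x, v) ↦ (1 / x, - v)` -/
noncomputable def al (P : Fin 2 → Option M) : Fin 2 → Option M := ![oi 1 (P 0), (P 1).map fun v => -v]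

/-- `(x, v) ↦ (- x, 1 / v)` -/
noncomputable def be (P : Fin 2 → Option M) : Fin 2 → Option M := ![(P 0).map fun x => -x, oi 1 (P 1)]

/-- the group of order `4` generated by `al` and `be` -/
noncomputable def vg (i : Fin 4) (P : Fin 2 → Option M) : Fin 2 → Option M := ![P, al P, be P, al (be P)] i

/-- the same on the powers of the curve -/
noncomputable def vgP (i : Fin 4) {m : ℕ} (P : Pnt m M) : Pnt m M := fun j => vg i (P j)

end

variable {k : Type} [Field k]

/-- the image in `ℚ ⊗ CH_1(C ^ 3)` of the projector `prj` followed by the sum over the group of order `4` -/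
noncomputable def MV (c : Dat k) : Submodule ℚ (CHQ c 3 1) :=
  Submodule.span ℚ {x | ∃ (M : Type) (_ : Field M) (_ : Algebra k M) (P : Pnt 3 M), FunF k 1 M ∧ On (c.over M) P ∧
    x = ∑ i, qc (prj c (vgP i P))}

/-- the sum of the classes of the four points `g Q` -/
noncomputable def SQ (c : Dat k) (Q : Fin 2 → Option k) : CHQ c 1 0 := ∑ i, qc (cls c 0 (pt1 (vg i Q)))

/-- `y = (x - 1) / (x + 1)` -/
noncomputable def yc : Option k → k
  | none => 1
  | some x => (x - 1) / (x + 1)

/-- the coordinate `v` (for `v ≠ ∞`) -/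
def vc (Q : Fin 2 → Option k) : k := (Q 1).getD 0

/-- the first coordinate of the image of `(y, v)` in `Er r` -/
noncomputable def PX (r y v : k) : k := -(cE r * (v * y / (v + y) ^ 2))

/-- the second coordinate of the image of `(y, v)` in `Er r` -/
noncomputable def PY (r y v : k) : k := cE r * (r * y * (1 + v ^ 3 * y) / (v + y) ^ 3)

/-- the image in `Er (rr α)` of a point of `fam α` which is not ramified -/
noncomputable def PiE (α : k) (Q : Fin 2 → Option k) : (Er (rr α)).Point :=
  if h : vc Q + yc (Q 0) ≠ 0 ∧ (Er (rr α)).Nonsingular (PX (rr α) (yc (Q 0)) (vc Q)) (PY (rr α) (yc (Q 0)) (vc Q))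
  then .some _ _ h.2 else 0

/-- `w` is centred at the point `Q` over `k` -/
def Cen {N : Type} [Field N] [Algebra k N] (x v : N) (w : Place k N) (Q : Fin 2 → Option k) : Prop :=
  SpP w (gpt x v) (pt1 (ctp (RF w) Q))

/-- the multiplicity of the place `w` in the pull-back of the point `(x₀, y₀)` by `(X, Y)` -/
noncomputable def ee {N : Type} [Field N] [Algebra k N] (X Y : N) (w : Place k N) (x₀ y₀ : k) : ℤ :=
  if w.Zer (X - algebraMap k N x₀) ∧ w.Zer (Y - algebraMap k N y₀) then
    min (w.ord (X - algebraMap k N x₀)) (w.ord (Y - algebraMap k N y₀)) else 0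

/-- twice the multiplicity of the place `w` in the pull-back of the point `P` by `(X, Y)` -/
noncomputable def eE {N : Type} [Field N] [Algebra k N] {W : WeierstrassCurve.Affine k} (X Y : N) (w : Place k N) :
    W.Point → ℤ
  | .zero => if w.Reg X then 0 else -w.ord X
  | .some x₀ y₀ _ => 2 * ee X Y w x₀ y₀

/-- the span of the differences of the sums `SQ` -/
noncomputable def SV (c : Dat k) : Submodule ℚ (CHQ c 1 0) :=
  Submodule.span ℚ {x | ∃ Q Q' : Fin 2 → Option k, OnC c (Q 0) (Q 1) ∧ OnC c (Q' 0) (Q' 1) ∧ x = SQ c Q - SQ c Q'}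

/-- the homomorphism `Λ` from the elliptic curve to `ℚ ⊗ CH_1(C ^ 3)`: its kernel are the torsion points, its image
spans the summand `MV`, the small diagonal is the image of `27 B`, and it commutes with the automorphisms of `k`
which fix `α` -/
def FamF (α : k) (Λ : (Er (rr α)).Point →+ CHQ (fam α) 3 1) : Prop :=
  (∀ P, Λ P = 0 ↔ IsOfFinAddOrder P) ∧ Submodule.span ℚ (Set.range Λ) = MV (fam α) ∧
  (∀ (h : (Er (rr α)).Nonsingular (4 * (rr α ^ 2 - 1)) (8 * rr α * (rr α ^ 2 - 1))) (N : Type) [Field N]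
    [Algebra k N] (x v : N), GenC (fam α) x v →
    qc (prj (fam α) (tri ![some x, some v] ![some x, some v] ![some x, some v])) =
      27 • Λ (WeierstrassCurve.Affine.Point.some _ _ h)) ∧
  ∀ s : k ≃+* k, s α = α → ∃ G : CHQ (fam α) 3 1 →ₗ[ℚ] CHQ (fam α) 3 1, IsActT s 1 G ∧
    ∀ (x y : k) (h : (Er (rr α)).Nonsingular x y) (h' : (Er (rr α)).Nonsingular (s x) (s y)),
      Λ (WeierstrassCurve.Affine.Point.some _ _ h') = G (Λ (WeierstrassCurve.Affine.Point.some _ _ h))

end Pool.Agent.LibSX77
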