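import Pool.Agent.LibCW77.GDefs
import Pool.Agent.LibCW77.Z6

/-!
The motive cut out of `C ^ 3` by `μ_n ^ 3 ⋊ S_3` and the twisted Jacobian: definitions.
-/

open scoped Classical
open Polynomial

namespace Pool.Agent.LibSX77

open Pool.Agent.LibBH2
open Pool.Agent.LibCHd (VR RF Red FunF)
open Pool.Agent.LibCW77

variable {k : Type} [Field k]

/-- `s (a_i) = a_{σ i}` and `s (b_i) = b_{τ i}` -/
def Per (c : Dat k) (s : k ≃+* k) (σ τ : Equiv.Perm (Fin 3)) : Prop :=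
  ∀ i, s (c.a i) = c.a (σ i) ∧ s (c.b i) = c.b (τ i)

/-- `∑ cls (h P) - cls (h z P)`, the sum over `z ∈ μ_n` (acting on the first point) and over the `h = (w, σ)` with
`w ∈ μ_n ^ 3`, `∏ w_j = 1`, `σ ∈ S_3` -/
noncomputable def prj (c : Dat k) {M : Type} [Field M] [Algebra k M] (P : Pnt 3 M) : CH c 3 1 :=
  ∑ z ∈ nthRootsFinset c.n (1 : k), mns c z P

/-- `∑ (Q - τ_z Q)`, the sum over `z ∈ μ_n`, `τ_z (x, v) = (x, z v)` -/
noncomputable def prQ (c : Dat k) (Q : Fin 2 → Option k) : CH c 1 0 :=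
  ∑ z ∈ nthRootsFinset c.n (1 : k), dz c z Q

/-- the image of the projector `prj` on `ℚ ⊗ CH_1(C ^ 3)` -/
noncomputable def M1 (c : Dat k) : Submodule ℚ (CHQ c 3 1) :=
  Submodule.span ℚ {x | ∃ (M : Type) (_ : Field M) (_ : Algebra k M) (P : Pnt 3 M), FunF k 1 M ∧ On (c.over M) P ∧
    x = qc (prj c P)}

/-- `ℚ ⊗ J(C)(k)`: the classes of degree `0` in `ℚ ⊗ CH_0(C)` -/
noncomputable def J0 (c : Dat k) : Submodule ℚ (CHQ c 1 0) :=
  Submodule.span ℚ {x | ∃ Q Q' : Fin 2 → Option k, OnC c (Q 0) (Q 1) ∧ OnC c (Q' 0) (Q' 1) ∧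
    x = qc (cls c 0 (pt1 Q) - cls c 0 (pt1 Q'))}

/-- `G` is the action of the automorphism `s` of `k`, followed by `(x, v) ↦ (x, η v)`, on `ℚ ⊗ CH_d(C ^ m)` -/
def IsActT {c : Dat k} {m d : ℕ} (s : k ≃+* k) (η : k) (G : CHQ c m d →ₗ[ℚ] CHQ c m d) : Prop :=
  ∀ (M M' : Type) [Field M] [Algebra k M] [Field M'] [Algebra k M'] (i : SI s M M') (u : Pnt m M),
    FunF k d M → On (c.over M) u → G (qc (cls c d u)) = qc (cls c d (tw (fun _ => η) (mpP i.f u)))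

/-- `Ψ` gives the classes of the curves on the lines of the points `Q`, and there are such curves if `Q` is not
ramified -/
def LineP (c : Dat k) (ν : k) (Ψ : CHQ c 1 0 →ₗ[ℚ] CHQ c 3 1) : Prop :=
  ∀ Q : Fin 2 → Option k, OnC c (Q 0) (Q 1) →
    (∀ (M : Type) [Field M] [Algebra k M] (P : Pnt 3 M), FunF k 1 M → On (c.over M) P → Col c ν Q P →
      qc (prj c P) = Module.finrank (pf c P) M • Ψ (qc (prQ c Q))) ∧
    (UnR Q → ∃ (M : Type) (_ : Field M) (_ : Algebra k M) (P : Pnt 3 M), FunF k 1 M ∧ On (c.over M) P ∧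
      Col c ν Q P ∧ Module.finrank (pf c P) M ≠ 0)

/-- `Ψ` commutes with all automorphisms `s` of `k` which permute the `a_i` and the `b_i`, if the action on
`ℚ ⊗ J(C)` is twisted by `(x, v) ↦ (x, (ν / s ν) v)` and by the signs of the permutations -/
def GalP (c : Dat k) (ν : k) (Ψ : CHQ c 1 0 →ₗ[ℚ] CHQ c 3 1) : Prop :=
  ∀ (s : k ≃+* k) (σ τ : Equiv.Perm (Fin 3)), Per c s σ τ →
    ∃ (G₀ : CHQ c 1 0 →ₗ[ℚ] CHQ c 1 0) (G₁ : CHQ c 3 1 →ₗ[ℚ] CHQ c 3 1), IsActT s (ν / s ν) G₀ ∧ IsActT s 1 G₁ ∧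
      ∀ x ∈ J0 c, Ψ (G₀ x) = ((Equiv.Perm.sign σ * Equiv.Perm.sign τ : ℤˣ) : ℤ) • G₁ (Ψ x)

/-- the small diagonal (`n = 3`) -/
def DiagP (c : Dat k) (ν : k) (Ψ : CHQ c 1 0 →ₗ[ℚ] CHQ c 3 1) : Prop :=
  ∀ (N : Type) [Field N] [Algebra k N] (x v : N), GenC c x v →
    qc (prj c (tri ![some x, some v] ![some x, some v] ![some x, some v])) =
      -3 • Ψ (qc ((rts c).map fun o => prQ c (Qk c ν o)).sum)

end Pool.Agent.LibSX77
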