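import Mathlib

/-!
Heights on number fields: a calculus for polynomial bounds, uniform in the field.
-/

open scoped Classical

namespace Pool.Agent.LibSX77

open Height AdmissibleAbsValues NumberField

variable {L : Type} [Field L] [NumberField L]

/-- `x` is dominated by `N W ^ a U ^ b` at all places, `W` and `U` the local sizes of `w` and of `(c, 1)`; `N` only for the
archimedean places. -/
def Dom (w : Fin 2 → L) (c : L) (N : ℝ) (a b : ℕ) (x : L) : Prop :=
  (∀ v ∈ archAbsVal (K := L), v x ≤ N * (⨆ i, v (w i)) ^ a * (⨆ i, v (![c, 1] i)) ^ b) ∧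
    ∀ v ∈ nonarchAbsVal (K := L), v x ≤ (⨆ i, v (w i)) ^ a * (⨆ i, v (![c, 1] i)) ^ b

variable {w : Fin 2 → L} {c : L}

private theorem nn (v : AbsoluteValue L ℝ) (z : Fin 2 → L) : 0 ≤ ⨆ i, v (z i) :=
  Real.iSup_nonneg_of_nonnegHomClass v _

private theorem le_sup (v : AbsoluteValue L ℝ) (z : Fin 2 → L) (i : Fin 2) : v (z i) ≤ ⨆ i, v (z i) :=
  Finite.le_ciSup (fun i => v (z i)) i

private theorem one_le_c (v : AbsoluteValue L ℝ) (c : L) : 1 ≤ ⨆ i, v (![c, 1] i) := by
  have h := le_sup v ![c, 1] 1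
  simpa using h

private theorem arch_int {v : AbsoluteValue L ℝ} (hv : v ∈ archAbsVal (K := L)) (m : ℤ) : v (m : L) = |(m : ℝ)| := by
  have h : IsInfinitePlace v := mem_multisetInfinitePlace.1 hv
  obtain ⟨φ, hφ⟩ := h
  rw [← hφ]
  change ‖φ (m : L)‖ = _
  rw [map_intCast]
  exact Complex.norm_intCast m

private theorem nonarch_int {v : AbsoluteValue L ℝ} (hv : v ∈ nonarchAbsVal (K := L)) (m : ℤ) : v (m : L) ≤ 1 :=
  IsNonarchimedean.apply_intCast_le_one (isNonarchimedean v hv)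

theorem Dom.int (m : ℤ) : Dom w c |(m : ℝ)| 0 0 (m : L) := by
  constructor
  · intro v hv
    rw [arch_int hv, pow_zero, pow_zero, mul_one, mul_one]
  · intro v hv
    rw [pow_zero, pow_zero, mul_one]
    exact nonarch_int hv m

theorem Dom.ww (i : Fin 2) : Dom w c 1 1 0 (w i) := by
  constructor
  · intro v hv
    rw [pow_one, pow_zero, mul_one, one_mul]
    exact le_sup v w i
  · intro v hv
    rw [pow_one, pow_zero, mul_one]
    exact le_sup v w i

theorem Dom.cc : Dom w c 1 0 1 c := by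
  constructor
  · intro v hv
    rw [pow_one, pow_zero, mul_one, one_mul]
    simpa using le_sup v ![c, 1] 0
  · intro v hv
    rw [pow_one, pow_zero, one_mul]
    simpa using le_sup v ![c, 1] 0

theorem Dom.mul {N N' : ℝ} {a b a' b' : ℕ} {x y : L} (hN : 0 ≤ N) (hx : Dom w c N a b x) (hy : Dom w c N' a' b' y) :
    Dom w c (N * N') (a + a') (b + b') (x * y) := by
  constructor
  · intro v hv
    have h1 := hx.1 v hv
    have h2 := hy.1 v hv
    have h3 := mul_le_mul h1 h2 (v.nonneg y)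
      (mul_nonneg (mul_nonneg hN (pow_nonneg (nn v w) a)) (pow_nonneg (nn v _) b))
    rw [v.map_mul]
    calc v x * v y ≤ _ := h3
      _ = _ := by ring
  · intro v hv
    have h1 := hx.2 v hv
    have h2 := hy.2 v hv
    have h3 := mul_le_mul h1 h2 (v.nonneg y) (mul_nonneg (pow_nonneg (nn v w) a) (pow_nonneg (nn v _) b))
    rw [v.map_mul]
    calc v x * v y ≤ _ := h3
      _ = _ := by ring

theorem Dom.pow {N : ℝ} {a b : ℕ} {x : L} (hN : 0 ≤ N) (hx : Dom w c N a b x) (m : ℕ) :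
    Dom w c (N ^ m) (a * m) (b * m) (x ^ m) := by
  induction m with
  | zero => simpa using Dom.int (w := w) (c := c) 1
  | succ m ih =>
    have h := Dom.mul (pow_nonneg hN m) ih hx
    rw [pow_succ, pow_succ]
    exact h

theorem Dom.add {N N' : ℝ} {a b : ℕ} {x y : L} (hx : Dom w c N a b x) (hy : Dom w c N' a b y) :
    Dom w c (N + N') a b (x + y) := by
  constructor
  · intro v hv
    have h1 := hx.1 v hv
    have h2 := hy.1 v hv
    have h3 := v.add_le x y
    calc v (x + y) ≤ v x + v y := h3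
      _ ≤ _ := add_le_add h1 h2
      _ = _ := by ring
  · intro v hv
    have h1 := hx.2 v hv
    have h2 := hy.2 v hv
    exact (isNonarchimedean v hv x y).trans (max_le h1 h2)

theorem Dom.mono {N N' : ℝ} {a b b' : ℕ} {x : L} (hx : Dom w c N a b x) (hN : 0 ≤ N) (hNN : N ≤ N') (hb : b ≤ b') :
    Dom w c N' a b' x := by
  constructor
  · intro v hv
    refine (hx.1 v hv).trans ?_
    have h1 : 0 ≤ (⨆ i, v (w i)) ^ a := pow_nonneg (nn v w) a
    have h2 : (⨆ i, v (![c, 1] i)) ^ b ≤ (⨆ i, v (![c, 1] i)) ^ b' := pow_le_pow_right₀ (one_le_c v c) hb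
    have h3 : 0 ≤ (⨆ i, v (![c, 1] i)) ^ b := pow_nonneg (nn v _) b
    exact mul_le_mul (mul_le_mul_of_nonneg_right hNN h1) h2 h3 (mul_nonneg (hN.trans hNN) h1)
  · intro v hv
    refine (hx.2 v hv).trans ?_
    have h1 : 0 ≤ (⨆ i, v (w i)) ^ a := pow_nonneg (nn v w) a
    exact mul_le_mul_of_nonneg_left (pow_le_pow_right₀ (one_le_c v c) hb) h1

/-- the monomial `m w_0 ^ i w_1 ^ j c ^ l` -/
theorem Dom.mon (m : ℤ) (i j l : ℕ) {a b : ℕ} (ha : i + j = a) (hb : l ≤ b) :
    Dom w c |(m : ℝ)| a b ((m : L) * w 0 ^ i * w 1 ^ j * c ^ l) := by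
  have h1 := Dom.int (w := w) (c := c) m
  have h2 := Dom.pow zero_le_one (Dom.ww (w := w) (c := c) 0) i
  have h3 := Dom.pow zero_le_one (Dom.ww (w := w) (c := c) 1) j
  have h4 := Dom.pow zero_le_one (Dom.cc (w := w) (c := c)) l
  have h5 := Dom.mul (by positivity) (Dom.mul (by positivity) (Dom.mul (abs_nonneg _) h1 h2) h3) h4
  simp only [one_pow, mul_one, zero_add, one_mul, zero_mul, add_zero] at h5
  subst ha
  exact Dom.mono h5 (abs_nonneg _) le_rfl hb

private theorem fms {ι : Type} [Finite ι] {x : ι → L} (hx : x ≠ 0) :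
    (fun v : nonarchAbsVal (K := L) => ⨆ i, v.val (x i)).HasFiniteMulSupport := by
  have : Nonempty {j // x j ≠ 0} := nonempty_subtype.mpr <| Function.ne_iff.mp hx
  suffices (fun v : nonarchAbsVal (K := L) => ⨆ i : {j // x j ≠ 0}, v.val (x i)).HasFiniteMulSupport by
    convert this with v
    obtain ⟨i, hi⟩ : ∃ j, x j ≠ 0 := Function.ne_iff.mp hx
    have : Nonempty ι := .intro i
    refine le_antisymm (ciSup_le fun j => ?_) (ciSup_le fun ⟨j, hj⟩ => Finite.le_ciSup_of_le j le_rfl)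
    rcases eq_or_ne (x j) 0 with h | h
    · rw [h, v.val.map_zero]
      exact Real.iSup_nonneg' ⟨⟨i, hi⟩, v.val.nonneg ..⟩
    · exact Finite.le_ciSup_of_le ⟨j, h⟩ le_rfl
  refine Function.HasFiniteMulSupport.iSup fun j => ?_
  exact hasFiniteMulSupport j.2

/-- comparison of heights by local comparisons -/
theorem height_le_of_local {ι κ : Type} [Finite ι] [Finite κ] [Nonempty ι] {N : ℝ} {x : ι → L} {y : κ → L}
    (hx : x ≠ 0) (hy : y ≠ 0) (hN : 0 ≤ N)
    (h1 : ∀ v ∈ archAbsVal (K := L), ∀ i, v (x i) ≤ N * ⨆ j, v (y j))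
    (h2 : ∀ v ∈ nonarchAbsVal (K := L), ∀ i, v (x i) ≤ ⨆ j, v (y j)) :
    mulHeight x ≤ N ^ totalWeight L * mulHeight y := by
  rw [Height.mulHeight_eq hx, Height.mulHeight_eq hy, ← mul_assoc]
  refine mul_le_mul ?_ ?_ (finprod_nonneg fun v => Real.iSup_nonneg_of_nonnegHomClass v.val _)
    (mul_nonneg (pow_nonneg hN _) (Multiset.prod_map_nonneg fun v _ => Real.iSup_nonneg_of_nonnegHomClass v _))
  · rw [totalWeight, ← Multiset.prod_replicate, ← Multiset.map_const', ← Multiset.prod_map_mul]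
    exact Multiset.prod_map_le_prod_map₀ _ _ (fun v _ => Real.iSup_nonneg_of_nonnegHomClass v _) fun v hv =>
      ciSup_le fun i => h1 v hv i
  · exact finprod_le_finprod (fms hx) (fun v => Real.iSup_nonneg_of_nonnegHomClass v.val _) (fms hy) fun v =>
      ciSup_le fun i => h2 v.val v.2 i

private theorem sup_pow (v : AbsoluteValue L ℝ) (z : Fin 2 → L) (a : ℕ) (i : Fin 2) (hi : ∀ j, v (z j) ≤ v (z i)) :
    ⨆ j, v (z j) = v (z i) :=
  le_antisymm (ciSup_le hi) (le_sup v z i)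

private theorem exists_max (v : AbsoluteValue L ℝ) (z : Fin 2 → L) : ∃ i, ∀ j, v (z j) ≤ v (z i) := by
  rcases le_total (v (z 0)) (v (z 1)) with h | h
  · exact ⟨1, fun j => by fin_cases j; exacts [h, le_rfl]⟩
  · exact ⟨0, fun j => by fin_cases j; exacts [le_rfl, h]⟩

private theorem sup_prod (v : AbsoluteValue L ℝ) (z z' : Fin 2 → L) (a b : ℕ) :
    (⨆ i, v (z i)) ^ a * (⨆ i, v (z' i)) ^ b ≤ ⨆ p : Fin 2 × Fin 2, v ((z ^ a) p.1 * (z' ^ b) p.2) := by
  obtain ⟨i, hi⟩ := exists_max v z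
  obtain ⟨j, hj⟩ := exists_max v z'
  rw [sup_pow v z a i hi, sup_pow v z' b j hj]
  have h := Finite.le_ciSup (fun p : Fin 2 × Fin 2 => v ((z ^ a) p.1 * (z' ^ b) p.2)) (i, j)
  refine le_trans (le_of_eq ?_) h
  simp only [Pi.pow_apply, map_mul, map_pow]

/-- dominated vectors have small heights -/
theorem Dom.height {ι : Type} [Finite ι] [Nonempty ι] {N : ℝ} (hN : 1 ≤ N) {a b : ℕ} {x : ι → L}
    (hx : ∀ i, Dom w c N a b (x i)) (hw : w ≠ 0) :
    mulHeight x ≤ N ^ totalWeight L * (mulHeight w ^ a * mulHeight₁ c ^ b) := by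
  have hc : (![c, 1] : Fin 2 → L) ≠ 0 := by
    intro h
    have := congrFun h 1
    simp at this
  rw [mulHeight₁_eq_mulHeight]
  have H₀ : 1 ≤ N ^ totalWeight L * (mulHeight w ^ a * mulHeight ![c, 1] ^ b) :=
    one_le_mul_of_one_le_of_one_le (one_le_pow₀ hN) (one_le_mul_of_one_le_of_one_le (one_le_pow₀ (one_le_mulHeight _))
      (one_le_pow₀ (one_le_mulHeight _)))
  rcases eq_or_ne x 0 with h | h
  · simpa only [h, mulHeight_zero] using H₀
  have hw' : w ^ a ≠ 0 := by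
    obtain ⟨i, hi⟩ := Function.ne_iff.mp hw
    exact Function.ne_iff.mpr ⟨i, by simpa using pow_ne_zero a hi⟩
  have hc' : (![c, 1] : Fin 2 → L) ^ b ≠ 0 := Function.ne_iff.mpr ⟨1, by simp⟩
  rw [← mulHeight_pow, ← mulHeight_pow, ← mulHeight_fun_mul_eq hw' hc']
  refine height_le_of_local h ?_ (zero_le_one.trans hN) ?_ ?_
  · obtain ⟨i, hi⟩ := Function.ne_iff.mp hw'
    obtain ⟨j, hj⟩ := Function.ne_iff.mp hc'
    exact Function.ne_iff.mpr ⟨(i, j), mul_ne_zero hi hj⟩
  · intro v hv i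
    refine ((hx i).1 v hv).trans ?_
    rw [mul_assoc]
    exact mul_le_mul_of_nonneg_left (sup_prod v w ![c, 1] a b) (zero_le_one.trans hN)
  · intro v hv i
    exact ((hx i).2 v hv).trans (sup_prod v w ![c, 1] a b)

/-- the lower bound for the height of the image under a map with an identity `δ z_j = ∑ A_{ji} y_i` -/
theorem height_identity {N : ℝ} (hN : 1 ≤ N) {a b : ℕ} {y z : Fin 2 → L} {A : Fin 2 → Fin 2 → L} {δ : L} (hδ : δ ≠ 0)
    (hw : w ≠ 0) (hA : ∀ j i, Dom w c N a b (A j i)) (h : ∀ j, δ * z j = A j 0 * y 0 + A j 1 * y 1) :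
    mulHeight z ≤ (2 * N) ^ totalWeight L * (mulHeight w ^ a * mulHeight₁ c ^ b) * mulHeight y := by
  have h1 : mulHeight z = mulHeight (fun j => ∑ i, (fun p : Fin 2 × Fin 2 => A p.1 p.2) (j, i) * y i) := by
    rw [← mulHeight_smul_eq_mulHeight z hδ]
    congr 1
    funext j
    rw [Fin.sum_univ_two]
    exact h j
  rw [h1]
  refine (mulHeight_linearMap_apply_le (fun p : Fin 2 × Fin 2 => A p.1 p.2) y).trans ?_
  have h2 := Dom.height (x := fun p : Fin 2 × Fin 2 => A p.1 p.2) hN (fun p => hA p.1 p.2) hw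
  rw [Nat.card_fin]
  refine mul_le_mul_of_nonneg_right ?_ (mulHeight_pos y).le
  rw [mul_pow, mul_assoc]
  exact mul_le_mul_of_nonneg_left h2 (by positivity)

end Pool.Agent.LibSX77
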