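import Pool.Agent.LibSX77.H1

/-!
Heights on number fields: duplication on `y ^ 2 = x ^ 3 + (3 x + c) ^ 2` and the point `6 B`.
-/

open scoped Classical

namespace Pool.Agent.LibSX77

open Height NumberField

variable {L : Type} [Field L] [NumberField L]

/-- numerator and denominator of `x(2 P)` -/
def dF (c x : L) : L := x * (x ^ 3 - 12 * c * x - 8 * c ^ 2)
def dG (c x : L) : L := 4 * (x ^ 3 + (3 * x + c) ^ 2)

private theorem D0 {w : Fin 2 → L} {c : L} (m : ℤ) (i j l : ℕ) (hij : i + j = 3) (hl : l ≤ 6) {N : ℝ}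
    (hN : |(m : ℝ)| ≤ N) : Dom w c N 3 6 ((m : L) * w 0 ^ i * w 1 ^ j * c ^ l) :=
  Dom.mono (Dom.mon m i j l hij hl) (abs_nonneg _) hN le_rfl

theorem dup_lower {c x : L} (h0 : c ≠ 0) (h4 : c ≠ 4) :
    mulHeight₁ x ^ 4 ≤ (2 * 580 : ℝ) ^ totalWeight L * mulHeight₁ c ^ 6 * mulHeight ![dF c x, dG c x] := by
  set w : Fin 2 → L := ![x, 1] with hw
  have hw0 : w ≠ 0 := by
    intro h
    have := congrFun h 1
    simp [hw] at this
  set A : Fin 2 → Fin 2 → L := ![![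
      ((32 : ℤ) : L) * w 0 ^ 0 * w 1 ^ 3 * c ^ 6 + ((176 : ℤ) : L) * w 0 ^ 1 * w 1 ^ 2 * c ^ 5 +
        ((192 : ℤ) : L) * w 0 ^ 2 * w 1 ^ 1 * c ^ 4 + (((36 : ℤ) : L) * w 0 ^ 3 * w 1 ^ 0 * c ^ 4 +
          ((-144 : ℤ) : L) * w 0 ^ 3 * w 1 ^ 0 * c ^ 3),
      ((64 : ℤ) : L) * w 0 ^ 1 * w 1 ^ 2 * c ^ 6 + ((64 : ℤ) : L) * w 0 ^ 2 * w 1 ^ 1 * c ^ 5 +
        ((-48 : ℤ) : L) * w 0 ^ 3 * w 1 ^ 0 * c ^ 4],
    ![((32 : ℤ) : L) * w 0 ^ 0 * w 1 ^ 3 * c ^ 1 + ((-108 : ℤ) : L) * w 0 ^ 0 * w 1 ^ 3 * c ^ 0 +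
        ((24 : ℤ) : L) * w 0 ^ 1 * w 1 ^ 2 * c ^ 0 + ((4 : ℤ) : L) * w 0 ^ 2 * w 1 ^ 1 * c ^ 0,
      ((9 : ℤ) : L) * w 0 ^ 0 * w 1 ^ 3 * c ^ 2 + ((-36 : ℤ) : L) * w 0 ^ 0 * w 1 ^ 3 * c ^ 1 +
        ((10 : ℤ) : L) * w 0 ^ 1 * w 1 ^ 2 * c ^ 1 + ((3 : ℤ) : L) * w 0 ^ 2 * w 1 ^ 1 * c ^ 0 +
          ((-1 : ℤ) : L) * w 0 ^ 3 * w 1 ^ 0 * c ^ 0]] with hA
  have hδ : 36 * c ^ 3 * (c - 4) ≠ 0 :=
    mul_ne_zero (mul_ne_zero (by norm_num) (pow_ne_zero 3 h0)) (sub_ne_zero.2 h4)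
  have hdom : ∀ j i, Dom w c 580 3 6 (A j i) := by
    have k0 : ∀ {N N' : ℝ} {z : L}, Dom w c N 3 6 z → 0 ≤ N → N ≤ N' → Dom w c N' 3 6 z :=
      fun h h1 h2 => Dom.mono h h1 h2 le_rfl
    intro j i
    fin_cases j <;> fin_cases i
    · refine k0 (Dom.add (Dom.add (Dom.add (D0 (N := 32) 32 0 3 6 rfl (by norm_num) (by norm_num))
        (D0 (N := 176) 176 1 2 5 rfl (by norm_num) (by norm_num)))
        (D0 (N := 192) 192 2 1 4 rfl (by norm_num) (by norm_num)))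
        (Dom.add (D0 (N := 36) 36 3 0 4 rfl (by norm_num) (by norm_num))
          (D0 (N := 144) (-144) 3 0 3 rfl (by norm_num) (by norm_num)))) (by norm_num) (by norm_num)
    · refine k0 (Dom.add (Dom.add (D0 (N := 64) 64 1 2 6 rfl (by norm_num) (by norm_num))
        (D0 (N := 64) 64 2 1 5 rfl (by norm_num) (by norm_num)))
        (D0 (N := 48) (-48) 3 0 4 rfl (by norm_num) (by norm_num))) (by norm_num) (by norm_num)
    · refine k0 (Dom.add (Dom.add (Dom.add (D0 (N := 32) 32 0 3 1 rfl (by norm_num) (by norm_num))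
        (D0 (N := 108) (-108) 0 3 0 rfl (by norm_num) (by norm_num)))
        (D0 (N := 24) 24 1 2 0 rfl (by norm_num) (by norm_num)))
        (D0 (N := 4) 4 2 1 0 rfl (by norm_num) (by norm_num))) (by norm_num) (by norm_num)
    · refine k0 (Dom.add (Dom.add (Dom.add (Dom.add (D0 (N := 9) 9 0 3 2 rfl (by norm_num) (by norm_num))
        (D0 (N := 36) (-36) 0 3 1 rfl (by norm_num) (by norm_num)))
        (D0 (N := 10) 10 1 2 1 rfl (by norm_num) (by norm_num)))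
        (D0 (N := 3) 3 2 1 0 rfl (by norm_num) (by norm_num)))
        (D0 (N := 1) (-1) 3 0 0 rfl (by norm_num) (by norm_num))) (by norm_num) (by norm_num)
  have h := height_identity (y := ![dF c x, dG c x]) (z := w ^ 7) (A := A) (by norm_num : (1 : ℝ) ≤ 580) hδ hw0 hdom
    (by
      intro j
      fin_cases j
      · simp [hA, hw, dF, dG]
        ring
      · simp [hA, hw, dF, dG]
        ring)
  rw [mulHeight_pow] at h
  rw [mulHeight₁_eq_mulHeight x, ← hw]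
  have hp := mulHeight_pos w
  have h3 : mulHeight w ^ 3 * mulHeight w ^ 4 ≤
      mulHeight w ^ 3 * ((2 * 580 : ℝ) ^ totalWeight L * mulHeight₁ c ^ 6 * mulHeight ![dF c x, dG c x]) := by
    calc mulHeight w ^ 3 * mulHeight w ^ 4 = mulHeight w ^ 7 := by ring
      _ ≤ _ := h
      _ = _ := by ring
  exact le_of_mul_le_mul_left h3 (pow_pos hp 3)

/-- numerator and denominator of `x(6 B)` -/
def sF (c : L) : L := -((c + 32) * (c ^ 2 + 4960 * c - 8192))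
def sG (c : L) : L := 36 * (c - 112) ^ 2

private theorem D1 {w : Fin 2 → L} {c : L} (m : ℤ) (l : ℕ) (hl : l ≤ 2) {N : ℝ}
    (hN : |(m : ℝ)| ≤ N) : Dom w c N 0 2 ((m : L) * w 0 ^ 0 * w 1 ^ 0 * c ^ l) :=
  Dom.mono (Dom.mon m 0 0 l rfl hl) (abs_nonneg _) hN le_rfl

theorem six_lower (c : L) :
    mulHeight₁ c ^ 3 ≤ (2 * 10 ^ 23 : ℝ) ^ totalWeight L * mulHeight ![sF c, sG c] := by
  set w : Fin 2 → L := ![c, 1] with hw
  have hw0 : w ≠ 0 := by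
    intro h
    have := congrFun h 1
    simp [hw] at this
  set A : Fin 2 → Fin 2 → L := ![![
      (((1253826625536 * -57712886784 : ℤ) : L) * w 0 ^ 0 * w 1 ^ 0 * c ^ 0 +
        ((1253826625536 * 1041651072 : ℤ) : L) * w 0 ^ 0 * w 1 ^ 0 * c ^ 1) +
        ((1253826625536 * -4782969 : ℤ) : L) * w 0 ^ 0 * w 1 ^ 0 * c ^ 2,
      (((1253826625536 * 33502265344 : ℤ) : L) * w 0 ^ 0 * w 1 ^ 0 * c ^ 0 +
        ((1253826625536 * -19244051456 : ℤ) : L) * w 0 ^ 0 * w 1 ^ 0 * c ^ 1) +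
        ((1253826625536 * -634303616 : ℤ) : L) * w 0 ^ 0 * w 1 ^ 0 * c ^ 2],
    ![(((4782969 * -43776 : ℤ) : L) * w 0 ^ 0 * w 1 ^ 0 * c ^ 0 +
        ((4782969 * 252 : ℤ) : L) * w 0 ^ 0 * w 1 ^ 0 * c ^ 1) +
        ((0 : ℤ) : L) * w 0 ^ 0 * w 1 ^ 0 * c ^ 2,
      (((4782969 * 2801920 : ℤ) : L) * w 0 ^ 0 * w 1 ^ 0 * c ^ 0 +
        ((4782969 * 35296 : ℤ) : L) * w 0 ^ 0 * w 1 ^ 0 * c ^ 1) +
        ((4782969 * 7 : ℤ) : L) * w 0 ^ 0 * w 1 ^ 0 * c ^ 2]] with hA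
  have hδ : (1253826625536 * 4782969 : L) ≠ 0 := by norm_num
  have hdom : ∀ j i, Dom w c (10 ^ 23) 0 2 (A j i) := by
    intro j i
    fin_cases j <;> fin_cases i
    all_goals
      refine Dom.mono (Dom.add (Dom.add (D1 (N := 73 * 10 ^ 21) _ 0 (by norm_num) (by norm_num [abs_le]))
        (D1 (N := 25 * 10 ^ 21) _ 1 (by norm_num) (by norm_num [abs_le])))
        (D1 (N := 10 ^ 21) _ 2 (by norm_num) (by norm_num [abs_le]))) (by norm_num) (by norm_num) le_rfl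
  have h := height_identity (y := ![sF c, sG c]) (z := w ^ 5) (A := A) (by norm_num : (1 : ℝ) ≤ 10 ^ 23) hδ hw0 hdom
    (by
      intro j
      fin_cases j
      · simp [hA, hw, sF, sG]
        ring
      · simp [hA, hw, sF, sG]
        ring)
  rw [mulHeight_pow, ← mulHeight₁_eq_mulHeight c] at h
  have hp : 0 < mulHeight₁ c := mulHeight₁_pos c
  have h3 : mulHeight₁ c ^ 2 * mulHeight₁ c ^ 3 ≤
      mulHeight₁ c ^ 2 * ((2 * 10 ^ 23 : ℝ) ^ totalWeight L * mulHeight ![sF c, sG c]) := by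
    calc mulHeight₁ c ^ 2 * mulHeight₁ c ^ 3 = mulHeight₁ c ^ 5 := by ring
      _ ≤ _ := h
      _ = _ := by ring
  exact le_of_mul_le_mul_left h3 (pow_pos hp 2)

end Pool.Agent.LibSX77
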