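import Pool.Agent.LibSX77.H2
import Pool.Agent.LibCW77.TR1
import Pool.Agent.LibCW77.TR3

/-!
Torsion parameters have bounded height.
-/

open scoped Classical

namespace Pool.Agent.LibSX77

open Height NumberField
open Pool.Agent.LibCW77

variable {L : Type} [Field L] [NumberField L]

/-- the height of a point -/
noncomputable def hpt {r : L} : (Er r).Point → ℝ
  | 0 => 1
  | WeierstrassCurve.Affine.Point.some x _ _ => mulHeight₁ x

private theorem hpt_zero {r : L} : hpt (0 : (Er r).Point) = 1 := rfl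

private theorem hpt_some {r x y : L} (h : (Er r).Nonsingular x y) :
    hpt (WeierstrassCurve.Affine.Point.some _ _ h) = mulHeight₁ x := rfl

private theorem one_le_hpt {r : L} (P : (Er r).Point) : 1 ≤ hpt P := by
  rcases P with _ | ⟨x, y, h⟩
  · exact le_rfl
  · exact one_le_mulHeight₁ x

private theorem tw_one {a : ℝ} (ha : 1 ≤ a) : 1 ≤ a ^ totalWeight L := one_le_pow₀ ha

/-- `h(P) ^ 4` against `h(2 P)` -/
theorem hpt_dbl {r : L} (h0 : r ≠ 0) (h1 : r ^ 2 ≠ 1) (P : (Er r).Point) :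
    hpt P ^ 4 ≤ (2 * 580 : ℝ) ^ totalWeight L * mulHeight₁ (cE r) ^ 6 * hpt (2 • P) := by
  have hc0 : cE r ≠ 0 := by
    intro h
    unfold cE at h
    exact h1 (by linear_combination (-1 / 4 : L) * h)
  have hc4 : cE r ≠ 4 := by
    intro h
    unfold cE at h
    exact h0 (pow_eq_zero_iff (two_ne_zero) |>.1 (by linear_combination (-1 / 4 : L) * h))
  rcases P with _ | ⟨x, y, h⟩
  · have e : (2 : ℕ) • (WeierstrassCurve.Affine.Point.zero : (Er r).Point) = 0 := smul_zero 2
    have e' : hpt (WeierstrassCurve.Affine.Point.zero : (Er r).Point) = 1 := rfl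
    rw [e, e', hpt_zero, one_pow, mul_one]
    exact one_le_mul_of_one_le_of_one_le (tw_one (by norm_num)) (one_le_pow₀ (one_le_mulHeight₁ _))
  · rw [hpt_some h]
    refine (dup_lower hc0 hc4).trans ?_
    refine mul_le_mul_of_nonneg_left ?_ (by
      have := (mulHeight₁_pos (cE r)).le
      positivity)
    by_cases hy : y = 0
    · have e : dG (cE r) x = 0 := by
        have := fe_eq h
        unfold dG
        rw [hy] at this
        linear_combination (-4) * this
      rw [e]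
      have e2 : mulHeight ![dF (cE r) x, (0 : L)] = 1 := by
        rw [← mulHeight₁_div_eq_mulHeight, div_zero, mulHeight₁_zero]
      rw [e2]
      exact one_le_hpt _
    · obtain ⟨h', e⟩ := fe_dbl h hy
      rw [e, hpt_some, ← mulHeight₁_div_eq_mulHeight]
      exact le_rfl

private theorem pow_aux (a b H : ℝ) (W : ℕ) : (a ^ W) ^ 3 * (b ^ W * H ^ 6) = H ^ 6 * (a ^ 3 * b) ^ W := by
  rw [mul_pow, ← pow_mul, ← pow_mul, mul_comm W 3]
  ring

/-- the main estimate -/
theorem height_cE {r : L} (h : TorsB r) : mulHeight₁ (cE r) ≤ (22 * 10 ^ 23 : ℝ) ^ totalWeight L := by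
  have h0 : r ≠ 0 := torsB_0 h
  have h1 : r ^ 2 ≠ 1 := torsB_r h
  obtain ⟨hB, hf⟩ := h
  set B : (Er r).Point := WeierstrassCurve.Affine.Point.some _ _ hB with hBdef
  set W : ℕ := totalWeight L with hW
  set H : ℝ := mulHeight₁ (cE r) with hH
  have hHp : 1 ≤ H := one_le_mulHeight₁ _
  by_cases h27 : r ^ 2 = -27
  · have e : cE r = ((112 : ℤ) : L) := by
      unfold cE
      rw [h27]
      norm_num
    have e1 : mulHeight₁ (cE r) ≤ (112 : ℝ) ^ W := by
      rw [e, mulHeight₁_eq_mulHeight]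
      have hw0 : (![(1 : L), 1] : Fin 2 → L) ≠ 0 := by
        intro h
        have := congrFun h 1
        simp at this
      have := Dom.height (w := ![(1 : L), 1]) (c := (0 : L)) (N := 112) (a := 0) (b := 0)
        (x := ![((112 : ℤ) : L), 1]) (by norm_num) (by
          intro i
          fin_cases i
          · have := Dom.int (w := ![(1 : L), 1]) (c := (0 : L)) 112
            norm_num at this ⊢
            exact this
          · have := Dom.int (w := ![(1 : L), 1]) (c := (0 : L)) 1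
            norm_num at this ⊢
            exact Dom.mono this zero_le_one (by norm_num) le_rfl) hw0
      simpa using this
    refine e1.trans ?_
    gcongr
    norm_num
  -- the largest height
  obtain ⟨n0, hn0⟩ : ∃ n0 : ℕ, ∀ n : ℕ, hpt (n • B) ≤ hpt (n0 • B) := by
    have hpos : 0 < addOrderOf B := addOrderOf_pos_iff.2 hf
    obtain ⟨n0, -, hn0⟩ := Finset.exists_max_image (Finset.range (addOrderOf B))
      (fun n => hpt (n • B)) ⟨0, Finset.mem_range.2 hpos⟩
    refine ⟨n0, fun n => ?_⟩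
    have h2 := hn0 (n % addOrderOf B) (Finset.mem_range.2 (Nat.mod_lt _ hpos))
    have h3 : (n % addOrderOf B) • B = n • B := mod_addOrderOf_nsmul B n
    rwa [← h3]
  set M : ℝ := hpt (n0 • B) with hMdef
  have hM1 : 1 ≤ M := one_le_hpt _
  have hM3 : M ^ 3 ≤ (2 * 580 : ℝ) ^ W * H ^ 6 := by
    have h2 := hpt_dbl h0 h1 (n0 • B)
    have h3 : hpt (2 • n0 • B) ≤ M := by
      have := hn0 (2 * n0)
      rwa [mul_smul] at this
    have h4 : M * M ^ 3 ≤ M * ((2 * 580 : ℝ) ^ W * H ^ 6) := by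
      calc M * M ^ 3 = M ^ 4 := by ring
        _ ≤ _ := h2
        _ ≤ (2 * 580 : ℝ) ^ W * H ^ 6 * M := mul_le_mul_of_nonneg_left h3 (by positivity)
        _ = _ := by ring
    exact le_of_mul_le_mul_left h4 (by linarith)
  have h6 : H ^ 3 ≤ (2 * 10 ^ 23 : ℝ) ^ W * M := by
    obtain ⟨y, h', e⟩ := fe_6B h0 h1 h27 hB
    have h2 := six_lower (cE r)
    have h3 := hn0 6
    rw [hBdef, e, hpt_some] at h3
    have h4 : mulHeight ![sF (cE r), sG (cE r)] =
        mulHeight₁ ((r ^ 2 - 9) * (r ^ 4 - 1242 * r ^ 2 + 729) / (9 * (r ^ 2 + 27) ^ 2)) := by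
      rw [← mulHeight₁_div_eq_mulHeight]
      congr 1
      have h27' : r ^ 2 + 27 ≠ 0 := by
        intro h5
        exact h27 (by linear_combination h5)
      have h5 : sG (cE r) ≠ 0 := by
        unfold sG cE
        refine mul_ne_zero (by norm_num) (pow_ne_zero 2 ?_)
        intro h6
        exact h27' (by linear_combination (-1 / 4 : L) * h6)
      rw [div_eq_div_iff h5 (mul_ne_zero (by norm_num) (pow_ne_zero 2 h27'))]
      unfold sF sG cE
      ring
    rw [h4] at h2
    exact h2.trans (mul_le_mul_of_nonneg_left h3 (by positivity))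
  -- the end
  have h7 : H ^ 6 * H ^ 3 ≤ H ^ 6 * ((22 * 10 ^ 23 : ℝ) ^ W) ^ 3 := by
    calc H ^ 6 * H ^ 3 = (H ^ 3) ^ 3 := by ring
      _ ≤ ((2 * 10 ^ 23 : ℝ) ^ W * M) ^ 3 := pow_le_pow_left₀ (by positivity) h6 3
      _ = ((2 * 10 ^ 23 : ℝ) ^ W) ^ 3 * M ^ 3 := by ring
      _ ≤ ((2 * 10 ^ 23 : ℝ) ^ W) ^ 3 * ((2 * 580 : ℝ) ^ W * H ^ 6) := mul_le_mul_of_nonneg_left hM3 (by positivity)
      _ = H ^ 6 * ((2 * 10 ^ 23) ^ 3 * (2 * 580) : ℝ) ^ W := pow_aux _ _ _ _
      _ ≤ H ^ 6 * ((22 * 10 ^ 23) ^ 3 : ℝ) ^ W := by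
        gcongr
        norm_num
      _ = _ := by rw [← pow_mul, ← pow_mul, mul_comm 3 W]
  have h8 : H ^ 3 ≤ ((22 * 10 ^ 23 : ℝ) ^ W) ^ 3 := le_of_mul_le_mul_left h7 (by positivity)
  exact le_of_pow_le_pow_left₀ (by norm_num) (by positivity) h8

end Pool.Agent.LibSX77
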