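import Pool.Agent.LibSX77.H3

/-!
Torsion parameters have bounded height: the parameter `α`.
-/

open scoped Classical

namespace Pool.Agent.LibSX77

open Height NumberField
open Pool.Agent.LibCW77

variable {L : Type} [Field L] [NumberField L]

theorem moeb (x : L) (p q s u : ℤ) {N : ℝ} (hN : 1 ≤ N) (h1 : |(p : ℝ)| + |(q : ℝ)| ≤ N)
    (h2 : |(s : ℝ)| + |(u : ℝ)| ≤ N) :
    mulHeight₁ (((p : L) + q * x) / ((s : L) + u * x)) ≤ N ^ totalWeight L * mulHeight₁ x := by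
  rw [mulHeight₁_div_eq_mulHeight]
  set w : Fin 2 → L := ![x, 1] with hw
  have hw0 : w ≠ 0 := by
    intro h
    have := congrFun h 1
    simp [hw] at this
  have key : ∀ p q : ℤ, |(p : ℝ)| + |(q : ℝ)| ≤ N → Dom w (0 : L) N 1 0 ((p : L) + q * x) := by
    intro p q h
    have k1 := Dom.mon (w := w) (c := (0 : L)) p 0 1 0 (a := 1) (b := 0) rfl le_rfl
    have k2 := Dom.mon (w := w) (c := (0 : L)) q 1 0 0 (a := 1) (b := 0) rfl le_rfl
    have k3 := Dom.mono (Dom.add k1 k2) (by positivity) h le_rfl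
    have e : (p : L) * w 0 ^ 0 * w 1 ^ 1 * 0 ^ 0 + (q : L) * w 0 ^ 1 * w 1 ^ 0 * 0 ^ 0 = (p : L) + q * x := by
      simp [hw]
    rwa [e] at k3
  have := Dom.height (w := w) (c := (0 : L)) (x := ![(p : L) + q * x, (s : L) + u * x]) hN (by
    intro i
    fin_cases i
    · exact key p q h1
    · exact key s u h2) hw0
  rw [pow_one, pow_zero, mul_one] at this
  rwa [mulHeight₁_eq_mulHeight]

private theorem pow_aux4 (a b c : ℝ) (W : ℕ) : (a ^ W) ^ 4 * (b ^ W * c ^ W) = (a ^ 4 * (b * c)) ^ W := by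
  rw [mul_pow, mul_pow, ← pow_mul, ← pow_mul, mul_comm W 4]

/-- torsion parameters `α` in a number field -/
theorem height_alpha {α : L} (h1 : α + 1 ≠ 0) (h : TorsB (rr α)) :
    mulHeight₁ α ≤ (4 * 10 ^ 6 : ℝ) ^ totalWeight L := by
  set W : ℕ := totalWeight L with hW
  have hc := height_cE h
  have h2 : mulHeight₁ (rr α ^ 2) ≤ (5 : ℝ) ^ W * mulHeight₁ (cE (rr α)) := by
    have := moeb (cE (rr α)) 4 (-1) 4 0 (N := 5) (by norm_num) (by norm_num) (by norm_num)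
    have e : (((4 : ℤ) : L) + ((-1 : ℤ) : L) * cE (rr α)) / (((4 : ℤ) : L) + ((0 : ℤ) : L) * cE (rr α)) = rr α ^ 2 := by
      unfold cE
      push_cast
      field_simp
      ring
    rwa [e] at this
  have h3 : mulHeight₁ (rr α ^ 2) = mulHeight₁ (((α - 1) / (α + 1))) ^ 4 := by
    have e : rr α ^ 2 = ((α - 1) / (α + 1)) ^ 4 := by
      unfold rr
      ring
    rw [e, mulHeight₁_pow]
  have h4 : mulHeight₁ α ≤ (2 : ℝ) ^ W * mulHeight₁ ((α - 1) / (α + 1)) := by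
    have := moeb ((α - 1) / (α + 1)) 1 1 1 (-1) (N := 2) (by norm_num) (by norm_num) (by norm_num)
    have e : (((1 : ℤ) : L) + ((1 : ℤ) : L) * ((α - 1) / (α + 1))) / (((1 : ℤ) : L) + ((-1 : ℤ) : L) * ((α - 1) / (α + 1))) =
        α := by
      push_cast
      have h5 : (1 : L) + -1 * ((α - 1) / (α + 1)) ≠ 0 := by
        have : (1 : L) + -1 * ((α - 1) / (α + 1)) = 2 / (α + 1) := by
          field_simp
          ring
        rw [this]
        exact div_ne_zero two_ne_zero h1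
      rw [div_eq_iff h5]
      field_simp
      ring
    rwa [e] at this
  have h5 : mulHeight₁ α ^ 4 ≤ ((4 * 10 ^ 6 : ℝ) ^ W) ^ 4 := by
    have hp : 0 ≤ mulHeight₁ α := (mulHeight₁_pos α).le
    calc mulHeight₁ α ^ 4 ≤ ((2 : ℝ) ^ W * mulHeight₁ ((α - 1) / (α + 1))) ^ 4 := pow_le_pow_left₀ hp h4 4
      _ = ((2 : ℝ) ^ W) ^ 4 * mulHeight₁ (rr α ^ 2) := by rw [h3]; ring
      _ ≤ ((2 : ℝ) ^ W) ^ 4 * ((5 : ℝ) ^ W * (22 * 10 ^ 23 : ℝ) ^ W) := by
        refine mul_le_mul_of_nonneg_left (h2.trans ?_) (by positivity)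
        exact mul_le_mul_of_nonneg_left hc (by positivity)
      _ = (2 ^ 4 * (5 * (22 * 10 ^ 23)) : ℝ) ^ W := pow_aux4 _ _ _ _
      _ ≤ ((4 * 10 ^ 6) ^ 4 : ℝ) ^ W := by
        gcongr
        norm_num
      _ = _ := by rw [← pow_mul, ← pow_mul, mul_comm 4 W]
  exact le_of_pow_le_pow_left₀ (by norm_num) (by positivity) h5

end Pool.Agent.LibSX77
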