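import Pool.Agent.LibSX77.H4
import Pool.Agent.LibCW77.FM4
import Pool.Agent.LibCW77.FA4

/-!
Torsion parameters have bounded height: the absolute height and the finiteness in each degree.
-/

open scoped Classical
open IntermediateField

namespace Pool.Agent.LibSX77

open Height NumberField
open Pool.Agent.LibCW77

section descent

variable {K L : Type} [Field K] [Field L] (f : K →+* L)

private def cp (W : WeierstrassCurve.Affine K) : W.Point → (WeierstrassCurve.map W f).toAffine.Point
  | .zero => .zero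
  | .some x y h => .some (f x) (f y) ((WeierstrassCurve.Affine.map_nonsingular W f.injective x y).2 h)

private theorem cp_some (W : WeierstrassCurve.Affine K) {x y : K} (h : W.Nonsingular x y) :
    cp f W (WeierstrassCurve.Affine.Point.some x y h) =
      WeierstrassCurve.Affine.Point.some (f x) (f y) ((WeierstrassCurve.Affine.map_nonsingular W f.injective x y).2 h) := rfl

private theorem cp_add (W : WeierstrassCurve.Affine K) (P Q : W.Point) :
    cp f W (P + Q) = cp f W P + cp f W Q := by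
  rcases P with _ | ⟨x₁, y₁, h₁⟩ <;> rcases Q with _ | ⟨x₂, y₂, h₂⟩
  any_goals rfl
  have k₁ := (WeierstrassCurve.Affine.map_nonsingular W f.injective x₁ y₁).2 h₁
  have k₂ := (WeierstrassCurve.Affine.map_nonsingular W f.injective x₂ y₂).2 h₂
  by_cases hxy : x₁ = x₂ ∧ y₁ = W.negY x₂ y₂
  · rw [WeierstrassCurve.Affine.Point.add_of_Y_eq hxy.left hxy.right]
    have hy : f y₁ = (WeierstrassCurve.map W f).toAffine.negY (f x₂) (f y₂) := by
      rw [hxy.right]; exact (WeierstrassCurve.Affine.map_negY (W' := W) f x₂ y₂).symm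
    exact (WeierstrassCurve.Affine.Point.add_of_Y_eq (W := (WeierstrassCurve.map W f).toAffine) (h₁ := k₁)
      (h₂ := k₂) (congr_arg _ hxy.left) hy).symm
  · have hxy' : ¬(f x₁ = f x₂ ∧ f y₁ = (WeierstrassCurve.map W f).toAffine.negY (f x₂) (f y₂)) := by
      rintro ⟨h1, h2⟩
      apply hxy
      refine ⟨f.injective h1, f.injective ?_⟩
      rw [h2]
      exact WeierstrassCurve.Affine.map_negY (W' := W) f x₂ y₂
    rw [WeierstrassCurve.Affine.Point.add_some hxy]
    refine Eq.trans ?_ (WeierstrassCurve.Affine.Point.add_some (W := (WeierstrassCurve.map W f).toAffine) (h₁ := k₁)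
      (h₂ := k₂) hxy').symm
    have hs : (WeierstrassCurve.map W f).toAffine.slope (f x₁) (f x₂) (f y₁) (f y₂) = f (W.slope x₁ x₂ y₁ y₂) :=
      WeierstrassCurve.Affine.map_slope (W := W) f x₁ x₂ y₁ y₂
    rw [cp_some]
    simp only [hs, WeierstrassCurve.Affine.Point.some.injEq]
    exact ⟨(WeierstrassCurve.Affine.map_addX (W' := W) f x₁ x₂ _).symm,
      (WeierstrassCurve.Affine.map_addY (W' := W) f x₁ y₁ x₂ _).symm⟩

private theorem cp_tors (W : WeierstrassCurve.Affine K) (P : W.Point) (h : IsOfFinAddOrder (cp f W P)) :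
    IsOfFinAddOrder P := by
  rw [isOfFinAddOrder_iff_nsmul_eq_zero] at h ⊢
  obtain ⟨n, hn, h⟩ := h
  refine ⟨n, hn, ?_⟩
  have h1 : ∀ m : ℕ, cp f W (m • P) = m • cp f W P := by
    intro m
    induction m with
    | zero => rw [zero_nsmul, zero_nsmul]; rfl
    | succ m ih => rw [succ_nsmul, succ_nsmul, cp_add, ih]
  have h2 : cp f W (n • P) = 0 := by rw [h1, h]
  generalize n • P = Q at h2
  match Q, h2 with
  | .zero, _ => rfl
  | .some x y hq, h3 =>
    rw [cp_some] at h3
    exact absurd h3 (by intro h4; cases h4)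

private theorem desc_aux {W : WeierstrassCurve.Affine K} {W' : WeierstrassCurve.Affine L}
    (e : W' = WeierstrassCurve.map W f) {x y : K} {x' y' : L} (hx : x' = f x) (hy : y' = f y)
    (h : ∃ h : W'.Nonsingular x' y', IsOfFinAddOrder (WeierstrassCurve.Affine.Point.some x' y' h)) :
    ∃ h : W.Nonsingular x y, IsOfFinAddOrder (WeierstrassCurve.Affine.Point.some x y h) := by
  subst e hx hy
  obtain ⟨h, hf⟩ := h
  exact ⟨(WeierstrassCurve.Affine.map_nonsingular W f.injective x y).1 h, cp_tors f W _ hf⟩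

theorem torsB_desc {r : K} (h : TorsB (f r)) : TorsB r := by
  have e4 : f 4 = 4 := map_ofNat f 4
  have e8 : f 8 = 8 := map_ofNat f 8
  have e9 : f 9 = 9 := map_ofNat f 9
  have e16 : f 16 = 16 := map_ofNat f 16
  have e24 : f 24 = 24 := map_ofNat f 24
  refine desc_aux f ?_ ?_ ?_ h
  · simp [Er, WeierstrassCurve.map, e9, e16, e24]
  · simp [e4]
  · simp [e8]

end descent

variable {k : Type} [Field k] [CharZero k]

private theorem adj (α : k) (hα : IsIntegral ℚ α) : NumberField ℚ⟮α⟯ := by
  haveI : FiniteDimensional ℚ ℚ⟮α⟯ := adjoin.finiteDimensional hα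
  exact {}

/-- a torsion parameter `α` is algebraic of bounded height -/
theorem torsB_height {α : k} (h1 : α + 1 ≠ 0) (h : TorsB (rr α)) : IsIntegral ℚ α ∧ absMulHeight₁ α ≤ 4 * 10 ^ 6 := by
  have hr : IsAlgebraic ℚ (rr α) := torsB_alg h
  have hα : IsIntegral ℚ α := by
    have h2 : IsAlgebraic ℚ (((α - 1) / (α + 1)) ^ 2) := by
      have := hr.neg
      unfold rr at this
      rwa [neg_neg] at this
    have h3 : IsAlgebraic ℚ ((α - 1) / (α + 1)) := IsAlgebraic.of_pow (by norm_num) h2
    set t := (α - 1) / (α + 1) with ht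
    have h4 : α = (1 + t) / (1 - t) := by
      have h5 : (1 : k) - t = 2 / (α + 1) := by
        rw [ht]
        field_simp
        ring
      have h6 : (1 : k) + t = 2 * α / (α + 1) := by
        rw [ht]
        field_simp
        ring
      rw [h5, h6]
      field_simp
    rw [h4, div_eq_mul_inv]
    exact (((isAlgebraic_one).add h3).mul ((isAlgebraic_one).sub h3).inv).isIntegral
  refine ⟨hα, ?_⟩
  haveI := adj α hα
  set g : ℚ⟮α⟯ := AdjoinSimple.gen ℚ α with hg
  have e : algebraMap ℚ⟮α⟯ k g = α := AdjoinSimple.algebraMap_gen ℚ α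
  have h2 : algebraMap ℚ⟮α⟯ k (rr g) = rr α := by
    unfold rr
    rw [map_neg, map_pow, map_div₀, map_sub, map_add, map_one, e]
  have h3 : TorsB (rr g) := torsB_desc (algebraMap ℚ⟮α⟯ k) (by rw [h2]; exact h)
  have h4 : g + 1 ≠ 0 := by
    intro h5
    apply h1
    rw [← e, ← map_one (algebraMap ℚ⟮α⟯ k), ← map_add, h5, map_zero]
  have h5 := height_alpha h4 h3
  rw [totalWeight_eq_finrank] at h5
  have hn : Module.finrank ℚ ℚ⟮α⟯ ≠ 0 := Module.finrank_pos.ne'
  rw [absMulHeight₁, dif_pos hα]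
  calc _ ≤ (((4 * 10 ^ 6 : ℝ) ^ Module.finrank ℚ ℚ⟮α⟯) ^ (Module.finrank ℚ ℚ⟮α⟯ : ℝ)⁻¹) := by
        refine Real.rpow_le_rpow (mulHeight₁_pos _).le h5 (by positivity)
    _ = _ := Real.pow_rpow_inv_natCast (by norm_num) hn

end Pool.Agent.LibSX77
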