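import Mathlib

/-!
Northcott's theorem for algebraic numbers of bounded degree and bounded absolute height.
-/

open scoped Classical
open IntermediateField Polynomial

namespace Pool.Agent.LibSX77

open Height NumberField

/-- the absolute values of the conjugates are at most the height -/
private theorem norm_le {K : Type} [Field K] [NumberField K] (x : K) (φ : K →+* ℂ) : ‖φ x‖ ≤ mulHeight₁ x := by
  have h1 : ‖φ x‖ = InfinitePlace.mk φ x := rfl
  rw [h1, NumberField.mulHeight₁_eq, ← Finset.mul_prod_erase Finset.univ _ (Finset.mem_univ (InfinitePlace.mk φ))]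
  set v := InfinitePlace.mk φ
  have h2 : v x ≤ max (v x) 1 ^ v.mult :=
    (le_max_left _ _).trans (le_self_pow₀ (le_max_right _ _) InfinitePlace.mult_ne_zero)
  have h3 : 1 ≤ ∏ w ∈ Finset.univ.erase v, max (w x) 1 ^ w.mult := by
    refine Finset.prod_induction _ (fun t : ℝ => 1 ≤ t) (fun a b ha hb => one_le_mul_of_one_le_of_one_le ha hb) le_rfl ?_
    intro w _
    exact one_le_pow₀ (le_max_right _ _)
  have h4 : 1 ≤ ∏ᶠ w : FinitePlace K, max (w x) 1 :=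
    finprod_induction (fun t : ℝ => 1 ≤ t) le_rfl (fun a b ha hb => one_le_mul_of_one_le_of_one_le ha hb)
      (fun w => le_max_right _ _)
  have h5 : 0 ≤ max (v x) 1 ^ v.mult := by positivity
  calc v x ≤ max (v x) 1 ^ v.mult := h2
    _ ≤ (max (v x) 1 ^ v.mult * ∏ w ∈ Finset.univ.erase v, max (w x) 1 ^ w.mult) := le_mul_of_one_le_right h5 h3
    _ ≤ _ := le_mul_of_one_le_right (mul_nonneg h5 (zero_le_one.trans h3)) h4

variable {k : Type} [Field k] [CharZero k]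

private theorem adj' (α : k) (hα : IsIntegral ℚ α) : NumberField ℚ⟮α⟯ := by
  haveI : FiniteDimensional ℚ ℚ⟮α⟯ := adjoin.finiteDimensional hα
  exact {}

/-- Northcott -/
theorem north (d : ℕ) (B : ℝ) :
    {x : k | IsIntegral ℚ x ∧ (minpoly ℚ x).natDegree ≤ d ∧ absMulHeight₁ x ≤ B}.Finite := by
  set D : ℝ := max B 1 ^ d with hD
  have hD1 : 1 ≤ D := one_le_pow₀ (le_max_right _ _)
  set C : ℕ := ⌈(D * D) ^ d * 2 ^ d⌉₊ with hC
  have hfin := bUnion_roots_finite (algebraMap ℤ k) d (Set.finite_Icc (-C : ℤ) C)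
  have hfin2 : (⋃ n ∈ Finset.Icc 1 ⌊D⌋₊, (fun z : k => (n : k) * z) ⁻¹' (⋃ (f : ℤ[X]) (_ : f.natDegree ≤ d ∧
      ∀ i, f.coeff i ∈ Set.Icc (-C : ℤ) C), ((f.map (algebraMap ℤ k)).roots.toFinset : Set k))).Finite := by
    refine (Finset.finite_toSet (Finset.Icc 1 ⌊D⌋₊)).biUnion fun n hn => ?_
    have hn' : (n : k) ≠ 0 := by
      have := (Finset.mem_Icc.1 hn).1
      exact_mod_cast (Nat.one_le_iff_ne_zero.1 this)
    refine hfin.preimage ?_
    intro a _ b _ h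
    exact mul_left_cancel₀ hn' h
  refine hfin2.subset ?_
  rintro x ⟨hx, hd, hB⟩
  haveI := adj' x hx
  set g : ℚ⟮x⟯ := AdjoinSimple.gen ℚ x with hg
  have e : algebraMap ℚ⟮x⟯ k g = x := AdjoinSimple.algebraMap_gen ℚ x
  have hn : Module.finrank ℚ ℚ⟮x⟯ ≠ 0 := Module.finrank_pos.ne'
  have hnd : Module.finrank ℚ ℚ⟮x⟯ ≤ d := by
    rw [adjoin.finrank hx]
    exact hd
  have hH : mulHeight₁ g ≤ D := by
    rw [absMulHeight₁, dif_pos hx] at hB
    have h1 : mulHeight₁ g = (mulHeight₁ g ^ (Module.finrank ℚ ℚ⟮x⟯ : ℝ)⁻¹) ^ Module.finrank ℚ ℚ⟮x⟯ :=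
      (Real.rpow_inv_natCast_pow (mulHeight₁_pos _).le hn).symm
    have h2 : mulHeight₁ g ^ (Module.finrank ℚ ℚ⟮x⟯ : ℝ)⁻¹ ≤ max B 1 := le_trans hB (le_max_left _ _)
    rw [h1]
    refine (pow_le_pow_left₀ (Real.rpow_nonneg (mulHeight₁_pos _).le _) h2 _).trans ?_
    exact pow_le_pow_right₀ (le_max_right _ _) hnd
  obtain ⟨n, hn0, hnH, hni⟩ := exists_nat_le_mulHeight₁ g
  simp only [Set.mem_iUnion]
  refine ⟨n, Finset.mem_Icc.2 ⟨Nat.one_le_iff_ne_zero.2 hn0, Nat.le_floor (hnH.trans hH)⟩, ?_⟩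
  have hφ : ∀ φ : ℚ⟮x⟯ →+* ℂ, ‖φ ((n : ℚ⟮x⟯) * g)‖ ≤ D * D := by
    intro φ
    rw [map_mul, norm_mul, map_natCast, Complex.norm_natCast]
    exact mul_le_mul (hnH.trans hH) ((norm_le g φ).trans hH) (norm_nonneg _) (by linarith)
  have h_map := minpoly.isIntegrallyClosed_eq_field_fractions' ℚ hni
  simp only [Set.mem_preimage, Set.mem_iUnion]
  refine ⟨minpoly ℤ ((n : ℚ⟮x⟯) * g), ⟨?_, fun i => ?_⟩, ?_⟩
  · rw [← (minpoly.monic hni).natDegree_map (algebraMap ℤ ℚ), ← h_map]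
    exact (minpoly.natDegree_le _).trans hnd
  · rw [Set.mem_Icc, ← abs_le, ← @Int.cast_le ℝ]
    have h1 := Embeddings.coeff_bdd_of_norm_le (A := ℂ) hφ i
    have h2 : max (D * D) 1 ^ Module.finrank ℚ ℚ⟮x⟯ * ((Module.finrank ℚ ℚ⟮x⟯).choose (Module.finrank ℚ ℚ⟮x⟯ / 2) : ℝ) ≤
        (D * D) ^ d * 2 ^ d := by
      have h3 : (1 : ℝ) ≤ D * D := one_le_mul_of_one_le_of_one_le hD1 hD1
      rw [max_eq_left h3]
      refine mul_le_mul (pow_le_pow_right₀ h3 hnd) ?_ (by positivity) (by positivity)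
      have h4 : ((Module.finrank ℚ ℚ⟮x⟯).choose (Module.finrank ℚ ℚ⟮x⟯ / 2) : ℝ) ≤ 2 ^ Module.finrank ℚ ℚ⟮x⟯ := by
        exact_mod_cast Nat.choose_le_two_pow _ _
      exact h4.trans (pow_le_pow_right₀ one_le_two hnd)
    refine (Eq.trans_le ?_ h1).trans (h2.trans ?_)
    · rw [h_map, coeff_map, eq_intCast, Int.norm_cast_rat, Int.norm_eq_abs, Int.cast_abs]
    · rw [hC]
      exact_mod_cast Nat.le_ceil _
  · have h1 : aeval ((n : k) * x) (minpoly ℤ ((n : ℚ⟮x⟯) * g)) = 0 := by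
      have h2 : (n : k) * x = algebraMap ℚ⟮x⟯ k ((n : ℚ⟮x⟯) * g) := by
        rw [map_mul, map_natCast, e]
      rw [h2, aeval_algebraMap_apply, minpoly.aeval, map_zero]
    have h3 : (minpoly ℤ ((n : ℚ⟮x⟯) * g)).map (algebraMap ℤ k) ≠ 0 :=
      ((minpoly.monic hni).map _).ne_zero
    rw [Finset.mem_coe, Multiset.mem_toFinset, mem_roots h3, IsRoot.def, eval_map, ← aeval_def]
    exact h1

end Pool.Agent.LibSX77
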