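import Pool.Agent.LibSX77.H5
import Pool.Agent.LibSX77.H6

/-!
The parameters `α` for which `B` is a torsion point have bounded height; there are finitely many of each degree.
-/

open scoped Classical

namespace Pool.Agent.LibSX77

open Height NumberField
open Pool.Agent.LibCW77

variable {k : Type} [Field k] [CharZero k]

theorem fam_height {α : k} (hg : (fam α).Good) (h : TorsB (rr α)) : absMulHeight₁ α ≤ 4 * 10 ^ 6 :=
  (torsB_height (fam_facts hg).2.2.2.1 h).2

theorem fam_deg (d : ℕ) : {α : k | (fam α).Good ∧ TorsB (rr α) ∧ (minpoly ℚ α).natDegree ≤ d}.Finite := by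
  refine (north (k := k) d (4 * 10 ^ 6)).subset ?_
  rintro α ⟨hg, h, hd⟩
  have h1 := torsB_height (fam_facts hg).2.2.2.1 h
  exact ⟨h1.1, hd, h1.2⟩

end Pool.Agent.LibSX77
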