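import Pool.Agent.LibSX77.Defs

/-!
[SX77 X1] `mns c (ζ ^ j) P = ∑ i < j, mns c ζ (T (ζ ^ i) P)` (telescoping, `T z = tw (t1 z)`, `mns c z P = e P - e (T z P)`
with `e P = ∑ σ, ∑ w ∈ W c, cls c 1 (pr σ (tw w P))`), the `n`-th roots of unity are the `ζ ^ j`, `j < n`. For `mns_prj`:
`∑ z, e (T z (T ζ P)) = ∑ z, e (T z P)` (`z ↦ z ζ` is a bijection of `nthRootsFinset`).
-/

open scoped Classical
open Polynomial

namespace Pool.Agent.LibSX77

open Pool.Agent.LibBH2
open Pool.Agent.LibCHd (VR RF Red FunF)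
open Pool.Agent.LibCW77

variable {k : Type} [Field k]

private theorem X1_sum {A : Type*} [AddCommMonoid A] {n : ℕ} (hn : 0 < n) {ζ : k} (hζ : IsPrimitiveRoot ζ n)
    (F : k → A) : ∑ z ∈ nthRootsFinset n (1 : k), F z = ∑ j ∈ Finset.range n, F (ζ ^ j) := by
  have himg : nthRootsFinset n (1 : k) = (Finset.range n).image fun j => ζ ^ j := by
    symm
    apply Finset.eq_of_subset_of_card_le
    · intro z hz
      obtain ⟨j, _, rfl⟩ := Finset.mem_image.1 hz
      rw [mem_nthRootsFinset hn, ← pow_mul, mul_comm, pow_mul, hζ.pow_eq_one, one_pow]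
    · rw [Finset.card_image_of_injOn, Finset.card_range, hζ.card_nthRootsFinset]
      intro i hi j hj hij
      exact hζ.pow_inj (Finset.mem_range.1 (Finset.mem_coe.1 hi)) (Finset.mem_range.1 (Finset.mem_coe.1 hj)) hij
  rw [himg, Finset.sum_image]
  intro i hi j hj hij
  exact hζ.pow_inj (Finset.mem_range.1 (Finset.mem_coe.1 hi)) (Finset.mem_range.1 (Finset.mem_coe.1 hj)) hij

private theorem X1_shift {A : Type*} [AddCommMonoid A] {n : ℕ} (hn : 0 < n) {ζ : k} (hζ : IsPrimitiveRoot ζ n)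
    (F : k → A) : ∑ z ∈ nthRootsFinset n (1 : k), F (z * ζ) = ∑ z ∈ nthRootsFinset n (1 : k), F z := by
  have h0 : ζ ≠ 0 := hζ.ne_zero hn.ne'
  refine Finset.sum_bij (fun z _ => z * ζ) ?_ ?_ ?_ ?_
  · intro z hz
    rw [mem_nthRootsFinset hn] at hz ⊢
    rw [mul_pow, hz, hζ.pow_eq_one, one_mul]
  · intro z _ w _ h
    exact mul_right_cancel₀ h0 h
  · intro z hz
    refine ⟨z * ζ⁻¹, ?_, ?_⟩
    · rw [mem_nthRootsFinset hn] at hz ⊢
      rw [mul_pow, hz, inv_pow, hζ.pow_eq_one, inv_one, one_mul]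
    · rw [mul_assoc, inv_mul_cancel₀ h0, mul_one]
  · intro z _
    rfl

private theorem X1_tel {A X : Type*} [AddCommGroup A] {n : ℕ} (hn : 0 < n) {ζ : k} (hζ : IsPrimitiveRoot ζ n)
    (T : k → X → X) (h1 : ∀ x, T 1 x = x) (hm : ∀ z w x, T z (T w x) = T (z * w) x) (E : X → A)
    (D : k → X → A) (hD : ∀ z x, D z x = E x - E (T z x)) (x : X) :
    ∑ z ∈ nthRootsFinset n (1 : k), D z x = ∑ j ∈ Finset.range n, ∑ i ∈ Finset.range j, D ζ (T (ζ ^ i) x) := by
  rw [X1_sum hn hζ]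
  refine Finset.sum_congr rfl fun j _ => ?_
  have : ∀ i, D ζ (T (ζ ^ i) x) = E (T (ζ ^ i) x) - E (T (ζ ^ (i + 1)) x) := by
    intro i
    rw [hD, hm, pow_succ, mul_comm]
  rw [Finset.sum_congr rfl fun i _ => this i, Finset.sum_range_sub' (fun i => E (T (ζ ^ i) x)), pow_zero, h1, hD]

private theorem X1_dif {A X : Type*} [AddCommGroup A] {n : ℕ} (hn : 0 < n) {ζ : k} (hζ : IsPrimitiveRoot ζ n)
    (T : k → X → X) (hm : ∀ z w x, T z (T w x) = T (z * w) x) (E : X → A)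
    (D : k → X → A) (hD : ∀ z x, D z x = E x - E (T z x)) (x : X) :
    (n : ℤ) • D ζ x = ∑ z ∈ nthRootsFinset n (1 : k), D z x - ∑ z ∈ nthRootsFinset n (1 : k), D z (T ζ x) := by
  have e : ∀ y, ∑ z ∈ nthRootsFinset n (1 : k), D z y =
      (n : ℤ) • E y - ∑ z ∈ nthRootsFinset n (1 : k), E (T z y) := by
    intro y
    rw [Finset.sum_congr rfl fun z _ => hD z y, Finset.sum_sub_distrib, Finset.sum_const,
      hζ.card_nthRootsFinset, natCast_zsmul]
  rw [e, e, hD, Finset.sum_congr rfl fun z _ => congrArg E (hm z ζ x),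
    X1_shift hn hζ fun z => E (T z x), smul_sub]
  abel

private theorem X1_tw1 {M : Type} [Field M] [Algebra k M] (P : Pnt 3 M) : tw (t1 (1 : k)) P = P := by
  funext j i
  have : t1 (1 : k) j = 1 := by fin_cases j <;> rfl
  fin_cases i
  · rfl
  · change (P j 1).map (fun v => algebraMap k M (t1 1 j) * v) = P j 1
    rw [this, map_one]
    simp

private theorem X1_twm {M : Type} [Field M] [Algebra k M] (z w : k) (P : Pnt 3 M) :
    tw (t1 z) (tw (t1 w) P) = tw (t1 (z * w)) P := by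
  funext j i
  have : t1 (z * w) j = t1 z j * t1 w j := by fin_cases j <;> simp [t1]
  fin_cases i
  · rfl
  · change ((P j 1).map (fun v => algebraMap k M (t1 w j) * v)).map (fun v => algebraMap k M (t1 z j) * v) =
      (P j 1).map (fun v => algebraMap k M (t1 (z * w) j) * v)
    rw [this, Option.map_map]
    congr 1
    funext v
    simp only [Function.comp_apply, map_mul]
    ring

private theorem X1_tau1 (Q : Fin 2 → Option k) : tau (1 : k) Q = Q := by
  funext i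
  fin_cases i
  · rfl
  · change (Q 1).map (fun v => algebraMap k k 1 * v) = Q 1
    simp

private theorem X1_taum (z w : k) (Q : Fin 2 → Option k) : tau z (tau w Q) = tau (z * w) Q := by
  funext i
  fin_cases i
  · rfl
  · change ((Q 1).map (fun v => algebraMap k k w * v)).map (fun v => algebraMap k k z * v) =
      (Q 1).map (fun v => algebraMap k k (z * w) * v)
    rw [Option.map_map]
    congr 1
    funext v
    simp only [Function.comp_apply, map_mul]
    ring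

private theorem X1_mns (c : Dat k) {M : Type} [Field M] [Algebra k M] (z : k) (P : Pnt 3 M) :
    mns c z P = (∑ σ : Equiv.Perm (Fin 3), ∑ w ∈ W c, cls c 1 (pr σ (tw w P))) -
      ∑ σ : Equiv.Perm (Fin 3), ∑ w ∈ W c, cls c 1 (pr σ (tw w (tw (t1 z) P))) := by
  rw [mns, ← Finset.sum_sub_distrib]
  refine Finset.sum_congr rfl fun σ _ => ?_
  rw [← Finset.sum_sub_distrib]

theorem prj_mns {c : Dat k} (hc : c.Good) {ζ : k} (hζ : IsPrimitiveRoot ζ c.n) {M : Type} [Field M] [Algebra k M]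
    (P : Pnt 3 M) :
    prj c P = ∑ j ∈ Finset.range c.n, ∑ i ∈ Finset.range j, mns c ζ (tw (t1 (ζ ^ i)) P) :=
  X1_tel (Nat.lt_of_lt_of_le Nat.zero_lt_two hc.two) hζ (fun z P => tw (t1 z) P) X1_tw1 X1_twm
    (fun P => ∑ σ : Equiv.Perm (Fin 3), ∑ w ∈ W c, cls c 1 (pr σ (tw w P))) (fun z P => mns c z P)
    (fun z P => X1_mns c z P) P

theorem mns_prj {c : Dat k} (hc : c.Good) {ζ : k} (hζ : IsPrimitiveRoot ζ c.n) {M : Type} [Field M] [Algebra k M]
    (P : Pnt 3 M) : (c.n : ℤ) • mns c ζ P = prj c P - prj c (tw (t1 ζ) P) :=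
  X1_dif (Nat.lt_of_lt_of_le Nat.zero_lt_two hc.two) hζ (fun z P => tw (t1 z) P) X1_twm
    (fun P => ∑ σ : Equiv.Perm (Fin 3), ∑ w ∈ W c, cls c 1 (pr σ (tw w P))) (fun z P => mns c z P)
    (fun z P => X1_mns c z P) P

theorem prQ_dz {c : Dat k} (hc : c.Good) {ζ : k} (hζ : IsPrimitiveRoot ζ c.n) (Q : Fin 2 → Option k) :
    prQ c Q = ∑ j ∈ Finset.range c.n, ∑ i ∈ Finset.range j, dz c ζ (tau (ζ ^ i) Q) :=
  X1_tel (Nat.lt_of_lt_of_le Nat.zero_lt_two hc.two) hζ (fun z Q => tau z Q) X1_tau1 X1_taum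
    (fun Q => cls c 0 (pt1 Q)) (fun z Q => dz c z Q) (fun _ _ => rfl) Q

theorem dz_prQ {c : Dat k} (hc : c.Good) {ζ : k} (hζ : IsPrimitiveRoot ζ c.n) (Q : Fin 2 → Option k) :
    (c.n : ℤ) • dz c ζ Q = prQ c Q - prQ c (tau ζ Q) :=
  X1_dif (Nat.lt_of_lt_of_le Nat.zero_lt_two hc.two) hζ (fun z Q => tau z Q) X1_taum
    (fun Q => cls c 0 (pt1 Q)) (fun z Q => dz c z Q) (fun _ _ => rfl) Q

end Pool.Agent.LibSX77
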