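import Pool.Agent.LibSX77.Defs
import Pool.Agent.LibCW77.OF1

/-!
[SX77 X2] All fibres of `x : C → ℙ¹` are rationally equivalent: `∑ z, cls (x, z v)` (with multiplicities: at a ramified point
all `τ_z Q` are equal to `Q`). The function `(x - x(Q)) / (x - x(Q'))` (`x - x(Q)`, if `x(Q') = ∞`) on the curve: `IsDiv`
with `K` the function field of the curve; see `FG3.lean` (`placeC`) and `L1`-`L4` for the places of the curve over
a point of the line.
-/

open scoped Classical
open Polynomial

namespace Pool.Agent.LibSX77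

open Pool.Agent.LibBH2
open Pool.Agent.LibCHd (VR RF Red FunF)
open Pool.Agent.LibCW77

variable {k : Type} [Field k]

private theorem X2_sum {ι A : Type} [AddCommGroup A] (s : Finset ι) (g : ι → ℤ) (t : A) :
    (∑ x ∈ s, g x) • t = ∑ x ∈ s, g x • t := by
  have h := map_sum (zmultiplesHom A t) g s
  simpa only [zmultiplesHom_apply] using h

private theorem X2_map0 {M : Type} [Field M] [Algebra k M] (Q : Fin 2 → Option k) :
    mpP (Algebra.ofId k M) (pt1 Q) = pt1 (ctp M Q) := rfl

private theorem X2_spP {K : Type} [Field K] [Algebra k K] {w : Place k K} {x y : K} {Q : Fin 2 → Option (RF w)}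
    (h1 : SpO w (some x) (Q 0)) (h2 : SpO w (some y) (Q 1)) : SpP w (gpt x y) (pt1 Q) := by
  intro j i
  fin_cases i
  · exact h1
  · exact h2

/-- a relation from a function on the curve -/
private theorem X2_rel [IsAlgClosed k] [CharZero k] {c : Dat k} (hc : c.Good) {ζ : k}
    (hζ : IsPrimitiveRoot ζ c.n) {F : Type} [Field F] [Algebra k F] {x y : F} (hg : GenC c x y) (f : F)
    (hf : f ≠ 0) {J : Type} [Fintype J] (m : J → ℤ) (Q : J → Fin 2 → Option k)
    (hQ : ∀ j, OnC c (Q j 0) (Q j 1)) (P : Place k F → Fin 2 → Option k)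
    (hP2 : ∀ p, SpO p (some x) ((P p 0).map (algebraMap k (RF p))))
    (hP3 : ∀ p, SpO p (some y) ((P p 1).map (algebraMap k (RF p))))
    (hord : ∀ p : Place k F, p.ord f = ∑ j, (if Q j = P p then m j else 0)) :
    ∑ j, m j • cls c 0 (pt1 (Q j)) = 0 := by
  have hF := (genC_funF hc hg).1
  have hpl : ∀ j, ∃ p : Place k F, P p = Q j ∧ ∀ p', P p' = Q j → p' = p := by
    intro j
    obtain ⟨p, ⟨hp1, hp2⟩, -, -, -, -, -, huniq⟩ := placeC hc hζ hg (Q j) (hQ j)
    refine ⟨p, ?_, ?_⟩
    · funext a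
      have hinj := Option.map_injective (algebraMap k (RF p)).injective
      fin_cases a
      · exact hinj (spO_unique (hP2 p) hp1)
      · exact hinj (spO_unique (hP3 p) hp2)
    · intro p' hp'
      apply huniq
      · rw [← hp']
        exact hP2 p'
      · rw [← hp']
        exact hP3 p'
  choose pl hpl1 hpl2 using hpl
  have hclsP : ∀ p : Place k F, cls c 0 (pt1 (ctp (RF p) (P p))) = cls c 0 (pt1 (P p)) := by
    intro p
    rw [← X2_map0, cls_map]
    have h1 : Function.Surjective (algebraMap k (RF p)) := res_k hF p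
    have h2 : (Algebra.ofId k (RF p)).fieldRange = ⊤ := by
      rw [eq_top_iff]
      intro z _
      obtain ⟨a, rfl⟩ := h1 z
      exact ⟨a, rfl⟩
    have h3 : Module.finrank (Algebra.ofId k (RF p)).fieldRange (RF p) = 1 := by
      rw [h2]
      exact IntermediateField.finrank_top
    rw [h3]
    simp
  obtain ⟨S, hS⟩ : ∃ S : Finset (Place k F), S = (fin_zero hF f).toFinset ∪ Finset.univ.image pl := ⟨_, rfl⟩
  have hrel := div_rel c 1 0 hF (gpt x y) (fun _ => hg.on) f hf S
    (fun p => pt1 (ctp (RF p) (P p))) (fun p => X2_spP (hP2 p) (hP3 p))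
    (fun p _ => Pool.Agent.LibHL77.res_finite hF p) (fun p hp h1 _ => by
      exfalso
      apply hp
      rw [hS, Finset.mem_union, Set.Finite.mem_toFinset]
      exact Or.inl h1)
  rw [← hrel]
  symm
  calc ∑ p ∈ S, p.ord f • cls c 0 (pt1 (ctp (RF p) (P p)))
      = ∑ p ∈ S, ∑ j, (if p = pl j then m j • cls c 0 (pt1 (Q j)) else 0) := by
        refine Finset.sum_congr rfl fun p _ => ?_
        rw [hclsP, hord, X2_sum]
        refine Finset.sum_congr rfl fun j _ => ?_
        by_cases h1 : Q j = P p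
        · rw [if_pos h1, if_pos (hpl2 j p h1.symm), h1]
        · rw [if_neg h1, if_neg, zero_zsmul]
          rintro rfl
          exact h1 (hpl1 j).symm
    _ = ∑ j, m j • cls c 0 (pt1 (Q j)) := by
        rw [Finset.sum_comm]
        refine Finset.sum_congr rfl fun j _ => ?_
        rw [Finset.sum_ite_eq', if_pos]
        rw [hS, Finset.mem_union]
        exact Or.inr (Finset.mem_image_of_mem _ (Finset.mem_univ _))

private theorem X2_tr {M : Type} [Field M] [Algebra k M] {x : M} (hx : Transcendental k x) (a : k) :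
    x - algebraMap k M a ≠ 0 := by
  intro h
  rw [sub_eq_zero] at h
  rw [h] at hx
  exact hx (isAlgebraic_algebraMap a)

private theorem X2_neg {K : Type} [Field K] [Algebra k K] (v : Place k K) {s : K}
    (h : v.ord s < 0) (c : k) : v.ord (s - algebraMap k K c) = v.ord s := by
  have hs : s ≠ 0 := by rintro rfl; rw [v.ord_zero] at h; omega
  by_cases hc : c = 0
  · rw [hc, map_zero, sub_zero]
  · have h1 : v.ord (-algebraMap k K c) = 0 := by rw [Place.ord_neg, v.ord_const c hc]
    have h2 : -algebraMap k K c ≠ 0 := by simpa using hc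
    rw [sub_eq_add_neg]
    exact (Place.ord_add_of_lt hs h2 (by rw [h1]; exact h)).2

private theorem X2_shift {K : Type} [Field K] [Algebra k K] {w : Place k K} {x : K} {a b : k}
    (h : Red w x (algebraMap k (RF w) a)) (hab : a ≠ b) : w.ord (x - algebraMap k K b) = 0 := by
  rw [LibCHd.red_iff_val] at h
  refine Place.ord_eq_zero_of_val (c := a - b) ?_ (sub_ne_zero.mpr hab)
  have e : x - algebraMap k K b - algebraMap k K (a - b) = x - algebraMap k K a := by
    rw [map_sub]
    ring
  rw [e]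
  exact h

private theorem X2_ab {c : Dat k} (hc : c.Good) (i j : Fin 3) : c.a i ≠ c.b j := by
  intro h
  have h1 : Sum.elim c.a c.b (Sum.inl i) = Sum.elim c.a c.b (Sum.inr j) := h
  exact absurd (hc.inj h1) (by simp)

/-- the point over `b_0` -/
private theorem X2_b {c : Dat k} (hc : c.Good) (R : Fin 2 → Option k) (h : OnC c (R 0) (R 1))
    (h0 : R 0 = some (c.b 0)) : pb c 0 = R := by
  have h1 : R 1 = none := by
    rcases hR : R 1 with _ | v
    · rfl
    · exfalso
      rw [h0, hR] at h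
      have h1 : v ^ c.n * ∏ i, (c.b 0 - c.b i) = ∏ i, (c.b 0 - c.a i) := h
      have h2 : ∏ i, (c.b 0 - c.b i) = 0 := Finset.prod_eq_zero (Finset.mem_univ 0) (sub_self _)
      rw [h2, mul_zero] at h1
      obtain ⟨i, -, hi⟩ := Finset.prod_eq_zero_iff.1 h1.symm
      exact X2_ab hc i 0 (sub_eq_zero.1 hi).symm
  funext a
  fin_cases a
  · exact h0.symm
  · exact h1.symm

/-- the points over `T` -/
private theorem X2_over [CharZero k] {c : Dat k} (hc : c.Good) (T : Option k)
    (hT : ∀ i, T ≠ some (c.a i) ∧ T ≠ some (c.b i)) (R : Option k) (h : OnC c T R) :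
    ∃ v, R = some v ∧ v ≠ 0 ∧ v ^ c.n = fv c T := by
  have hn : c.n ≠ 0 := by have := hc.two; omega
  rcases T with _ | t
  · rcases R with _ | v
    · exact h.elim
    · have h1 : v ^ c.n = 1 := h
      refine ⟨v, rfl, ?_, h1⟩
      rintro rfl
      rw [zero_pow hn] at h1
      exact zero_ne_one h1
  · rcases R with _ | v
    · obtain ⟨i, hi⟩ := h
      exact absurd (congrArg some hi) (hT i).2
    · have h1 : v ^ c.n * ∏ i, (t - c.b i) = ∏ i, (t - c.a i) := h
      have hb : ∏ i, (t - c.b i) ≠ 0 :=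
        Finset.prod_ne_zero_iff.2 fun i _ => sub_ne_zero.2 fun h => (hT i).2 (congrArg some h)
      have ha : ∏ i, (t - c.a i) ≠ 0 :=
        Finset.prod_ne_zero_iff.2 fun i _ => sub_ne_zero.2 fun h => (hT i).1 (congrArg some h)
      refine ⟨v, rfl, ?_, ?_⟩
      · rintro rfl
        rw [zero_pow hn, zero_mul] at h1
        exact ha h1.symm
      · show v ^ c.n = (∏ i, (t - c.a i)) / ∏ i, (t - c.b i)
        rw [eq_div_iff hb]
        exact h1

private theorem X2_tau (z : k) (Q : Fin 2 → Option k) : tau z Q = ![Q 0, (Q 1).map fun v => z * v] := rfl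

/-- the only point over a ramification point `t` -/
private theorem X2_one [IsAlgClosed k] [CharZero k] {c : Dat k} (hc : c.Good) {ζ : k}
    (hζ : IsPrimitiveRoot ζ c.n) (t : k) (R : Fin 2 → Option k) (hR : OnC c (R 0) (R 1)) (hRt : R 0 = some t)
    (hu : ∀ R' : Fin 2 → Option k, OnC c (R' 0) (R' 1) → R' 0 = some t → R' = R)
    (ht : ∃ i, t = c.a i ∨ t = c.b i) : (c.n : ℤ) • cls c 0 (pt1 R) = (c.n : ℤ) • cls c 0 (pt1 (pb c 0)) := by
  obtain ⟨F, _, _, x, y, hg⟩ := genC_exists hc
  choose P hP1 hP2 hP3 using place_pt hc hg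
  have key : ∀ p : Place k F,
      (P p 0 = none → p.ord x = -1) ∧
      (∀ i, P p 0 = some (c.a i) → p.ord (x - algebraMap k F (c.a i)) = c.n) ∧
      (∀ i, P p 0 = some (c.b i) → p.ord (x - algebraMap k F (c.b i)) = c.n) := by
    intro p
    obtain ⟨w, -, -, -, h2, h4, h3, huniq⟩ := placeC hc hζ hg (P p) (hP1 p)
    have hw : p = w := huniq p (hP2 p) (hP3 p)
    rw [← hw] at h2 h3 h4
    exact ⟨h2, fun i hi => (h4 i hi).1, fun i hi => (h3 i hi).1⟩
  have hxn : ∀ (p : Place k F) (b : k), P p 0 = none → p.ord (x - algebraMap k F b) = -1 := by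
    intro p b h
    have h1 := (key p).1 h
    rw [X2_neg p (by rw [h1]; norm_num), h1]
  have hxs : ∀ (p : Place k F) (b x₀ : k), P p 0 = some x₀ → x₀ ≠ b →
      p.ord (x - algebraMap k F b) = 0 := by
    intro p b x₀ h hne
    have h1 := hP2 p
    rw [h] at h1
    exact X2_shift h1 hne
  have hgen : ∀ (s : k) (_ : ∃ i, s = c.a i ∨ s = c.b i) (p : Place k F), p.ord (x - algebraMap k F s) =
      (if P p 0 = some s then (c.n : ℤ) else 0) - (if P p 0 = none then 1 else 0) := by
    intro s hs p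
    rcases h : P p 0 with _ | x₀
    · rw [hxn p _ h]
      simp
    · by_cases hx : x₀ = s
      · subst hx
        have h1 : p.ord (x - algebraMap k F x₀) = c.n := by
          obtain ⟨i, hi | hi⟩ := hs
          · rw [hi] at h ⊢
            exact (key p).2.1 i h
          · rw [hi] at h ⊢
            exact (key p).2.2 i h
        rw [h1]
        simp
      · rw [hxs p _ x₀ h hx]
        simp [hx]
  by_cases htb : t = c.b 0
  · have h1 : pb c 0 = R := X2_b hc R hR (by rw [hRt, htb])
    rw [h1]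
  have hxt : x - algebraMap k F t ≠ 0 := X2_tr hg.tr t
  have hx0 : x - algebraMap k F (c.b 0) ≠ 0 := X2_tr hg.tr _
  have hfin := X2_rel hc hζ hg ((x - algebraMap k F t) / (x - algebraMap k F (c.b 0)))
    (div_ne_zero hxt hx0) (J := Bool) (fun j => cond j (c.n : ℤ) (-(c.n : ℤ))) (fun j => cond j R (pb c 0))
    (by
      intro j
      cases j
      · exact ⟨0, rfl⟩
      · exact hR) P hP2 hP3 (by
      intro p
      rw [Place.ord_div _ _ _ hxt hx0, hgen t ht, hgen (c.b 0) ⟨0, Or.inr rfl⟩, Fintype.sum_bool]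
      have e1 : (if R = P p then (c.n : ℤ) else 0) = if P p 0 = some t then (c.n : ℤ) else 0 := by
        by_cases h : P p 0 = some t
        · rw [if_pos h, if_pos (hu _ (hP1 p) h).symm]
        · rw [if_neg h, if_neg]
          rintro rfl
          exact h hRt
      have e2 : (if pb c 0 = P p then -(c.n : ℤ) else 0) =
          -(if P p 0 = some (c.b 0) then (c.n : ℤ) else 0) := by
        by_cases h : P p 0 = some (c.b 0)
        · rw [if_pos h, if_pos (X2_b hc (P p) (hP1 p) h)]
        · rw [if_neg h, if_neg, neg_zero]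
          intro h1
          apply h
          rw [← h1]
          rfl
      show _ = (if R = P p then (c.n : ℤ) else 0) + (if pb c 0 = P p then -(c.n : ℤ) else 0)
      rw [e1, e2]
      ring)
  rw [Fintype.sum_bool] at hfin
  have hfin' : (c.n : ℤ) • cls c 0 (pt1 R) + (-(c.n : ℤ)) • cls c 0 (pt1 (pb c 0)) = 0 := hfin
  rw [neg_smul, ← sub_eq_add_neg, sub_eq_zero] at hfin'
  exact hfin'

private theorem X2_card [IsAlgClosed k] [CharZero k] {c : Dat k} (hc : c.Good) {ζ : k}
    (hζ : IsPrimitiveRoot ζ c.n) : (nthRootsFinset c.n (1 : k)).card = c.n := hζ.card_nthRootsFinset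

private theorem X2_pa {c : Dat k} (hc : c.Good) (i : Fin 3) (R : Fin 2 → Option k) (h : OnC c (R 0) (R 1))
    (h0 : R 0 = some (c.a i)) : R = ![some (c.a i), some 0] := by
  have hn : c.n ≠ 0 := by have := hc.two; omega
  have h1 : R 1 = some 0 := by
    rcases hR : R 1 with _ | v
    · exfalso
      rw [h0, hR] at h
      obtain ⟨j, hj⟩ := h
      exact X2_ab hc i j hj
    · rw [h0, hR] at h
      have h1 : v ^ c.n * ∏ j, (c.a i - c.b j) = ∏ j, (c.a i - c.a j) := h
      have h2 : ∏ j, (c.a i - c.a j) = 0 := Finset.prod_eq_zero (Finset.mem_univ i) (sub_self _)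
      have h3 : ∏ j, (c.a i - c.b j) ≠ 0 := Finset.prod_ne_zero_iff.2 fun j _ => sub_ne_zero.2 (X2_ab hc i j)
      rw [h2] at h1
      have h4 : v ^ c.n = 0 := (mul_eq_zero.1 h1).resolve_right h3
      rw [eq_zero_of_pow_eq_zero h4]
  funext a
  fin_cases a
  · exact h0
  · exact h1

private theorem X2_pb {c : Dat k} (hc : c.Good) (i : Fin 3) (R : Fin 2 → Option k) (h : OnC c (R 0) (R 1))
    (h0 : R 0 = some (c.b i)) : R = ![some (c.b i), none] := by
  have h1 : R 1 = none := by
    rcases hR : R 1 with _ | v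
    · rfl
    · exfalso
      rw [h0, hR] at h
      have h1 : v ^ c.n * ∏ j, (c.b i - c.b j) = ∏ j, (c.b i - c.a j) := h
      have h2 : ∏ j, (c.b i - c.b j) = 0 := Finset.prod_eq_zero (Finset.mem_univ i) (sub_self _)
      rw [h2, mul_zero] at h1
      obtain ⟨j, -, hj⟩ := Finset.prod_eq_zero_iff.1 h1.symm
      exact X2_ab hc j i (sub_eq_zero.1 hj).symm
  funext a
  fin_cases a
  · exact h0
  · exact h1

/-- every fibre is equivalent to the fibre over `b_0` -/
private theorem X2_fib [IsAlgClosed k] [CharZero k] {c : Dat k} (hc : c.Good) {Q : Fin 2 → Option k}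
    (hQ : OnC c (Q 0) (Q 1)) : ∑ z ∈ nthRootsFinset c.n (1 : k), cls c 0 (pt1 (tau z Q)) =
      (c.n : ℤ) • cls c 0 (pt1 (pb c 0)) := by
  have hn : 0 < c.n := by have := hc.two; omega
  obtain ⟨ζ, hζ⟩ : ∃ ζ : k, IsPrimitiveRoot ζ c.n := by
    have : NeZero c.n := ⟨hn.ne'⟩
    have : NeZero (c.n : k) := ⟨Nat.cast_ne_zero.2 hn.ne'⟩
    exact HasEnoughRootsOfUnity.exists_primitiveRoot k c.n
  by_cases hT : ∀ i, Q 0 ≠ some (c.a i) ∧ Q 0 ≠ some (c.b i)
  · -- unramified
    rw [← fib_rel hc (Q 0) hT]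
    obtain ⟨v, hv1, hv2, hv3⟩ := X2_over hc (Q 0) hT (Q 1) hQ
    unfold dvk FF
    rw [map_sum]
    refine Finset.sum_bij (fun z _ => z * v) ?_ ?_ ?_ ?_
    · intro z hz
      rw [mem_nthRootsFinset hn] at hz ⊢
      rw [mul_pow, hz, one_mul, hv3]
    · intro z _ z' _ h
      exact mul_right_cancel₀ hv2 h
    · intro s hs
      rw [mem_nthRootsFinset hn] at hs
      refine ⟨s / v, ?_, div_mul_cancel₀ _ hv2⟩
      rw [mem_nthRootsFinset hn, div_pow, hs, hv3, div_self]
      rw [← hv3]
      exact pow_ne_zero _ hv2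
    · intro z _
      rw [Finsupp.liftAddHom_apply_single, zmultiplesHom_apply, one_zsmul, X2_tau, hv1]
      rfl
  · -- ramified
    have hfix : ∀ z : k, tau z Q = Q ∧ ∃ t, Q 0 = some t ∧ (∃ i, t = c.a i ∨ t = c.b i) ∧
        ∀ R' : Fin 2 → Option k, OnC c (R' 0) (R' 1) → R' 0 = some t → R' = Q := by
      intro z
      push Not at hT
      obtain ⟨i, hi⟩ := hT
      by_cases ha : Q 0 = some (c.a i)
      · have h1 := X2_pa hc i Q hQ ha
        refine ⟨?_, c.a i, ha, ⟨i, Or.inl rfl⟩, fun R' hR' h0 => ?_⟩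
        · rw [X2_tau, h1]
          simp
        · rw [X2_pa hc i R' hR' h0, ← h1]
      · have hb := hi ha
        have h1 := X2_pb hc i Q hQ hb
        refine ⟨?_, c.b i, hb, ⟨i, Or.inr rfl⟩, fun R' hR' h0 => ?_⟩
        · rw [X2_tau, h1]
          simp
        · rw [X2_pb hc i R' hR' h0, ← h1]
    obtain ⟨-, t, ht, hi, hu⟩ := hfix 1
    rw [Finset.sum_congr rfl fun z _ => by rw [(hfix z).1], Finset.sum_const, X2_card hc hζ, ← natCast_zsmul]
    exact X2_one hc hζ t Q hQ ht hu hi

theorem fib_eq [IsAlgClosed k] [CharZero k] {c : Dat k} (hc : c.Good) {Q Q' : Fin 2 → Option k}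
    (hQ : OnC c (Q 0) (Q 1)) (hQ' : OnC c (Q' 0) (Q' 1)) :
    ∑ z ∈ nthRootsFinset c.n (1 : k), cls c 0 (pt1 (tau z Q)) =
      ∑ z ∈ nthRootsFinset c.n (1 : k), cls c 0 (pt1 (tau z Q')) := by
  rw [X2_fib hc hQ, X2_fib hc hQ']

end Pool.Agent.LibSX77
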