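import Pool.Agent.LibSX77.Defs

/-!
[SX77 X3] The automorphism `T η = tw (t1 η)` of `C ^ 3` (`η ∈ μ_n`) acts on `CH_1(C ^ 3)` (`exists_tw` in `D4.lean`); it
commutes with the `tw w` and `W ⋊ S_3` is normalised by it: `mns c ζ (T η P) = Θ (mns c ζ P)`. [In detail:
`pr σ (tw w (T η P))` has the first factor `η` on the point which `pr σ` takes from the place `0`; write `Θ_σ` for
the action of `tw` of the vector `t1 η ∘ σ`; `Θ_σ` and `Θ` differ by a vector in `W`, which only permutes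
the summands.] The triple `T η P` is on the line of `tau η⁻¹ Q` if `P` is on the line of `Q`, and `pf` does not change. With
`LineF` for a triple with `finrank (pf c P) M ≠ 0` (it exists if `Q` is not ramified; if `Q` is ramified,
`dz c ζ Q = 0` and `dz c ζ (tau η⁻¹ Q) = 0`): `Θ (Φ (dz Q)) = Φ (dz (tau η⁻¹ Q))`.
-/

open scoped Classical
open Polynomial

namespace Pool.Agent.LibSX77

open Pool.Agent.LibBH2
open Pool.Agent.LibCHd (VR RF Red FunF)
open Pool.Agent.LibCW77

variable {k : Type} [Field k]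

private theorem X3_tw_pr {m : ℕ} (w : Fin m → k) (σ : Equiv.Perm (Fin m)) {M : Type} [Field M] [Algebra k M]
    (u : Pnt m M) : tw w (pr σ u) = pr σ (tw (fun j => w (σ.symm j)) u) := by
  funext j
  change ![u (σ j) 0, (u (σ j) 1).map fun v => algebraMap k M (w j) * v] =
    ![u (σ j) 0, (u (σ j) 1).map fun v => algebraMap k M (w (σ.symm (σ j))) * v]
  rw [Equiv.symm_apply_apply]

private theorem X3_tw_tw {m : ℕ} (w w' : Fin m → k) {M : Type} [Field M] [Algebra k M]
    (u : Pnt m M) : tw w (tw w' u) = tw (fun j => w j * w' j) u := by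
  funext j
  change ![u j 0, ((u j 1).map fun v => algebraMap k M (w' j) * v).map fun v => algebraMap k M (w j) * v] =
    ![u j 0, (u j 1).map fun v => algebraMap k M (w j * w' j) * v]
  rcases u j 1 with _ | v
  · rfl
  · simp only [Option.map_some, map_mul, mul_assoc]

private theorem X3_W {c : Dat k} (hc : c.Good) {w : Fin 3 → k} :
    w ∈ W c ↔ (∀ j, w j ^ c.n = 1) ∧ ∏ j, w j = 1 := by
  have hn : 0 < c.n := by
    have := hc.two
    omega
  unfold W
  rw [Finset.mem_filter, Fintype.mem_piFinset]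
  simp only [mem_nthRootsFinset hn]

private theorem X3_mem {c : Dat k} (hc : c.Good) {u u' w : Fin 3 → k} (hu : ∀ j, u j ^ c.n = 1)
    (hu' : ∀ j, u' j ^ c.n = 1) (h : ∏ j, u j = ∏ j, u' j) (h0 : ∀ j, u' j ≠ 0) (hw : w ∈ W c) :
    (fun j => u j * (u' j)⁻¹ * w j) ∈ W c := by
  rw [X3_W hc] at hw ⊢
  refine ⟨fun j => ?_, ?_⟩
  · rw [mul_pow, mul_pow, inv_pow, hu, hu', hw.1, inv_one, mul_one, mul_one]
  · rw [Finset.prod_mul_distrib, Finset.prod_mul_distrib, hw.2, mul_one, Finset.prod_inv_distrib, h,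
      mul_inv_cancel₀ (Finset.prod_ne_zero_iff.2 fun j _ => h0 j)]

theorem tw_mns {c : Dat k} (hc : c.Good) {η : k} (hη : η ^ c.n = 1) :
    ∃ Θ : CHQ c 3 1 →ₗ[ℚ] CHQ c 3 1, ∀ (ζ : k), ζ ^ c.n = 1 → ∀ (M : Type) [Field M] [Algebra k M] (P : Pnt 3 M),
      FunF k 1 M → On (c.over M) P → Θ (qc (mns c ζ P)) = qc (mns c ζ (tw (t1 η) P)) := by
  have hn : c.n ≠ 0 := by
    have := hc.two
    omega
  have hη0 : η ≠ 0 := by
    rintro rfl
    rw [zero_pow hn] at hη
    exact zero_ne_one hη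
  have hw1 : ∀ j, t1 η j ^ c.n = 1 := by
    intro j
    fin_cases j
    · exact hη
    · exact one_pow _
    · exact one_pow _
  have hw0 : ∀ j, t1 η j ≠ 0 := by
    intro j
    fin_cases j
    · exact hη0
    · exact one_ne_zero
    · exact one_ne_zero
  obtain ⟨Γ, hΓ⟩ := exists_tw (m := 3) c hc 1 (t1 η) hw1
  obtain ⟨Θ, hΘ⟩ := qt_ext Γ
  refine ⟨Θ, ?_⟩
  intro ζ hζ M _ _ P hM hP
  have hz1 : ∀ j, t1 ζ j ^ c.n = 1 := by
    intro j
    fin_cases j
    · exact hζ
    · exact one_pow _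
    · exact one_pow _
  have h1 : Γ (mns c ζ P) = mns c ζ (tw (t1 η) P) := by
    unfold mns
    rw [map_sum]
    refine Finset.sum_congr rfl fun σ _ => ?_
    rw [map_sum]
    have hs1 : ∀ j, t1 η (σ.symm j) ^ c.n = 1 := fun j => hw1 _
    have hs0 : ∀ j, t1 η (σ.symm j) ≠ 0 := fun j => hw0 _
    have hp : ∏ j, t1 η (σ.symm j) = ∏ j, t1 η j := Equiv.prod_comp σ.symm (t1 η)
    refine Finset.sum_nbij' (fun w j => t1 η (σ.symm j) * (t1 η j)⁻¹ * w j)
      (fun w j => t1 η j * (t1 η (σ.symm j))⁻¹ * w j) ?_ ?_ ?_ ?_ ?_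
    · intro w hw
      exact X3_mem hc hs1 hw1 hp hw0 hw
    · intro w hw
      exact X3_mem hc hw1 hs1 hp.symm hs0 hw
    · intro w _
      funext j
      have h2 := hw0 j
      have h3 := hs0 j
      field_simp
    · intro w _
      funext j
      have h2 := hw0 j
      have h3 := hs0 j
      field_simp
    · intro w hw
      have hw' := ((X3_W hc).1 hw).1
      rw [map_sub, hΓ M _ hM (on_pr σ (on_tw w hw' hP)),
        hΓ M _ hM (on_pr σ (on_tw w hw' (on_tw _ hz1 hP)))]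
      simp only [X3_tw_pr, X3_tw_tw]
      have h4 : (fun j => t1 η (σ.symm j) * w j) =
          fun j => t1 η (σ.symm j) * (t1 η j)⁻¹ * w j * t1 η j := by
        funext j
        have h2 := hw0 j
        field_simp
      have h5 : (fun j => t1 η (σ.symm j) * (w j * t1 ζ j)) =
          fun j => t1 η (σ.symm j) * (t1 η j)⁻¹ * w j * (t1 ζ j * t1 η j) := by
        funext j
        have h2 := hw0 j
        field_simp
      rw [h4, h5]
  change Θ (qt _ (mns c ζ P)) = qt _ (mns c ζ (tw (t1 η) P))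
  rw [hΘ, h1]

theorem col_tw {c : Dat k} {ν : k} {η : k} (hη : η ≠ 0) {Q : Fin 2 → Option k} {M : Type} [Field M] [Algebra k M]
    {P : Pnt 3 M} (h : Col c ν Q P) : Col c ν (tau η⁻¹ Q) (tw (t1 η) P) := by
  obtain ⟨h1, v, y, h2, h3, h4⟩ := h
  refine ⟨h1, fun j => algebraMap k M (t1 η j) * v j, algebraMap k k η⁻¹ * y, ?_, ?_, ?_⟩
  · intro j
    change (P j 1).map (fun v => algebraMap k M (t1 η j) * v) = _
    rw [h2 j, Option.map_some]
  · change (Q 1).map (fun v => algebraMap k k η⁻¹ * v) = _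
    rw [h3, Option.map_some]
  · have h5 : ∏ j, t1 η j = η := by
      rw [Fin.prod_univ_three]
      change η * 1 * 1 = η
      rw [mul_one, mul_one]
    rw [Finset.prod_mul_distrib, ← map_prod, h5, Algebra.algebraMap_self_apply, map_mul, ← h4]
    have h6 : algebraMap k M η * algebraMap k M η⁻¹ = 1 := by
      rw [← map_mul, mul_inv_cancel₀ hη, map_one]
    calc algebraMap k M η * (∏ j, v j) * (algebraMap k M η⁻¹ * algebraMap k M y)
        = (algebraMap k M η * algebraMap k M η⁻¹) * ((∏ j, v j) * algebraMap k M y) := by ring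
      _ = _ := by rw [h6, one_mul]

theorem pf_tw (c : Dat k) (η : k) {M : Type} [Field M] [Algebra k M] (P : Pnt 3 M) : pf c (tw (t1 η) P) = pf c P := by
  rfl

theorem on_tau {c : Dat k} {η : k} (hη : η ^ c.n = 1) {Q : Fin 2 → Option k} (hQ : OnC c (Q 0) (Q 1)) :
    OnC c (tau η Q 0) (tau η Q 1) := by
  change OnC c (Q 0) ((Q 1).map fun v => algebraMap k k η * v)
  rcases h0 : Q 0 with _ | x
  · rcases h1 : Q 1 with _ | v
    · rw [h0, h1] at hQ
      exact hQ
    · rw [h0, h1] at hQ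
      have h' : v ^ c.n = 1 := hQ
      change (algebraMap k k η * v) ^ c.n = 1
      rw [mul_pow, h', Algebra.algebraMap_self_apply, hη, mul_one]
  · rcases h1 : Q 1 with _ | v
    · rw [h0, h1] at hQ
      exact hQ
    · rw [h0, h1] at hQ
      have h' : v ^ c.n * ∏ i, (x - c.b i) = ∏ i, (x - c.a i) := hQ
      change (algebraMap k k η * v) ^ c.n * ∏ i, (x - c.b i) = ∏ i, (x - c.a i)
      rw [mul_pow, Algebra.algebraMap_self_apply, hη, one_mul, h']

theorem tw_Phi [IsAlgClosed k] [CharZero k] {c : Dat k} (hc : c.Good) {ζ ν : k} (hζ : IsPrimitiveRoot ζ c.n)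
    (hν : ν ^ c.n = ∏ i, (-(kb c i) / ka c i)) {Φ : CHQ c 1 0 →ₗ[ℚ] CHQ c 3 1} (hΦ : LineF c ζ ν Φ) {η : k}
    (hη : η ^ c.n = 1) : ∃ Θ : CHQ c 3 1 →ₗ[ℚ] CHQ c 3 1,
      (∀ (M : Type) [Field M] [Algebra k M] (P : Pnt 3 M), FunF k 1 M → On (c.over M) P →
        Θ (qc (mns c ζ P)) = qc (mns c ζ (tw (t1 η) P))) ∧
      ∀ Q : Fin 2 → Option k, OnC c (Q 0) (Q 1) → Θ (Φ (qc (dz c ζ Q))) = Φ (qc (dz c ζ (tau η⁻¹ Q))) := by
  obtain ⟨Θ, hΘ⟩ := tw_mns hc hη
  have hn : c.n ≠ 0 := by have := hc.two; omega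
  have hη0 : η ≠ 0 := by
    rintro rfl
    rw [zero_pow hn] at hη
    exact zero_ne_one hη
  have hηi : η⁻¹ ^ c.n = 1 := by rw [inv_pow, hη, inv_one]
  refine ⟨Θ, fun M _ _ P h1 h2 => hΘ ζ hζ.pow_eq_one M P h1 h2, fun Q hQ => ?_⟩
  by_cases hu : UnR Q
  · obtain ⟨M, _, _, P, hF, hP, hC, hne⟩ := (hΦ Q hQ).2 hu
    have e1 := (hΦ Q hQ).1 M P hF hP hC
    have hw : ∀ j, t1 η j ^ c.n = 1 := by
      intro j
      fin_cases j <;> simp [t1, hη]
    have e2 := (hΦ (tau η⁻¹ Q) (on_tau hηi hQ)).1 M (tw (t1 η) P) hF (on_tw (t1 η) hw hP) (col_tw hη0 hC)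
    rw [pf_tw] at e2
    have e3 := hΘ ζ hζ.pow_eq_one M P hF hP
    rw [e1, e2, map_nsmul] at e3
    set N := Module.finrank (pf c P) M with hN
    have hN0 : (N : ℚ) ≠ 0 := by exact_mod_cast hne
    have e4 : (N : ℚ) • Θ (Φ (qc (dz c ζ Q))) = (N : ℚ) • Φ (qc (dz c ζ (tau η⁻¹ Q))) := by
      rw [Nat.cast_smul_eq_nsmul, Nat.cast_smul_eq_nsmul]
      exact e3
    have e5 := congrArg (fun z => (N : ℚ)⁻¹ • z) e4
    simpa only [smul_smul, inv_mul_cancel₀ hN0, one_smul] using e5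
  · have ht : ∀ z : k, tau z Q = Q := by
      intro z
      funext i
      fin_cases i
      · rfl
      · change (Q 1).map (fun v => algebraMap k k z * v) = Q 1
        rcases h1 : Q 1 with _ | y
        · rfl
        · have hy : y = 0 := by
            by_contra hy
            exact hu ⟨y, h1, hy⟩
          subst hy
          simp
    have hd : dz c ζ Q = 0 := by
      unfold dz
      rw [ht ζ, sub_self]
    have hq : qc (0 : CH c 1 0) = 0 := map_zero (qt (CH c 1 0))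
    rw [ht η⁻¹, hd, hq, map_zero, map_zero]

end Pool.Agent.LibSX77
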