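import Pool.Agent.LibSX77.Defs

/-!
[SX77 X4] For a triple `P` on the line of `Q` with respect to `c.perm ρ`: `mns_col` (`Z1.lean`) for `c.perm ρ` (`perm_good`,
`nu_perm`, `on_perm`) and the homomorphism `(qt _).comp (cpe c ρ 3 1).symm`, `cpe_mns`, `Lval_perm` (`PI3.lean`), and
`Lval c ζ ν (qt _) Q = Φ (qc (dz c ζ Q))`: `mns_col` and `LineF` for `c` (`exists_col`, `finrank ≠ 0`) if `Q` is not ramified.
(If `Q` is ramified there is no such triple: `col_line`.)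
-/

open scoped Classical
open Polynomial

namespace Pool.Agent.LibSX77

open Pool.Agent.LibBH2
open Pool.Agent.LibCHd (VR RF Red FunF)
open Pool.Agent.LibCW77

variable {k : Type} [Field k]

theorem Phi_perm [IsAlgClosed k] [CharZero k] {c : Dat k} (hc : c.Good) {ζ ν : k} (hζ : IsPrimitiveRoot ζ c.n)
    (hν : ν ^ c.n = ∏ i, (-(kb c i) / ka c i)) {Φ : CHQ c 1 0 →ₗ[ℚ] CHQ c 3 1} (hΦ : LineF c ζ ν Φ)
    (ρ : Equiv.Perm (Fin 3)) {Q : Fin 2 → Option k} (hQ : OnC c (Q 0) (Q 1)) {M : Type} [Field M] [Algebra k M]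
    {P : Pnt 3 M} (hM : FunF k 1 M) (hP : On (c.over M) P) (h : Col (c.perm ρ) ν Q P) :
    qc (mns c ζ P) =
      Module.finrank (pf (c.perm ρ) P) M • ((Equiv.Perm.sign ρ : ℤˣ) : ℤ) • Φ (qc (dz c ζ Q)) := by
  have hc' : (c.perm ρ).Good := perm_good hc ρ
  have hν' : ν ^ (c.perm ρ).n = ∏ i, (-(kb (c.perm ρ) i) / ka (c.perm ρ) i) := by
    rw [nu_perm]
    exact hν
  have hζ' : IsPrimitiveRoot ζ (c.perm ρ).n := hζ
  have hQ' : OnC (c.perm ρ) (Q 0) (Q 1) := (onC_perm c ρ _ _).2 hQ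
  have hP' : On ((c.perm ρ).over M) P := (on_perm (c.over M) ρ P).2 hP
  obtain ⟨-, hu, -⟩ := col_line hc' hν' hQ' hP' h
  let q : CH c 3 1 →+ CHQ c 3 1 := qt (CH c 3 1)
  let q' : CH (c.perm ρ) 3 1 →+ CHQ c 3 1 := q.comp (cpe c ρ 3 1).symm.toAddMonoidHom
  have h1 : q' (mns (c.perm ρ) ζ P) = Module.finrank (pf (c.perm ρ) P) M • Lval (c.perm ρ) ζ ν q' Q :=
    mns_col hc' hζ' hν' q' hQ' hM hP' h
  have h2 : q' (mns (c.perm ρ) ζ P) = q (mns c ζ P) := by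
    change q ((cpe c ρ 3 1).symm (mns (c.perm ρ) ζ P)) = q (mns c ζ P)
    rw [← cpe_mns, AddEquiv.symm_apply_apply]
  have h3 : q'.comp (cpe c ρ 3 1).toAddMonoidHom = q := by
    refine AddMonoidHom.ext fun x => ?_
    change q ((cpe c ρ 3 1).symm ((cpe c ρ 3 1) x)) = q x
    rw [AddEquiv.symm_apply_apply]
  have h4 : Lval (c.perm ρ) ζ ν q' Q = ((Equiv.Perm.sign ρ : ℤˣ) : ℤ) • Lval c ζ ν q Q := by
    rw [Lval_perm hc hζ hν ρ q' Q hQ, h3]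
  have h5 : Lval c ζ ν q Q = Φ (qc (dz c ζ Q)) := by
    obtain ⟨hΦ1, hΦ2⟩ := hΦ Q hQ
    obtain ⟨N, _, _, R, hN, hR, hcol, hfin⟩ := hΦ2 hu
    have h6 : qc (mns c ζ R) = Module.finrank (pf c R) N • Φ (qc (dz c ζ Q)) := hΦ1 N R hN hR hcol
    have h7 : q (mns c ζ R) = Module.finrank (pf c R) N • Lval c ζ ν q Q := mns_col hc hζ hν q hQ hN hR hcol
    have h8 : ((Module.finrank (pf c R) N : ℕ) : ℚ) • Lval c ζ ν q Q =
        ((Module.finrank (pf c R) N : ℕ) : ℚ) • Φ (qc (dz c ζ Q)) := by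
      rw [Nat.cast_smul_eq_nsmul, Nat.cast_smul_eq_nsmul, ← h7, ← h6]
      rfl
    exact smul_right_injective (CHQ c 3 1)
      (show ((Module.finrank (pf c R) N : ℕ) : ℚ) ≠ 0 by exact_mod_cast hfin) h8
  rw [← h5, ← h4, ← h1, h2]
  rfl

end Pool.Agent.LibSX77
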