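import Pool.Agent.LibSX77.Defs
import Pool.Agent.LibCW77.GA1
import Pool.Agent.LibCW77.D1
import Pool.Agent.LibCW77.D3

/-!
[SX77 X5] The action of an automorphism `s` which permutes the `a_i` and the `b_i`: copy of `GA2.lean` (and of `act_mns` in
`GA3.lean`) with `Per c s σ τ` instead of `Fix c s` (products over `i`: `Equiv.prod_comp`).
-/

open scoped Classical
open Polynomial

namespace Pool.Agent.LibSX77

open Pool.Agent.LibBH2
open Pool.Agent.LibCHd (VR RF Red FunF)
open Pool.Agent.LibCW77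

variable {k : Type} [Field k] {s : k ≃+* k}

private theorem X5_onC {c : Dat k} {σ τ : Equiv.Perm (Fin 3)} (hs : Per c s σ τ) {M M' : Type} [Field M]
    [Algebra k M] [Field M'] [Algebra k M'] (i : SI s M M') (X Y : Option M) :
    OnC (c.over M') (X.map i.f) (Y.map i.f) ↔ OnC (c.over M) X Y := by
  have ha : ∀ l, i.f (algebraMap k M (c.a l)) = algebraMap k M' (c.a (σ l)) := fun l => by
    rw [i.comm, (hs l).1]
  have hb : ∀ l, i.f (algebraMap k M (c.b l)) = algebraMap k M' (c.b (τ l)) := fun l => by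
    rw [i.comm, (hs l).2]
  rcases X with _ | x <;> rcases Y with _ | y
  · exact Iff.rfl
  · change (i.f y) ^ c.n = 1 ↔ y ^ c.n = 1
    rw [← map_pow, ← map_one i.f]
    exact i.f.injective.eq_iff
  · change (∃ l, i.f x = algebraMap k M' (c.b l)) ↔ ∃ l, x = algebraMap k M (c.b l)
    constructor
    · rintro ⟨l, hl⟩
      refine ⟨τ.symm l, i.f.injective ?_⟩
      rw [hb, Equiv.apply_symm_apply]
      exact hl
    · rintro ⟨l, hl⟩
      exact ⟨τ l, by rw [← hb, hl]⟩
  · change (i.f y) ^ c.n * ∏ l, (i.f x - algebraMap k M' (c.b l)) =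
      ∏ l, (i.f x - algebraMap k M' (c.a l)) ↔
      y ^ c.n * ∏ l, (x - algebraMap k M (c.b l)) = ∏ l, (x - algebraMap k M (c.a l))
    have h1 : (i.f y) ^ c.n * ∏ l, (i.f x - algebraMap k M' (c.b l)) =
        i.f (y ^ c.n * ∏ l, (x - algebraMap k M (c.b l))) := by
      rw [map_mul, map_pow, map_prod]
      congr 1
      rw [← Equiv.prod_comp τ fun l => i.f x - algebraMap k M' (c.b l)]
      refine Finset.prod_congr rfl fun l _ => ?_
      rw [map_sub, hb]
    have h2 : ∏ l, (i.f x - algebraMap k M' (c.a l)) =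
        i.f (∏ l, (x - algebraMap k M (c.a l))) := by
      rw [map_prod, ← Equiv.prod_comp σ fun l => i.f x - algebraMap k M' (c.a l)]
      refine Finset.prod_congr rfl fun l _ => ?_
      rw [map_sub, ha]
    rw [h1, h2]
    exact i.f.injective.eq_iff

/-- the inverse semilinear isomorphism -/
private def X5_symm {M M' : Type} [Field M] [Algebra k M] [Field M'] [Algebra k M']
    (i : SI s M M') : SI s.symm M' M where
  f := i.f.symm
  comm := by
    intro a
    rw [RingEquiv.symm_apply_eq, i.comm, RingEquiv.apply_symm_apply]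

/-- the action on the basis elements -/
private def X5_T (s : k ≃+* k) (m : ℕ) (z : Set (Fin m × Fin 2) × Set (MvPolynomial (Fin m × Fin 2) k)) :
    Set (Fin m × Fin 2) × Set (MvPolynomial (Fin m × Fin 2) k) :=
  (z.1, MvPolynomial.map (s : k →+* k) '' z.2)

private noncomputable def X5_G (s : k ≃+* k) (m : ℕ) : Cyc k m →+ Cyc k m :=
  Finsupp.mapDomain.addMonoidHom (X5_T s m)

private theorem X5_cyc {m : ℕ} {M M' : Type} [Field M] [Algebra k M] [Field M'] [Algebra k M']
    (i : SI s M M') (u : Pnt m M) : X5_G s m (cyc k u) = cyc k (mpP i.f u) := by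
  unfold cyc
  rw [si_eqs i u, si_fld i u]
  exact Finsupp.mapDomain_single

private theorem X5_ext {K : Type} [Field K] [Algebra k K] {v w : Place k K}
    (h : ∀ x, v.ord x = w.ord x) : v = w := by
  cases v
  cases w
  congr
  funext x
  exact h x

theorem per_on {c : Dat k} {σ τ : Equiv.Perm (Fin 3)} (hs : Per c s σ τ) {m : ℕ} {M M' : Type} [Field M] [Algebra k M]
    [Field M'] [Algebra k M'] (i : SI s M M') (u : Pnt m M) : On (c.over M') (mpP i.f u) ↔ On (c.over M) u := by
  refine forall_congr' fun j => ?_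
  exact X5_onC hs i (u j 0) (u j 1)

theorem per_onC {c : Dat k} {σ τ : Equiv.Perm (Fin 3)} (hs : Per c s σ τ) {Q : Fin 2 → Option k}
    (hQ : OnC c (Q 0) (Q 1)) : OnC c ((Q 0).map s) ((Q 1).map s) :=
  (X5_onC hs (⟨s, fun _ => rfl⟩ : SI s k k) (Q 0) (Q 1)).2 hQ

theorem per_act {c : Dat k} {σ τ : Equiv.Perm (Fin 3)} (hs : Per c s σ τ) (m d : ℕ) :
    ∃ Γ : CH c m d →+ CH c m d, IsAct s Γ := by
  have hle : RatEq c m d ≤ (RatEq c m d).comap (X5_G s m) := by
    unfold RatEq
    rw [AddSubgroup.closure_le]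
    rintro e ⟨K, _, _, u, g, S, E, hK, hu, hg, h1, h2, rfl⟩
    refine AddSubgroup.subset_closure ?_
    obtain ⟨K', _, _, ⟨i⟩⟩ := si_exists s K
    choose φ jφ hφ hφ' using si_place i
    choose ψ jψ hψ hψ' using si_place' i
    have hψφ : ∀ v, ψ (φ v) = v := by
      intro v
      refine X5_ext fun x => ?_
      rw [← hψ, hφ]
    have hinj : Function.Injective φ := by
      intro v w h
      rw [← hψφ v, ← hψφ w, h]
    have hφψ : ∀ w, φ (ψ w) = w := by
      intro w
      refine X5_ext fun x => ?_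
      obtain ⟨y, rfl⟩ := i.f.surjective x
      rw [hφ, hψ]
    have hmem : ∀ w, w ∈ S.image φ ↔ ψ w ∈ S := by
      intro w
      rw [Finset.mem_image]
      constructor
      · rintro ⟨v, hv, rfl⟩
        rw [hψφ]
        exact hv
      · intro h
        exact ⟨ψ w, h, hφψ w⟩
    refine ⟨K', inferInstance, inferInstance, mpP i.f u, i.f g, S.image φ,
      fun w => X5_G s m (E (ψ w)), si_funF i hK, (per_on hs i u).2 hu, ?_, ?_, ?_, ?_⟩
    · exact (map_ne_zero i.f).2 hg
    · intro w hw
      obtain ⟨h3, q, h4, h5⟩ := h1 (ψ w) ((hmem w).1 hw)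
      refine ⟨si_funF (jψ w) h3, mpP (jψ w).f q,
        si_spP i (ψ w) w (jψ w) (hψ w) (hψ' w) h4, ?_⟩
      change X5_G s m (E (ψ w)) = _
      rw [h5]
      exact X5_cyc (jψ w) q
    · intro w hw hg' hF q' hq'
      obtain ⟨q, hq⟩ := spP_exists (ψ w) u
      have h3 := h2 (ψ w) (fun h => hw ((hmem w).2 h)) (by rw [← hψ]; exact hg')
        (si_funF (X5_symm (jψ w)) hF) q hq
      have h4 := si_spP i (ψ w) w (jψ w) (hψ w) (hψ' w) hq
      rw [spP_unique hq' h4, ← X5_cyc (jψ w) q, h3, map_zero]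
    · rw [map_sum, Finset.sum_image fun v _ w _ h => hinj h]
      refine Finset.sum_congr rfl fun v _ => ?_
      change _ = (φ v).ord (i.f g) • X5_G s m (E (ψ (φ v)))
      rw [map_zsmul, hψφ, hφ]
  refine ⟨QuotientAddGroup.map (RatEq c m d) (RatEq c m d) (X5_G s m) hle, ?_⟩
  intro M M' _ _ _ _ i u
  have h1 := X5_cyc i u
  unfold cls
  rw [← h1]
  rfl

private theorem X5_tw {M M' : Type} [Field M] [Algebra k M] [Field M'] [Algebra k M'] (i : SI s M M')
    (w : Fin 3 → k) (u : Pnt 3 M) : mpP i.f (tw w u) = tw (fun j => s (w j)) (mpP i.f u) := by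
  funext j a
  fin_cases a
  · rfl
  · change ((u j 1).map fun v => algebraMap k M (w j) * v).map i.f =
      ((u j 1).map i.f).map fun v => algebraMap k M' (s (w j)) * v
    rw [Option.map_map, Option.map_map]
    congr 1
    funext v
    change i.f (algebraMap k M (w j) * v) = algebraMap k M' (s (w j)) * i.f v
    rw [map_mul, i.comm]

private theorem X5_pr {M M' : Type} (f : M → M') (σ : Equiv.Perm (Fin 3)) (u : Pnt 3 M) :
    mpP f (pr σ u) = pr σ (mpP f u) := rfl

private theorem X5_root {c : Dat k} (hc : c.Good) (s : k ≃+* k) {z : k} (hz : z ∈ nthRootsFinset c.n (1 : k)) :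
    s z ∈ nthRootsFinset c.n (1 : k) := by
  have hn : 0 < c.n := by
    have := hc.two
    omega
  rw [mem_nthRootsFinset hn] at hz ⊢
  rw [← map_pow, hz, map_one]

private theorem X5_W {c : Dat k} (hc : c.Good) (s : k ≃+* k) {w : Fin 3 → k} (hw : w ∈ W c) :
    (fun j => s (w j)) ∈ W c := by
  unfold W at hw ⊢
  rw [Finset.mem_filter, Fintype.mem_piFinset] at hw ⊢
  refine ⟨fun j => X5_root hc s (hw.1 j), ?_⟩
  rw [← map_prod, hw.2, map_one]

theorem act_mnsP {c : Dat k} (hc : c.Good) {Γ : CH c 3 1 →+ CH c 3 1} (hΓ : IsAct s Γ) (z : k) {M M' : Type} [Field M]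
    [Algebra k M] [Field M'] [Algebra k M'] (i : SI s M M') (P : Pnt 3 M) :
    Γ (mns c z P) = mns c (s z) (mpP i.f P) := by
  have ht : (fun j => s (t1 z j)) = t1 (s z) := by
    funext j
    fin_cases j
    · rfl
    · exact map_one s
    · exact map_one s
  unfold mns
  rw [map_sum]
  refine Finset.sum_congr rfl fun σ _ => ?_
  rw [map_sum]
  refine Finset.sum_nbij' (fun w j => s (w j)) (fun w j => s.symm (w j)) ?_ ?_ ?_ ?_ ?_
  · intro w hw
    exact X5_W hc s hw
  · intro w hw
    exact X5_W hc s.symm hw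
  · intro w _
    funext j
    exact s.symm_apply_apply (w j)
  · intro w _
    funext j
    exact s.apply_symm_apply (w j)
  · intro w _
    rw [map_sub, hΓ M M' i, hΓ M M' i, X5_pr, X5_pr, X5_tw, X5_tw, X5_tw, ht]

theorem act_prj {c : Dat k} (hc : c.Good) {Γ : CH c 3 1 →+ CH c 3 1} (hΓ : IsAct s Γ) {M M' : Type} [Field M]
    [Algebra k M] [Field M'] [Algebra k M'] (i : SI s M M') (P : Pnt 3 M) : Γ (prj c P) = prj c (mpP i.f P) := by
  unfold prj
  rw [map_sum]
  refine Finset.sum_nbij' (fun z => s z) (fun z => s.symm z) ?_ ?_ ?_ ?_ ?_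
  · intro z hz
    exact X5_root hc s hz
  · intro z hz
    exact X5_root hc s.symm hz
  · intro z _
    exact s.symm_apply_apply z
  · intro z _
    exact s.apply_symm_apply z
  · intro z _
    exact act_mnsP hc hΓ z i P

end Pool.Agent.LibSX77
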