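import Pool.Agent.LibSX77.Defs

/-!
[SX77 X6] The line of a point and an automorphism `s` which permutes the `a_i` and the `b_i`. `s (ka c i) = ka c (σ i)`,
`s (kb c i) = kb c (τ i)`, `i.f (Xv P i) = Xv (s P) (σ i)`, `i.f (Yv P i) = Yv (s P) (τ i)`; the relation number `i` of `Col`
becomes the relation number `σ i` of `Col (c.perm (τ * σ⁻¹))`. `pf`: `si_yf` (`GA1.lean`) and the generators of `yf` are
only permuted.
-/

open scoped Classical
open Polynomial

namespace Pool.Agent.LibSX77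

open Pool.Agent.LibBH2
open Pool.Agent.LibCHd (VR RF Red FunF)
open Pool.Agent.LibCW77

variable {k : Type} [Field k] {s : k ≃+* k}

/-- the point `(s x, η s v)` -/
noncomputable def sQ (s : k ≃+* k) (η : k) (Q : Fin 2 → Option k) : Fin 2 → Option k :=
  ![(Q 0).map s, (Q 1).map fun v => η * s v]

private theorem X6_inv (σ : Equiv.Perm (Fin 3)) (j : Fin 3) : σ⁻¹ (σ j) = j := σ.symm_apply_apply j

private theorem X6_erase {K : Type} [CommMonoid K] (σ : Equiv.Perm (Fin 3)) (g : Fin 3 → K) (i : Fin 3) :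
    (Finset.univ.erase i).prod (fun j => g (σ j)) = (Finset.univ.erase (σ i)).prod g := by
  refine Finset.prod_equiv σ ?_ ?_
  · intro j
    simp [Finset.mem_erase]
  · intro j _
    rfl

theorem per_ka {c : Dat k} {σ τ : Equiv.Perm (Fin 3)} (hs : Per c s σ τ) (i : Fin 3) :
    s (ka c i) = ka c (σ i) ∧ s (kb c i) = kb c (τ i) := by
  constructor
  · unfold ka
    rw [map_inv₀, map_mul, map_prod, map_prod]
    congr 2
    · rw [← X6_erase σ (fun j => c.a (σ i) - c.a j) i]
      refine Finset.prod_congr rfl fun j _ => ?_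
      rw [map_sub, (hs i).1, (hs j).1]
    · rw [← Equiv.prod_comp τ (fun j => c.a (σ i) - c.b j)]
      refine Finset.prod_congr rfl fun j _ => ?_
      rw [map_sub, (hs i).1, (hs j).2]
  · unfold kb
    rw [map_inv₀, map_mul, map_prod, map_prod]
    congr 2
    · rw [← Equiv.prod_comp σ (fun j => c.b (τ i) - c.a j)]
      refine Finset.prod_congr rfl fun j _ => ?_
      rw [map_sub, (hs i).2, (hs j).1]
    · rw [← X6_erase τ (fun j => c.b (τ i) - c.b j) i]
      refine Finset.prod_congr rfl fun j _ => ?_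
      rw [map_sub, (hs i).2, (hs j).2]

theorem per_nu {c : Dat k} (hc : c.Good) {σ τ : Equiv.Perm (Fin 3)} (hs : Per c s σ τ) {ν : k}
    (hν : ν ^ c.n = ∏ i, (-(kb c i) / ka c i)) : ν ≠ 0 ∧ (ν / s ν) ^ c.n = 1 := by
  have hn : c.n ≠ 0 := by have := hc.two; omega
  have h0 : ν ^ c.n ≠ 0 := by
    rw [hν]
    exact Finset.prod_ne_zero_iff.2 fun i _ => div_ne_zero (neg_ne_zero.2 (kb_ne hc i)) (ka_ne hc i)
  have h1 : ν ≠ 0 := fun h => h0 (by rw [h, zero_pow hn])
  refine ⟨h1, ?_⟩
  have h2 : (s ν) ^ c.n = ν ^ c.n := by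
    rw [← map_pow, hν, map_prod, Finset.prod_div_distrib]
    have e : ∀ i, s (-(kb c i) / ka c i) = -(kb c (τ i)) / ka c (σ i) := by
      intro i
      rw [map_div₀, map_neg, (per_ka hs i).1, (per_ka hs i).2]
    rw [Finset.prod_congr rfl fun i _ => e i, Finset.prod_div_distrib, Equiv.prod_comp τ (fun i => -(kb c i)),
      Equiv.prod_comp σ (fun i => ka c i)]
  rw [div_pow, h2, div_self h0]

private theorem X6_ev {K L : Type} [Field K] [Field L] (f : K →+* L) (x : Option K) (a : K) :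
    f (ev x a) = ev (x.map f) (f a) := by
  cases x with
  | none => exact map_one f
  | some x => exact map_sub f a x

private theorem X6_kaM {K L : Type} [Field K] [Field L] (f : K →+* L) (c : Dat K) (i : Fin 3) :
    ka (c.map f) i = f (ka c i) ∧ kb (c.map f) i = f (kb c i) := by
  constructor
  · unfold ka
    rw [map_inv₀, map_mul, map_prod, map_prod]
    congr 2
    · refine Finset.prod_congr rfl fun j _ => ?_
      rw [map_sub]; rfl
    · refine Finset.prod_congr rfl fun j _ => ?_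
      rw [map_sub]; rfl
  · unfold kb
    rw [map_inv₀, map_mul, map_prod, map_prod]
    congr 2
    · refine Finset.prod_congr rfl fun j _ => ?_
      rw [map_sub]; rfl
    · refine Finset.prod_congr rfl fun j _ => ?_
      rw [map_sub]; rfl

private theorem X6_perm (c : Dat k) (σ τ : Equiv.Perm (Fin 3)) (i : Fin 3) :
    ka (c.perm (τ * σ⁻¹)) (σ i) = ka c (σ i) ∧ kb (c.perm (τ * σ⁻¹)) (σ i) = kb c (τ i) := by
  have hb : ∀ j, (c.perm (τ * σ⁻¹)).b (σ j) = c.b (τ j) := by
    intro j
    show c.b ((τ * σ⁻¹) (σ j)) = c.b (τ j)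
    rw [Equiv.Perm.mul_apply, X6_inv]
  have ha : ∀ j, (c.perm (τ * σ⁻¹)).a j = c.a j := fun j => rfl
  constructor
  · unfold ka
    congr 2
    rw [← Equiv.prod_comp σ, ← Equiv.prod_comp τ (fun j => c.a (σ i) - c.b j)]
    refine Finset.prod_congr rfl fun j _ => ?_
    rw [hb, ha]
  · unfold kb
    congr 2
    · refine Finset.prod_congr rfl fun j _ => ?_
      rw [hb, ha]
    · rw [← X6_erase σ, ← X6_erase τ (fun j => c.b (τ i) - c.b j)]
      refine Finset.prod_congr rfl fun j _ => ?_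
      rw [hb, hb]

private theorem X6_XY {c : Dat k} {σ τ : Equiv.Perm (Fin 3)} (hs : Per c s σ τ) {M M' : Type} [Field M] [Algebra k M]
    [Field M'] [Algebra k M'] (i : SI s M M') (P : Pnt 3 M) (j : Fin 3) :
    Xv ((c.perm (τ * σ⁻¹)).over M') (mpP i.f P) (σ j) = i.f (Xv (c.over M) P j) ∧
      Yv ((c.perm (τ * σ⁻¹)).over M') (mpP i.f P) (σ j) = i.f (Yv (c.over M) P j) := by
  constructor
  · unfold Xv
    rw [map_prod]
    refine Finset.prod_congr rfl fun l _ => ?_
    show ev ((P l 0).map i.f) (algebraMap k M' (c.a (σ j))) = i.f (ev (P l 0) (algebraMap k M (c.a j)))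
    rw [← (hs j).1, ← i.comm]
    exact (X6_ev (i.f : M →+* M') _ _).symm
  · unfold Yv
    rw [map_prod]
    refine Finset.prod_congr rfl fun l _ => ?_
    show ev ((P l 0).map i.f) (algebraMap k M' (c.b ((τ * σ⁻¹) (σ j)))) = i.f (ev (P l 0) (algebraMap k M (c.b j)))
    rw [Equiv.Perm.mul_apply, X6_inv, ← (hs j).2, ← i.comm]
    exact (X6_ev (i.f : M →+* M') _ _).symm

private theorem X6_evQ {M M' : Type} [Field M] [Algebra k M] [Field M'] [Algebra k M'] (i : SI s M M')
    (x : Option k) (a : k) : ev ((x.map s).map (algebraMap k M')) (algebraMap k M' (s a)) =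
      i.f (ev (x.map (algebraMap k M)) (algebraMap k M a)) := by
  cases x with
  | none => exact (map_one i.f).symm
  | some x =>
    show algebraMap k M' (s a) - algebraMap k M' (s x) = i.f (algebraMap k M a - algebraMap k M x)
    rw [map_sub, i.comm, i.comm]

theorem per_col {c : Dat k} (hc : c.Good) {σ τ : Equiv.Perm (Fin 3)} (hs : Per c s σ τ) {ν : k} (hν : ν ≠ 0)
    {Q : Fin 2 → Option k} {M M' : Type} [Field M] [Algebra k M] [Field M'] [Algebra k M'] (i : SI s M M')
    {P : Pnt 3 M} (h : Col c ν Q P) : Col (c.perm (τ * σ⁻¹)) ν (sQ s (ν / s ν) Q) (mpP i.f P) := by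
  obtain ⟨h1, v, y, hv, hy, hp⟩ := h
  refine ⟨?_, fun j => i.f (v j), ν / s ν * s y, ?_, ?_, ?_⟩
  · intro j'
    obtain ⟨j, rfl⟩ := σ.surjective j'
    have h2 := congrArg i.f (h1 j)
    rw [map_zero, map_add, map_mul, map_mul, map_mul, map_mul] at h2
    rw [(X6_XY hs i P j).1, (X6_XY hs i P j).2, (X6_kaM (algebraMap k M') (c.perm (τ * σ⁻¹)) (σ j)).1,
      (X6_kaM (algebraMap k M') (c.perm (τ * σ⁻¹)) (σ j)).2, (X6_perm c σ τ j).1, (X6_perm c σ τ j).2,
      ← (per_ka hs j).1, ← (per_ka hs j).2, ← i.comm, ← i.comm]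
    have e1 : ev ((sQ s (ν / s ν) Q 0).map (algebraMap k M')) (((c.perm (τ * σ⁻¹)).over M').a (σ j)) =
        i.f (ev ((Q 0).map (algebraMap k M)) ((c.over M).a j)) := by
      show ev (((Q 0).map s).map (algebraMap k M')) (algebraMap k M' (c.a (σ j))) =
        i.f (ev ((Q 0).map (algebraMap k M)) (algebraMap k M (c.a j)))
      rw [← (hs j).1]
      exact X6_evQ i _ _
    have e2 : ev ((sQ s (ν / s ν) Q 0).map (algebraMap k M')) (((c.perm (τ * σ⁻¹)).over M').b (σ j)) =
        i.f (ev ((Q 0).map (algebraMap k M)) ((c.over M).b j)) := by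
      show ev (((Q 0).map s).map (algebraMap k M')) (algebraMap k M' (c.b ((τ * σ⁻¹) (σ j)))) =
        i.f (ev ((Q 0).map (algebraMap k M)) (algebraMap k M (c.b j)))
      rw [Equiv.Perm.mul_apply, X6_inv, ← (hs j).2]
      exact X6_evQ i _ _
    rw [e1, e2]
    have e3 : ka (c.over M) j = algebraMap k M (ka c j) := (X6_kaM (algebraMap k M) c j).1
    have e4 : kb (c.over M) j = algebraMap k M (kb c j) := (X6_kaM (algebraMap k M) c j).2
    rw [← e3, ← e4]
    exact h2
  · intro j
    show (P j 1).map i.f = some (i.f (v j))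
    rw [hv j]
    rfl
  · show (Q 1).map (fun v => ν / s ν * s v) = some (ν / s ν * s y)
    rw [hy]
    rfl
  · have hsν : s ν ≠ 0 := (map_ne_zero_iff s s.injective).2 hν
    have h3 := congrArg i.f hp
    rw [map_mul, map_prod, i.comm, i.comm] at h3
    have h4 : ν = ν / s ν * s ν := (div_mul_cancel₀ ν hsν).symm
    calc (∏ j, i.f (v j)) * algebraMap k M' (ν / s ν * s y)
        = algebraMap k M' (ν / s ν) * ((∏ j, i.f (v j)) * algebraMap k M' (s y)) := by
          rw [map_mul]; ring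
      _ = algebraMap k M' (ν / s ν) * algebraMap k M' (s ν) := by rw [h3]
      _ = algebraMap k M' ν := by rw [← map_mul, ← h4]

theorem per_pf {c : Dat k} {σ τ : Equiv.Perm (Fin 3)} (hs : Per c s σ τ) {M M' : Type} [Field M] [Algebra k M]
    [Field M'] [Algebra k M'] (i : SI s M M') (P : Pnt 3 M) :
    Module.finrank (pf (c.perm (τ * σ⁻¹)) (mpP i.f P)) M' = Module.finrank (pf c P) M := by
  have h1 : pf (c.perm (τ * σ⁻¹)) (mpP i.f P) = yf k (fun a => i.f (Yv (c.over M) P a)) := by
    unfold pf yf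
    congr 1
    have e : (fun p : Fin 3 × Fin 3 => i.f (Yv (c.over M) P p.1) / i.f (Yv (c.over M) P p.2)) =
        (fun p : Fin 3 × Fin 3 => Yv ((c.perm (τ * σ⁻¹)).over M') (mpP i.f P) p.1 /
          Yv ((c.perm (τ * σ⁻¹)).over M') (mpP i.f P) p.2) ∘ (Prod.map σ σ) := by
      funext p
      show _ = Yv ((c.perm (τ * σ⁻¹)).over M') (mpP i.f P) (σ p.1) /
          Yv ((c.perm (τ * σ⁻¹)).over M') (mpP i.f P) (σ p.2)
      rw [(X6_XY hs i P p.1).2, (X6_XY hs i P p.2).2]
    rw [e, Function.Surjective.range_comp (Function.Surjective.prodMap σ.surjective σ.surjective)]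
  rw [h1, si_yf i]
  rfl

end Pool.Agent.LibSX77
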