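import Pool.Agent.LibSX77.X1
import Pool.Agent.LibSX77.X2
import Pool.Agent.LibSX77.X3
import Pool.Agent.LibSX77.X4
import Pool.Agent.LibSX77.X5
import Pool.Agent.LibSX77.X6

/-!
[SX77 X7] Assembly: the two subspaces, the linear map `Ψ`.
-/

open scoped Classical
open Polynomial

namespace Pool.Agent.LibSX77

open Pool.Agent.LibBH2
open Pool.Agent.LibCHd (VR RF Red FunF)
open Pool.Agent.LibCW77

variable {k : Type} [Field k]

theorem tau_tau (z w : k) (Q : Fin 2 → Option k) : tau z (tau w Q) = tau (z * w) Q := by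
  funext a
  fin_cases a
  · rfl
  · change Option.map _ (Option.map _ (Q 1)) = Option.map _ (Q 1)
    rw [Option.map_map]
    congr 1
    funext v
    simp only [Function.comp, Algebra.algebraMap_self, RingHom.id_apply]
    ring

theorem tau_one (Q : Fin 2 → Option k) : tau (1 : k) Q = Q := by
  funext a
  fin_cases a
  · rfl
  · change Option.map _ (Q 1) = Q 1
    simp

theorem tau_ram {Q : Fin 2 → Option k} (h : ¬ UnR Q) (z : k) : tau z Q = Q := by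
  funext a
  fin_cases a
  · rfl
  · change Option.map _ (Q 1) = Q 1
    rcases hq : Q 1 with _ | y
    · rfl
    · by_cases hy : y = 0
      · subst hy
        simp
      · exact absurd ⟨y, hq, hy⟩ h

theorem mem_root {c : Dat k} (hc : c.Good) {z : k} : z ∈ nthRootsFinset c.n (1 : k) ↔ z ^ c.n = 1 := by
  have hn : 0 < c.n := by have := hc.two; omega
  exact mem_nthRootsFinset hn _

/-- telescoping -/
theorem dz_tel {c : Dat k} {ζ : k} (hζ0 : ζ ≠ 0) (Q : Fin 2 → Option k) (j : ℕ) :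
    ∑ i ∈ Finset.range j, dz c ζ (tau (ζ ^ i)⁻¹ Q) =
      cls c 0 (pt1 (tau (ζ * (ζ ^ j)⁻¹) Q)) - cls c 0 (pt1 (tau ζ Q)) := by
  have h := Finset.sum_range_sub (fun i => cls c 0 (pt1 (tau (ζ * (ζ ^ i)⁻¹) Q))) j
  simp only [pow_zero, inv_one, mul_one] at h
  rw [← h]
  refine Finset.sum_congr rfl fun i _ => ?_
  unfold dz
  rw [tau_tau]
  congr 4
  rw [pow_succ, mul_inv, mul_comm ((ζ ^ i)⁻¹), ← mul_assoc, mul_inv_cancel₀ hζ0, one_mul]

theorem sum_root {c : Dat k} (hc : c.Good) {ζ : k} (hζ : IsPrimitiveRoot ζ c.n) {A : Type} [AddCommMonoid A] (f : k → A) :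
    ∑ z ∈ nthRootsFinset c.n (1 : k), f z = ∑ j ∈ Finset.range c.n, f (ζ * (ζ ^ j)⁻¹) := by
  have hn : 0 < c.n := by have := hc.two; omega
  have hζ0 : ζ ≠ 0 := hζ.ne_zero hn.ne'
  symm
  refine Finset.sum_bij (fun j _ => ζ * (ζ ^ j)⁻¹) ?_ ?_ ?_ ?_
  · intro j _
    rw [mem_root hc, mul_pow, inv_pow, ← pow_mul, mul_comm j, pow_mul, hζ.pow_eq_one, one_pow, inv_one, mul_one]
  · intro i hi j hj h
    have h1 : ζ ^ i = ζ ^ j := inv_injective (mul_left_cancel₀ hζ0 h)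
    exact hζ.pow_inj (Finset.mem_range.1 hi) (Finset.mem_range.1 hj) h1
  · intro z hz
    rw [mem_root hc] at hz
    have h1 : (ζ * z⁻¹) ^ c.n = 1 := by rw [mul_pow, inv_pow, hz, hζ.pow_eq_one, inv_one, mul_one]
    have : NeZero c.n := ⟨hn.ne'⟩
    obtain ⟨j, hj, h2⟩ := hζ.eq_pow_of_pow_eq_one h1
    refine ⟨j, Finset.mem_range.2 hj, ?_⟩
    have hz0 : z ≠ 0 := by
      rintro rfl
      rw [zero_pow hn.ne'] at hz
      exact zero_ne_one hz
    change ζ * (ζ ^ j)⁻¹ = z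
    rw [h2, mul_inv, inv_inv, ← mul_assoc, mul_inv_cancel₀ hζ0, one_mul]
  · intro j _
    rfl

theorem prQ_tau {c : Dat k} (hc : c.Good) {ζ : k} (hζ : IsPrimitiveRoot ζ c.n) (Q : Fin 2 → Option k) :
    prQ c (tau ζ Q) = (c.n : ℤ) • cls c 0 (pt1 (tau ζ Q)) -
      ∑ z ∈ nthRootsFinset c.n (1 : k), cls c 0 (pt1 (tau z Q)) := by
  have hn : 0 < c.n := by have := hc.two; omega
  have hζ0 : ζ ≠ 0 := hζ.ne_zero hn.ne'
  unfold prQ dz
  rw [Finset.sum_sub_distrib, Finset.sum_const, hζ.card_nthRootsFinset, natCast_zsmul]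
  congr 1
  refine Finset.sum_bij (fun z _ => z * ζ) ?_ ?_ ?_ ?_
  · intro z hz
    rw [mem_root hc] at hz ⊢
    rw [mul_pow, hz, hζ.pow_eq_one, mul_one]
  · intro z _ w _ h
    exact mul_right_cancel₀ hζ0 h
  · intro z hz
    rw [mem_root hc] at hz
    refine ⟨z * ζ⁻¹, ?_, ?_⟩
    · rw [mem_root hc, mul_pow, hz, inv_pow, hζ.pow_eq_one, inv_one, mul_one]
    · change z * ζ⁻¹ * ζ = z
      rw [mul_assoc, inv_mul_cancel₀ hζ0, mul_one]
  · intro z _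
    rw [tau_tau]

theorem dz_sum {c : Dat k} (hc : c.Good) {ζ : k} (hζ : IsPrimitiveRoot ζ c.n) (Q : Fin 2 → Option k) :
    ∑ j ∈ Finset.range c.n, ∑ i ∈ Finset.range j, dz c ζ (tau (ζ ^ i)⁻¹ Q) = -prQ c (tau ζ Q) := by
  have hn : 0 < c.n := by have := hc.two; omega
  have hζ0 : ζ ≠ 0 := hζ.ne_zero hn.ne'
  rw [prQ_tau hc hζ, Finset.sum_congr rfl fun j _ => dz_tel hζ0 Q j, Finset.sum_sub_distrib, Finset.sum_const,
    Finset.card_range, sum_root hc hζ (fun z => cls c 0 (pt1 (tau z Q))), natCast_zsmul, neg_sub]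

/-! ### the spaces -/

theorem qc_add {c : Dat k} {m d : ℕ} (a b : CH c m d) : qc (a + b) = qc a + qc b := map_add (qt (CH c m d)) a b

theorem qc_sub {c : Dat k} {m d : ℕ} (a b : CH c m d) : qc (a - b) = qc a - qc b := map_sub (qt (CH c m d)) a b

theorem qc_neg {c : Dat k} {m d : ℕ} (a : CH c m d) : qc (-a) = -qc a := map_neg (qt (CH c m d)) a

theorem qc_zero {c : Dat k} {m d : ℕ} : qc (0 : CH c m d) = 0 := map_zero (qt (CH c m d))

theorem qc_zsmul {c : Dat k} {m d : ℕ} (n : ℤ) (a : CH c m d) : qc (n • a) = n • qc a := map_zsmul (qt (CH c m d)) n a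

theorem qc_sum {c : Dat k} {m d : ℕ} {ι : Type} (S : Finset ι) (f : ι → CH c m d) :
    qc (∑ i ∈ S, f i) = ∑ i ∈ S, qc (f i) := map_sum (qt (CH c m d)) f S

theorem smul_cancel {V : Type} [AddCommGroup V] [Module ℚ V] {n : ℤ} (hn : n ≠ 0) {x y : V} (h : n • x = n • y) :
    x = y := by
  rw [← Int.cast_smul_eq_zsmul ℚ, ← Int.cast_smul_eq_zsmul ℚ] at h
  have hn' : (n : ℚ) ≠ 0 := Int.cast_ne_zero.2 hn
  exact (smul_right_injective V hn') h

theorem mem_of_zsmul {V : Type} [AddCommGroup V] [Module ℚ V] (S : Submodule ℚ V) {n : ℤ} (hn : n ≠ 0) {x : V}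
    (h : n • x ∈ S) : x ∈ S := by
  rw [← Int.cast_smul_eq_zsmul ℚ] at h
  have hn' : (n : ℚ) ≠ 0 := Int.cast_ne_zero.2 hn
  exact (Submodule.smul_mem_iff S hn').1 h

theorem cn_ne {c : Dat k} (hc : c.Good) : (c.n : ℤ) ≠ 0 := by
  have := hc.two
  omega

theorem M1_eq {c : Dat k} (hc : c.Good) {ζ : k} (hζ : IsPrimitiveRoot ζ c.n) : M1 c = U1 c ζ := by
  have hn : 0 < c.n := by have := hc.two; omega
  have hw : ∀ η : k, η ^ c.n = 1 → ∀ j, t1 η j ^ c.n = 1 := by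
    intro η hη j
    fin_cases j
    · exact hη
    · exact one_pow _
    · exact one_pow _
  apply le_antisymm
  · refine Submodule.span_le.2 ?_
    rintro _ ⟨M, _, _, P, hM, hP, rfl⟩
    rw [prj_mns hc hζ, qc_sum]
    refine Submodule.sum_mem _ fun j _ => ?_
    rw [qc_sum]
    refine Submodule.sum_mem _ fun i _ => ?_
    refine Submodule.subset_span ⟨M, _, _, tw (t1 (ζ ^ i)) P, hM, on_tw _ (hw _ ?_) hP, rfl⟩
    rw [← pow_mul, mul_comm, pow_mul, hζ.pow_eq_one, one_pow]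
  · refine Submodule.span_le.2 ?_
    rintro _ ⟨M, _, _, P, hM, hP, rfl⟩
    refine mem_of_zsmul _ (cn_ne hc) ?_
    rw [← qc_zsmul, mns_prj hc hζ, qc_sub]
    refine Submodule.sub_mem _ (Submodule.subset_span ⟨M, _, _, P, hM, hP, rfl⟩) ?_
    exact Submodule.subset_span ⟨M, _, _, tw (t1 ζ) P, hM, on_tw _ (hw _ hζ.pow_eq_one) hP, rfl⟩

theorem prQ_mem {c : Dat k} (hc : c.Good) {ζ : k} (hζ : IsPrimitiveRoot ζ c.n) {Q : Fin 2 → Option k}
    (hQ : OnC c (Q 0) (Q 1)) : qc (prQ c Q) ∈ U0 c ζ := by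
  rw [prQ_dz hc hζ, qc_sum]
  refine Submodule.sum_mem _ fun j _ => ?_
  rw [qc_sum]
  refine Submodule.sum_mem _ fun i _ => ?_
  refine Submodule.subset_span ⟨tau (ζ ^ i) Q, on_tau ?_ hQ, rfl⟩
  rw [← pow_mul, mul_comm, pow_mul, hζ.pow_eq_one, one_pow]

theorem prQ_eq {c : Dat k} (hc : c.Good) {ζ : k} (hζ : IsPrimitiveRoot ζ c.n) (Q : Fin 2 → Option k) :
    prQ c Q = (c.n : ℤ) • cls c 0 (pt1 Q) - ∑ z ∈ nthRootsFinset c.n (1 : k), cls c 0 (pt1 (tau z Q)) := by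
  unfold prQ dz
  rw [Finset.sum_sub_distrib, Finset.sum_const, hζ.card_nthRootsFinset, natCast_zsmul]

theorem J0_eq [IsAlgClosed k] [CharZero k] {c : Dat k} (hc : c.Good) {ζ : k} (hζ : IsPrimitiveRoot ζ c.n) :
    J0 c = U0 c ζ := by
  apply le_antisymm
  · refine Submodule.span_le.2 ?_
    rintro _ ⟨Q, Q', hQ, hQ', rfl⟩
    refine mem_of_zsmul _ (cn_ne hc) ?_
    have h : (c.n : ℤ) • (cls c 0 (pt1 Q) - cls c 0 (pt1 Q')) = prQ c Q - prQ c Q' := by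
      rw [prQ_eq hc hζ, prQ_eq hc hζ, fib_eq hc hQ hQ', zsmul_sub]
      abel
    rw [← qc_zsmul, h, qc_sub]
    exact Submodule.sub_mem _ (prQ_mem hc hζ hQ) (prQ_mem hc hζ hQ')
  · refine Submodule.span_le.2 ?_
    rintro _ ⟨Q, hQ, rfl⟩
    exact Submodule.subset_span ⟨Q, tau ζ Q, hQ, on_tau hζ.pow_eq_one hQ, rfl⟩

theorem U0_ind {c : Dat k} (hc : c.Good) {ζ : k} (hζ : IsPrimitiveRoot ζ c.n) {V : Type} [AddCommGroup V] [Module ℚ V]
    {f g : CHQ c 1 0 →ₗ[ℚ] V}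
    (h : ∀ Q : Fin 2 → Option k, OnC c (Q 0) (Q 1) → f (qc (prQ c Q)) = g (qc (prQ c Q))) {x : CHQ c 1 0}
    (hx : x ∈ U0 c ζ) : f x = g x := by
  refine Submodule.span_induction (p := fun x _ => f x = g x) ?_ ?_ ?_ ?_ hx
  · rintro _ ⟨Q, hQ, rfl⟩
    refine smul_cancel (cn_ne hc) ?_
    rw [← map_zsmul f, ← map_zsmul g, ← qc_zsmul, dz_prQ hc hζ, qc_sub, map_sub, map_sub, h Q hQ,
      h _ (on_tau hζ.pow_eq_one hQ)]
  · rw [map_zero, map_zero]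
  · intro a b _ _ ha hb
    rw [map_add, map_add, ha, hb]
  · intro r a _ ha
    rw [map_smul, map_smul, ha]

/-! ### the linear map -/

theorem exists_T [IsAlgClosed k] [CharZero k] {c : Dat k} (hc : c.Good) {η : k} (hη : η ^ c.n = 1) :
    ∃ T : CHQ c 1 0 →ₗ[ℚ] CHQ c 1 0, ∀ Q : Fin 2 → Option k, OnC c (Q 0) (Q 1) →
      T (qc (cls c 0 (pt1 Q))) = qc (cls c 0 (pt1 (tau η Q))) := by
  have hF0 : FunF k 0 k := Pool.Agent.LibHL77.funF_zero.2 inferInstance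
  obtain ⟨Γ, hΓ⟩ := exists_tw (m := 1) c hc 0 (fun _ => η) fun _ => hη
  obtain ⟨T, hT⟩ := qt_ext Γ
  refine ⟨T, fun Q hQ => ?_⟩
  have h1 := hΓ k (pt1 Q) hF0 fun _ => hQ
  have h2 := hT (cls c 0 (pt1 Q))
  rw [h1] at h2
  exact h2

theorem T_dz [IsAlgClosed k] [CharZero k] {c : Dat k} {η : k} {T : CHQ c 1 0 →ₗ[ℚ] CHQ c 1 0}
    (hT : ∀ Q : Fin 2 → Option k, OnC c (Q 0) (Q 1) → T (qc (cls c 0 (pt1 Q))) = qc (cls c 0 (pt1 (tau η Q))))
    {z : k} (hz : z ^ c.n = 1) {Q : Fin 2 → Option k} (hQ : OnC c (Q 0) (Q 1)) :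
    T (qc (dz c z Q)) = qc (dz c z (tau η Q)) := by
  unfold dz
  rw [qc_sub, map_sub, hT Q hQ, hT _ (on_tau hz hQ), qc_sub, tau_tau, tau_tau, mul_comm]

theorem T_prQ [IsAlgClosed k] [CharZero k] {c : Dat k} (hc : c.Good) {η : k} {T : CHQ c 1 0 →ₗ[ℚ] CHQ c 1 0}
    (hT : ∀ Q : Fin 2 → Option k, OnC c (Q 0) (Q 1) → T (qc (cls c 0 (pt1 Q))) = qc (cls c 0 (pt1 (tau η Q))))
    {Q : Fin 2 → Option k} (hQ : OnC c (Q 0) (Q 1)) : T (qc (prQ c Q)) = qc (prQ c (tau η Q)) := by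
  unfold prQ
  rw [qc_sum, qc_sum, map_sum]
  exact Finset.sum_congr rfl fun z hz => T_dz hT ((mem_root hc).1 hz) hQ

theorem T_bij [IsAlgClosed k] [CharZero k] {c : Dat k} (hc : c.Good) {ζ : k} (hζ : IsPrimitiveRoot ζ c.n)
    {T : CHQ c 1 0 →ₗ[ℚ] CHQ c 1 0}
    (hT : ∀ Q : Fin 2 → Option k, OnC c (Q 0) (Q 1) → T (qc (cls c 0 (pt1 Q))) = qc (cls c 0 (pt1 (tau ζ Q)))) :
    Set.BijOn T (U0 c ζ) (U0 c ζ) := by
  have hn : 0 < c.n := by have := hc.two; omega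
  have hζ0 : ζ ≠ 0 := hζ.ne_zero hn.ne'
  have hi : (ζ⁻¹) ^ c.n = 1 := by rw [inv_pow, hζ.pow_eq_one, inv_one]
  obtain ⟨T', hT'⟩ := exists_T hc hi
  have hmem : ∀ (η : k) (R : CHQ c 1 0 →ₗ[ℚ] CHQ c 1 0), η ^ c.n = 1 →
      (∀ Q : Fin 2 → Option k, OnC c (Q 0) (Q 1) → R (qc (cls c 0 (pt1 Q))) = qc (cls c 0 (pt1 (tau η Q)))) →
      ∀ x ∈ U0 c ζ, R x ∈ U0 c ζ := by
    intro η R hη hR x hx
    refine Submodule.span_induction (p := fun x _ => R x ∈ U0 c ζ) ?_ ?_ ?_ ?_ hx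
    · rintro _ ⟨Q, hQ, rfl⟩
      rw [T_dz hR hζ.pow_eq_one hQ]
      exact Submodule.subset_span ⟨tau η Q, on_tau hη hQ, rfl⟩
    · rw [map_zero]
      exact Submodule.zero_mem _
    · intro a b _ _ ha hb
      rw [map_add]
      exact Submodule.add_mem _ ha hb
    · intro r a _ ha
      rw [map_smul]
      exact Submodule.smul_mem _ r ha
  have h1 : ∀ x ∈ U0 c ζ, T' (T x) = x := by
    intro x hx
    have := U0_ind hc hζ (f := T' ∘ₗ T) (g := LinearMap.id) (fun Q hQ => by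
      rw [LinearMap.comp_apply, LinearMap.id_apply, T_prQ hc hT hQ, T_prQ hc hT' (on_tau hζ.pow_eq_one hQ), tau_tau,
        inv_mul_cancel₀ hζ0, tau_one]) hx
    exact this
  have h2 : ∀ x ∈ U0 c ζ, T (T' x) = x := by
    intro x hx
    have := U0_ind hc hζ (f := T ∘ₗ T') (g := LinearMap.id) (fun Q hQ => by
      rw [LinearMap.comp_apply, LinearMap.id_apply, T_prQ hc hT' hQ, T_prQ hc hT (on_tau hi hQ), tau_tau,
        mul_inv_cancel₀ hζ0, tau_one]) hx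
    exact this
  refine ⟨fun x hx => hmem ζ T hζ.pow_eq_one hT x hx, fun x hx y hy h => ?_, fun x hx => ?_⟩
  · rw [← h1 x hx, ← h1 y hy]
    exact congrArg T' h
  · exact ⟨T' x, hmem _ T' hi hT' x hx, h2 x hx⟩

end Pool.Agent.LibSX77
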