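import Pool.Agent.LibSX77.X7

/-!
[SX77 X8] Assembly: the theorem.
-/

open scoped Classical
open Polynomial

namespace Pool.Agent.LibSX77

open Pool.Agent.LibBH2
open Pool.Agent.LibCHd (VR RF Red FunF)
open Pool.Agent.LibCW77

variable {k : Type} [Field k]

theorem t1_pow {c : Dat k} {η : k} (hη : η ^ c.n = 1) (j : Fin 3) : t1 η j ^ c.n = 1 := by
  fin_cases j
  · exact hη
  · exact one_pow _
  · exact one_pow _

theorem pow_root {n : ℕ} {ζ : k} (h : ζ ^ n = 1) (i : ℕ) : (ζ ^ i) ^ n = 1 := by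
  rw [← pow_mul, mul_comm, pow_mul, h, one_pow]

/-- the properties of `Ψ = - Φ ∘ T` -/
structure PsiData (c : Dat k) (ζ ν : k) (Φ Ψ : CHQ c 1 0 →ₗ[ℚ] CHQ c 3 1) : Prop where
  val : ∀ Q : Fin 2 → Option k, OnC c (Q 0) (Q 1) → Ψ (qc (prQ c Q)) = Φ (qc (-prQ c (tau ζ Q)))
  bij : Set.BijOn Ψ (J0 c) (M1 c)

theorem exists_Psi [IsAlgClosed k] [CharZero k] {c : Dat k} (hc : c.Good) {ζ ν : k} (hζ : IsPrimitiveRoot ζ c.n)
    {Φ : CHQ c 1 0 →ₗ[ℚ] CHQ c 3 1} (hΦ : Set.BijOn Φ (U0 c ζ) (U1 c ζ)) :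
    ∃ Ψ : CHQ c 1 0 →ₗ[ℚ] CHQ c 3 1, PsiData c ζ ν Φ Ψ := by
  obtain ⟨T, hT⟩ := exists_T hc hζ.pow_eq_one
  refine ⟨-(Φ ∘ₗ T), ?_, ?_⟩
  · intro Q hQ
    rw [LinearMap.neg_apply, LinearMap.comp_apply, T_prQ hc hT hQ, qc_neg, map_neg]
  · rw [J0_eq hc hζ, M1_eq hc hζ]
    have h1 : Set.BijOn (Φ ∘ T) (U0 c ζ : Set (CHQ c 1 0)) (U1 c ζ : Set (CHQ c 3 1)) := hΦ.comp (T_bij hc hζ hT)
    have h2 : Set.BijOn (fun y : CHQ c 3 1 => -y) (U1 c ζ : Set (CHQ c 3 1)) (U1 c ζ : Set (CHQ c 3 1)) := by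
      refine ⟨fun y hy => Submodule.neg_mem _ hy, fun a _ b _ h => neg_injective h, fun y hy => ?_⟩
      exact ⟨-y, Submodule.neg_mem _ hy, neg_neg y⟩
    exact h2.comp h1

/-- the class `prj P` of a triple on the line of `Q` with respect to `c.perm ρ` -/
theorem prj_col [IsAlgClosed k] [CharZero k] {c : Dat k} (hc : c.Good) {ζ ν : k} (hζ : IsPrimitiveRoot ζ c.n)
    (hν : ν ^ c.n = ∏ i, (-(kb c i) / ka c i)) {Φ Ψ : CHQ c 1 0 →ₗ[ℚ] CHQ c 3 1} (hΦ : LineF c ζ ν Φ)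
    (hΨ : PsiData c ζ ν Φ Ψ) (ρ : Equiv.Perm (Fin 3)) {Q : Fin 2 → Option k} (hQ : OnC c (Q 0) (Q 1)) {M : Type}
    [Field M] [Algebra k M] {P : Pnt 3 M} (hM : FunF k 1 M) (hP : On (c.over M) P) (h : Col (c.perm ρ) ν Q P) :
    qc (prj c P) = Module.finrank (pf (c.perm ρ) P) M • ((Equiv.Perm.sign ρ : ℤˣ) : ℤ) • Ψ (qc (prQ c Q)) := by
  have hn : 0 < c.n := by have := hc.two; omega
  have hζ0 : ζ ≠ 0 := hζ.ne_zero hn.ne'
  rw [hΨ.val Q hQ, ← dz_sum hc hζ, prj_mns hc hζ, qc_sum, qc_sum, map_sum, Finset.smul_sum, Finset.smul_sum]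
  refine Finset.sum_congr rfl fun j _ => ?_
  rw [qc_sum, qc_sum, map_sum, Finset.smul_sum, Finset.smul_sum]
  refine Finset.sum_congr rfl fun i _ => ?_
  have h1 := pow_root hζ.pow_eq_one i
  have h2 : ((ζ ^ i)⁻¹) ^ c.n = 1 := by rw [inv_pow, h1, inv_one]
  rw [Phi_perm hc hζ hν hΦ ρ (on_tau h2 hQ) hM (on_tw _ (t1_pow h1) hP) (col_tw (pow_ne_zero i hζ0) h), pf_tw]

theorem perm_one (c : Dat k) : c.perm 1 = c := by
  cases c
  rfl

theorem line_Psi [IsAlgClosed k] [CharZero k] {c : Dat k} (hc : c.Good) {ζ ν : k} (hζ : IsPrimitiveRoot ζ c.n)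
    (hν : ν ^ c.n = ∏ i, (-(kb c i) / ka c i)) {Φ Ψ : CHQ c 1 0 →ₗ[ℚ] CHQ c 3 1} (hΦ : LineF c ζ ν Φ)
    (hΨ : PsiData c ζ ν Φ Ψ) : LineP c ν Ψ := by
  intro Q hQ
  refine ⟨fun M _ _ P hM hP h => ?_, (hΦ Q hQ).2⟩
  have h1 : Col (c.perm 1) ν Q P := by rw [perm_one]; exact h
  have h2 := prj_col hc hζ hν hΦ hΨ 1 hQ hM hP h1
  rw [Equiv.Perm.sign_one, Units.val_one, one_smul, perm_one] at h2
  exact h2

theorem diag_Psi [IsAlgClosed k] [CharZero k] {c : Dat k} (hc : c.Good) {ζ ν : k} (hζ : IsPrimitiveRoot ζ c.n)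
    (hν : ν ^ c.n = ∏ i, (-(kb c i) / ka c i)) {Φ Ψ : CHQ c 1 0 →ₗ[ℚ] CHQ c 3 1} (hΦ : LineF c ζ ν Φ)
    (hΨ : PsiData c ζ ν Φ Ψ) (h1 : FlexF c ν) (h2 : GSF c ζ ν Φ) : DiagP c ν Ψ := by
  intro N _ _ x v hg
  obtain ⟨D, hD⟩ : ∃ D : Pnt 3 N, D = tri ![some x, some v] ![some x, some v] ![some x, some v] := ⟨_, rfl⟩
  have hM : FunF k 1 N := (genC_funF hc hg).1
  have hP : On (c.over N) D := by
    rw [hD]
    intro j
    fin_cases j <;> exact hg.on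
  have h3 := (h2 N x v hg).1
  rw [← hD] at h3 ⊢
  have h4 : ∀ i : ℕ, qc (mns c ζ (tw (t1 (ζ ^ i)) D)) =
      -3 • ((rts c).map fun o => Φ (qc (dz c ζ (tau (ζ ^ i)⁻¹ (Qk c ν o))))).sum := by
    intro i
    obtain ⟨Θ, hΘ1, hΘ2⟩ := tw_Phi hc hζ hν hΦ (pow_root hζ.pow_eq_one i)
    rw [← hΘ1 N D hM hP, h3, map_zsmul]
    congr 1
    have h5 : qc ((rts c).map fun o => dz c ζ (Qk c ν o)).sum = ((rts c).map fun o => qc (dz c ζ (Qk c ν o))).sum := by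
      have := map_multiset_sum (qt (CH c 1 0)) ((rts c).map fun o => dz c ζ (Qk c ν o))
      rw [Multiset.map_map] at this
      exact this
    rw [h5, map_multiset_sum, map_multiset_sum, Multiset.map_map, Multiset.map_map]
    congr 1
    exact Multiset.map_congr rfl fun o ho => hΘ2 _ (h1.2.1 o ho).2
  have h6 : qc ((rts c).map fun o => prQ c (Qk c ν o)).sum = ((rts c).map fun o => qc (prQ c (Qk c ν o))).sum := by
    have := map_multiset_sum (qt (CH c 1 0)) ((rts c).map fun o => prQ c (Qk c ν o))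
    rw [Multiset.map_map] at this
    exact this
  have h7 : ∀ o ∈ rts c, Ψ (qc (prQ c (Qk c ν o))) = ∑ j ∈ Finset.range c.n, ∑ i ∈ Finset.range j,
      Φ (qc (dz c ζ (tau (ζ ^ i)⁻¹ (Qk c ν o)))) := by
    intro o ho
    rw [hΨ.val _ (h1.2.1 o ho).2, ← dz_sum hc hζ, qc_sum, map_sum]
    refine Finset.sum_congr rfl fun j _ => ?_
    rw [qc_sum, map_sum]
  rw [prj_mns hc hζ, qc_sum, h6, map_multiset_sum, Multiset.map_map]
  have h8 : (Multiset.map (⇑Ψ ∘ fun o => qc (prQ c (Qk c ν o))) (rts c)) =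
      (rts c).map fun o => ∑ j ∈ Finset.range c.n, ∑ i ∈ Finset.range j,
        Φ (qc (dz c ζ (tau (ζ ^ i)⁻¹ (Qk c ν o)))) := Multiset.map_congr rfl h7
  rw [h8, Multiset.sum_map_sum, Finset.smul_sum]
  refine Finset.sum_congr rfl fun j _ => ?_
  rw [qc_sum, Multiset.sum_map_sum, Finset.smul_sum]
  exact Finset.sum_congr rfl fun i _ => h4 i

/-! ### Galois action -/

theorem sQ_on {s : k ≃+* k} {c : Dat k} {σ τ : Equiv.Perm (Fin 3)} (hs : Per c s σ τ) {η : k} (hη : η ^ c.n = 1)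
    {Q : Fin 2 → Option k} (hQ : OnC c (Q 0) (Q 1)) : OnC c (sQ s η Q 0) (sQ s η Q 1) := by
  have h := on_tau hη (Q := fun a => (Q a).map s) (per_onC hs hQ)
  have e : sQ s η Q = tau η (fun a => (Q a).map s) := by
    funext a
    fin_cases a
    · rfl
    · change Option.map _ (Q 1) = Option.map _ (Option.map _ (Q 1))
      rw [Option.map_map]
      rfl
  rw [e]
  exact h

theorem act_prQ [IsAlgClosed k] [CharZero k] {s : k ≃+* k} {c : Dat k} (hc : c.Good) {η : k}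
    {G : CHQ c 1 0 →ₗ[ℚ] CHQ c 1 0} (hG : IsActT s η G) {Q : Fin 2 → Option k} (hQ : OnC c (Q 0) (Q 1)) :
    G (qc (prQ c Q)) = qc (prQ c (sQ s η Q)) := by
  have hn : 0 < c.n := by have := hc.two; omega
  have hF0 : FunF k 0 k := Pool.Agent.LibHL77.funF_zero.2 inferInstance
  have h1 : ∀ R : Fin 2 → Option k, OnC c (R 0) (R 1) → G (qc (cls c 0 (pt1 R))) = qc (cls c 0 (pt1 (sQ s η R))) := by
    intro R hR
    have h2 := hG k k (siK s) (pt1 R) hF0 fun _ => hR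
    have e : tw (fun _ => η) (mpP (siK s).f (pt1 R)) = pt1 (sQ s η R) := by
      funext j a
      fin_cases a
      · rfl
      · change Option.map _ (Option.map _ (R 1)) = Option.map _ (R 1)
        rw [Option.map_map]
        rfl
    rw [e] at h2
    exact h2
  have h3 : ∀ z : k, sQ s η (tau z Q) = tau (s z) (sQ s η Q) := by
    intro z
    funext a
    fin_cases a
    · rfl
    · change Option.map _ (Option.map _ (Q 1)) = Option.map _ (Option.map _ (Q 1))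
      rw [Option.map_map, Option.map_map]
      congr 1
      funext v
      simp only [Function.comp, Algebra.algebraMap_self, RingHom.id_apply, map_mul]
      ring
  unfold prQ
  rw [qc_sum, qc_sum, map_sum]
  refine Finset.sum_bij (fun z _ => s z) ?_ ?_ ?_ ?_
  · intro z hz
    rw [mem_root hc] at hz ⊢
    rw [← map_pow, hz, map_one]
  · intro z _ w _ h
    exact s.injective h
  · intro z hz
    rw [mem_root hc] at hz
    refine ⟨s.symm z, ?_, s.apply_symm_apply z⟩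
    rw [mem_root hc, ← map_pow, hz, map_one]
  · intro z hz
    rw [mem_root hc] at hz
    unfold dz
    rw [qc_sub, map_sub, h1 Q hQ, h1 _ (on_tau hz hQ), h3, qc_sub]

theorem exists_G0 [IsAlgClosed k] [CharZero k] {s : k ≃+* k} {c : Dat k} (hc : c.Good) {σ τ : Equiv.Perm (Fin 3)}
    (hs : Per c s σ τ) {η : k} (hη : η ^ c.n = 1) (m d : ℕ) : ∃ G : CHQ c m d →ₗ[ℚ] CHQ c m d, IsActT s η G := by
  obtain ⟨Γ, hΓ⟩ := per_act hs m d
  obtain ⟨Γ', hΓ'⟩ := exists_tw (m := m) c hc d (fun _ => η) fun _ => hη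
  obtain ⟨G, hG⟩ := qt_ext (Γ'.comp Γ)
  refine ⟨G, fun M M' _ _ _ _ i u hM hu => ?_⟩
  have h1 := hG (cls c d u)
  have h2 : (Γ'.comp Γ) (cls c d u) = cls c d (tw (fun _ => η) (mpP i.f u)) := by
    rw [AddMonoidHom.comp_apply, hΓ M M' i u, hΓ' M' _ (si_funF i hM) ((per_on hs i u).2 hu)]
  rw [h2] at h1
  exact h1

theorem tw_one {m : ℕ} {M : Type} [Field M] [Algebra k M] (u : Pnt m M) : tw (fun _ => (1 : k)) u = u := by
  funext j a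
  fin_cases a
  · rfl
  · change Option.map _ (u j 1) = u j 1
    simp

theorem exists_G1 {s : k ≃+* k} {c : Dat k} (hc : c.Good) {σ τ : Equiv.Perm (Fin 3)} (hs : Per c s σ τ) :
    ∃ G : CHQ c 3 1 →ₗ[ℚ] CHQ c 3 1, IsActT s 1 G ∧
      ∀ (M M' : Type) [Field M] [Algebra k M] [Field M'] [Algebra k M'] (i : SI s M M') (P : Pnt 3 M),
        G (qc (prj c P)) = qc (prj c (mpP i.f P)) := by
  obtain ⟨Γ, hΓ⟩ := per_act hs 3 1
  obtain ⟨G, hG⟩ := qt_ext Γ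
  refine ⟨G, fun M M' _ _ _ _ i u hM hu => ?_, fun M M' _ _ _ _ i P => ?_⟩
  · have h1 := hG (cls c 1 u)
    rw [hΓ M M' i u] at h1
    rw [tw_one]
    exact h1
  · have h1 := hG (prj c P)
    rw [act_prj hc hΓ i P] at h1
    exact h1

theorem gal_Psi [IsAlgClosed k] [CharZero k] {c : Dat k} (hc : c.Good) {ζ ν : k} (hζ : IsPrimitiveRoot ζ c.n)
    (hν : ν ^ c.n = ∏ i, (-(kb c i) / ka c i)) {Φ Ψ : CHQ c 1 0 →ₗ[ℚ] CHQ c 3 1} (hΦ : LineF c ζ ν Φ)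
    (hΨ : PsiData c ζ ν Φ Ψ) : GalP c ν Ψ := by
  intro s σ τ hs
  obtain ⟨hν0, hη⟩ := per_nu hc hs hν
  obtain ⟨G₀, hG₀⟩ := exists_G0 hc hs hη 1 0
  obtain ⟨G₁, hG₁, hG₁'⟩ := exists_G1 hc hs
  refine ⟨G₀, G₁, hG₀, hG₁, fun x hx => ?_⟩
  rw [J0_eq hc hζ] at hx
  obtain ⟨ε, hε⟩ : ∃ ε : ℤ, ε = ((Equiv.Perm.sign σ * Equiv.Perm.sign τ : ℤˣ) : ℤ) := ⟨_, rfl⟩
  have hε2 : ε * ε = 1 := by
    rw [hε, ← Units.val_mul, ← sq, Int.units_sq, Units.val_one]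
  have hερ : ((Equiv.Perm.sign (τ * σ⁻¹) : ℤˣ) : ℤ) = ε := by
    rw [hε, Equiv.Perm.sign_mul, Equiv.Perm.sign_inv, mul_comm]
  rw [← hε]
  refine U0_ind hc hζ (f := Ψ ∘ₗ G₀) (g := ε • (G₁ ∘ₗ Ψ)) (fun Q hQ => ?_) hx
  change Ψ (G₀ (qc (prQ c Q))) = ε • G₁ (Ψ (qc (prQ c Q)))
  rw [act_prQ hc hG₀ hQ]
  by_cases hu : UnR Q
  · obtain ⟨M, _, _, P, hM, hP, hcol, hf⟩ := (hΦ Q hQ).2 hu
    obtain ⟨M', _, _, ⟨i⟩⟩ := si_exists s M
    have h1 := (line_Psi hc hζ hν hΦ hΨ Q hQ).1 M P hM hP hcol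
    have h2 := prj_col hc hζ hν hΦ hΨ (τ * σ⁻¹) (sQ_on hs hη hQ) (si_funF i hM) ((per_on hs i P).2 hP)
      (per_col hc hs hν0 i hcol)
    rw [per_pf hs i P, hερ, ← hG₁' M M' i P, h1, map_nsmul] at h2
    have h3 : G₁ (Ψ (qc (prQ c Q))) = ε • Ψ (qc (prQ c (sQ s (ν / s ν) Q))) := by
      refine smul_cancel (n := (Module.finrank (pf c P) M : ℤ)) (by exact_mod_cast hf) ?_
      rw [natCast_zsmul, natCast_zsmul]
      exact h2
    rw [h3, smul_smul, hε2, one_smul]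
  · have hQ0 : ∀ R : Fin 2 → Option k, ¬ UnR R → prQ c R = 0 := by
      intro R hR
      unfold prQ dz
      refine Finset.sum_eq_zero fun z _ => ?_
      rw [tau_ram hR, sub_self]
    have hu' : ¬ UnR (sQ s (ν / s ν) Q) := by
      rintro ⟨y, hy, hy0⟩
      change Option.map _ (Q 1) = some y at hy
      obtain ⟨y', h1, h2⟩ := Option.map_eq_some_iff.1 hy
      refine hu ⟨y', h1, ?_⟩
      rintro rfl
      rw [map_zero, mul_zero] at h2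
      exact hy0 h2.symm
    rw [hQ0 _ hu', hQ0 _ hu, qc_zero, map_zero, map_zero, smul_zero]

theorem str_all [IsAlgClosed k] [CharZero k] {c : Dat k} (hc : c.Good) {ν : k}
    (hν : ν ^ c.n = ∏ i, (-(kb c i) / ka c i)) :
    ∃ Ψ : CHQ c 1 0 →ₗ[ℚ] CHQ c 3 1, Set.BijOn Ψ (J0 c) (M1 c) ∧ LineP c ν Ψ ∧ GalP c ν Ψ ∧
      (c.n = 3 → DiagP c ν Ψ) := by
  have hn : 0 < c.n := by have := hc.two; omega
  obtain ⟨ζ, hζ⟩ : ∃ ζ : k, IsPrimitiveRoot ζ c.n := by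
    have : NeZero c.n := ⟨hn.ne'⟩
    have : NeZero (c.n : k) := ⟨Nat.cast_ne_zero.2 hn.ne'⟩
    exact HasEnoughRootsOfUnity.exists_primitiveRoot k c.n
  obtain ⟨Φ, h1, h2, -, -, -, -, h3⟩ := final_all hc hζ hν
  obtain ⟨Ψ, hΨ⟩ := exists_Psi (ν := ν) hc hζ h1
  exact ⟨Ψ, hΨ.bij, line_Psi hc hζ hν h2 hΨ, gal_Psi hc hζ hν h2 hΨ, fun h => diag_Psi hc hζ hν h2 hΨ (h3 h).1 (h3 h).2⟩

end Pool.Agent.LibSX77
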